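import Pool.Agent.Lib.HLA.N1A
import Pool.Agent.Lib.HUP.R5

/-!
# LOGA, chunk N1 (M): the large sieve for the singular series without linear coordinate
-/

open Finset Polynomial

namespace Pool.Agent.HLA

open Pool.Agent.Lib.H68T Pool.Agent.Lib.H18Q Pool.Agent.Lib.H59P Pool.Agent.Lib.H24P
open Pool.Agent.HUP Pool.Agent.H9P

/-- One prime. -/
theorem n1_one {k : ℕ} (P : Fin k → ℤ[X]) (h : Fin k → ℕ) (l : ℕ) (hl : l.Prime) :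
    ∑ n ∈ range l, Wf l (at' (ran P h) n) = l * tpf l (ran P h) := by
  have hl0 : (l : ℝ) ≠ 0 := by exact_mod_cast hl.pos.ne'
  unfold Wf at' tpf
  rw [Finset.sum_sub_distrib, mul_sub, mul_div_cancel₀ _ hl0]
  simp

/-- The mean over a period. -/
theorem n1_mean {k : ℕ} (P : Fin k → ℤ[X]) (h : Fin k → ℕ) (S D : Finset ℕ) (hS : ∀ l ∈ S, l.Prime) (hD : D ⊆ S) :
    ∑ n ∈ range (∏ l ∈ S, l), Wdf (∏ l ∈ D, l) (at' (ran P h) n) =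
      ((∏ l ∈ S, l : ℕ) : ℝ) * tdf (∏ l ∈ D, l) (ran P h) := by
  classical
  have hDp : (∏ l ∈ D, l).primeFactors = D := Nat.primeFactors_prod fun l hl => hS l (hD hl)
  have hperW : ∀ l : ℕ, ∀ n : ℤ, Wf l (at' (ran P h) (n + l)) = Wf l (at' (ran P h) n) := by
    intro l n
    unfold Wf
    congr 1
    refine Finset.prod_congr rfl fun i _ => ?_
    congr 1
    exact P2_gl (ran P h) (P2_ran P h) l l dvd_rfl i n
  obtain ⟨F, hF⟩ : ∃ F : ℕ → ℤ → ℝ, F = fun l n => if l ∈ D then Wf l (at' (ran P h) n) else 1 := ⟨_, rfl⟩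
  have h1 := b1_set F (fun l n => by
    rw [hF]
    simp only
    rw [hperW]) S hS
  have h2 : ∀ n ∈ range (∏ l ∈ S, l), Wdf (∏ l ∈ D, l) (at' (ran P h) n) = ∏ l ∈ S, F l n := by
    intro n _
    unfold Wdf
    rw [hDp, hF]
    simp only
    rw [Finset.prod_ite_mem, Finset.inter_eq_right.2 hD]
  rw [Finset.sum_congr rfl h2, h1]
  have h3 : ∀ l ∈ S, ∑ n ∈ range l, F l n = (l : ℝ) * (if l ∈ D then tpf l (ran P h) else 1) := by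
    intro l hl
    rw [hF]
    simp only
    split_ifs
    · exact n1_one P h l (hS l hl)
    · simp
  rw [Finset.prod_congr rfl h3, Finset.prod_mul_distrib, Nat.cast_prod]
  congr 1
  unfold tdf
  rw [hDp, Finset.prod_ite_mem, Finset.inter_eq_right.2 hD]

/-- `T2_iden` (`H24P/T2.lean`) without `B`: the mean of `∑_{d ∈ Δ} Wdf d` over `N = (∏ S) j` consecutive `n` is `∑_{d ∈ Δ} tdf d`. Proof. `t2_comp` (the inner sum is `∑_{d ∈ Δ} Wdf d (at' (ran P h) n)`); every `Wdf d (at' (ran P h) ·)` has period `d ∣ ∏ S`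
and sum `d tdf d` over a period (`B1_mean`, `P2_Wd`, `P2_ran`, as in the proof of `T2_mean`); `t2_per`. -/
theorem N1_iden {k : ℕ} (P : Fin k → ℤ[X]) (h : Fin k → ℕ) (S : Finset ℕ) (hS : ∀ l ∈ S, l.Prime) (Z j : ℕ) (hj : 1 ≤ j)
    (Δ : Finset ℕ) (hΔ : ∀ d ∈ Δ, Squarefree d ∧ d ≤ Z ∧ d.primeFactors ⊆ S) :
    ∑ n ∈ Ico 0 (0 + (∏ l ∈ S, l) * j), ∑ κ ∈ (Fintype.piFinset fun _ : Fin k => KS Z 1).filter (fun κ => univ.lcm κ ∈ Δ),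
          ∏ i, gk p0 (κ i) ((P i).eval (n : ℤ) + h i) =
      (((∏ l ∈ S, l) * j : ℕ) : ℂ) * ((∑ d ∈ Δ, tdf d (ran P h) : ℝ) : ℂ) := by
  classical
  obtain ⟨N, hN⟩ : ∃ N : ℕ, N = ∏ l ∈ S, l := ⟨_, rfl⟩
  have hprod : ∀ d ∈ Δ, ∏ l ∈ d.primeFactors, l = d := fun d hd =>
    Nat.prod_primeFactors_of_squarefree (hΔ d hd).1
  have hdN : ∀ d ∈ Δ, d ∣ N := by
    intro d hd
    rw [← hprod d hd, hN]
    exact Finset.prod_dvd_prod_of_subset _ _ _ (hΔ d hd).2.2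
  rw [← hN]
  obtain ⟨f, hf⟩ : ∃ f : ℤ → ℂ, f = fun n => ((∑ d ∈ Δ, Wdf d (at' (ran P h) n) : ℝ) : ℂ) := ⟨_, rfl⟩
  have hper : ∀ n : ℤ, f (n + N) = f n := by
    intro n
    rw [hf]
    simp only
    congr 1
    refine Finset.sum_congr rfl fun d hd => ?_
    exact P2_Wd (ran P h) (P2_ran P h) d N (hdN d hd) n
  have h1 : ∀ n ∈ Ico 0 (0 + N * j), ∑ κ ∈ (Fintype.piFinset fun _ : Fin k => KS Z 1).filter (fun κ => univ.lcm κ ∈ Δ),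
          ∏ i, gk p0 (κ i) ((P i).eval (n : ℤ) + h i) = f ((n : ℕ) : ℤ) := by
    intro n _
    rw [hf]
    exact t2_comp Z Δ (fun d hd => ⟨(hΔ d hd).1, (hΔ d hd).2.1⟩) (at' (ran P h) (n : ℤ))
  rw [Finset.sum_congr rfl h1, t2_per f N hper j]
  have h4 : ∑ n ∈ range N, f n = ((N * ∑ d ∈ Δ, tdf d (ran P h) : ℝ) : ℂ) := by
    rw [hf]
    simp only
    rw [← Complex.ofReal_sum]
    congr 1
    rw [Finset.mul_sum, Finset.sum_comm]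
    refine Finset.sum_congr rfl fun d hd => ?_
    have h5 := n1_mean P h S d.primeFactors hS (hΔ d hd).2.2
    rw [hprod d hd, ← hN] at h5
    exact h5
  rw [h4]
  push_cast
  ring

/-- **N1.** `R5_main` (`HUP/R5.lean`) without `B`. Proof. As there with `N1_iden` in place of `T2_iden` (`j = (Q^2)^(E+1)`) and the weight `w n = 1`, whose mean square is `1`. -/
theorem N1_main (k E : ℕ) (Cc cc : ℝ) (hC : FPar Cc cc) : ∃ C c : ℝ, 1 ≤ C ∧ 0 < c ∧ c ≤ 1 ∧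
    ∀ P : Fin k → ℤ[X], ∀ Q : ℕ, 2 ≤ Q → ∀ (Δ : Finset ℕ) (D : ℕ), 1 ≤ D →
    (∀ d ∈ Δ, Squarefree d ∧ D < d ∧ d ≤ Q ^ 2 ∧ ∀ l ∈ d.primeFactors, l ≤ Q) →
    ∀ (ι : Type) (S : Finset ι) (g : ι → Fin k → ℕ), FGood E Cc cc (Q ^ 2) P S g →
    ∑ x ∈ S, (∑ d ∈ Δ, tdf d (ran P (g x))) ^ 2 ≤ C * (1 + Real.log Q) ^ C * S.card * (D : ℝ) ^ (-c) := by
  classical
  obtain ⟨hCc, hcc0, hcc1⟩ := hC
  have hcst : 0 < Cc * 2 ^ Cc := by positivity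
  refine ⟨Cc * 2 ^ Cc + Cc + 1, cc, by linarith, hcc0, hcc1, ?_⟩
  intro P Q hQ Δ D hD hΔ ι Sx g hg
  have hQr : (2 : ℝ) ≤ Q := by exact_mod_cast hQ
  have hlQ : 0 ≤ Real.log Q := Real.log_natCast_nonneg Q
  have hS : ∀ l ∈ pr Q, l.Prime := fun l hl => (mem_filter.mp hl).2
  have hΔ' : ∀ d ∈ Δ, Squarefree d ∧ d ≤ Q ^ 2 ∧ d.primeFactors ⊆ pr Q := by
    intro d hd
    obtain ⟨h1, h2, h3, h4⟩ := hΔ d hd
    refine ⟨h1, h3, fun l hl => ?_⟩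
    unfold pr
    rw [mem_filter, mem_Icc]
    have h5 := (Nat.mem_primeFactors.mp hl).1
    exact ⟨⟨h5.one_lt.le, h4 l hl⟩, h5⟩
  have hpS : 0 < ∏ l ∈ pr Q, l := prod_pos fun l hl => (hS l hl).pos
  have hQ2 : 1 ≤ Q ^ 2 := Nat.one_le_pow _ _ (by omega)
  have hj1 : 1 ≤ (Q ^ 2) ^ (E + 1) := Nat.one_le_pow _ _ (by positivity)
  obtain ⟨N, hN⟩ : ∃ N : ℕ, N = (∏ l ∈ pr Q, l) * (Q ^ 2) ^ (E + 1) := ⟨_, rfl⟩
  have hN0 : 0 < N := by rw [hN]; exact Nat.mul_pos hpS hj1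
  have hNQ : (Q ^ 2) ^ E ≤ N := by
    rw [hN]
    exact (Nat.pow_le_pow_right hQ2 (Nat.le_succ E)).trans (Nat.le_mul_of_pos_left _ hpS)
  have hNr : (0 : ℝ) < N := by exact_mod_cast hN0
  obtain ⟨T, hT⟩ : ∃ T : Finset (Fin k → ℕ), T = (Fintype.piFinset fun _ : Fin k => KS (Q ^ 2) 1).filter
    (fun κ => univ.lcm κ ∈ Δ) := ⟨_, rfl⟩
  have hiden := fun h : Fin k → ℕ => N1_iden P h (pr Q) hS (Q ^ 2) ((Q ^ 2) ^ (E + 1)) hj1 Δ hΔ'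
  rw [← hT, ← hN] at hiden
  have hFg := hg (Q ^ 2) hQ2 le_rfl (fun _ => p0) (fun _ => p0_mem hQ2) T (by rw [hT]; exact filter_subset _ _) D hD
    (by
      intro κ hκ
      rw [hT] at hκ
      have h1 := (mem_filter.mp hκ).2
      have h2 : (fun i => (p0).1 * κ i) = κ := by
        funext i
        exact one_mul _
      rw [h2]
      exact (hΔ _ h1).2.1)
    0 N hNQ (fun _ => 1)
  have hsq : ∑ n ∈ Ico 0 (0 + N), ‖(1 : ℂ)‖ ^ 2 = N := by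
    simp
  have hL : ∀ x ∈ Sx, ‖∑ n ∈ Ico 0 (0 + N), (1 : ℂ) *
      ∑ κ ∈ T, ∏ i, gk p0 (κ i) ((P i).eval (n : ℤ) + g x i)‖ ^ 2 =
      (N : ℝ) ^ 2 * (∑ d ∈ Δ, tdf d (ran P (g x))) ^ 2 := by
    intro x _
    have h0 : ∀ n ∈ Ico 0 (0 + N), (1 : ℂ) * ∑ κ ∈ T, ∏ i, gk p0 (κ i) ((P i).eval (n : ℤ) + g x i) =
        ∑ κ ∈ T, ∏ i, gk p0 (κ i) ((P i).eval (n : ℤ) + g x i) := fun n _ => one_mul _
    rw [sum_congr rfl h0, hiden (g x), norm_mul, Complex.norm_natCast, Complex.norm_real, mul_pow, Real.norm_eq_abs, sq_abs]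
  have hFg' : (N : ℝ) ^ 2 * ∑ x ∈ Sx, (∑ d ∈ Δ, tdf d (ran P (g x))) ^ 2 ≤
      Cc * (1 + Real.log ((Q ^ 2 : ℕ) : ℝ)) ^ Cc * Sx.card * (N * N) * (D : ℝ) ^ (-cc) := by
    rw [mul_sum, ← sum_congr rfl hL]
    refine hFg.trans (le_of_eq ?_)
    rw [hsq]
  have hlog2 : Real.log ((Q ^ 2 : ℕ) : ℝ) = 2 * Real.log Q := by
    rw [Nat.cast_pow, Real.log_pow]
    norm_num
  have hpw : (1 + Real.log ((Q ^ 2 : ℕ) : ℝ)) ^ Cc ≤ 2 ^ Cc * (1 + Real.log Q) ^ Cc := by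
    rw [hlog2, ← Real.mul_rpow (by norm_num) (by linarith)]
    exact Real.rpow_le_rpow (by linarith) (by linarith) (by linarith)
  have hb1 : (N : ℝ) ^ 2 * ∑ x ∈ Sx, (∑ d ∈ Δ, tdf d (ran P (g x))) ^ 2 ≤
      (N : ℝ) ^ 2 * (Cc * (2 ^ Cc * (1 + Real.log Q) ^ Cc) * Sx.card * (D : ℝ) ^ (-cc)) := by
    refine hFg'.trans ?_
    calc Cc * (1 + Real.log ((Q ^ 2 : ℕ) : ℝ)) ^ Cc * Sx.card * (N * N) * (D : ℝ) ^ (-cc)
        ≤ Cc * (2 ^ Cc * (1 + Real.log Q) ^ Cc) * Sx.card * (N * N) * (D : ℝ) ^ (-cc) := by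
          gcongr
      _ = _ := by ring
  have hb2 := le_of_mul_le_mul_left hb1 (by positivity)
  refine hb2.trans ?_
  have h1L : 1 ≤ 1 + Real.log Q := by linarith
  have h3 : (1 + Real.log Q) ^ Cc ≤ (1 + Real.log Q) ^ (Cc * 2 ^ Cc + Cc + 1) :=
    Real.rpow_le_rpow_of_exponent_le h1L (by linarith)
  have h4 : Cc * 2 ^ Cc ≤ Cc * 2 ^ Cc + Cc + 1 := by linarith
  calc Cc * (2 ^ Cc * (1 + Real.log Q) ^ Cc) * Sx.card * (D : ℝ) ^ (-cc)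
      = (Cc * 2 ^ Cc) * (1 + Real.log Q) ^ Cc * Sx.card * (D : ℝ) ^ (-cc) := by
        ring
    _ ≤ (Cc * 2 ^ Cc + Cc + 1) * (1 + Real.log Q) ^ (Cc * 2 ^ Cc + Cc + 1) * Sx.card *
        (D : ℝ) ^ (-cc) := by
        gcongr

end Pool.Agent.HLA
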