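import Pool.Agent.Lib.HLA.W0
import Pool.Agent.Lib.HUP.R6
import Pool.Agent.Lib.H24P.X2

/-!
# LOGA, chunk N1A (M): local bounds for a system WITHOUT linear coordinate
-/

open Finset Polynomial

namespace Pool.Agent.HLA

open Pool.Agent.Lib.H68T Pool.Agent.Lib.H18Q Pool.Agent.Lib.H59P Pool.Agent.Lib.H24P
open Pool.Agent.HUP Pool.Agent.H9P

/-- `T1_abs` (`H24P/T1.lean`) without `B`, same proof (`T1_count`, `t1_roots`). -/
theorem N1_abs (k A : ℕ) (hA : 1 ≤ A) : ∃ C : ℝ, 1 ≤ C ∧ ∀ P : Fin k → ℤ[X], Pol A P → ∀ h : Fin k → ℕ,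
    ∀ l : ℕ, l.Prime → |tpf l (ran P h)| ≤ C / l := by
  classical
  have hA1 : (1 : ℝ) ≤ A := by exact_mod_cast hA
  have h2k : (1 : ℝ) ≤ 2 ^ k := one_le_pow₀ (by norm_num)
  refine ⟨2 * 2 ^ k * A + k * A, ?_, ?_⟩
  · have h1 : (1 : ℝ) * 1 ≤ 2 ^ k * A := mul_le_mul h2k hA1 (by norm_num) (by positivity)
    have h2 : (0 : ℝ) ≤ k * A := by positivity
    linarith
  intro P hP h l hl
  have hl2 : (2 : ℝ) ≤ l := by exact_mod_cast hl.two_le
  have hl0 : (0 : ℝ) < l := by linarith
  have hl1 : (0 : ℝ) < l - 1 := by linarith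
  have hratio : (l : ℝ) / (l - 1) ≤ 2 := by
    rw [div_le_iff₀ hl1]
    linarith
  have hr0 : (0 : ℝ) ≤ (l : ℝ) / (l - 1) := by positivity
  obtain ⟨e1, e2⟩ := P0_tp l hl (ran P h)
  have hkA : (0 : ℝ) ≤ k * A := by positivity
  by_cases hlA : l ≤ A
  · have h1 : ((l : ℝ) / (l - 1)) ^ k ≤ 2 ^ k := pow_le_pow_left₀ hr0 hratio _
    have h2 : |tpf l (ran P h)| ≤ 2 ^ k := by
      rw [abs_le]
      constructor <;> linarith
    refine h2.trans ?_
    rw [le_div_iff₀ hl0]
    have h3 : (l : ℝ) ≤ A := by exact_mod_cast hlA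
    have h4 : (2 : ℝ) ^ k * l ≤ 2 ^ k * A := mul_le_mul_of_nonneg_left h3 (by linarith)
    have h5 : (0 : ℝ) ≤ 2 ^ k * A := by positivity
    linarith
  · push Not at hlA
    rw [abs_le]
    constructor
    · -- lower bound
      have hlc : ∀ F : ℤ[X], 1 ≤ F.natDegree → F.leadingCoeff.natAbs ≤ A →
          ¬ (l : ℤ) ∣ F.leadingCoeff := by
        intro F hF hFA hd
        have h1 : F.leadingCoeff ≠ 0 := by
          rw [Ne, leadingCoeff_eq_zero]
          rintro rfl
          rw [natDegree_zero] at hF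
          omega
        have h2 : l ∣ F.leadingCoeff.natAbs := Int.natCast_dvd.1 hd
        have h3 := Nat.le_of_dvd (Int.natAbs_pos.2 h1) h2
        omega
      set good := (range l).filter (fun n : ℕ => ∀ i, ¬ (l : ℤ) ∣ ran P h i n) with hgood
      set bad := univ.biUnion (fun i : Fin k => (range l).filter
        (fun n : ℕ => (l : ℤ) ∣ ran P h i n)) with hbad
      have hb : bad.card ≤ k * A := by
        refine card_biUnion_le.trans ?_
        calc ∑ i : Fin k, ((range l).filter (fun n : ℕ => (l : ℤ) ∣ ran P h i n)).card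
            ≤ ∑ _i : Fin k, A := by
              refine Finset.sum_le_sum fun i _ => ?_
              · have h2 : ((P i) + C (h i : ℤ)).natDegree = (P i).natDegree := natDegree_add_C
                have h3 : ((P i) + C (h i : ℤ)).leadingCoeff = (P i).leadingCoeff := by
                  have h5 := hP.deg i
                  rw [leadingCoeff, h2, coeff_add, coeff_C, if_neg (by omega), add_zero, leadingCoeff]
                have h4 := t1_roots ((P i) + C (h i : ℤ)) l hl
                  (hlc _ (by rw [h2]; exact hP.deg i) (by rw [h3]; exact hP.lc i))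
                rw [h2] at h4
                refine (le_of_eq ?_).trans (h4.trans (hP.degA i))
                congr 1
                refine Finset.filter_congr fun n _ => ?_
                rw [eval_add, eval_C]
                rfl
          _ = k * A := by
              rw [Finset.sum_const, card_univ, Fintype.card_fin, smul_eq_mul]
      have hcov : l ≤ good.card + bad.card := by
        have h1 : range l ⊆ good ∪ bad := by
          intro n hn
          by_cases h2 : ∀ i, ¬ (l : ℤ) ∣ ran P h i n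
          · exact mem_union_left _ (mem_filter.2 ⟨hn, h2⟩)
          · push Not at h2
            obtain ⟨i, hi⟩ := h2
            exact mem_union_right _ (mem_biUnion.2 ⟨i, mem_univ i, mem_filter.2 ⟨hn, hi⟩⟩)
        have h2 := (card_le_card h1).trans (card_union_le _ _)
        rwa [card_range] at h2
      have h3 : (l : ℝ) ≤ good.card + k * A := by
        have h4 : l ≤ good.card + k * A := by omega
        exact_mod_cast h4
      have h5 := T1_count l hl (ran P h)
      rw [← hgood] at h5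
      have h6 : (1 : ℝ) ≤ ((l : ℝ) / (l - 1)) ^ k := one_le_pow₀ (M3a_ratio l hl)
      have h7 : (0 : ℝ) ≤ (good.card : ℝ) / l := by positivity
      have h8 : (good.card : ℝ) / l * 1 ≤ (good.card : ℝ) / l * ((l : ℝ) / (l - 1)) ^ k :=
        mul_le_mul_of_nonneg_left h6 h7
      have h9 : 1 - k * A / (l : ℝ) ≤ (good.card : ℝ) / l := by
        rw [le_div_iff₀ hl0]
        have h10 : (1 - k * A / (l : ℝ)) * l = l - k * A := by field_simp
        rw [h10]
        linarith
      have h11 : (0 : ℝ) ≤ 2 * 2 ^ k * A / (l : ℝ) := by positivity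
      rw [add_div]
      linarith
    · -- upper bound
      have h1 : (l : ℝ) / (l - 1) = 1 + 1 / ((l : ℝ) - 1) := by
        field_simp
        ring
      have h2 : 1 / ((l : ℝ) - 1) ≤ 1 := by
        rw [div_le_one hl1]
        linarith
      have h3 := t1_pow k (1 / ((l : ℝ) - 1)) (by positivity) h2
      rw [← h1] at h3
      have h4 : 1 / ((l : ℝ) - 1) ≤ 2 / l := by
        rw [div_le_div_iff₀ hl1 hl0]
        linarith
      have h5 : ((2 : ℝ) ^ k - 1) * (1 / ((l : ℝ) - 1)) ≤ 2 ^ k * (2 / l) := by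
        refine mul_le_mul (by linarith) h4 (by positivity) (by linarith)
      have h6 : (2 : ℝ) ^ k * (2 / l) ≤ (2 * 2 ^ k * A + k * A) / l := by
        rw [← mul_div_assoc]
        refine div_le_div_of_nonneg_right ?_ hl0.le
        have h7 : (2 * 2 ^ k : ℝ) * 1 ≤ 2 * 2 ^ k * A :=
          mul_le_mul_of_nonneg_left hA1 (by positivity)
        linarith
      linarith

/-- `T1_low` without `B`. -/
theorem N1_low {k : ℕ} (P : Fin k → ℤ[X]) (h : Fin k → ℕ) (hN : NoFix (ran P h)) (l : ℕ) (hl : l.Prime) :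
    1 / (l : ℝ) ≤ 1 + tpf l (ran P h) := by
  classical
  have hl2 : (2 : ℝ) ≤ l := by exact_mod_cast hl.two_le
  have hl0 : (0 : ℝ) < l := by linarith
  have hlz : (0 : ℤ) < l := by exact_mod_cast hl.pos
  obtain ⟨n, hn⟩ := hN l hl
  set n' : ℕ := (n % l).toNat with hn'
  have h1 : (n' : ℤ) = n % l := Int.toNat_of_nonneg (Int.emod_nonneg _ hlz.ne')
  have h2 : n' < l := by
    have := Int.emod_lt_of_pos n hlz
    omega
  have h3 : n' ∈ (range l).filter (fun n : ℕ => ∀ i, ¬ (l : ℤ) ∣ ran P h i n) := by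
    refine mem_filter.2 ⟨mem_range.2 h2, fun i hi => hn i ?_⟩
    have h4 := P2_ran P h i (l * (n / l)) (n' : ℤ)
    have h5 : (n' : ℤ) + l * (n / l) = n := by
      rw [h1]
      exact Int.emod_add_mul_ediv n l
    rw [h5] at h4
    have h6 : (l : ℤ) ∣ ran P h i n - ran P h i n' := (Dvd.intro _ rfl).trans h4
    exact (dvd_sub_left hi).1 h6
  rw [T1_count l hl]
  have h4 : (1 : ℝ) ≤ (((range l).filter (fun n : ℕ => ∀ i, ¬ (l : ℤ) ∣ ran P h i n)).card : ℝ) := by
    exact_mod_cast Finset.card_pos.2 ⟨n', h3⟩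
  have h5 : (1 : ℝ) ≤ ((l : ℝ) / (l - 1)) ^ k := one_le_pow₀ (M3a_ratio l hl)
  calc 1 / (l : ℝ) = 1 / (l : ℝ) * 1 := (mul_one _).symm
    _ ≤ _ := mul_le_mul (div_le_div_of_nonneg_right h4 hl0.le) h5 (by norm_num) (by positivity)

/-- Lower bound for the series. Proof. As `X2_low` (look it up in `H24P`; it is used in `H9P/V16.lean`): `1 + tpf l ≥ 1/l` for `l ≤ 2 C` and `≥ 1 - C/l` for `l > 2 C`. -/
theorem N1_X2 (k A : ℕ) (hA : 1 ≤ A) : ∃ c C : ℝ, 0 < c ∧ 0 < C ∧ ∀ P : Fin k → ℤ[X], Pol A P → ∀ h : Fin k → ℕ,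
    NoFix (ran P h) → ∀ Q : ℕ, 2 ≤ Q → c * (1 + Real.log Q) ^ (-C) ≤ SSf (pr Q) (ran P h) := by
  classical
  obtain ⟨C1, hC1, hT⟩ := N1_abs k A hA
  obtain ⟨N, hN⟩ : ∃ N, N = ⌊2 * C1⌋₊ := ⟨_, rfl⟩
  have hC0 : 0 < 2 * C1 := by linarith
  refine ⟨(1 / (2 * C1)) ^ N * 500 ^ (-(2 * C1)), 2 * C1, by positivity, by linarith, ?_⟩
  intro P hP h hNF Q hQ
  obtain ⟨P', hPe⟩ : ∃ P', P' = pr Q := ⟨_, rfl⟩
  have hP' : P' ⊆ pr Q := by rw [hPe]
  rw [← hPe]
  have hQ1 : (1 : ℝ) ≤ Q := by exact_mod_cast (by omega : 1 ≤ Q)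
  have hlog : 0 ≤ Real.log Q := Real.log_nonneg hQ1
  have hprime : ∀ l ∈ P', l.Prime := by
    intro l hl
    have h1 := hP' hl
    unfold pr at h1
    exact (mem_filter.1 h1).2
  have hfl : ∀ l ∈ P', (if l ≤ N then 1 / (2 * C1) else 1) * Real.exp (-(2 * C1 * (1 / (l : ℝ)))) ≤
      1 + tpf l (ran P h) := by
    intro l hl
    have hlp := hprime l hl
    have hl0 : (0 : ℝ) < l := by exact_mod_cast hlp.pos
    split_ifs with h1
    · have h2 := N1_low P h hNF l hlp
      have h3 : (l : ℝ) ≤ 2 * C1 := by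
        have h4 : (l : ℝ) ≤ (N : ℝ) := Nat.cast_le.2 h1
        refine h4.trans ?_
        rw [hN]
        exact Nat.floor_le hC0.le
      have h4 : 1 / (2 * C1) ≤ 1 / (l : ℝ) := one_div_le_one_div_of_le hl0 h3
      have h5 : Real.exp (-(2 * C1 * (1 / (l : ℝ)))) ≤ 1 := by
        rw [Real.exp_le_one_iff]
        have : 0 ≤ 2 * C1 * (1 / (l : ℝ)) := by positivity
        linarith
      have h6 : 0 ≤ 1 / (2 * C1) := by positivity
      exact (mul_le_of_le_one_right h6 h5).trans (h4.trans h2)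
    · have h2 : 2 * C1 < l := by
        rw [not_le, hN] at h1
        exact (Nat.floor_lt hC0.le).1 h1
      have h3 := (abs_le.1 (hT P hP h l hlp)).1
      have h4 : C1 / (l : ℝ) ≤ 1 / 2 := by
        rw [div_le_iff₀ hl0]
        linarith
      have h5 := x2_exp (C1 / l) (by positivity) h4
      rw [one_mul]
      have e : 2 * C1 * (1 / (l : ℝ)) = 2 * (C1 / l) := by ring
      rw [e]
      linarith
  have hnn : ∀ l ∈ P', 0 ≤ (if l ≤ N then 1 / (2 * C1) else 1) * Real.exp (-(2 * C1 * (1 / (l : ℝ)))) := by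
    intro l _
    apply mul_nonneg _ (Real.exp_pos _).le
    split_ifs
    · positivity
    · exact zero_le_one
  have h1 := Finset.prod_le_prod hnn hfl
  unfold SSf
  refine le_trans ?_ h1
  rw [Finset.prod_mul_distrib, ← Real.exp_sum, mul_assoc]
  have hA1 : (1 / (2 * C1)) ^ N ≤ ∏ l ∈ P', (if l ≤ N then 1 / (2 * C1) else (1 : ℝ)) := by
    rw [Finset.prod_ite, Finset.prod_const, Finset.prod_const_one, mul_one]
    apply pow_le_pow_of_le_one (by positivity)
    · rw [div_le_one hC0]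
      linarith
    · have hsub : P'.filter (fun l => l ≤ N) ⊆ Icc 1 N := by
        intro l hl
        rw [mem_filter] at hl
        exact mem_Icc.2 ⟨(hprime l hl.1).one_lt.le, hl.2⟩
      have := Finset.card_le_card hsub
      rwa [Nat.card_Icc, Nat.add_sub_cancel] at this
  have hA2 : (500 : ℝ) ^ (-(2 * C1)) * (1 + Real.log Q) ^ (-(2 * C1)) ≤
      Real.exp (∑ l ∈ P', -(2 * C1 * (1 / (l : ℝ)))) := by
    rw [← Real.mul_rpow (by norm_num) (by linarith)]
    have h2 := x2_sum Q hQ P' hP'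
    have e : ∑ l ∈ P', -(2 * C1 * (1 / (l : ℝ))) = (∑ l ∈ P', 1 / (l : ℝ)) * (-(2 * C1)) := by
      rw [Finset.sum_mul]
      exact Finset.sum_congr rfl fun l _ => by ring
    rw [e, Real.exp_mul]
    exact Real.rpow_le_rpow_of_nonpos (Real.exp_pos _) h2 (by linarith)
  refine mul_le_mul hA1 hA2 (by positivity) ?_
  exact Finset.prod_nonneg fun l _ => by
    split_ifs
    · positivity
    · exact zero_le_one

end Pool.Agent.HLA
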