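import Mathlib

/-!
# LOGA, chunk W10B (S/M, only Mathlib): a chain of blocks
-/

open Finset

namespace Pool.Agent.HLA

theorem w10b_cheb {ι : Type} (S : Finset ι) (f : ι → ℝ) (v : ℝ) (hv : 0 < v)
    (h : ∑ x ∈ S, (f x - 1) ^ 2 ≤ S.card * v ^ 4) :
    ((S.filter fun x => v < |f x - 1|).card : ℝ) ≤ S.card * v ^ 2 := by
  have h1 : ((S.filter fun x => v < |f x - 1|).card : ℝ) * v ^ 2 ≤ ∑ x ∈ S, (f x - 1) ^ 2 := by
    calc ((S.filter fun x => v < |f x - 1|).card : ℝ) * v ^ 2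
        = ∑ _x ∈ S.filter (fun x => v < |f x - 1|), v ^ 2 := by
          rw [Finset.sum_const, nsmul_eq_mul]
      _ ≤ ∑ x ∈ S.filter (fun x => v < |f x - 1|), (f x - 1) ^ 2 := by
          apply Finset.sum_le_sum
          intro x hx
          have hx2 := (Finset.mem_filter.mp hx).2
          rw [← sq_abs (f x - 1)]
          exact pow_le_pow_left₀ hv.le hx2.le 2
      _ ≤ ∑ x ∈ S, (f x - 1) ^ 2 := by
          apply Finset.sum_le_sum_of_subset_of_nonneg (Finset.filter_subset _ _)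
          intro x _ _
          exact sq_nonneg _
  have h2 : ((S.filter fun x => v < |f x - 1|).card : ℝ) * v ^ 2 ≤ (S.card * v ^ 2) * v ^ 2 := by
    calc ((S.filter fun x => v < |f x - 1|).card : ℝ) * v ^ 2 ≤ S.card * v ^ 4 := h1.trans h
      _ = (S.card * v ^ 2) * v ^ 2 := by ring
  exact le_of_mul_le_mul_right h2 (by positivity)

theorem w10b_u (c : ℝ) (hc : 0 < c) (z0 : ℕ) (hz1 : 2 ≤ z0)
    (hz0 : (4 : ℝ) ≤ (z0 : ℝ) ^ (c / 4)) (z : ℕ) (hz : z0 ≤ z) :
    0 < (z : ℝ) ^ (-(c / 4)) ∧ (z : ℝ) ^ (-(c / 4)) ≤ 1 / 4 ∧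
      (z : ℝ) ^ (-c) = ((z : ℝ) ^ (-(c / 4))) ^ 4 ∧
      (((z ^ 2 : ℕ) : ℝ)) ^ (-(c / 4)) = ((z : ℝ) ^ (-(c / 4))) ^ 2 := by
  have hzpos : (0 : ℝ) < (z : ℝ) := by
    have : 0 < z := by omega
    exact_mod_cast this
  refine ⟨Real.rpow_pos_of_pos hzpos _, ?_, ?_, ?_⟩
  · rw [Real.rpow_neg hzpos.le]
    have h1 : (4 : ℝ) ≤ (z : ℝ) ^ (c / 4) := by
      refine hz0.trans ?_
      apply Real.rpow_le_rpow (by positivity) _ (by positivity)
      exact_mod_cast hz
    rw [one_div]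
    exact inv_anti₀ (by norm_num) h1
  · rw [← Real.rpow_natCast ((z : ℝ) ^ (-(c / 4))) 4, ← Real.rpow_mul hzpos.le]
    norm_num
  · rw [Nat.cast_pow, ← Real.rpow_natCast (z : ℝ) 2, ← Real.rpow_natCast ((z : ℝ) ^ (-(c / 4))) 2,
      ← Real.rpow_mul hzpos.le, ← Real.rpow_mul hzpos.le, mul_comm]

theorem w10b_main {ι : Type} (S : Finset ι) (R : ℕ → ℕ → ι → ℝ)
    (hmul : ∀ a b m x, a ≤ b → b ≤ m → R a m x = R a b x * R b m x) (c : ℝ) (hc : 0 < c) (z0 : ℕ) (hz1 : 2 ≤ z0)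
    (hz0 : (4 : ℝ) ≤ (z0 : ℝ) ^ (c / 4)) (z' : ℕ)
    (hblock : ∀ a b, z0 ≤ a → a ≤ b → b ≤ a ^ 2 → b ≤ z' → ∑ x ∈ S, (R a b x - 1) ^ 2 ≤ S.card * (a : ℝ) ^ (-c)) :
    ∀ n : ℕ, ∀ z : ℕ, z0 ≤ z → z ≤ z' → z' - z ≤ n →
    ((S.filter fun x => 4 * (z : ℝ) ^ (-(c / 4)) < |R z z' x - 1|).card : ℝ) ≤ 2 * S.card * (z : ℝ) ^ (-(c / 4)) := by
  classical
  have hS : (0 : ℝ) ≤ (S.card : ℝ) := Nat.cast_nonneg _
  intro n
  induction n with
  | zero =>
    intro z hz hzz hn
    have hzE : z' = z := by omega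
    obtain ⟨hu0, hu4, huc, _⟩ := w10b_u c hc z0 hz1 hz0 z hz
    have hb : ∑ x ∈ S, (R z z' x - 1) ^ 2 ≤ S.card * ((z : ℝ) ^ (-(c / 4))) ^ 4 := by
      rw [← huc]
      exact hblock z z' hz hzz (by rw [hzE]; nlinarith) le_rfl
    have h1 := w10b_cheb S (R z z') _ hu0 hb
    generalize (z : ℝ) ^ (-(c / 4)) = u at *
    have h2 : ((S.filter fun x => 4 * u < |R z z' x - 1|).card : ℝ)
        ≤ ((S.filter fun x => u < |R z z' x - 1|).card : ℝ) := by
      apply Nat.cast_le.mpr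
      apply Finset.card_le_card
      intro x hx
      rw [Finset.mem_filter] at hx ⊢
      exact ⟨hx.1, by linarith [hx.2]⟩
    have h3 : (S.card : ℝ) * u ^ 2 ≤ 2 * S.card * u := by
      have : (0 : ℝ) ≤ S.card * (u * (2 - u)) := by
        apply mul_nonneg hS
        apply mul_nonneg hu0.le
        linarith
      nlinarith
    linarith
  | succ n ih =>
    intro z hz hzz hn
    obtain ⟨hu0, hu4, huc, hu2⟩ := w10b_u c hc z0 hz1 hz0 z hz
    by_cases hcase : z' ≤ z ^ 2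
    · have hb : ∑ x ∈ S, (R z z' x - 1) ^ 2 ≤ S.card * ((z : ℝ) ^ (-(c / 4))) ^ 4 := by
        rw [← huc]
        exact hblock z z' hz hzz hcase le_rfl
      have h1 := w10b_cheb S (R z z') _ hu0 hb
      clear ih hu2 huc hb
      generalize (z : ℝ) ^ (-(c / 4)) = u at *
      have h2 : ((S.filter fun x => 4 * u < |R z z' x - 1|).card : ℝ)
          ≤ ((S.filter fun x => u < |R z z' x - 1|).card : ℝ) := by
        apply Nat.cast_le.mpr
        apply Finset.card_le_card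
        intro x hx
        rw [Finset.mem_filter] at hx ⊢
        exact ⟨hx.1, by linarith [hx.2]⟩
      have h3 : (S.card : ℝ) * u ^ 2 ≤ 2 * S.card * u := by
        have : (0 : ℝ) ≤ S.card * (u * (2 - u)) := by
          apply mul_nonneg hS
          apply mul_nonneg hu0.le
          linarith
        nlinarith
      linarith
    · have hlt : z ^ 2 < z' := not_le.mp hcase
      have hzlt : z < z ^ 2 := by nlinarith
      have hb : ∑ x ∈ S, (R z (z ^ 2) x - 1) ^ 2 ≤ S.card * ((z : ℝ) ^ (-(c / 4))) ^ 4 := by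
        rw [← huc]
        exact hblock z (z ^ 2) hz hzlt.le le_rfl hlt.le
      have h1 := w10b_cheb S (R z (z ^ 2)) _ hu0 hb
      have h2 := ih (z ^ 2) (hz.trans hzlt.le) hlt.le (by omega)
      rw [hu2] at h2
      have hm : ∀ x, R z z' x = R z (z ^ 2) x * R (z ^ 2) z' x := fun x =>
        hmul z (z ^ 2) z' x hzlt.le hlt.le
      clear ih hu2 huc hb
      generalize (z : ℝ) ^ (-(c / 4)) = u at *
      have hsub : (S.filter fun x => 4 * u < |R z z' x - 1|) ⊆
          (S.filter fun x => u < |R z (z ^ 2) x - 1|) ∪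
          (S.filter fun x => 4 * u ^ 2 < |R (z ^ 2) z' x - 1|) := by
        intro x hx
        rw [Finset.mem_filter] at hx
        rw [Finset.mem_union, Finset.mem_filter, Finset.mem_filter]
        by_contra hcon
        rw [not_or] at hcon
        have ha : |R z (z ^ 2) x - 1| ≤ u := by
          by_contra h
          exact hcon.1 ⟨hx.1, not_le.mp h⟩
        have hb : |R (z ^ 2) z' x - 1| ≤ 4 * u ^ 2 := by
          by_contra h
          exact hcon.2 ⟨hx.1, not_le.mp h⟩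
        have hx2 := hx.2
        rw [hm x] at hx2
        generalize R z (z ^ 2) x = p at *
        generalize R (z ^ 2) z' x = q at *
        have e : p * q - 1 = (p - 1) * (q - 1) + (p - 1) + (q - 1) := by ring
        have h3 : |p * q - 1| ≤ |p - 1| * |q - 1| + |p - 1| + |q - 1| := by
          rw [e]
          calc |(p - 1) * (q - 1) + (p - 1) + (q - 1)|
              ≤ |(p - 1) * (q - 1) + (p - 1)| + |q - 1| := abs_add_le _ _
            _ ≤ |(p - 1) * (q - 1)| + |p - 1| + |q - 1| := by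
                linarith [abs_add_le ((p - 1) * (q - 1)) (p - 1)]
            _ = |p - 1| * |q - 1| + |p - 1| + |q - 1| := by rw [abs_mul]
        have h4 : |p - 1| * |q - 1| ≤ u * (4 * u ^ 2) :=
          mul_le_mul ha hb (abs_nonneg _) hu0.le
        have h5 : u ^ 2 ≤ u / 4 := by nlinarith
        have h6 : u * (4 * u ^ 2) ≤ u / 4 := by
          have : u * (4 * u ^ 2) = 4 * u * u ^ 2 := by ring
          rw [this]
          have h7 : 4 * u * u ^ 2 ≤ 1 * u ^ 2 := by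
            apply mul_le_mul_of_nonneg_right _ (sq_nonneg u)
            linarith
          linarith
        linarith
      have hcard : ((S.filter fun x => 4 * u < |R z z' x - 1|).card : ℝ) ≤
          ((S.filter fun x => u < |R z (z ^ 2) x - 1|).card : ℝ) +
          ((S.filter fun x => 4 * u ^ 2 < |R (z ^ 2) z' x - 1|).card : ℝ) := by
        have h3 := (Finset.card_le_card hsub).trans (Finset.card_union_le _ _)
        exact_mod_cast h3
      have h3 : (S.card : ℝ) * u ^ 2 * 3 ≤ 2 * S.card * u := by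
        have : (0 : ℝ) ≤ S.card * (u * (2 - 3 * u)) := by
          apply mul_nonneg hS
          apply mul_nonneg hu0.le
          linarith
        nlinarith
      linarith

/-- **W10B.** Proof. Put `u = z^(-(c/4)) ≤ 1/4` (`z ≥ z0`). Strong induction on `z'` (for all `z`). If `z' ≤ z²`: Chebyshev: `#{x : z^(-c/4) < |R z z' x - 1|} z^(-c/2) ≤ card z^(-c)`, so at most
`card z^(-c/2) ≤ card u` elements. If `z² < z'`: `R z z' = R z z² · R z² z'` (`z ≤ z²`); by the first case for `(z, z²)` outside at most `card u²` elements `|R z z² x - 1| ≤ u`; by induction for `(z², z')` [the step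
goes from `z` up: use induction on `z' - z`] outside at most `2 card u²` elements (`(z²)^(-c/4) = u²`) `|R z² z' x - 1| ≤ 4 u²`. Then `|R - 1| ≤ (1 + u)(1 + 4 u²) - 1 = u + 4 u² + 4 u³ ≤ 4 u` and `3 u² card ≤ 2 u card`. -/
theorem W10_chain {ι : Type} (S : Finset ι) (R : ℕ → ℕ → ι → ℝ)
    (hmul : ∀ a b m x, a ≤ b → b ≤ m → R a m x = R a b x * R b m x) (c : ℝ) (hc : 0 < c) (z0 : ℕ) (hz1 : 2 ≤ z0)
    (hz0 : (4 : ℝ) ≤ (z0 : ℝ) ^ (c / 4)) (z' : ℕ)
    (hblock : ∀ a b, z0 ≤ a → a ≤ b → b ≤ a ^ 2 → b ≤ z' → ∑ x ∈ S, (R a b x - 1) ^ 2 ≤ S.card * (a : ℝ) ^ (-c))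
    (z : ℕ) (hz : z0 ≤ z) (hzz : z ≤ z') :
    ((S.filter fun x => 4 * (z : ℝ) ^ (-(c / 4)) < |R z z' x - 1|).card : ℝ) ≤ 2 * S.card * (z : ℝ) ^ (-(c / 4)) := by
  exact w10b_main S R hmul c hc z0 hz1 hz0 z' hblock (z' - z) z hz hzz le_rfl

end Pool.Agent.HLA
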