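import Pool.Agent.Lib.HLA.W10A
import Pool.Agent.Lib.HLA.W10B

/-!
# LOGA, chunk W10 (M): the truncated singular series at the levels `z ≤ z'`, all large `z`, for most parameters
-/

open Finset Polynomial

namespace Pool.Agent.HLA

open Pool.Agent.Lib.H68T Pool.Agent.Lib.H18Q Pool.Agent.Lib.H59P Pool.Agent.Lib.H24P
open Pool.Agent.HUP Pool.Agent.H9P

/-- The series at `z'` is the series at `z` times the block. -/
theorem w10_mul {k : ℕ} (φ : Fin k → ℤ → ℤ) (z z' : ℕ) (h : z ≤ z') :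
    SSf (pr z') φ = SSf (pr z) φ * SSf ((pr z').filter (fun l => z < l)) φ := by
  unfold SSf
  rw [← Finset.prod_filter_mul_prod_filter_not (pr z') (fun l => l ≤ z)]
  have h1 : (pr z').filter (fun l => l ≤ z) = pr z := by
    ext l
    unfold pr
    simp only [mem_filter, mem_Icc]
    constructor
    · rintro ⟨⟨⟨h1, h2⟩, h3⟩, h4⟩
      exact ⟨⟨h1, h4⟩, h3⟩
    · rintro ⟨⟨h1, h2⟩, h3⟩
      exact ⟨⟨⟨h1, h2.trans h⟩, h3⟩, h2⟩
  have h2 : (pr z').filter (fun l => ¬ l ≤ z) = (pr z').filter (fun l => z < l) := by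
    ext l
    simp only [mem_filter, not_le]
  rw [h1, h2]

/-- The blocks are multiplicative. -/
theorem w10_mul2 {k : ℕ} (φ : Fin k → ℤ → ℤ) (a b m : ℕ) (h : a ≤ b) (h' : b ≤ m) :
    SSf ((pr m).filter (fun l => a < l)) φ =
      SSf ((pr b).filter (fun l => a < l)) φ * SSf ((pr m).filter (fun l => b < l)) φ := by
  unfold SSf
  rw [← Finset.prod_filter_mul_prod_filter_not ((pr m).filter (fun l => a < l)) (fun l => l ≤ b)]
  have h1 : ((pr m).filter (fun l => a < l)).filter (fun l => l ≤ b) = (pr b).filter (fun l => a < l) := by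
    ext l
    unfold pr
    simp only [mem_filter, mem_Icc]
    constructor
    · rintro ⟨⟨⟨⟨h1, h2⟩, h3⟩, h4⟩, h5⟩
      exact ⟨⟨⟨h1, h5⟩, h3⟩, h4⟩
    · rintro ⟨⟨⟨h1, h2⟩, h3⟩, h4⟩
      exact ⟨⟨⟨⟨h1, h2.trans h'⟩, h3⟩, h4⟩, h2⟩
  have h2 : ((pr m).filter (fun l => a < l)).filter (fun l => ¬ l ≤ b) = (pr m).filter (fun l => b < l) := by
    ext l
    simp only [mem_filter, not_le]
    constructor
    · rintro ⟨⟨h1, h2⟩, h3⟩
      exact ⟨h1, h3⟩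
    · rintro ⟨h1, h2⟩
      exact ⟨⟨h1, lt_of_le_of_lt h h2⟩, h2⟩
  rw [h1, h2]

/-- **W10.** Compare `U10_main` (`H9P/U10.lean`), whose proof should be copied. Proof. `FGTU` gives `E, Cc, cc`; `δ1 = 1/(4 E + 4)`; `A' = A + ∑ D_i + ∑ |a_i| + 1` (`u10_pol`, `u10_lin`). Put `β' i = β i + V`, `V` a multiple of
`z'!` so large that `0 ≤ β' i + ψ_i(t)` on `S = tb 0 (A Z^e + 1)`; `FGTU` with `Qm = z'^4` (`z'^(4E) ≤ Z ≤ s_j`) gives `FGood E Cc cc (z'^4) P S (hh c β')`. `W10_block` (`FGood` is monotone in `Qm`: `u10_mono`) and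
`W10_chain` with `R a b x = SSf ((pr b).filter (a < ·)) (sys B P (hh c β' x))` (`w10_mul2`): outside at most `2 card z^(-c/4)` elements `|R z z' - 1| ≤ 4 z^(-c/4)`. For `t` with `β i + ψ_i(t) ≥ 0` the series are the same as those
for `β'` (`U10_mod`; all primes are `≤ z'`). `w10_mul` and `SSf (pr z) ≥ 0` (`T5_up` of `H24P/T5.lean`, or `P0_tp`): `|SSf (pr z') - SSf (pr z)| = SSf (pr z) |R - 1|`. The number of the `t` is at most `(2A)^d Z^(∑ e)` (`u10_card`; `A ≥ 1`,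
for `A = 0` use `A + 1`). `C1 = 4 + 2 (2A)^d`. -/
theorem W10_main {k d : ℕ} (c : Fin k → Fin d → ℤ) (e : Fin d → ℕ) (D : Fin k → ℕ) (a : Fin k → ℤ)
    (hF : FGTU c D a) (he : ∀ j, 1 ≤ e j) (hD : ∀ i, 1 ≤ D i) (P : Fin k → ℤ[X]) (hP : HasD D a P) :
    ∃ δ1 : ℝ, 0 < δ1 ∧ ∀ A : ℕ, ∃ c0 C1 : ℝ, 0 < c0 ∧ 1 ≤ C1 ∧ ∃ z0 : ℕ, ∀ z z' Z : ℕ, z0 ≤ z → z ≤ z' →
    (z' : ℝ) ≤ (Z : ℝ) ^ δ1 → ∀ B : ℤ[X], Lin A B → ∀ β : Fin k → ℤ,
    (((tb 0 fun j => A * Z ^ e j + 1).filter fun t => (∀ i, 0 ≤ β i + lf c t i) ∧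
      C1 * (z : ℝ) ^ (-c0) * SSf (pr z) (sys B P (hh c β t)) <
        |SSf (pr z') (sys B P (hh c β t)) - SSf (pr z) (sys B P (hh c β t))|).card : ℝ) ≤
      C1 * (Z : ℝ) ^ (∑ j, e j) * (z : ℝ) ^ (-c0) := by
  classical
  obtain ⟨E, Cc, cc, hpar, hFG⟩ := hF
  obtain ⟨δ1, hδ1d⟩ : ∃ δ1 : ℝ, δ1 = 1 / (4 * E + 4) := ⟨_, rfl⟩
  have hE0 : (0 : ℝ) ≤ E := Nat.cast_nonneg E
  have hδ10 : 0 < δ1 := by
    rw [hδ1d]
    positivity
  have hδ1E : δ1 * (4 * E) ≤ 1 := by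
    rw [hδ1d, div_mul_eq_mul_div, one_mul, div_le_one (by positivity)]
    linarith
  refine ⟨δ1, hδ10, fun A => ?_⟩
  obtain ⟨A', hA'd⟩ : ∃ A' : ℕ, A' = (A + 1) + ∑ i, D i + ∑ i, (a i).natAbs := ⟨_, rfl⟩
  obtain ⟨cB, hcB, zB, hblk⟩ := W10_block k A' E (by omega) Cc cc hpar
  obtain ⟨c0, hc0d⟩ : ∃ c0 : ℝ, c0 = cB / 4 := ⟨_, rfl⟩
  have hc0 : 0 < c0 := by
    rw [hc0d]
    linarith
  obtain ⟨z0, hz0d⟩ : ∃ z0 : ℕ, z0 = max (max 2 zB) ⌈(4 : ℝ) ^ (4 / cB)⌉₊ := ⟨_, rfl⟩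
  have hz02 : 2 ≤ z0 := by
    rw [hz0d]
    exact (le_max_left _ _).trans (le_max_left _ _)
  have hz0B : zB ≤ z0 := by
    rw [hz0d]
    exact (le_max_right _ _).trans (le_max_left _ _)
  have hz04 : (4 : ℝ) ≤ (z0 : ℝ) ^ (cB / 4) := by
    have h1 : (4 : ℝ) ^ (4 / cB) ≤ z0 := by
      refine (Nat.le_ceil _).trans ?_
      rw [hz0d]
      exact_mod_cast le_max_right _ _
    have h2 : ((4 : ℝ) ^ (4 / cB)) ^ (cB / 4) ≤ (z0 : ℝ) ^ (cB / 4) :=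
      Real.rpow_le_rpow (by positivity) h1 (by positivity)
    rw [← Real.rpow_mul (by norm_num)] at h2
    have h3 : 4 / cB * (cB / 4) = 1 := by
      field_simp
    rw [h3, Real.rpow_one] at h2
    exact h2
  have hAd : (0 : ℝ) ≤ (2 * A) ^ d := by positivity
  refine ⟨c0, 4 + 2 * (2 * A) ^ d, hc0, by linarith, z0, ?_⟩
  intro z z' Z hz hzz' hz'Z B hB β
  have hA : 1 ≤ A := by
    rcases Nat.eq_zero_or_pos A with h | h
    · exfalso
      have h1 := hB.lc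
      rw [h, Nat.le_zero, Int.natAbs_eq_zero, leadingCoeff_eq_zero] at h1
      have h2 := hB.deg
      rw [h1, natDegree_zero] at h2
      omega
    · exact h
  have hz'1 : 1 ≤ z' := by omega
  have hz'r : (1 : ℝ) ≤ z' := by exact_mod_cast hz'1
  have hzr : (1 : ℝ) ≤ z := by exact_mod_cast (show 1 ≤ z by omega)
  have hzp : (0 : ℝ) < z := by linarith
  have hZ1 : 1 ≤ Z := by
    rcases Nat.eq_zero_or_pos Z with h | h
    · rw [h, Nat.cast_zero, Real.zero_rpow hδ10.ne'] at hz'Z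
      linarith
    · exact h
  have hZr : (1 : ℝ) ≤ Z := by exact_mod_cast hZ1
  have hZ0 : (0 : ℝ) < Z := by linarith
  have hwE : (z' ^ 4) ^ E ≤ Z := by
    have h1 : ((z' : ℝ) ^ 4) ^ E ≤ Z := by
      calc ((z' : ℝ) ^ 4) ^ E = (z' : ℝ) ^ (4 * E) := (pow_mul _ _ _).symm
        _ ≤ ((Z : ℝ) ^ δ1) ^ (4 * E) := pow_le_pow_left₀ (Nat.cast_nonneg z') hz'Z _
        _ = (Z : ℝ) ^ (δ1 * (4 * E)) := by
            rw [← Real.rpow_natCast, ← Real.rpow_mul hZ0.le]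
            congr 1
            push_cast
            ring
        _ ≤ (Z : ℝ) ^ (1 : ℝ) := Real.rpow_le_rpow_of_exponent_le hZr hδ1E
        _ = Z := Real.rpow_one _
    exact_mod_cast h1
  obtain ⟨s, hsd⟩ : ∃ s : Fin d → ℕ, s = fun j => A * Z ^ e j + 1 := ⟨_, rfl⟩
  rw [← hsd]
  have hsj : ∀ j, (z' ^ 4) ^ E ≤ s j := by
    intro j
    rw [hsd]
    have h1 : Z ≤ Z ^ e j := by
      calc Z = Z ^ 1 := (pow_one Z).symm
        _ ≤ Z ^ e j := Nat.pow_le_pow_right hZ1 (he j)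
    have h2 : Z ^ e j ≤ A * Z ^ e j := Nat.le_mul_of_pos_left _ hA
    show (z' ^ 4) ^ E ≤ A * Z ^ e j + 1
    omega
  obtain ⟨N, hNd⟩ : ∃ N : ℕ, N = ∑ i, (β i).natAbs + ∑ t ∈ tb 0 s, ∑ i, (lf c t i).natAbs := ⟨_, rfl⟩
  obtain ⟨V, hVd⟩ : ∃ V : ℕ, V = z'.factorial * N := ⟨_, rfl⟩
  have hNV : N ≤ V := by
    rw [hVd]
    exact Nat.le_mul_of_pos_left _ (Nat.factorial_pos z')
  obtain ⟨β', hβ'd⟩ : ∃ β' : Fin k → ℤ, β' = fun i => β i + (V : ℤ) := ⟨_, rfl⟩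
  have hnn : ∀ t ∈ tb 0 s, ∀ i, 0 ≤ β' i + lf c t i := by
    intro t ht i
    have h1 := Finset.single_le_sum (f := fun i => (β i).natAbs) (fun _ _ => Nat.zero_le _) (mem_univ i)
    have h2 := Finset.single_le_sum (f := fun i => (lf c t i).natAbs) (fun _ _ => Nat.zero_le _) (mem_univ i)
    have h3 := Finset.single_le_sum (f := fun t => ∑ i, (lf c t i).natAbs) (fun _ _ => Nat.zero_le _) ht
    rw [hβ'd]
    show 0 ≤ β i + (V : ℤ) + lf c t i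
    omega
  have hG : FGood E Cc cc (z' ^ 4) P (tb 0 s) (hh c β') :=
    hFG P hP (z' ^ 4) 0 s β' (Nat.one_le_pow _ _ hz'1) hsj hnn
  have hmod : ∀ t : Fin d → ℤ, (∀ i, 0 ≤ β i + lf c t i) → ∀ y : ℕ, y ≤ z' →
      SSf (pr y) (sys B P (hh c β t)) = SSf (pr y) (sys B P (hh c β' t)) := by
    intro t ht y hy
    refine U10_mod _ B P _ _ fun l hl i => ?_
    have h1 : ((hh c β t i : ℕ) : ℤ) - (hh c β' t i : ℕ) = -(V : ℤ) := by
      show (((β i + lf c t i).toNat : ℕ) : ℤ) - (((β' i + lf c t i).toNat : ℕ) : ℤ) = -(V : ℤ)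
      rw [hβ'd]
      have h2 := ht i
      rw [Int.toNat_of_nonneg h2, Int.toNat_of_nonneg (by simp only; omega)]
      ring
    rw [h1, dvd_neg]
    unfold pr at hl
    rw [mem_filter, mem_Icc] at hl
    have h3 : l ∣ V := by
      rw [hVd]
      exact Dvd.dvd.mul_right (Nat.dvd_factorial hl.1.1 (hl.1.2.trans hy)) _
    exact_mod_cast h3
  have hPol : Pol A' P := hA'd ▸ u10_pol D a P hP hD (A + 1)
  have hBL : Lin A' B := u10_lin (by omega) hB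
  have hch := W10_chain (tb 0 s)
    (fun a b t => SSf ((pr b).filter (fun l => a < l)) (sys B P (hh c β' t)))
    (fun a b m t h1 h2 => w10_mul2 _ a b m h1 h2) cB hcB z0 hz02 hz04 z'
    (fun a b h1 h2 h3 h4 => hblk a b (hz0B.trans h1) h2 h3 B hBL P hPol _ (tb 0 s) (hh c β')
      (u10_mono (Nat.pow_le_pow_left (h2.trans h4) 4) hG)) z hz hzz'
  rw [← hc0d] at hch
  obtain ⟨u, hu⟩ : ∃ u : ℝ, u = (z : ℝ) ^ (-c0) := ⟨_, rfl⟩
  have hu0 : 0 < u := by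
    rw [hu]
    exact Real.rpow_pos_of_pos hzp _
  rw [← hu] at hch ⊢
  have hsub : ((tb 0 s).filter fun t => (∀ i, 0 ≤ β i + lf c t i) ∧
      (4 + 2 * (2 * (A : ℝ)) ^ d) * u * SSf (pr z) (sys B P (hh c β t)) <
        |SSf (pr z') (sys B P (hh c β t)) - SSf (pr z) (sys B P (hh c β t))|) ⊆
      (tb 0 s).filter fun t => 4 * u <
        |SSf ((pr z').filter (fun l => z < l)) (sys B P (hh c β' t)) - 1| := by
    intro t ht
    rw [mem_filter] at ht ⊢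
    obtain ⟨ht1, ht2, ht3⟩ := ht
    refine ⟨ht1, ?_⟩
    rw [hmod t ht2 z hzz', hmod t ht2 z' le_rfl, w10_mul (sys B P (hh c β' t)) z z' hzz'] at ht3
    have hs0 : 0 ≤ SSf (pr z) (sys B P (hh c β' t)) :=
      (T5_up (sys B P (hh c β' t)) z (by omega) (pr z) (Finset.Subset.refl _)).1
    obtain ⟨σ, hσ⟩ : ∃ σ : ℝ, σ = SSf (pr z) (sys B P (hh c β' t)) := ⟨_, rfl⟩
    obtain ⟨ρ, hρ⟩ : ∃ ρ : ℝ, ρ = SSf ((pr z').filter (fun l => z < l)) (sys B P (hh c β' t)) := ⟨_, rfl⟩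
    rw [← hσ, ← hρ] at ht3
    rw [← hσ] at hs0
    rw [← hρ]
    have h1 : |σ * ρ - σ| = σ * |ρ - 1| := by
      rw [show σ * ρ - σ = σ * (ρ - 1) by ring, abs_mul, abs_of_nonneg hs0]
    rw [h1] at ht3
    by_contra hlt
    rw [not_lt] at hlt
    have h2 : σ * |ρ - 1| ≤ σ * (4 * u) := mul_le_mul_of_nonneg_left hlt hs0
    have h3 : 0 ≤ 2 * (2 * (A : ℝ)) ^ d * u * σ := by positivity
    nlinarith
  have hcd : ((tb 0 s).card : ℝ) ≤ (2 * A) ^ d * (Z : ℝ) ^ (∑ j, e j) := by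
    rw [hsd]
    exact u10_card e A Z hA hZ1
  have hZs : (0 : ℝ) ≤ (Z : ℝ) ^ (∑ j, e j) := by positivity
  calc ((((tb 0 s).filter fun t => (∀ i, 0 ≤ β i + lf c t i) ∧
      (4 + 2 * (2 * (A : ℝ)) ^ d) * u * SSf (pr z) (sys B P (hh c β t)) <
        |SSf (pr z') (sys B P (hh c β t)) - SSf (pr z) (sys B P (hh c β t))|).card : ℕ) : ℝ)
      ≤ ((((tb 0 s).filter fun t => 4 * u <
        |SSf ((pr z').filter (fun l => z < l)) (sys B P (hh c β' t)) - 1|).card : ℕ) : ℝ) := by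
        exact_mod_cast card_le_card hsub
    _ ≤ 2 * (tb 0 s).card * u := hch
    _ ≤ 2 * ((2 * A) ^ d * (Z : ℝ) ^ (∑ j, e j)) * u := by
        refine mul_le_mul_of_nonneg_right ?_ hu0.le
        linarith
    _ ≤ (4 + 2 * (2 * A) ^ d) * (Z : ℝ) ^ (∑ j, e j) * u := by
        refine mul_le_mul_of_nonneg_right ?_ hu0.le
        nlinarith

end Pool.Agent.HLA
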