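import Pool.Agent.Lib.HLA.N1
import Pool.Agent.Lib.HLA.W10

/-!
# LOGA, chunk N6 (M): truncation and blocks of the singular series without linear coordinate
-/

open Finset Polynomial

namespace Pool.Agent.HLA

open Pool.Agent.Lib.H68T Pool.Agent.Lib.H18Q Pool.Agent.Lib.H59P Pool.Agent.Lib.H24P
open Pool.Agent.HUP Pool.Agent.H9P

theorem n6_filter (Q : ℕ) : (pr Q).filter (fun l => ¬ l ∣ 1) = pr Q := by
  refine Finset.filter_true_of_mem fun l hl h => ?_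
  have h1 : l.Prime := (Finset.mem_filter.1 hl).2
  exact h1.one_lt.ne' (Nat.dvd_one.1 h)

/-- `R6_main` (`HUP/R6.lean`) without `B`, `R = 1`. Proof. As there with `N1_main`, `N1_abs`, and `w10_point` (`W10A.lean`) with `P' = pr Q`, `E = fl Q (1/2)` (`SF (fl Q (1/2)) 1 = dv (pr Q) Q (fl Q (1/2))`, `t5_SF` with `R = 1`). -/
theorem N6_trunc (k A E : ℕ) (hA : 1 ≤ A) (Cc cc : ℝ) (hC : FPar Cc cc) : ∃ c : ℝ, 0 < c ∧ ∃ Q0 : ℕ, ∀ Q : ℕ, Q0 ≤ Q →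
    ∀ P : Fin k → ℤ[X], Pol A P → ∀ (ι : Type) (S : Finset ι) (g : ι → Fin k → ℕ), FGood E Cc cc (Q ^ 2) P S g →
    ∑ x ∈ S, (∑ d ∈ SF (fl Q (1 / 2)) 1, tdf d (ran P (g x)) - SSf (pr Q) (ran P (g x))) ^ 2 ≤ S.card * (Q : ℝ) ^ (-c) := by
  classical
  obtain ⟨E0, hE0d⟩ : ∃ E0 : ℕ, E0 = E := ⟨E, rfl⟩
  rw [← hE0d]
  clear hE0d E
  obtain ⟨C3, c3, hC3, hc3, hc31, h3⟩ := N1_main k E0 Cc cc hC
  obtain ⟨C1, hC1, h1⟩ := N1_abs k A hA
  obtain ⟨Q1, hQ1, hlog⟩ := G1_rlog ((1 + C1 * 500 ^ k) ^ 2 * C3) (2 * (k + 1) + C3) (c3 / 8)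
    (by linarith)
  obtain ⟨Q2, hQ2, hsize⟩ := G1_size A
  refine ⟨c3 / 8, by linarith, max 3 (max Q1 Q2), fun Q hQ P hP ι S g hG => ?_⟩
  obtain ⟨R, hRd⟩ : ∃ R : ℕ, R = 1 := ⟨1, rfl⟩
  have hR1 : 1 ≤ R := hRd.ge
  have hprR : (pr Q).filter (fun l => ¬ l ∣ R) = pr Q := by
    rw [hRd]
    exact n6_filter Q
  have hflR : SF (fl Q (1 / 2)) 1 = SF (fl Q (1 / 2) / R) R := by
    rw [hRd, Nat.div_one]
  rw [← hprR, hflR]
  have hQ3 : 3 ≤ Q := (le_max_left _ _).trans hQ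
  have hQQ1 : Q1 ≤ Q := (le_max_left _ _).trans ((le_max_right _ _).trans hQ)
  have hQQ2 : Q2 ≤ Q := (le_max_right _ _).trans ((le_max_right _ _).trans hQ)
  have hQr : (1 : ℝ) ≤ Q := by exact_mod_cast (show 1 ≤ Q by omega)
  have hQ0 : (0 : ℝ) < Q := by linarith
  have hL : 0 ≤ Real.log Q := Real.log_nonneg hQr
  obtain ⟨-, -, -, hEE, hEbig⟩ := hsize Q hQQ2 1 1 le_rfl hA (by rw [one_pow]; omega)
  have hR : R ≤ fl Q (1 / 16) := by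
    rw [hRd]
    exact (G1_one (by omega) (by norm_num)).1
  have hEb := hEbig R hR1 hR
  have hone : (1 : ℝ) ≤ (Q : ℝ) ^ (1 / 4 : ℝ) := Real.one_le_rpow hQr (by norm_num)
  have hE1 : 1 ≤ fl Q (1 / 2) / R := by exact_mod_cast hone.trans hEb
  have hEQ : fl Q (1 / 2) / R ≤ Q := by
    refine (Nat.div_le_self _ _).trans ?_
    exact G1_le (by omega) (by norm_num) (by norm_num)
  set E := fl Q (1 / 2) / R with hE
  set P' := (pr Q).filter (fun l => ¬ l ∣ R) with hP'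
  have hsub : P' ⊆ pr Q := Finset.filter_subset _ _
  have hvol : (0 : ℝ) ≤ S.card := Nat.cast_nonneg _
  have hE0 : (0 : ℝ) < E := by exact_mod_cast hE1
  have hmvs : ∀ j, j ≤ Q → ∑ x ∈ S, (∑ d ∈ mv P' j E, tdf d (ran P (g x))) ^ 2 ≤
      C3 * (1 + Real.log Q) ^ C3 * (S.card : ℝ) * (E : ℝ) ^ (-c3) := fun j hj =>
    h3 P Q (by omega) (mv P' j E) E hE1 (fun d hd => by
      obtain ⟨m1, m2, m3, m4⟩ := t5_mv hEQ (one_dvd R) hj d hd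
      exact ⟨m1, m2, m3, fun l hl => (m4 l hl).1⟩) ι S g hG
  have hW : 0 ≤ C3 * (1 + Real.log Q) ^ C3 * (S.card : ℝ) * (E : ℝ) ^ (-c3) := by
    have : 0 ≤ (1 + Real.log Q) ^ C3 := Real.rpow_nonneg (by linarith) _
    have : 0 ≤ (E : ℝ) ^ (-c3) := Real.rpow_nonneg hE0.le _
    positivity
  have hkey := t5_mink S P' (fun q => C1 / q * (500 * Real.log Q) ^ k)
    (fun q _ => by positivity)
    (fun x => ∑ m ∈ mv P' Q E, tdf m (ran P (g x)))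
    (fun q x => ∑ m ∈ mv P' (q - 1) E, tdf m (ran P (g x)))
    (fun x => ∑ d ∈ SF E R, tdf d (ran P (g x)) - SSf P' (ran P (g x)))
    ((1 + C1 * 500 ^ k) * (1 + Real.log Q) ^ (k + 1)) _ hW ?_ (hmvs Q le_rfl)
    (fun q hq => hmvs (q - 1) ?_) (fun x _ => t5_point (ran P (g x)) C1 (fun l hl => h1 P hP (g x) l hl)
      (by omega) hE1 hEQ hR1)
  · refine hkey.trans ?_
    have e1 : (E : ℝ) ^ (-c3) ≤ (Q : ℝ) ^ (-(c3 / 4)) := by
      calc (E : ℝ) ^ (-c3) ≤ ((Q : ℝ) ^ (1 / 4 : ℝ)) ^ (-c3) :=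
            Real.rpow_le_rpow_of_nonpos (by linarith) hEb (by linarith)
        _ = (Q : ℝ) ^ (-(c3 / 4)) := by
            rw [← Real.rpow_mul hQ0.le]
            congr 1
            ring
    have e2 := hlog Q hQQ1
    have e3 : ((1 + C1 * 500 ^ k) * (1 + Real.log Q) ^ (k + 1)) ^ 2 *
        (C3 * (1 + Real.log Q) ^ C3) =
        (1 + C1 * 500 ^ k) ^ 2 * C3 * (1 + Real.log Q) ^ (2 * (k + 1) + C3) := by
      have hp : 0 < 1 + Real.log Q := by linarith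
      have e4 : (1 + Real.log Q) ^ (2 * ((k : ℝ) + 1) + C3) =
          ((1 + Real.log Q) ^ (k + 1)) ^ 2 * (1 + Real.log Q) ^ C3 := by
        rw [Real.rpow_add hp]
        congr 1
        rw [← pow_mul, ← Real.rpow_natCast]
        congr 1
        push_cast
        ring
      rw [e4]
      ring
    calc ((1 + C1 * 500 ^ k) * (1 + Real.log Q) ^ (k + 1)) ^ 2 *
          (C3 * (1 + Real.log Q) ^ C3 * (S.card : ℝ) * (E : ℝ) ^ (-c3))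
        = (((1 + C1 * 500 ^ k) * (1 + Real.log Q) ^ (k + 1)) ^ 2 *
          (C3 * (1 + Real.log Q) ^ C3)) * (S.card : ℝ) * (E : ℝ) ^ (-c3) := by ring
      _ ≤ (Q : ℝ) ^ (c3 / 8) * (S.card : ℝ) * (Q : ℝ) ^ (-(c3 / 4)) := by
          rw [e3]
          refine mul_le_mul (mul_le_mul_of_nonneg_right e2 hvol) e1 (Real.rpow_nonneg hE0.le _) ?_
          exact mul_nonneg (Real.rpow_nonneg hQ0.le _) hvol
      _ = (S.card : ℝ) * ((Q : ℝ) ^ (c3 / 8) * (Q : ℝ) ^ (-(c3 / 4))) := by ring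
      _ = (S.card : ℝ) * (Q : ℝ) ^ (-(c3 / 8)) := by
          rw [← Real.rpow_add hQ0]
          congr 2
          ring
  · have f1 := t5_harm Q P' hsub
    have f2 : ∑ q ∈ P', C1 / (q : ℝ) * (500 * Real.log Q) ^ k =
        (C1 * (500 * Real.log Q) ^ k) * ∑ q ∈ P', 1 / (q : ℝ) := by
      rw [Finset.mul_sum]
      refine Finset.sum_congr rfl fun q _ => ?_
      ring
    rw [f2]
    have f3 : (500 * Real.log Q) ^ k ≤ 500 ^ k * (1 + Real.log Q) ^ k := by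
      rw [mul_pow]
      refine mul_le_mul_of_nonneg_left ?_ (by positivity)
      exact pow_le_pow_left₀ hL (by linarith) _
    have f4 : (1 : ℝ) ≤ (1 + Real.log Q) ^ (k + 1) := one_le_pow₀ (by linarith)
    have f5 : 0 ≤ C1 * (500 * Real.log Q) ^ k := by positivity
    have f6 : C1 * (500 * Real.log Q) ^ k * ∑ q ∈ P', 1 / (q : ℝ) ≤
        C1 * (500 ^ k * (1 + Real.log Q) ^ k) * (1 + Real.log Q) := by
      refine mul_le_mul (mul_le_mul_of_nonneg_left f3 (by linarith)) f1 ?_ ?_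
      · exact Finset.sum_nonneg fun q _ => by positivity
      · have : 0 ≤ 1 + Real.log Q := by linarith
        positivity
    calc 1 + C1 * (500 * Real.log Q) ^ k * ∑ q ∈ P', 1 / (q : ℝ)
        ≤ (1 + Real.log Q) ^ (k + 1) +
          C1 * (500 ^ k * (1 + Real.log Q) ^ k) * (1 + Real.log Q) := add_le_add f4 f6
      _ = (1 + C1 * 500 ^ k) * (1 + Real.log Q) ^ (k + 1) := by ring
  · have h7 := (Finset.mem_Icc.1 (Finset.mem_filter.1 (hsub hq)).1).2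
    omega

/-- **N6.** Proof. `w10_gen` with `k' = k`, `N1_abs`, `N1_main` at the level `Q = z'` (`FGood` at `z'² ≤ z⁴`: `u10_mono`), `z1 = 0`. (Compare `W10_block`.) -/
theorem N6_block (k A E : ℕ) (hA : 1 ≤ A) (Cc cc : ℝ) (hC : FPar Cc cc) : ∃ c : ℝ, 0 < c ∧ ∃ z0 : ℕ, ∀ z z' : ℕ,
    z0 ≤ z → z ≤ z' → z' ≤ z ^ 2 → ∀ P : Fin k → ℤ[X], Pol A P →
    ∀ (ι : Type) (S : Finset ι) (g : ι → Fin k → ℕ), FGood E Cc cc (z ^ 4) P S g →
    ∑ x ∈ S, (SSf ((pr z').filter (fun l => z < l)) (ran P (g x)) - 1) ^ 2 ≤ S.card * (z : ℝ) ^ (-c) := by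
  obtain ⟨C1, hC1, h1⟩ := N1_abs k A hA
  obtain ⟨C3, c3, hC3, hc3, -, h3⟩ := N1_main k E Cc cc hC
  obtain ⟨z0, hz0⟩ := w10_gen k C1 C3 c3 hC1 hC3 hc3 0
  refine ⟨c3 / 2, by linarith, max z0 2, fun z z' hz hzz hzz2 P hP ι S g hG => ?_⟩
  have hz2 : 2 ≤ z' := ((le_max_right _ _).trans hz).trans hzz
  refine hz0 z z' ((le_max_left _ _).trans hz) hzz hzz2 ι S (fun x => ran P (g x)) (fun x l hl => h1 P hP (g x) l hl) ?_
  intro Δ D hD hΔ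
  have hG' : FGood E Cc cc (z' ^ 2) P S g := by
    refine u10_mono ?_ hG
    calc z' ^ 2 ≤ (z ^ 2) ^ 2 := Nat.pow_le_pow_left hzz2 2
      _ = z ^ 4 := by ring
  exact h3 P z' hz2 Δ D hD (fun d hd => ⟨(hΔ d hd).1, (hΔ d hd).2.1, (hΔ d hd).2.2.1, fun l hl => ((hΔ d hd).2.2.2 l hl).1⟩)
    ι S g hG'

/-- `U10_mod` without `B`. -/
theorem N6_mod {k : ℕ} (S : Finset ℕ) (P : Fin k → ℤ[X]) (h h' : Fin k → ℕ)
    (hh : ∀ l ∈ S, ∀ i, (l : ℤ) ∣ (h i : ℤ) - h' i) : SSf S (ran P h) = SSf S (ran P h') := by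
  unfold SSf
  refine Finset.prod_congr rfl fun l hl => ?_
  unfold tpf
  have h1 : ∀ n : ℤ, ∏ i, (1 + gl l (ran P h i n)) = ∏ i, (1 + gl l (ran P h' i n)) := by
    intro n
    refine Finset.prod_congr rfl fun j _ => ?_
    obtain ⟨q, hq⟩ := hh l hl j
    show 1 + gl l ((P j).eval n + (h j : ℤ)) = 1 + gl l ((P j).eval n + (h' j : ℤ))
    have h2 : (P j).eval n + (h j : ℤ) = ((P j).eval n + (h' j : ℤ)) + q * l := by linarith
    rw [h2, gl_per]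
  simp only [h1]

/-- **N6b.** Copy of `W10_main` with `N6_block`, `N6_mod`. -/
theorem N6_main {k d : ℕ} (c : Fin k → Fin d → ℤ) (e : Fin d → ℕ) (D : Fin k → ℕ) (a : Fin k → ℤ)
    (hF : FGTU c D a) (he : ∀ j, 1 ≤ e j) (hD : ∀ i, 1 ≤ D i) (P : Fin k → ℤ[X]) (hP : HasD D a P) :
    ∃ δ1 : ℝ, 0 < δ1 ∧ ∀ A : ℕ, ∃ c0 C1 : ℝ, 0 < c0 ∧ 1 ≤ C1 ∧ ∃ z0 : ℕ, ∀ z z' Z : ℕ, z0 ≤ z → z ≤ z' →
    (z' : ℝ) ≤ (Z : ℝ) ^ δ1 → ∀ β : Fin k → ℤ,
    (((tb 0 fun j => A * Z ^ e j + 1).filter fun t => (∀ i, 0 ≤ β i + lf c t i) ∧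
      C1 * (z : ℝ) ^ (-c0) * SSf (pr z) (ran P (hh c β t)) <
        |SSf (pr z') (ran P (hh c β t)) - SSf (pr z) (ran P (hh c β t))|).card : ℝ) ≤
      C1 * (Z : ℝ) ^ (∑ j, e j) * (z : ℝ) ^ (-c0) := by
  classical
  obtain ⟨E, Cc, cc, hpar, hFG⟩ := hF
  obtain ⟨δ1, hδ1d⟩ : ∃ δ1 : ℝ, δ1 = 1 / (4 * E + 4) := ⟨_, rfl⟩
  have hE0 : (0 : ℝ) ≤ E := Nat.cast_nonneg E
  have hδ10 : 0 < δ1 := by
    rw [hδ1d]
    positivity
  have hδ1E : δ1 * (4 * E) ≤ 1 := by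
    rw [hδ1d, div_mul_eq_mul_div, one_mul, div_le_one (by positivity)]
    linarith
  refine ⟨δ1, hδ10, fun A0 => ?_⟩
  obtain ⟨A, hAd⟩ : ∃ A : ℕ, A = A0 + 1 := ⟨_, rfl⟩
  have hA : 1 ≤ A := by omega
  obtain ⟨A', hA'd⟩ : ∃ A' : ℕ, A' = A + ∑ i, D i + ∑ i, (a i).natAbs := ⟨_, rfl⟩
  obtain ⟨cb, hcb, z1, hblk⟩ := N6_block k A' E (by omega) Cc cc hpar
  have hc4 : 0 < cb / 4 := by linarith
  have hVd0 : (0 : ℝ) ≤ (2 * A : ℝ) ^ d := by positivity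
  refine ⟨cb / 4, 4 + 2 * (2 * A) ^ d, hc4, by linarith, max z1 (max 2 ⌈(4 : ℝ) ^ (1 / (cb / 4))⌉₊), ?_⟩
  obtain ⟨z0, hz0d⟩ : ∃ z0 : ℕ, z0 = max z1 (max 2 ⌈(4 : ℝ) ^ (1 / (cb / 4))⌉₊) := ⟨_, rfl⟩
  rw [← hz0d]
  intro z z' Z hz hzz hzZ β
  have hz01 : z1 ≤ z0 := hz0d ▸ le_max_left _ _
  have hz02 : 2 ≤ z0 := hz0d ▸ (le_max_left _ _).trans (le_max_right _ _)
  have hz03 : ⌈(4 : ℝ) ^ (1 / (cb / 4))⌉₊ ≤ z0 := hz0d ▸ (le_max_right _ _).trans (le_max_right _ _)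
  have hz04 : (4 : ℝ) ≤ (z0 : ℝ) ^ (cb / 4) := by
    have h1 : (4 : ℝ) ^ (1 / (cb / 4)) ≤ z0 := (Nat.le_ceil _).trans (by exact_mod_cast hz03)
    have h2 := Real.rpow_le_rpow (by positivity) h1 hc4.le
    rwa [← Real.rpow_mul (by norm_num : (0 : ℝ) ≤ 4), one_div, inv_mul_cancel₀ hc4.ne', Real.rpow_one] at h2
  have hz1 : 1 ≤ z := by omega
  have hzr : (1 : ℝ) ≤ z := by exact_mod_cast hz1
  have hzp : (0 : ℝ) < z := by linarith
  have hz'1 : 1 ≤ z' := by omega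
  have hz'r : (1 : ℝ) ≤ z' := by exact_mod_cast hz'1
  have hZ1 : 1 ≤ Z := by
    rcases Nat.eq_zero_or_pos Z with h | h
    · rw [h, Nat.cast_zero, Real.zero_rpow hδ10.ne'] at hzZ
      linarith
    · exact h
  have hZr : (1 : ℝ) ≤ Z := by exact_mod_cast hZ1
  have hZ0 : (0 : ℝ) < Z := by linarith
  have hwE : (z' ^ 4) ^ E ≤ Z := by
    have h1 : ((z' : ℝ) ^ 4) ^ E ≤ Z := by
      calc ((z' : ℝ) ^ 4) ^ E = (z' : ℝ) ^ (4 * E) := (pow_mul _ _ _).symm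
        _ ≤ ((Z : ℝ) ^ δ1) ^ (4 * E) := pow_le_pow_left₀ (Nat.cast_nonneg z') hzZ _
        _ = (Z : ℝ) ^ (δ1 * (4 * E)) := by
            rw [← Real.rpow_natCast, ← Real.rpow_mul hZ0.le]
            congr 1
            push_cast
            ring
        _ ≤ (Z : ℝ) ^ (1 : ℝ) := Real.rpow_le_rpow_of_exponent_le hZr hδ1E
        _ = Z := Real.rpow_one _
    exact_mod_cast h1
  obtain ⟨s, hsd⟩ : ∃ s : Fin d → ℕ, s = fun j => A * Z ^ e j + 1 := ⟨_, rfl⟩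
  have hsj : ∀ j, (z' ^ 4) ^ E ≤ s j := by
    intro j
    rw [hsd]
    have h1 : Z ≤ Z ^ e j := by
      calc Z = Z ^ 1 := (pow_one Z).symm
        _ ≤ Z ^ e j := Nat.pow_le_pow_right hZ1 (he j)
    have h2 : Z ^ e j ≤ A * Z ^ e j := Nat.le_mul_of_pos_left _ hA
    show (z' ^ 4) ^ E ≤ A * Z ^ e j + 1
    omega
  have hbox : (tb 0 fun j => A0 * Z ^ e j + 1) ⊆ tb 0 s := by
    intro t ht
    unfold tb at ht ⊢
    rw [Fintype.mem_piFinset] at ht ⊢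
    intro j
    have h1 := Finset.mem_Ico.1 (ht j)
    refine Finset.mem_Ico.2 ⟨h1.1, lt_of_lt_of_le h1.2 ?_⟩
    have h2 : A0 * Z ^ e j + 1 ≤ s j := by
      rw [hsd, hAd]
      exact Nat.add_le_add_right (Nat.mul_le_mul_right _ (Nat.le_succ _)) 1
    have h3 : ((A0 * Z ^ e j + 1 : ℕ) : ℤ) ≤ (s j : ℤ) := by exact_mod_cast h2
    exact add_le_add_right h3 _
  obtain ⟨N, hNd⟩ : ∃ N : ℕ, N = ∑ i, (β i).natAbs + ∑ t ∈ tb 0 s, ∑ i, (lf c t i).natAbs := ⟨_, rfl⟩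
  obtain ⟨V, hVd⟩ : ∃ V : ℕ, V = z'.factorial * N := ⟨_, rfl⟩
  have hNV : N ≤ V := by
    rw [hVd]
    exact Nat.le_mul_of_pos_left _ (Nat.factorial_pos z')
  obtain ⟨β', hβ'd⟩ : ∃ β' : Fin k → ℤ, β' = fun i => β i + (V : ℤ) := ⟨_, rfl⟩
  have hnn : ∀ t ∈ tb 0 s, ∀ i, 0 ≤ β' i + lf c t i := by
    intro t ht i
    have h1 := Finset.single_le_sum (f := fun i => (β i).natAbs) (fun _ _ => Nat.zero_le _) (mem_univ i)
    have h2 := Finset.single_le_sum (f := fun i => (lf c t i).natAbs) (fun _ _ => Nat.zero_le _) (mem_univ i)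
    have h3 := Finset.single_le_sum (f := fun t => ∑ i, (lf c t i).natAbs) (fun _ _ => Nat.zero_le _) ht
    rw [hβ'd]
    show 0 ≤ β i + (V : ℤ) + lf c t i
    omega
  have hG : FGood E Cc cc (z' ^ 4) P (tb 0 s) (hh c β') :=
    hFG P hP (z' ^ 4) 0 s β' (Nat.one_le_pow _ _ hz'1) hsj hnn
  have hmod : ∀ t : Fin d → ℤ, (∀ i, 0 ≤ β i + lf c t i) → ∀ y : ℕ, y ≤ z' →
      SSf (pr y) (ran P (hh c β t)) = SSf (pr y) (ran P (hh c β' t)) := by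
    intro t ht y hy
    refine N6_mod _ P _ _ fun l hl i => ?_
    have h1 : ((hh c β t i : ℕ) : ℤ) - (hh c β' t i : ℕ) = -(V : ℤ) := by
      show (((β i + lf c t i).toNat : ℕ) : ℤ) - (((β' i + lf c t i).toNat : ℕ) : ℤ) = -(V : ℤ)
      rw [hβ'd]
      have h2 := ht i
      rw [Int.toNat_of_nonneg h2, Int.toNat_of_nonneg (by simp only; omega)]
      ring
    rw [h1, dvd_neg]
    unfold pr at hl
    rw [mem_filter, mem_Icc] at hl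
    have h3 : l ∣ V := by
      rw [hVd]
      exact Dvd.dvd.mul_right (Nat.dvd_factorial hl.1.1 (hl.1.2.trans hy)) _
    exact_mod_cast h3
  have hPol : Pol A' P := hA'd ▸ u10_pol D a P hP hD A
  have hch := W10_chain (tb 0 s) (fun x y t => SSf ((pr y).filter (fun l => x < l)) (ran P (hh c β' t)))
    (fun x y m t hxy hym => w10_mul2 _ x y m hxy hym) cb hcb z0 hz02 hz04 z'
    (fun x y hx hxy hyx hyz => hblk x y (hz01.trans hx) hxy hyx P hPol _ (tb 0 s) (hh c β')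
      (u10_mono (Nat.pow_le_pow_left (hxy.trans hyz) 4) hG)) z hz hzz
  have hT : 0 < (z : ℝ) ^ (-(cb / 4)) := Real.rpow_pos_of_pos hzp _
  have hsub : ((tb 0 fun j => A0 * Z ^ e j + 1).filter fun t => (∀ i, 0 ≤ β i + lf c t i) ∧
      (4 + 2 * (2 * (A : ℝ)) ^ d) * (z : ℝ) ^ (-(cb / 4)) * SSf (pr z) (ran P (hh c β t)) <
        |SSf (pr z') (ran P (hh c β t)) - SSf (pr z) (ran P (hh c β t))|) ⊆
      (tb 0 s).filter fun t => 4 * (z : ℝ) ^ (-(cb / 4)) <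
        |SSf ((pr z').filter (fun l => z < l)) (ran P (hh c β' t)) - 1| := by
    intro t ht
    rw [mem_filter] at ht ⊢
    refine ⟨hbox ht.1, ?_⟩
    obtain ⟨-, ht1, ht2⟩ := ht
    rw [hmod t ht1 z hzz, hmod t ht1 z' le_rfl] at ht2
    by_contra hcon
    rw [not_lt] at hcon
    rw [w10_mul (ran P (hh c β' t)) z z' hzz] at ht2
    have hS0 : 0 ≤ SSf (pr z) (ran P (hh c β' t)) := (T5_up _ z (by omega) (pr z) (Finset.Subset.refl _)).1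
    have h1 : |SSf (pr z) (ran P (hh c β' t)) * SSf ((pr z').filter (fun l => z < l)) (ran P (hh c β' t)) -
        SSf (pr z) (ran P (hh c β' t))| =
        SSf (pr z) (ran P (hh c β' t)) * |SSf ((pr z').filter (fun l => z < l)) (ran P (hh c β' t)) - 1| := by
      rw [← abs_of_nonneg hS0, ← abs_mul, abs_of_nonneg hS0]
      congr 1
      ring
    rw [h1] at ht2
    have h2 := mul_le_mul_of_nonneg_left hcon hS0
    have h3 : 0 ≤ 2 * (2 * (A : ℝ)) ^ d * ((z : ℝ) ^ (-(cb / 4)) * SSf (pr z) (ran P (hh c β' t))) :=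
      mul_nonneg (mul_nonneg (by norm_num) hVd0) (mul_nonneg hT.le hS0)
    nlinarith
  have hcd : ((tb 0 s).card : ℝ) ≤ (2 * A) ^ d * (Z : ℝ) ^ (∑ j, e j) := by
    rw [hsd]
    exact u10_card e A Z hA hZ1
  have hZs : (0 : ℝ) ≤ (Z : ℝ) ^ (∑ j, e j) := by positivity
  calc ((((tb 0 fun j => A0 * Z ^ e j + 1).filter fun t => (∀ i, 0 ≤ β i + lf c t i) ∧
      (4 + 2 * (2 * (A : ℝ)) ^ d) * (z : ℝ) ^ (-(cb / 4)) * SSf (pr z) (ran P (hh c β t)) <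
        |SSf (pr z') (ran P (hh c β t)) - SSf (pr z) (ran P (hh c β t))|).card : ℕ) : ℝ)
      ≤ ((((tb 0 s).filter fun t => 4 * (z : ℝ) ^ (-(cb / 4)) <
        |SSf ((pr z').filter (fun l => z < l)) (ran P (hh c β' t)) - 1|).card : ℕ) : ℝ) := by
        exact_mod_cast card_le_card hsub
    _ ≤ 2 * (tb 0 s).card * (z : ℝ) ^ (-(cb / 4)) := hch
    _ ≤ 2 * ((2 * A) ^ d * (Z : ℝ) ^ (∑ j, e j)) * (z : ℝ) ^ (-(cb / 4)) :=
        mul_le_mul_of_nonneg_right (mul_le_mul_of_nonneg_left hcd (by norm_num)) hT.le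
    _ ≤ (4 + 2 * (2 * A) ^ d) * (Z : ℝ) ^ (∑ j, e j) * (z : ℝ) ^ (-(cb / 4)) := by
        refine mul_le_mul_of_nonneg_right ?_ hT.le
        nlinarith

end Pool.Agent.HLA
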