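import Pool.Agent.Lib.H9P.V0
import Pool.Agent.Lib.H9P.U13
import Pool.Agent.Lib.HUP.Z0

/-!
# Project LOGA (MP_0bf1d2_nt): the asymptotic formula for EVERY large `N`, any exponent of the logarithm. Definitions

See `PROOF.md` in this folder.
-/

open Finset Polynomial

namespace Pool.Agent.HLA

open Pool.Agent.Lib.H68T Pool.Agent.Lib.H18Q Pool.Agent.Lib.H59P Pool.Agent.Lib.H24P
open Pool.Agent.HUP Pool.Agent.H9P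

noncomputable section

/-- The length `Z'` is comparable with the scale `Z`, and on `[θ Z', (1 - θ) Z']` all values of the system (linear coordinate `0`,
coordinates `i.succ` of degree `D i`) have the expected sizes. -/
structure Reg (A : ℕ) (κ θ v : ℝ) (Z Z' : ℕ) {k : ℕ} (D : Fin k → ℕ) (φ : Fin (k + 1) → ℤ → ℤ) : Prop where
  le : Z' ≤ Z
  ge : κ * Z ≤ Z'
  val0 : ∀ n : ℕ, θ * Z' ≤ n → (n : ℝ) ≤ (1 - θ) * Z' →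
    v * Z ≤ ((φ 0 (n : ℤ) : ℤ) : ℝ) ∧ ((φ 0 (n : ℤ) : ℤ) : ℝ) ≤ A * Z
  val : ∀ n : ℕ, θ * Z' ≤ n → (n : ℝ) ≤ (1 - θ) * Z' → ∀ i : Fin k,
    v * (Z : ℝ) ^ D i ≤ ((φ i.succ (n : ℤ) : ℤ) : ℝ) ∧ ((φ i.succ (n : ℤ) : ℤ) : ℝ) ≤ A * (Z : ℝ) ^ D i

/-- The same without the linear coordinate. -/
structure RegN (A : ℕ) (κ θ v : ℝ) (Z Z' : ℕ) {k : ℕ} (D : Fin k → ℕ) (φ : Fin k → ℤ → ℤ) : Prop where
  le : Z' ≤ Z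
  ge : κ * Z ≤ Z'
  val : ∀ n : ℕ, θ * Z' ≤ n → (n : ℝ) ≤ (1 - θ) * Z' → ∀ i : Fin k,
    v * (Z : ℝ) ^ D i ≤ ((φ i (n : ℤ) : ℤ) : ℝ) ∧ ((φ i (n : ℤ) : ℤ) : ℝ) ≤ A * (Z : ℝ) ^ D i

/-- The expected density without the linear coordinate. -/
def densN {k : ℕ} (D : Fin k → ℕ) (z Z : ℕ) (φ : Fin k → ℤ → ℤ) : ℝ :=
  SSf (pr z) φ / ((∏ i, (D i : ℝ)) * (Real.log Z) ^ k)

open Classical in
/-- **The core statement**, with a fixed linear coordinate `B`, for every large `Z`. -/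
def ACore {k d : ℕ} (c : Fin k → Fin d → ℤ) (e : Fin d → ℕ) (D : Fin k → ℕ) (P : Fin k → ℤ[X]) : Prop :=
  ∃ δ1 : ℝ, 0 < δ1 ∧ ∀ A : ℕ, ∃ c0 : ℝ, 0 < c0 ∧ ∀ (ε κ : ℝ) (vf : ℝ → ℝ), 0 < ε → 0 < κ →
    (∀ θ : ℝ, 0 < θ → 0 < vf θ) → ∃ (θ C1 : ℝ) (Z0 : ℕ), 0 < θ ∧ 0 ≤ C1 ∧ ∀ Z : ℕ, Z0 ≤ Z → ∀ B : ℤ[X], B.natDegree = 1 → B.leadingCoeff.natAbs ≤ A →
    ∀ β : Fin k → ℤ, (∀ i, |β i| ≤ A * (Z : ℤ) ^ D i) → ∀ z : ℕ, (z : ℝ) ≤ (Z : ℝ) ^ δ1 →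
    (((tb 0 fun j => A * Z ^ e j + 1).filter fun t => (∀ i, 0 ≤ β i + lf c t i) ∧ NoFix (sys B P (hh c β t)) ∧
      ∃ Z' : ℕ, Reg A κ θ (vf θ) Z Z' D (sys B P (hh c β t)) ∧ ε * (Z' * dens D z Z' (sys B P (hh c β t))) <
        |(cnt (sys B P (hh c β t)) 1 Z' : ℝ) - Z' * dens D z Z' (sys B P (hh c β t))|).card : ℝ) ≤
      (Z : ℝ) ^ (∑ j, (e j : ℝ)) * ((Real.log Z) ^ (-(A : ℝ)) + C1 * ((z : ℝ) + 1) ^ (-c0))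

open Classical in
/-- **The core statement without a linear coordinate.** (`ran P h` is the system `P_i(n) + h_i`.) -/
def NCore {k d : ℕ} (c : Fin k → Fin d → ℤ) (e : Fin d → ℕ) (D : Fin k → ℕ) (P : Fin k → ℤ[X]) : Prop :=
  ∃ δ1 : ℝ, 0 < δ1 ∧ ∀ A : ℕ, ∃ c0 : ℝ, 0 < c0 ∧ ∀ (ε κ : ℝ) (vf : ℝ → ℝ), 0 < ε → 0 < κ →
    (∀ θ : ℝ, 0 < θ → 0 < vf θ) → ∃ (θ C1 : ℝ) (Z0 : ℕ), 0 < θ ∧ 0 ≤ C1 ∧ ∀ Z : ℕ, Z0 ≤ Z →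
    ∀ β : Fin k → ℤ, (∀ i, |β i| ≤ A * (Z : ℤ) ^ D i) → ∀ z : ℕ, (z : ℝ) ≤ (Z : ℝ) ^ δ1 →
    (((tb 0 fun j => A * Z ^ e j + 1).filter fun t => (∀ i, 0 ≤ β i + lf c t i) ∧ NoFix (ran P (hh c β t)) ∧
      ∃ Z' : ℕ, RegN A κ θ (vf θ) Z Z' D (ran P (hh c β t)) ∧ ε * (Z' * densN D z Z' (ran P (hh c β t))) <
        |(cnt (ran P (hh c β t)) 1 Z' : ℝ) - Z' * densN D z Z' (ran P (hh c β t))|).card : ℝ) ≤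
      (Z : ℝ) ^ (∑ j, (e j : ℝ)) * ((Real.log Z) ^ (-(A : ℝ)) + C1 * ((z : ℝ) + 1) ^ (-c0))

/-- The core statements for all data. -/
def ACoreAll : Prop := ∀ (k d : ℕ) (c : Fin k → Fin d → ℤ) (e : Fin d → ℕ) (P : Fin k → ℤ[X]),
  Dat c e (fun i => (P i).natDegree) (fun i => (P i).leadingCoeff) → ACore c e (fun i => (P i).natDegree) P

def NCoreAll : Prop := ∀ (k d : ℕ) (c : Fin k → Fin d → ℤ) (e : Fin d → ℕ) (P : Fin k → ℤ[X]),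
  Dat c e (fun i => (P i).natDegree) (fun i => (P i).leadingCoeff) → NCore c e (fun i => (P i).natDegree) P

end

end Pool.Agent.HLA
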