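import Pool.Agent.Lib.HLA.W0
import Pool.Agent.Lib.H9P.E1
import Pool.Agent.Lib.H57S.S4

/-!
# LOGA, chunk W1 (M): the exceptional character does not matter outside a proportion `(log Q)^(-c2)`, EVERY `c2` (Siegel)
-/

open Finset Polynomial

namespace Pool.Agent.HLA

open Pool.Agent.Lib.H68T Pool.Agent.Lib.H18Q Pool.Agent.Lib.H59P Pool.Agent.Lib.H24P
open Pool.Agent.HUP Pool.Agent.H9P

theorem w1_exp (W a c3 ε : ℝ) (hc3 : 0 < c3) (hε : 0 < ε) : ∃ Q0 : ℕ, 1 ≤ Q0 ∧ ∀ Q : ℕ, Q0 ≤ Q →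
    W * (Real.log Q) ^ a * Real.exp (-(c3 * (Real.log Q) ^ (1 / 2 : ℝ))) ≤ ε := by
  have h1 : Filter.Tendsto (fun x : ℝ => x ^ (2 * a) * Real.exp (-c3 * x)) Filter.atTop (nhds 0) :=
    tendsto_rpow_mul_exp_neg_mul_atTop_nhds_zero (2 * a) c3 hc3
  have h2 : Filter.Tendsto (fun Q : ℕ => (Real.log Q) ^ (1 / 2 : ℝ)) Filter.atTop Filter.atTop :=
    (tendsto_rpow_atTop (by norm_num : (0 : ℝ) < 1 / 2)).comp (Real.tendsto_log_atTop.comp tendsto_natCast_atTop_atTop)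
  have h3 := (h1.comp h2).const_mul W
  rw [mul_zero] at h3
  have h4 := h3.eventually (Iio_mem_nhds hε)
  obtain ⟨N, hN⟩ := Filter.eventually_atTop.1 h4
  refine ⟨N + 1, by omega, fun Q hQ => ?_⟩
  have h5 : W * (((Real.log Q) ^ (1 / 2 : ℝ)) ^ (2 * a) * Real.exp (-c3 * (Real.log Q) ^ (1 / 2 : ℝ))) < ε := hN Q (by omega)
  have hL : 0 ≤ Real.log Q := Real.log_natCast_nonneg Q
  have h6 : ((Real.log Q) ^ (1 / 2 : ℝ)) ^ (2 * a) = (Real.log Q) ^ a := by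
    rw [← Real.rpow_mul hL]
    congr 1
    ring
  rw [h6, neg_mul, ← mul_assoc] at h5
  exact h5.le

/-- **W1.** Copy of `E1_main` (`H9P/E1.lean`) with the exponent `c2` GIVEN; the only change is the threshold for `r` and Siegel's
theorem in place of `zero_lower`. Proof. `c, C` the constants of `r12_ms` (`HUP/R12.lean`) and `X2_low` as in `E1_main`; put `b = 1 + 8 c2/c` (so
that `r > (log Q)^b` gives `r^(-c/4) ≤ (log Q)^(-2 c2)`). `E1_one` with `th0 = Q^(β-1)`, `s = c (1 + log r)^(-C)`.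
Case `r ≤ (log Q)^b`: `‖MRf‖ ≤ r^(k+1) ≤ (log Q)^(b (k+1))`; Siegel's theorem (`Pool.Agent.Lib.H57S.siegel` with the exponent `1/(2 b)`: if `1 - c'/r^(1/(2b)) ≤ β` then
`L(β, ψ) ≠ 0`, as `β < 1`) gives `(1 - β) log Q ≥ c' (log Q) r^(-1/(2b)) ≥ c' (log Q)^(1/2)`, so `Q^(β-1) ≤ exp(-c' (log Q)^(1/2))` and the error is at most
`2^(k+1) (1/c) (1 + log r)^C (log Q)^(b(k+1)) exp(-c' (log Q)^(1/2)) SSf ≤ ε SSf` for `Q` large: `Bad = ∅`.
Case `r > (log Q)^b`: `Bad` = the `x ∈ S` with `‖MRf (pB px Bs) r (sys …)‖ > r^(-c/4)` for some nonempty `Bs`, as in `E1_main`: at most `S.card r^(-c/4) ≤ S.card (log Q)^(-c2)`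
elements; outside `Bad` the error is at most `(1/c) (1 + log r)^C 2^(k+1) r^(-c/4) SSf ≤ ε SSf` (`r → ∞` with `Q`). -/
theorem W1_main (k A E : ℕ) (hA : 1 ≤ A) (Cc cc : ℝ) (hC : FPar Cc cc) (c2 ε : ℝ) (hc2 : 0 < c2) (hε : 0 < ε) :
    ∃ Q0 : ℕ, ∀ Q : ℕ, Q0 ≤ Q → ∀ B : ℤ[X], Lin A B → ∀ P : Fin k → ℤ[X], Pol A P →
    ∀ (r : ℕ) [NeZero r] (ψ : DirichletCharacter ℂ r) (β : ℝ), r ^ 100 ≤ Q → ψ.IsPrimitive →
    ψ ≠ 1 → ψ ^ 2 = 1 → β < 1 → ψ.LFunction (β : ℂ) = 0 →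
    ∀ (ι : Type) (S : Finset ι) (g : ι → Fin k → ℕ), FGood E Cc cc Q P S g →
    ∃ Bad : Finset ι, Bad ⊆ S ∧ (Bad.card : ℝ) ≤ S.card * (Real.log Q) ^ (-c2) ∧
      ∀ x ∈ S, x ∉ Bad → NoFix (sys B P (g x)) → ∀ th' : Fin (k + 1) → ℝ, (∀ i, 0 ≤ th' i) →
        (∀ i, th' i ≤ (Q : ℝ) ^ (β - 1)) →
        |PMf Q ⟨r, ψ⟩ th' (sys B P (g x)) - SSf (pr Q) (sys B P (g x))| ≤ ε * SSf (pr Q) (sys B P (g x)) := by
  classical
  obtain ⟨C, c, hC1, hc, hlow⟩ := X2_low k A hA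
  obtain ⟨CC, cc', hCC, hcc, HH⟩ := r12_ms k A E hA Cc cc hC
  obtain ⟨b, hb⟩ : ∃ b : ℝ, b = 1 + 8 * c2 / cc' := ⟨_, rfl⟩
  have hb1 : 1 ≤ b := by
    rw [hb]
    have : 0 ≤ 8 * c2 / cc' := by positivity
    linarith
  have hb0 : 0 < b := by linarith
  have hbc : c2 ≤ b * (cc' / 4) := by
    have h1 : b * (cc' / 4) = cc' / 4 + 2 * c2 := by
      rw [hb]
      field_simp
      ring
    rw [h1]
    linarith
  obtain ⟨c3, hc3, hz⟩ := Pool.Agent.Lib.H57S.siegel (1 / (2 * b)) (by positivity)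
  obtain ⟨R1, hR11, hR1⟩ := G1_rlog (2 ^ (k + 1) / (c * ε)) C (cc' / 4) (by positivity)
  obtain ⟨R2, hR21, hR2⟩ := G1_rlog (2 ^ (k + 1) * CC) CC (cc' / 4) (by positivity)
  obtain ⟨Q1, hQ11, hQ1⟩ := w1_exp (2 ^ (k + 1) / c) (b * C + b * (k + 1)) c3 ε hc3 hε
  obtain ⟨Q2, hQ21, hQ2⟩ := e1_log ((R1 : ℝ) + R2 + 2)
  refine ⟨Q1 + Q2 + 2, ?_⟩
  intro Q hQ B hB P hP r _ ψ β hrQ hprim hψ1 hψ2 hβ hL ι S g hG
  have e1 := hQ1 Q (by omega)
  have e2 := hQ2 Q (by omega)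
  have hr0 : r ≠ 0 := NeZero.ne r
  have hr2 : 2 ≤ r := by
    by_contra hcon
    have h1 : r = 1 := by
      have := Nat.pos_of_ne_zero hr0
      omega
    subst h1
    exact hψ1 (DirichletCharacter.level_one ψ)
  have hrQ' : r ≤ Q := (Nat.le_self_pow (by norm_num) r).trans hrQ
  have hpx : (⟨r, ψ⟩ : Ch) ∈ PC Q := mem_PC.mpr ⟨(by omega : 1 ≤ r), hrQ', hprim⟩
  have hq1 : (1 : ℝ) ≤ Q := by exact_mod_cast (by omega : 1 ≤ Q)
  have hq0 : (0 : ℝ) < Q := by linarith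
  have hr1 : (1 : ℝ) ≤ r := by exact_mod_cast (by omega : 1 ≤ r)
  have hr0' : (0 : ℝ) < r := by linarith
  have hlr0 : 0 ≤ Real.log r := Real.log_nonneg hr1
  have hL1 : 1 ≤ Real.log Q := by
    refine le_trans ?_ e2
    have h1 : (0 : ℝ) ≤ R1 := Nat.cast_nonneg _
    have h2 : (0 : ℝ) ≤ R2 := Nat.cast_nonneg _
    linarith
  have hL0 : 0 ≤ Real.log Q := by linarith
  have hth1 : (Q : ℝ) ^ (β - 1) ≤ 1 := Real.rpow_le_one_of_one_le_of_nonpos hq1 (by linarith)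
  have hth0 : 0 ≤ (Q : ℝ) ^ (β - 1) := Real.rpow_nonneg hq0.le _
  have hlp : 0 < (1 + Real.log r) ^ C := Real.rpow_pos_of_pos (by linarith) _
  have hs : 0 < c * (1 + Real.log r) ^ (-C) := mul_pos hc (Real.rpow_pos_of_pos (by linarith) _)
  have hsub : r.primeFactors ⊆ pr r := by
    intro l hl
    refine p5_mem_pr.mpr ⟨Nat.prime_of_mem_primeFactors hl, ?_⟩
    exact Nat.le_of_dvd (by omega) (Nat.dvd_of_mem_primeFactors hl)
  by_cases hcase : (r : ℝ) ≤ (Real.log Q) ^ b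
  · refine ⟨∅, Finset.empty_subset _, ?_, ?_⟩
    · rw [Finset.card_empty, Nat.cast_zero]
      exact mul_nonneg (Nat.cast_nonneg _) (Real.rpow_nonneg hL0 _)
    intro x hh _ hN th' h0 h1'
    have f1 := hlow B hB P hP (g x) hN r hr2 r.primeFactors hsub
    refine e1_gen (sys B P (g x)) (P2_sys B P (g x)) Q ⟨r, ψ⟩ hpx hψ2 th' ((Q : ℝ) ^ (β - 1)) h0 h1' hth1
      (c * (1 + Real.log r) ^ (-C)) ((r : ℝ) ^ (k + 1)) ε hs f1 (by positivity)
      (fun Bs _ => e1_crude _ r (by omega) _) ?_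
    have g0 : 1 + Real.log r ≤ r := by
      have := Real.log_le_sub_one_of_pos hr0'
      linarith
    have g1 : (r : ℝ) ^ (1 / (2 * b)) ≤ (Real.log Q) ^ (1 / 2 : ℝ) := by
      calc (r : ℝ) ^ (1 / (2 * b)) ≤ ((Real.log Q) ^ b) ^ (1 / (2 * b)) :=
            Real.rpow_le_rpow hr0'.le hcase (by positivity)
        _ = (Real.log Q) ^ (1 / 2 : ℝ) := by
            rw [← Real.rpow_mul hL0]
            congr 1
            field_simp
    have hL12 : 0 < (Real.log Q) ^ (1 / 2 : ℝ) := Real.rpow_pos_of_pos (by linarith) _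
    have g2 : c3 * (Real.log Q) ^ (1 / 2 : ℝ) ≤ (1 - β) * Real.log Q := by
      have h0 : c3 / (r : ℝ) ^ (1 / (2 * b)) ≤ 1 - β := by
        by_contra hcon
        exact hz r ψ hprim hψ1 hψ2 β (by linarith) hβ.le hL
      have h1 : c3 / (Real.log Q) ^ (1 / 2 : ℝ) ≤ 1 - β := by
        refine le_trans ?_ h0
        exact div_le_div_of_nonneg_left hc3.le (Real.rpow_pos_of_pos hr0' _) g1
      have h2 : Real.log Q = (Real.log Q) ^ (1 / 2 : ℝ) * (Real.log Q) ^ (1 / 2 : ℝ) := by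
        rw [← Real.rpow_add (by linarith)]
        norm_num
      have h3 := mul_le_mul_of_nonneg_right h1 hL0
      refine le_trans (le_of_eq ?_) h3
      calc c3 * (Real.log Q) ^ (1 / 2 : ℝ) = c3 / (Real.log Q) ^ (1 / 2 : ℝ) * ((Real.log Q) ^ (1 / 2 : ℝ) * (Real.log Q) ^ (1 / 2 : ℝ)) := by
            field_simp
        _ = c3 / (Real.log Q) ^ (1 / 2 : ℝ) * Real.log Q := by rw [← h2]
    have g3 : (Q : ℝ) ^ (β - 1) ≤ Real.exp (-(c3 * (Real.log Q) ^ (1 / 2 : ℝ))) := by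
      rw [Real.rpow_def_of_pos hq0]
      refine Real.exp_le_exp.2 ?_
      linarith
    have g4 : (1 + Real.log r) ^ C ≤ (Real.log Q) ^ (b * C) := by
      rw [Real.rpow_mul hL0]
      exact Real.rpow_le_rpow (by linarith) (g0.trans hcase) (by linarith)
    have g5 : (r : ℝ) ^ (k + 1) ≤ (Real.log Q) ^ (b * ((k : ℝ) + 1)) := by
      rw [Real.rpow_mul hL0]
      refine (pow_le_pow_left₀ hr0'.le hcase _).trans (le_of_eq ?_)
      rw [← Real.rpow_natCast]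
      push_cast
      rfl
    have hLC : 0 ≤ (Real.log Q) ^ (b * C) := Real.rpow_nonneg hL0 _
    calc (Q : ℝ) ^ (β - 1) / (c * (1 + Real.log r) ^ (-C)) * (2 ^ (k + 1) * (r : ℝ) ^ (k + 1))
        = (Q : ℝ) ^ (β - 1) * (1 + Real.log r) ^ C * (2 ^ (k + 1) / c) * (r : ℝ) ^ (k + 1) := by
          rw [Real.rpow_neg (by linarith)]
          field_simp
      _ ≤ Real.exp (-(c3 * (Real.log Q) ^ (1 / 2 : ℝ))) * (Real.log Q) ^ (b * C) * (2 ^ (k + 1) / c) * (Real.log Q) ^ (b * ((k : ℝ) + 1)) := by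
          gcongr
      _ = 2 ^ (k + 1) / c * ((Real.log Q) ^ (b * C) * (Real.log Q) ^ (b * ((k : ℝ) + 1))) * Real.exp (-(c3 * (Real.log Q) ^ (1 / 2 : ℝ))) := by
          ring
      _ = 2 ^ (k + 1) / c * (Real.log Q) ^ (b * C + b * ((k : ℝ) + 1)) * Real.exp (-(c3 * (Real.log Q) ^ (1 / 2 : ℝ))) := by
          rw [Real.rpow_add (by linarith)]
      _ ≤ ε := e1
  · have hcase' : (Real.log Q) ^ b < r := not_le.mp hcase
    have hbig : (R1 : ℝ) + R2 + 2 < r := by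
      refine lt_of_le_of_lt ?_ hcase'
      calc (R1 : ℝ) + R2 + 2 ≤ Real.log Q := e2
        _ = (Real.log Q) ^ (1 : ℝ) := (Real.rpow_one _).symm
        _ ≤ (Real.log Q) ^ b := Real.rpow_le_rpow_of_exponent_le hL1 hb1
    have hbigN : R1 + R2 + 2 < r := by exact_mod_cast hbig
    have k1 := hR1 r (by omega)
    have k2 := hR2 r (by omega)
    set T : ℝ := (r : ℝ) ^ (-(cc' / 4)) with hT
    have hT0 : 0 < T := Real.rpow_pos_of_pos hr0' _
    set V : ℝ := CC * (1 + Real.log r) ^ CC * S.card * (r : ℝ) ^ (-cc') with hV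
    set F : Finset (Fin (k + 1)) → ι → ℝ := fun Bs x =>
      ‖MRf (pB (⟨r, ψ⟩ : Ch) Bs) r (sys B P (g x))‖ with hF
    have hsum : ∀ Bs : Finset (Fin (k + 1)), Bs.Nonempty → ∑ x ∈ S, F Bs x ^ 2 ≤ V :=
      fun Bs hBs => HH B hB P hP Q ⟨r, ψ⟩ hpx hr2 Bs hBs ι S g hG
    set NE : Finset (Finset (Fin (k + 1))) := (univ : Finset (Finset (Fin (k + 1)))).filter
      (fun Bs => Bs.Nonempty) with hNE
    refine ⟨NE.biUnion fun Bs => S.filter fun h => T < F Bs h, ?_, ?_, ?_⟩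
    · exact Finset.biUnion_subset.mpr fun Bs _ => Finset.filter_subset _ _
    · have g1 : (((NE.biUnion fun Bs => S.filter fun h => T < F Bs h).card : ℕ) : ℝ) ≤
          2 ^ (k + 1) * (V / T ^ 2) := by
        have g2 : (((NE.biUnion fun Bs => S.filter fun h => T < F Bs h).card : ℕ) : ℝ) ≤
            ∑ Bs ∈ NE, (((S.filter fun h => T < F Bs h).card : ℕ) : ℝ) := by
          exact_mod_cast Finset.card_biUnion_le
        have g3 : ∑ Bs ∈ NE, (((S.filter fun h => T < F Bs h).card : ℕ) : ℝ) ≤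
            ∑ _Bs ∈ NE, V / T ^ 2 := by
          refine Finset.sum_le_sum fun Bs hBs => ?_
          have hne : Bs.Nonempty := (Finset.mem_filter.mp hBs).2
          exact k1_cheb S (F Bs) T V hT0 (hsum Bs hne) (fun h => norm_nonneg _)
        have hV0 : 0 ≤ V / T ^ 2 := by
          have : 0 ≤ V := by
            have h1 : 0 ≤ (1 + Real.log r) ^ CC := Real.rpow_nonneg (by linarith) _
            have h2 : 0 ≤ (r : ℝ) ^ (-cc') := Real.rpow_nonneg (by linarith) _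
            rw [hV]
            positivity
          positivity
        have g4 : ∑ _Bs ∈ NE, V / T ^ 2 ≤ 2 ^ (k + 1) * (V / T ^ 2) := by
          rw [Finset.sum_const, nsmul_eq_mul]
          refine mul_le_mul_of_nonneg_right ?_ hV0
          have h1 : NE.card ≤ 2 ^ (k + 1) := by
            refine (Finset.card_le_univ _).trans ?_
            rw [Fintype.card_finset, Fintype.card_fin]
          exact_mod_cast h1
        exact (g2.trans g3).trans g4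
      refine g1.trans ?_
      have hT2 : (T ^ 2)⁻¹ = (r : ℝ) ^ (cc' / 2) := by
        rw [hT, ← Real.rpow_natCast, ← Real.rpow_mul hr0'.le, ← Real.rpow_neg hr0'.le]
        congr 1
        push_cast
        ring
      have hT3 : (r : ℝ) ^ (cc' / 4) * ((r : ℝ) ^ (-cc') * (r : ℝ) ^ (cc' / 2)) = (r : ℝ) ^ (-(cc' / 4)) := by
        rw [← Real.rpow_add hr0', ← Real.rpow_add hr0']
        congr 1
        ring
      have hT4 : (r : ℝ) ^ (-(cc' / 4)) ≤ (Real.log Q) ^ (-c2) := by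
        calc (r : ℝ) ^ (-(cc' / 4)) ≤ ((Real.log Q) ^ b) ^ (-(cc' / 4)) :=
              Real.rpow_le_rpow_of_nonpos (Real.rpow_pos_of_pos (by linarith) _) hcase'.le (by linarith)
          _ = (Real.log Q) ^ (b * (-(cc' / 4))) := (Real.rpow_mul hL0 _ _).symm
          _ ≤ (Real.log Q) ^ (-c2) := Real.rpow_le_rpow_of_exponent_le hL1 (by linarith)
      have hpos : 0 ≤ (r : ℝ) ^ (-cc') * (r : ℝ) ^ (cc' / 2) :=
        mul_nonneg (Real.rpow_nonneg hr0'.le _) (Real.rpow_nonneg hr0'.le _)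
      calc 2 ^ (k + 1) * (V / T ^ 2) = S.card * ((2 ^ (k + 1) * CC * (1 + Real.log r) ^ CC) *
            ((r : ℝ) ^ (-cc') * (r : ℝ) ^ (cc' / 2))) := by
            rw [div_eq_mul_inv, hT2, hV]
            ring
        _ ≤ S.card * ((r : ℝ) ^ (cc' / 4) * ((r : ℝ) ^ (-cc') * (r : ℝ) ^ (cc' / 2))) :=
            mul_le_mul_of_nonneg_left (mul_le_mul_of_nonneg_right k2 hpos) (Nat.cast_nonneg _)
        _ = S.card * (r : ℝ) ^ (-(cc' / 4)) := by rw [hT3]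
        _ ≤ S.card * (Real.log Q) ^ (-c2) := mul_le_mul_of_nonneg_left hT4 (Nat.cast_nonneg _)
    · intro x hh hbad hN th' h0 h1'
      have g1 : ∀ Bs : Finset (Fin (k + 1)), Bs.Nonempty → F Bs x ≤ T := by
        intro Bs hBs
        by_contra hcon
        refine hbad (Finset.mem_biUnion.mpr ⟨Bs, ?_, ?_⟩)
        · exact Finset.mem_filter.mpr ⟨Finset.mem_univ _, hBs⟩
        · exact Finset.mem_filter.mpr ⟨hh, not_le.mp hcon⟩
      have f1 := hlow B hB P hP (g x) hN r hr2 r.primeFactors hsub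
      refine e1_gen (sys B P (g x)) (P2_sys B P (g x)) Q ⟨r, ψ⟩ hpx hψ2 th' ((Q : ℝ) ^ (β - 1)) h0 h1' hth1
        (c * (1 + Real.log r) ^ (-C)) T ε hs f1 hT0.le g1 ?_
      have hTi : T * (r : ℝ) ^ (cc' / 4) = 1 := by
        rw [hT, ← Real.rpow_add hr0']
        norm_num
      have k3 : 2 ^ (k + 1) / (c * ε) * (1 + Real.log r) ^ C * T ≤ 1 := by
        calc 2 ^ (k + 1) / (c * ε) * (1 + Real.log r) ^ C * T ≤ (r : ℝ) ^ (cc' / 4) * T :=
              mul_le_mul_of_nonneg_right k1 hT0.le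
          _ = 1 := by rw [mul_comm, hTi]
      calc (Q : ℝ) ^ (β - 1) / (c * (1 + Real.log r) ^ (-C)) * (2 ^ (k + 1) * T)
          ≤ 1 / (c * (1 + Real.log r) ^ (-C)) * (2 ^ (k + 1) * T) := by
            gcongr
        _ = ε * (2 ^ (k + 1) / (c * ε) * (1 + Real.log r) ^ C * T) := by
            rw [Real.rpow_neg (by linarith)]
            field_simp
        _ ≤ ε * 1 := mul_le_mul_of_nonneg_left k3 hε.le
        _ = ε := mul_one _

end Pool.Agent.HLA
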