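import Pool.Agent.Lib.HLA.W0
import Pool.Agent.Lib.H9P.U10
import Pool.Agent.Lib.HUP.R6

/-!
# LOGA, chunk W10A (M): a block of the singular series
-/

open Finset Polynomial

namespace Pool.Agent.HLA

open Pool.Agent.Lib.H68T Pool.Agent.Lib.H18Q Pool.Agent.Lib.H59P Pool.Agent.Lib.H24P
open Pool.Agent.HUP Pool.Agent.H9P

/-- `t5_point` (`H24P/T5.lean`) for an arbitrary set `P'` of primes up to `Q`; same proof without `t5_SF`. -/
theorem w10_point {k : ℕ} (φ : Fin k → ℤ → ℤ) (C1 : ℝ) (hC1 : ∀ l : ℕ, l.Prime → |tpf l φ| ≤ C1 / l)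
    {Q E : ℕ} (hQ : 2 ≤ Q) (hE1 : 1 ≤ E) (P' : Finset ℕ) (hP' : P' ⊆ pr Q) :
    |∑ d ∈ dv P' Q E, tdf d φ - SSf P' φ| ≤ |∑ m ∈ mv P' Q E, tdf m φ| +
      ∑ q ∈ P', (C1 / q * (500 * Real.log Q) ^ k) * |∑ m ∈ mv P' (q - 1) E, tdf m φ| := by
  classical
  have hpr : ∀ l ∈ P', l.Prime := fun l hl => (Finset.mem_filter.1 (hP' hl)).2
  have hPQ : P'.filter (fun l => l ≤ Q) = P' := by
    refine Finset.filter_true_of_mem fun l hl => ?_
    exact (Finset.mem_Icc.1 (Finset.mem_filter.1 (hP' hl)).1).2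
  have h4 := T4_main (fun l => tpf l φ) P' hpr E hE1 Q
  rw [hPQ] at h4
  have htt : ∀ d, tt (fun l => tpf l φ) d = tdf d φ := fun d => rfl
  simp only [htt] at h4
  rw [abs_sub_comm]
  have h5 : SSf P' φ - ∑ d ∈ dv P' Q E, tdf d φ =
      ∑ m ∈ mv P' Q E, tdf m φ +
      ∑ q ∈ P', tpf q φ * (∑ m ∈ mv P' (q - 1) E, tdf m φ) *
        ∏ l ∈ P'.filter (fun l => q < l ∧ l ≤ Q), (1 + tpf l φ) := h4
  rw [h5]
  refine (abs_add_le _ _).trans (add_le_add le_rfl ?_)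
  refine (Finset.abs_sum_le_sum_abs _ _).trans (Finset.sum_le_sum fun q hq => ?_)
  rw [abs_mul, abs_mul]
  have h6 := T5_up φ Q hQ (P'.filter (fun l => q < l ∧ l ≤ Q)) ((Finset.filter_subset _ _).trans hP')
  have h7 : |∏ l ∈ P'.filter (fun l => q < l ∧ l ≤ Q), (1 + tpf l φ)| ≤ (500 * Real.log Q) ^ k := by
    have h8 : |SSf (P'.filter (fun l => q < l ∧ l ≤ Q)) φ| ≤ (500 * Real.log Q) ^ k := by
      rw [abs_of_nonneg h6.1]
      exact h6.2
    exact h8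
  have h9 := hC1 q (hpr q hq)
  calc |tpf q φ| * |∑ m ∈ mv P' (q - 1) E, tdf m φ| *
        |∏ l ∈ P'.filter (fun l => q < l ∧ l ≤ Q), (1 + tpf l φ)|
      ≤ (C1 / q) * |∑ m ∈ mv P' (q - 1) E, tdf m φ| * (500 * Real.log Q) ^ k := by
        refine mul_le_mul (mul_le_mul_of_nonneg_right h9 (abs_nonneg _)) h7 (abs_nonneg _) ?_
        exact mul_nonneg ((abs_nonneg _).trans h9) (abs_nonneg _)
    _ = (C1 / q * (500 * Real.log Q) ^ k) * |∑ m ∈ mv P' (q - 1) E, tdf m φ| := by ring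

/-- The square mean of a block. Common part of `W10_block` and `N6_block`: for any family `φ x` of systems of `k'` coordinates with
`|tpf l (φ x)| ≤ C1/l` and `∑_x (∑_{d ∈ Δ} tdf d (φ x))² ≤ C3 (1 + log Q)^C3 card D^(-c3)` for all `Δ` of squarefree numbers between `D` and `Q²` with prime factors in `(z, Q]`.
Proof. As `R6_main` (`HUP/R6.lean`) with `Q = z'`, `E = z`, `P' = (pr z').filter (z < ·)`: `w10_point`, `t5_mink`, `t5_harm`; `dv P' z' z = {1}` (a squarefree `d ≤ z` all of whose prime factors are `> z` is `1`), so the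
sum over `dv` is `tdf 1 = 1`; for `j ≤ z'` the members of `mv P' j z` are squarefree, `> z`, at most `z z' ≤ z'²`, with prime factors in `P'`. The bound is
`(1 + C1 (500 log z')^(k'+1)...)² C3 (1 + log z')^C3 card z^(-c3) ≤ card z^(-c3/2)` for `z ≥ z0`, as `z' ≤ z²` (`G1_rlog`). -/
theorem w10_gen (k' : ℕ) (C1 C3 c3 : ℝ) (hC1 : 1 ≤ C1) (hC3 : 1 ≤ C3) (hc3 : 0 < c3) (z1 : ℕ) : ∃ z0 : ℕ, ∀ z z' : ℕ, z0 ≤ z →
    z ≤ z' → z' ≤ z ^ 2 → ∀ (ι : Type) (S : Finset ι) (φ : ι → Fin k' → ℤ → ℤ),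
    (∀ x, ∀ l : ℕ, l.Prime → |tpf l (φ x)| ≤ C1 / l) →
    (∀ (Δ : Finset ℕ) (D : ℕ), 1 ≤ D → (∀ d ∈ Δ, Squarefree d ∧ D < d ∧ d ≤ z' ^ 2 ∧
      ∀ l ∈ d.primeFactors, l ≤ z' ∧ z < l ∧ z1 < l) →
      ∑ x ∈ S, (∑ d ∈ Δ, tdf d (φ x)) ^ 2 ≤ C3 * (1 + Real.log z') ^ C3 * S.card * (D : ℝ) ^ (-c3)) →
    ∑ x ∈ S, (SSf ((pr z').filter (fun l => z < l)) (φ x) - 1) ^ 2 ≤ S.card * (z : ℝ) ^ (-(c3 / 2)) := by
  classical
  obtain ⟨Q1, hQ1, hlog⟩ := G1_rlog ((1 + C1 * 500 ^ k') ^ 2 * C3) (2 * (k' + 1) + C3) (c3 / 4)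
    (by linarith)
  refine ⟨max 2 (max Q1 z1), fun z z' hz hzz' hz'z ι S φ h1 h3 => ?_⟩
  have hz2 : 2 ≤ z := (le_max_left _ _).trans hz
  have hzQ1 : Q1 ≤ z := (le_max_left _ _).trans ((le_max_right _ _).trans hz)
  have hzz1 : z1 ≤ z := (le_max_right _ _).trans ((le_max_right _ _).trans hz)
  have hz'2 : 2 ≤ z' := hz2.trans hzz'
  have hzr : (1 : ℝ) ≤ z := by exact_mod_cast (show 1 ≤ z by omega)
  have hz0 : (0 : ℝ) < z := by linarith
  have hz'r : (1 : ℝ) ≤ z' := by exact_mod_cast (show 1 ≤ z' by omega)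
  have hz'0 : (0 : ℝ) < z' := by linarith
  have hL : 0 ≤ Real.log z' := Real.log_nonneg hz'r
  obtain ⟨P', hP'⟩ : ∃ P', P' = (pr z').filter (fun l => z < l) := ⟨_, rfl⟩
  rw [← hP']
  have hsub : P' ⊆ pr z' := by
    rw [hP']
    exact Finset.filter_subset _ _
  have hPz : ∀ l ∈ P', z < l := fun l hl => by
    rw [hP'] at hl
    exact (Finset.mem_filter.1 hl).2
  have hvol : (0 : ℝ) ≤ S.card := Nat.cast_nonneg _
  have hdv : dv P' z' z = {1} := by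
    ext d
    unfold dv
    rw [Finset.mem_filter, Finset.mem_Icc, Finset.mem_singleton]
    constructor
    · rintro ⟨⟨hd1, hd2⟩, -, hd3⟩
      by_contra hne
      obtain ⟨l, hl, hld⟩ := Nat.exists_prime_and_dvd hne
      have h4 := hPz l (hd3 l (Nat.mem_primeFactors.2 ⟨hl, hld, by omega⟩)).1
      have h5 := Nat.le_of_dvd (by omega) hld
      omega
    · rintro rfl
      refine ⟨⟨le_rfl, by omega⟩, squarefree_one, fun l hl => ?_⟩
      rw [Nat.primeFactors_one] at hl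
      exact absurd hl (Finset.notMem_empty l)
  have hmvs : ∀ j, j ≤ z' → ∑ x ∈ S, (∑ d ∈ mv P' j z, tdf d (φ x)) ^ 2 ≤
      C3 * (1 + Real.log z') ^ C3 * (S.card : ℝ) * (z : ℝ) ^ (-c3) := by
    intro j hj
    refine h3 (mv P' j z) z (by omega) fun d hd => ?_
    unfold mv at hd
    rw [Finset.mem_filter, Finset.mem_Ioc] at hd
    obtain ⟨⟨g1, g2⟩, g3, g4, -⟩ := hd
    refine ⟨g3, g1, ?_, fun l hl => ?_⟩
    · calc d ≤ z * j := g2
        _ ≤ z' * z' := Nat.mul_le_mul hzz' hj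
        _ = z' ^ 2 := (pow_two z').symm
    · have g5 := g4 l hl
      have g6 := hPz l g5.1
      exact ⟨g5.2.trans hj, g6, lt_of_le_of_lt hzz1 g6⟩
  have hW : 0 ≤ C3 * (1 + Real.log z') ^ C3 * (S.card : ℝ) * (z : ℝ) ^ (-c3) := by
    have : 0 ≤ (1 + Real.log z') ^ C3 := Real.rpow_nonneg (by linarith) _
    have : 0 ≤ (z : ℝ) ^ (-c3) := Real.rpow_nonneg hz0.le _
    have : 0 ≤ C3 := by linarith
    positivity
  have hC10 : 0 ≤ C1 := by linarith
  have hkey := t5_mink S P' (fun q => C1 / q * (500 * Real.log z') ^ k')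
    (fun q _ => by positivity)
    (fun x => ∑ m ∈ mv P' z' z, tdf m (φ x))
    (fun q x => ∑ m ∈ mv P' (q - 1) z, tdf m (φ x))
    (fun x => 1 - SSf P' (φ x))
    ((1 + C1 * 500 ^ k') * (1 + Real.log z') ^ (k' + 1)) _ hW ?_ (hmvs z' le_rfl)
    (fun q hq => hmvs (q - 1) ?_) (fun x _ => ?_)
  · have e0 : ∑ x ∈ S, (SSf P' (φ x) - 1) ^ 2 = ∑ x ∈ S, (1 - SSf P' (φ x)) ^ 2 :=
      Finset.sum_congr rfl fun x _ => by ring
    rw [e0]
    refine hkey.trans ?_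
    have e2 : (1 + C1 * 500 ^ k') ^ 2 * C3 * (1 + Real.log z') ^ (2 * ((k' : ℝ) + 1) + C3) ≤ (z : ℝ) ^ (c3 / 2) := by
      refine (hlog z' (hzQ1.trans hzz')).trans ?_
      have e3 : (z' : ℝ) ≤ (z : ℝ) ^ (2 : ℕ) := by exact_mod_cast hz'z
      calc (z' : ℝ) ^ (c3 / 4) ≤ ((z : ℝ) ^ (2 : ℕ)) ^ (c3 / 4) := Real.rpow_le_rpow hz'0.le e3 (by linarith)
        _ = (z : ℝ) ^ (c3 / 2) := by
            rw [← Real.rpow_natCast, ← Real.rpow_mul hz0.le]
            congr 1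
            push_cast
            ring
    have e3 : ((1 + C1 * 500 ^ k') * (1 + Real.log z') ^ (k' + 1)) ^ 2 *
        (C3 * (1 + Real.log z') ^ C3) =
        (1 + C1 * 500 ^ k') ^ 2 * C3 * (1 + Real.log z') ^ (2 * ((k' : ℝ) + 1) + C3) := by
      have hp : 0 < 1 + Real.log z' := by linarith
      have e4 : (1 + Real.log z') ^ (2 * ((k' : ℝ) + 1) + C3) =
          ((1 + Real.log z') ^ (k' + 1)) ^ 2 * (1 + Real.log z') ^ C3 := by
        rw [Real.rpow_add hp]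
        congr 1
        rw [← pow_mul, ← Real.rpow_natCast]
        congr 1
        push_cast
        ring
      rw [e4]
      ring
    calc ((1 + C1 * 500 ^ k') * (1 + Real.log z') ^ (k' + 1)) ^ 2 *
          (C3 * (1 + Real.log z') ^ C3 * (S.card : ℝ) * (z : ℝ) ^ (-c3))
        = (((1 + C1 * 500 ^ k') * (1 + Real.log z') ^ (k' + 1)) ^ 2 *
          (C3 * (1 + Real.log z') ^ C3)) * ((S.card : ℝ) * (z : ℝ) ^ (-c3)) := by ring
      _ ≤ (z : ℝ) ^ (c3 / 2) * ((S.card : ℝ) * (z : ℝ) ^ (-c3)) := by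
          rw [e3]
          exact mul_le_mul_of_nonneg_right e2 (mul_nonneg hvol (Real.rpow_nonneg hz0.le _))
      _ = (S.card : ℝ) * ((z : ℝ) ^ (c3 / 2) * (z : ℝ) ^ (-c3)) := by ring
      _ = (S.card : ℝ) * (z : ℝ) ^ (-(c3 / 2)) := by
          rw [← Real.rpow_add hz0]
          congr 2
          ring
  · have f1 := t5_harm z' P' hsub
    have f2 : ∑ q ∈ P', C1 / (q : ℝ) * (500 * Real.log z') ^ k' =
        (C1 * (500 * Real.log z') ^ k') * ∑ q ∈ P', 1 / (q : ℝ) := by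
      rw [Finset.mul_sum]
      refine Finset.sum_congr rfl fun q _ => ?_
      ring
    rw [f2]
    have f3 : (500 * Real.log z') ^ k' ≤ 500 ^ k' * (1 + Real.log z') ^ k' := by
      rw [mul_pow]
      refine mul_le_mul_of_nonneg_left ?_ (by positivity)
      exact pow_le_pow_left₀ hL (by linarith) _
    have f4 : (1 : ℝ) ≤ (1 + Real.log z') ^ (k' + 1) := one_le_pow₀ (by linarith)
    have f5 : 0 ≤ C1 * (500 * Real.log z') ^ k' := by positivity
    have f6 : C1 * (500 * Real.log z') ^ k' * ∑ q ∈ P', 1 / (q : ℝ) ≤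
        C1 * (500 ^ k' * (1 + Real.log z') ^ k') * (1 + Real.log z') := by
      refine mul_le_mul (mul_le_mul_of_nonneg_left f3 (by linarith)) f1 ?_ ?_
      · exact Finset.sum_nonneg fun q _ => by positivity
      · have : 0 ≤ 1 + Real.log z' := by linarith
        positivity
    calc 1 + C1 * (500 * Real.log z') ^ k' * ∑ q ∈ P', 1 / (q : ℝ)
        ≤ (1 + Real.log z') ^ (k' + 1) +
          C1 * (500 ^ k' * (1 + Real.log z') ^ k') * (1 + Real.log z') := add_le_add f4 f6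
      _ = (1 + C1 * 500 ^ k') * (1 + Real.log z') ^ (k' + 1) := by ring
  · have h7 := (Finset.mem_Icc.1 (Finset.mem_filter.1 (hsub hq)).1).2
    omega
  · have h8 := w10_point (φ x) C1 (h1 x) hz'2 (show 1 ≤ z by omega) P' hsub
    rw [hdv, Finset.sum_singleton] at h8
    have h9 : tdf 1 (φ x) = 1 := by
      unfold tdf
      rw [Nat.primeFactors_one, Finset.prod_empty]
    rw [h9] at h8
    exact h8

/-- **W10A.** Proof. `w10_gen` with `k' = k + 1`, `T1_abs` (`H24P/T1.lean`), `R5_main` (`HUP/R5.lean`) at the level `Q = z'` (`FGood` at `z'² ≤ z⁴`: `u10_mono`), `z1 = A` (a prime `l > A` does not divide `lc B`, `0 < |lc B| ≤ A`). -/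
theorem W10_block (k A E : ℕ) (hA : 1 ≤ A) (Cc cc : ℝ) (hC : FPar Cc cc) : ∃ c : ℝ, 0 < c ∧ ∃ z0 : ℕ, ∀ z z' : ℕ,
    z0 ≤ z → z ≤ z' → z' ≤ z ^ 2 → ∀ B : ℤ[X], Lin A B → ∀ P : Fin k → ℤ[X], Pol A P →
    ∀ (ι : Type) (S : Finset ι) (g : ι → Fin k → ℕ), FGood E Cc cc (z ^ 4) P S g →
    ∑ x ∈ S, (SSf ((pr z').filter (fun l => z < l)) (sys B P (g x)) - 1) ^ 2 ≤ S.card * (z : ℝ) ^ (-c) := by
  classical
  obtain ⟨C3, c3, hC3, hc3, hc31, h3⟩ := R5_main k A E hA Cc cc hC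
  obtain ⟨C1, hC1, h1⟩ := T1_abs k A hA
  obtain ⟨z0, hz0⟩ := w10_gen (k + 1) (max 1 C1) C3 c3 (le_max_left _ _) hC3 hc3 A
  refine ⟨c3 / 2, by linarith, max 2 z0, fun z z' hz hzz' hz'z B hB P hP ι S g hG => ?_⟩
  have hz2 : 2 ≤ z := (le_max_left _ _).trans hz
  refine hz0 z z' ((le_max_right _ _).trans hz) hzz' hz'z ι S (fun x => sys B P (g x)) (fun x l hl => ?_) ?_
  · refine (h1 B hB P hP (g x) l hl).trans ?_
    have hl0 : (0 : ℝ) < l := by exact_mod_cast hl.pos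
    exact div_le_div_of_nonneg_right (le_max_right _ _) hl0.le
  · intro Δ D hD hΔ
    refine h3 B hB P hP z' (hz2.trans hzz') Δ D hD (fun d hd => ?_) ι S g (u10_mono ?_ hG)
    · obtain ⟨g1, g2, g3, g4⟩ := hΔ d hd
      refine ⟨g1, g2, g3, fun l hl => ⟨(g4 l hl).1, fun hdvd => ?_⟩⟩
      have hB0 : B ≠ 0 := by
        intro h0
        have := hB.deg
        rw [h0, natDegree_zero] at this
        omega
      have hlc : 0 < B.leadingCoeff.natAbs := Int.natAbs_pos.2 (leadingCoeff_ne_zero.2 hB0)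
      have h5 := Nat.le_of_dvd hlc hdvd
      have h6 := hB.lc
      have h7 := (g4 l hl).2.2
      omega
    · calc z' ^ 2 ≤ (z ^ 2) ^ 2 := Nat.pow_le_pow_left hz'z 2
        _ = z ^ 4 := by rw [← pow_mul]

end Pool.Agent.HLA
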