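import Pool.Agent.Lib.HLA.W1
import Pool.Agent.Lib.H9P.E3

/-!
# LOGA, chunk W3 (M): the levels satisfy `Lvl`, exceptional proportion `(log Q)^(-c2)` for EVERY `c2`
-/

open Finset Polynomial

namespace Pool.Agent.HLA

open Pool.Agent.Lib.H68T Pool.Agent.Lib.H18Q Pool.Agent.Lib.H59P Pool.Agent.Lib.H24P
open Pool.Agent.HUP Pool.Agent.H9P

/-- **W3.** Copy of the proof of `E3_exc` (`H9P/E3.lean`) with `W1_main` (for the exponent `2 c2` and the given `ε`) in place of `E1_main`; `c1`, `K` do not depend on `c2`. -/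
theorem W3_exc (k A E : ℕ) (hA : 1 ≤ A) (Cc cc : ℝ) (hC : FPar Cc cc) :
    ∃ c1 K : ℝ, 0 < c1 ∧ 1 ≤ K ∧ ∀ c2 C E0 ε : ℝ, 0 < c2 → 0 ≤ E0 → E0 ≤ 1 → 0 < ε → ∃ Q0 : ℕ, ∀ Q Z : ℕ, Q0 ≤ Q →
    Rg K C Q Z → LvX A Q Z E0 →
    Lvl k A E Cc cc Q Z (((1 + E0) ^ (k + 1) - 1) * (1 + ε) + ε) c1 ((Real.log Q) ^ (-c2)) := by
  classical
  obtain ⟨c, K, hc, hK, hms⟩ := U6_ms k A E hA Cc cc hC
  obtain ⟨Q1, hQ1, hsize⟩ := G1_size A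
  refine ⟨c / 4, max K 2, by positivity, le_max_of_le_left hK, fun c2 C E0 ε hc2 hE0 hE01 hε => ?_⟩
  obtain ⟨Q0, hms⟩ := hms C
  obtain ⟨Q2, hE1⟩ := W1_main k A E hA Cc cc hC (2 * c2) ε (by positivity) hε
  obtain ⟨Q3, hQ3, hlog⟩ := e3_log (c / 2) c2 (by positivity) hc2
  refine ⟨max (max Q0 Q1) (max Q2 Q3), fun Q Z hQ hRg hL => ?_⟩
  have hQ' := max_le_iff.1 hQ
  have q0 : Q0 ≤ Q := (max_le_iff.1 hQ'.1).1
  have q1 : Q1 ≤ Q := (max_le_iff.1 hQ'.1).2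
  have q2 : Q2 ≤ Q := (max_le_iff.1 hQ'.2).1
  have q3 : Q3 ≤ Q := (max_le_iff.1 hQ'.2).2
  have hQ1' : 1 ≤ Q := hQ1.trans q1
  have hQr : (1 : ℝ) ≤ Q := by exact_mod_cast hQ1'
  have hQr0 : (0 : ℝ) < Q := by linarith
  have hQ100 : 1 ≤ Q ^ 100 := Nat.one_le_pow _ _ hQ1'
  have rK : Rg K C Q Z := z4_rg (le_max_left _ _) hRg
  have r2 : Rg 2 C Q Z := z4_rg (le_max_right _ _) hRg
  obtain ⟨r, hr0, ψ, β, η, hr100, hprim, hne, hsq, hβ, hzero, _, hM⟩ := hL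
  have hr1 : 1 ≤ r := Nat.one_le_iff_ne_zero.2 (NeZero.ne r)
  refine ⟨fun Y h1 h2 => ?_, ?_⟩
  · obtain ⟨e, eb, mb, _, _, _, a4⟩ := CF0 Q Y η E0 ⟨r, ψ⟩ (fun m => (m : ℝ) ^ (β - 1)) hQ1' (hM Y h1 h2).1 hE01
    exact ⟨_, mb, a4⟩
  intro P hP X1 Y M B hG hB h1 h2 h3 ι S g h0 hCl
  obtain ⟨e0, eb0, mb0, a1, a2, a3, a4⟩ := CF0 (Q ^ 100) Y η E0 ⟨r, ψ⟩ (fun m => (m : ℝ) ^ (β - 1)) hQ100
    (hM Y h1 h2).2 hE01
  choose e eb mb b1 b2 b3 b4 using fun i => CF0 Q (Ysc (M i)) η E0 ⟨r, ψ⟩ (fun m => (m : ℝ) ^ (β - 1)) hQ1'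
    (hM _ (h3 i).1 (h3 i).2).1 hE01
  have hms' := hms P hP Q Z X1 Y M B _ mb0 q0 rK hG hB a4 _ mb b4 r hr1 hr100 ι S g h0 hCl
  have hch := u9_cheb S (fun x => ‖((Rw Q X1 P M (fun n => lp (B.eval (n : ℤ))) (g x) : ℝ) : ℂ) -
    MZb Q X1 (B.leadingCoeff.natAbs * r) P B
      (fun m p => MX ⟨r, ψ⟩ (fun m => (m : ℝ) ^ (β - 1)) m p + e0 m p)
      (fun i m p => MX ⟨r, ψ⟩ (fun m => (m : ℝ) ^ (β - 1)) m p + e i m p) h0 (g x)‖) X1 Q hG.pos hQ1' c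
    (fun _ => norm_nonneg _) hms'
  have hlc0 : 1 ≤ B.leadingCoeff.natAbs := by
    have h2 : B.leadingCoeff ≠ 0 := by
      rw [Ne, leadingCoeff_eq_zero]
      intro h3
      have h4 := hB.lin.deg
      rw [h3, natDegree_zero] at h4
      omega
    exact Int.natAbs_pos.2 h2
  have hcond := (hsize Q q1 r B.leadingCoeff.natAbs hlc0 hB.lin.lc hr100).1
  have hFG : FGood E Cc cc Q P S g := fun Q' g1 g2 => hCl.good Q' g1 (g2.trans (Nat.le_self_pow two_ne_zero Q))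
  obtain ⟨Bad, hBS, hBcard, hBad⟩ := hE1 Q q2 B hB.lin P hP r ψ β hr100 hprim hne hsq hβ hzero ι S g hFG
  -- lower bounds of the scales
  have hZ0 : 0 < Z := lt_of_lt_of_le hG.pos hG.le
  have hZr : (0 : ℝ) < Z := by exact_mod_cast hZ0
  have hQ2Z : Q ^ 2 ≤ Z := by
    have g1 : Real.log ((Q : ℝ) ^ 2) ≤ Real.log Z := by
      rw [Real.log_pow]
      push_cast
      exact r2.1
    have g2 : (Q : ℝ) ^ 2 ≤ Z := (Real.log_le_log_iff (by positivity) hZr).mp g1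
    exact_mod_cast g2
  have hQY : ∀ Y' : ℕ, Z ≤ Y' ^ 2 → Q ≤ Y' := by
    intro Y' g1
    by_contra g2
    push Not at g2
    have g3 : Y' ^ 2 < Q ^ 2 := Nat.pow_lt_pow_left g2 two_ne_zero
    omega
  have hth : ∀ Y' : ℕ, Z ≤ Y' ^ 2 → ∀ m : ℤ, (Y' : ℤ) ≤ m → (m : ℝ) ^ (β - 1) ≤ (Q : ℝ) ^ (β - 1) := by
    intro Y' g1 m g2
    have g3 : (Q : ℤ) ≤ m := le_trans (by exact_mod_cast hQY Y' g1) g2
    exact Real.rpow_le_rpow_of_nonpos hQr0 (by exact_mod_cast g3) (by linarith)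
  have hsub : (S.filter (fun x => NoFix (sys B P (g x)) ∧
      X1 * ((((1 + E0) ^ (k + 1) - 1) * (1 + ε) + ε) * SSf (pr Q) (sys B P (g x)) + (Q : ℝ) ^ (-(c / 4))) <
      |Rw Q X1 P M (fun n => lp (B.eval (n : ℤ))) (g x) - X1 * SSf (pr Q) (sys B P (g x))|)) ⊆
      (S.filter (fun x => (X1 : ℝ) * (Q : ℝ) ^ (-(c / 4)) < ‖((Rw Q X1 P M (fun n => lp (B.eval (n : ℤ))) (g x) : ℝ) : ℂ) -
        MZb Q X1 (B.leadingCoeff.natAbs * r) P B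
          (fun m p => MX ⟨r, ψ⟩ (fun m => (m : ℝ) ^ (β - 1)) m p + e0 m p)
          (fun i m p => MX ⟨r, ψ⟩ (fun m => (m : ℝ) ^ (β - 1)) m p + e i m p) h0 (g x)‖)) ∪ Bad := by
    intro x hx
    rw [mem_filter] at hx
    rw [mem_union, mem_filter]
    by_cases hxB : x ∈ Bad
    · exact Or.inr hxB
    refine Or.inl ⟨hx.1, ?_⟩
    have hP1 := hBad x hx.1 hxB hx.2.1
    have h7 := E2_main P A Q Z X1 Y hQ1' M B hG hB η E0 ⟨r, ψ⟩ (fun m => (m : ℝ) ^ (β - 1)) (hM Y h1 h2).1.mem hcond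
      (hM Y h1 h2).2 (fun i => (hM _ (h3 i).1 (h3 i).2).1) hE0 e0 eb0 a1 a2 a3 e eb b2 b3 h0 hCl.memb (g x) ε
      ((Q : ℝ) ^ (β - 1)) hε.le (fun m g1 _ => hth Y h1 m g1) (fun i m g1 _ => hth _ (h3 i).1 m g1) hP1
    have h8 : |Rw Q X1 P M (fun n => lp (B.eval (n : ℤ))) (g x) - X1 * SSf (pr Q) (sys B P (g x))| =
        ‖((Rw Q X1 P M (fun n => lp (B.eval (n : ℤ))) (g x) : ℝ) : ℂ) -
          ((X1 * SSf (pr Q) (sys B P (g x)) : ℝ) : ℂ)‖ := by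
      rw [← Complex.ofReal_sub, Complex.norm_real, Real.norm_eq_abs]
    have h9 := norm_sub_le_norm_sub_add_norm_sub ((Rw Q X1 P M (fun n => lp (B.eval (n : ℤ))) (g x) : ℝ) : ℂ)
      (MZb Q X1 (B.leadingCoeff.natAbs * r) P B
        (fun m p => MX ⟨r, ψ⟩ (fun m => (m : ℝ) ^ (β - 1)) m p + e0 m p)
        (fun i m p => MX ⟨r, ψ⟩ (fun m => (m : ℝ) ^ (β - 1)) m p + e i m p) h0 (g x))
      ((X1 * SSf (pr Q) (sys B P (g x)) : ℝ) : ℂ)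
    have h10 := hx.2.2
    rw [h8] at h10
    have h11 : (X1 : ℝ) * ((((1 + E0) ^ (k + 1) - 1) * (1 + ε) + ε) * SSf (pr Q) (sys B P (g x)) + (Q : ℝ) ^ (-(c / 4))) =
      X1 * ((((1 + E0) ^ (k + 1) - 1) * (1 + ε) + ε) * SSf (pr Q) (sys B P (g x))) + X1 * (Q : ℝ) ^ (-(c / 4)) := by ring
    rw [h11] at h10
    linarith
  have hcard := (card_le_card hsub).trans (card_union_le _ _)
  have hcard' : (((S.filter (fun x => NoFix (sys B P (g x)) ∧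
      X1 * ((((1 + E0) ^ (k + 1) - 1) * (1 + ε) + ε) * SSf (pr Q) (sys B P (g x)) + (Q : ℝ) ^ (-(c / 4))) <
      |Rw Q X1 P M (fun n => lp (B.eval (n : ℤ))) (g x) - X1 * SSf (pr Q) (sys B P (g x))|)).card : ℕ) : ℝ) ≤
      (((S.filter (fun x => (X1 : ℝ) * (Q : ℝ) ^ (-(c / 4)) < ‖((Rw Q X1 P M (fun n => lp (B.eval (n : ℤ))) (g x) : ℝ) : ℂ) -
        MZb Q X1 (B.leadingCoeff.natAbs * r) P B
          (fun m p => MX ⟨r, ψ⟩ (fun m => (m : ℝ) ^ (β - 1)) m p + e0 m p)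
          (fun i m p => MX ⟨r, ψ⟩ (fun m => (m : ℝ) ^ (β - 1)) m p + e i m p) h0 (g x)‖)).card : ℕ) : ℝ) +
      (Bad.card : ℝ) := by
    exact_mod_cast hcard
  have h12 := mul_le_mul_of_nonneg_left (hlog Q q3) (Nat.cast_nonneg S.card : (0 : ℝ) ≤ S.card)
  rw [mul_add] at h12
  exact hcard'.trans ((add_le_add hch hBcard).trans h12)

/-- **W3b.** All large scales. Copy of the proof of `E3_all` with `W3_exc` in place of `E3_exc` (`Q^(-c1) ≤ (log Q)^(-c2)` for `Q` large). -/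
theorem W3_all (k A E : ℕ) (hA : 1 ≤ A) (Cc cc : ℝ) (hC : FPar Cc cc) (K' : ℝ) (hK' : 1 ≤ K') :
    ∃ c1 : ℝ, 0 < c1 ∧ ∀ c2 ε : ℝ, 0 < c2 → 0 < ε → ∃ C : ℝ, 1 ≤ C ∧ ∀ Q0 : ℕ, ∃ Z0 : ℕ, ∀ Z : ℕ, Z0 ≤ Z →
    ∃ Q : ℕ, Q0 ≤ Q ∧ Rg K' C Q Z ∧ Lvl k A E Cc cc Q Z ε c1 ((Real.log Q) ^ (-c2)) := by
  obtain ⟨cg, Kg, hcg, hKg, hgood⟩ := E3_good k A E hA Cc cc hC
  obtain ⟨cx, Kx, hcx, hKx, hexc⟩ := W3_exc k A E hA Cc cc hC
  refine ⟨min cg cx, lt_min hcg hcx, fun c2 ε hc2 hε => ?_⟩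
  obtain ⟨E0, hE0, hE01, hE2⟩ : ∃ E0 : ℝ, 0 < E0 ∧ E0 ≤ 1 ∧ ((1 + E0) ^ (k + 1) - 1) * (1 + E0) + E0 ≤ ε := by
    have g1 : Filter.Tendsto (fun t : ℝ => ((1 + t) ^ (k + 1) - 1) * (1 + t) + t) (nhds 0) (nhds 0) :=
      Continuous.tendsto' (by fun_prop) 0 0 (by simp)
    have g2 : ∀ᶠ t in nhdsWithin (0 : ℝ) (Set.Ioi 0), ((1 + t) ^ (k + 1) - 1) * (1 + t) + t < ε :=
      (g1.mono_left nhdsWithin_le_nhds).eventually (gt_mem_nhds hε)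
    obtain ⟨t, g3, g4⟩ := (g2.and (Ioc_mem_nhdsGT one_pos)).exists
    exact ⟨t, g4.1, g4.2, g3.le⟩
  have hpow : (0 : ℝ) ≤ (1 + E0) ^ (k + 1) - 1 := by
    have : (1 : ℝ) ≤ (1 + E0) ^ (k + 1) := one_le_pow₀ (by linarith)
    linarith
  have hE3 : (1 + E0) ^ (k + 1) - 1 ≤ ε := by
    have := mul_nonneg hpow hE0.le
    linarith
  obtain ⟨C, hC1, X0, hL⟩ := L_levels (A + 1) E0 (max K' (max Kg Kx)) hE0 (le_max_of_le_left hK')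
  refine ⟨C, hC1, fun Q0 => ?_⟩
  obtain ⟨Q1, hgood⟩ := hgood C E0 hE0.le hE01
  obtain ⟨Q2, hexc⟩ := hexc c2 C E0 E0 hc2 hE0.le hE01 hE0
  obtain ⟨Q3, hQ3, hlog⟩ := e3_log cg c2 hcg hc2
  obtain ⟨QQ, hQQ⟩ : ∃ QQ : ℕ, QQ = max (max Q0 Q1) (max Q2 Q3) := ⟨_, rfl⟩
  have hQQ3 : 3 ≤ QQ := by
    rw [hQQ]
    exact hQ3.trans ((le_max_right _ _).trans (le_max_right _ _))
  refine ⟨max X0 ⌈Real.exp (C * Real.log QQ + 1)⌉₊, fun Z hZ => ?_⟩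
  obtain ⟨Q, hQ1, hQ2, _, halt⟩ := hL Z ((le_max_left _ _).trans hZ)
  have hZe : Real.exp (C * Real.log QQ + 1) ≤ Z :=
    (Nat.le_ceil _).trans (by exact_mod_cast (le_max_right _ _).trans hZ)
  have hZ0 : (0 : ℝ) < Z := lt_of_lt_of_le (Real.exp_pos _) hZe
  have hlZ : C * Real.log QQ + 1 ≤ Real.log Z := by
    rw [Real.le_log_iff_exp_le hZ0]
    exact hZe
  have hQge : QQ ≤ Q := by
    by_contra g1
    push Not at g1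
    have g2 : Real.log Q ≤ Real.log QQ := by
      rcases Nat.eq_zero_or_pos Q with g3 | g3
      · rw [g3, Nat.cast_zero, Real.log_zero]
        exact Real.log_natCast_nonneg _
      · exact Real.log_le_log (by exact_mod_cast g3) (by exact_mod_cast g1.le)
    have g3 := mul_le_mul_of_nonneg_left g2 (by linarith : (0 : ℝ) ≤ C)
    linarith
  rw [hQQ] at hQge
  have hQ' := max_le_iff.1 hQge
  have q0 : Q0 ≤ Q := (max_le_iff.1 hQ'.1).1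
  have q1 : Q1 ≤ Q := (max_le_iff.1 hQ'.1).2
  have q2 : Q2 ≤ Q := (max_le_iff.1 hQ'.2).1
  have q3 : Q3 ≤ Q := (max_le_iff.1 hQ'.2).2
  have hQ1' : 1 ≤ Q := by omega
  have hRg : Rg (max K' (max Kg Kx)) C Q Z := ⟨hQ1, hQ2⟩
  refine ⟨Q, q0, z4_rg (le_max_left _ _) hRg, ?_⟩
  rcases halt with h | h
  · have h1 := hgood Q Z q1 (z4_rg ((le_max_left _ _).trans (le_max_right _ _)) hRg) h
    refine e3_mono hQ1' h1 hE3 (min_le_left _ _) ?_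
    have h2 := hlog Q q3
    have h3 : 0 ≤ (Real.log Q) ^ (-(2 * c2)) := Real.rpow_nonneg (Real.log_natCast_nonneg Q) _
    linarith
  · have h1 := hexc Q Z q2 (z4_rg ((le_max_right _ _).trans (le_max_right _ _)) hRg) h
    exact e3_mono hQ1' h1 hE2 (min_le_right _ _) le_rfl

end Pool.Agent.HLA
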