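import Pool.Agent.Lib.HLA.W15A
import Pool.Agent.Lib.HLA.W3
import Pool.Agent.Lib.HLA.W10
import Pool.Agent.Lib.H9P.V16

/-!
# LOGA, chunk W15 (M/L): the core theorem
-/

open Finset Polynomial

namespace Pool.Agent.HLA

open Pool.Agent.Lib.H68T Pool.Agent.Lib.H18Q Pool.Agent.Lib.H59P Pool.Agent.Lib.H24P
open Pool.Agent.HUP Pool.Agent.H9P

/-- No fixed prime divisor: the linear coordinate is primitive. -/
theorem w15_lin {k A : ℕ} {B : ℤ[X]} (hdeg : B.natDegree = 1) (hlc : B.leadingCoeff.natAbs ≤ A) {P : Fin k → ℤ[X]}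
    {h : Fin k → ℕ} (hN : NoFix (sys B P h)) : Lin A B := by
  refine ⟨hdeg, hlc, ?_⟩
  rw [Int.isCoprime_iff_gcd_eq_one]
  by_contra hg
  obtain ⟨l, hl, hd⟩ := Nat.exists_prime_and_dvd hg
  obtain ⟨n, hn⟩ := hN l hl
  have h0 := hn 0
  apply h0
  show (l : ℤ) ∣ B.eval n
  rw [eval_eq_sum_range, hdeg, sum_range_succ, sum_range_one]
  have h1 : (l : ℤ) ∣ B.coeff 0 := (Int.natCast_dvd_natCast.2 hd).trans (Int.gcd_dvd_left _ _)
  have h2 : (l : ℤ) ∣ B.coeff 1 := (Int.natCast_dvd_natCast.2 hd).trans (Int.gcd_dvd_right _ _)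
  exact dvd_add (h1.mul_right _) (h2.mul_right _)

/-- The exceptional proportion. -/
theorem w15_asy (A : ℕ) (a1 a2 c3 c4 C : ℝ) (ha1 : 0 ≤ a1) (ha2 : 0 ≤ a2) (hc3 : 0 < c3) (hc4 : 0 < c4) (hC : 1 ≤ C) :
    ∃ Q0 : ℕ, ∀ Q Z : ℕ, Q0 ≤ Q → Real.log Q ≤ Real.log Z → Real.log Z ≤ C * Real.log Q →
    a1 * ((Real.log Q) ^ (-(2 * (A : ℝ) + 2)) + (Q : ℝ) ^ (-c3)) + a2 * (Q : ℝ) ^ (-c4) ≤ (Real.log Z) ^ (-(A : ℝ)) := by
  obtain ⟨Qa, h1⟩ := v16_asy2 a1 (2 * (A : ℝ) + 2) c3 1 C ha1 (by positivity) hc3 one_pos hC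
  obtain ⟨Qb, h2⟩ := v16_asy2 a2 (2 * (A : ℝ) + 2) c4 1 C ha2 (by positivity) hc4 one_pos hC
  obtain ⟨Qc, h3⟩ := v16_lgev 2
  refine ⟨Qa + Qb + Qc, fun Q Z hQ hQZ hZQ => ?_⟩
  have h4 := h3 Q (by omega)
  have hlQ : 0 < Real.log Q := by linarith
  have hlZ : 0 < Real.log Z := by linarith
  have h5 := h1 Q Z (by omega) hlZ hZQ
  have h6 := h2 Q Z (by omega) hlZ hZQ
  have h7 : 0 ≤ (Q : ℝ) ^ (-(1 : ℝ)) := Real.rpow_nonneg (Nat.cast_nonneg _) _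
  have h8 : 0 ≤ a2 * (Real.log Q) ^ (-(2 * (A : ℝ) + 2)) := mul_nonneg ha2 (Real.rpow_nonneg hlQ.le _)
  have h9 : (Real.log Z) ^ (-((2 * (A : ℝ) + 2) / 2)) ≤ 1 / 2 * (Real.log Z) ^ (-(A : ℝ)) := by
    have e1 : -((2 * (A : ℝ) + 2) / 2) = -(A : ℝ) + (-1) := by ring
    rw [e1, Real.rpow_add hlZ, mul_comm]
    refine mul_le_mul_of_nonneg_right ?_ (Real.rpow_nonneg hlZ.le _)
    rw [Real.rpow_neg_one, one_div]
    exact inv_anti₀ (by norm_num) (by linarith)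
  rw [mul_add] at h6
  linarith

theorem w15_pow {κ Z Z' : ℝ} (hκ : 0 < κ) (hκ1 : κ ≤ 1) (hZ : 0 ≤ Z) (h : κ * Z ≤ Z') {m N : ℕ} (hm : m ≤ N) :
    κ ^ N * Z ^ m ≤ Z' ^ m := by
  have h1 : κ ^ N ≤ κ ^ m := pow_le_pow_of_le_one hκ.le hκ1 hm
  calc κ ^ N * Z ^ m ≤ κ ^ m * Z ^ m := mul_le_mul_of_nonneg_right h1 (by positivity)
    _ = (κ * Z) ^ m := (mul_pow _ _ _).symm
    _ ≤ Z' ^ m := pow_le_pow_left₀ (by positivity) h _

theorem w15_min {a b η ε : ℝ} (ha : 0 < a) (hb0 : 0 ≤ b) (hε1 : ε ≤ 1) (hη : η ≤ ε / 200) (h : |a - b| ≤ η * b) :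
    |b - a| ≤ ε / 64 * a := by
  have hb : 0 ≤ η * b := (abs_nonneg _).trans h
  obtain ⟨h1, h2⟩ := abs_le.1 h
  rw [abs_le]
  have h3 : η * b ≤ ε / 200 * b := mul_le_mul_of_nonneg_right hη hb0
  have h4 : ε / 200 * b ≤ 1 / 200 * b := mul_le_mul_of_nonneg_right (by linarith) hb0
  have h5 : b ≤ 2 * a := by linarith
  have h7 : 0 ≤ ε ∨ ε < 0 := le_or_gt 0 ε
  rcases h7 with h7 | h7
  · have h6 : ε / 200 * b ≤ ε / 200 * (2 * a) := mul_le_mul_of_nonneg_left h5 (by positivity)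
    have h8 : 0 ≤ ε * a := by positivity
    constructor <;> linarith
  · exfalso
    have h8 : b = 0 := by
      by_contra hb1
      have hb2 : 0 < b := lt_of_le_of_ne hb0 (Ne.symm hb1)
      have : η * b < 0 := mul_neg_of_neg_of_pos (by linarith) hb2
      linarith
    rw [h8, mul_zero] at h h1 h2
    linarith

/-- **W15.** Variant of `V16_core` (`H9P/V16.lean`), whose proof should be copied as far as possible. Proof. `δ1` from `W10_main` (replace it by `min δ1 1`). Given `A`: `A' = A + ∑ D_i + ∑ |a_i| + 1`; `c0` from `W10_main` for `A'` (`z ≤ z'`, constants `C1w, z0w`).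
Given `ε` (WLOG `≤ 1`), `κ` (WLOG `≤ 1`), `vf`. `V14_main` (`H9P/V14.lean`) for `A'` gives `E, Cc, cc, K1`; `U13_sieve k A'` gives `Cs, Ks`; `K' = K1 + Ks + 1/δ1 + 1000`; `W3_all k A' E Cc cc K'` gives `c1`, then with
`c2 = A + 2` and `ε/64` the constant `C`. `Cb = Cs (∏ D) (2 C)^(k+1)`, `θ = ε/(24 (Cb + 1))` (`≤ 1/24`), the `θ` of `ACore` is `θ/4`, `v = vf (θ/4)`, `δ2 = min v 1 / 2`; `V14_main` with `C, c1, δ2` gives `Cv, ρ0`; `ρ = min(ρ0, θ κ/16, 1/2)`, then `c0', Q0`.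
For `Z` large `Q` from `W3_all`: `Rg K' C Q Z`, `Lvl k A' E Cc cc Q Z (ε/64) c1 ((log Q)^(-c2))`. `X1 = Q^800 ⌊ρ Z/Q^800⌋`. If `B` is not primitive there is no `t` with `NoFix` (as in `V16_core`), so `Lin A' B`. Exceptional sets:
(a) for every `j ≤ 2/ρ` (`j X1 ≤ Z`) such that `δ2 Z ≤ B(n) ≤ A' Z` on `[j X1 + X1, j X1 + 2 X1)`: the set of `V14_main` with `n0 = j X1` (for the other `j` the empty set): together at most
`(2/ρ + 1) Cv Z^(∑ e) ((log Q)^(-c2) + Q^(-c0'))`, at most `Z^(∑ e) (log Z)^(-A)/2` for `Z` large (`log Q ≥ log Z/C`).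
(b) for `z0w ≤ z`: the set of `W10_main` for the two levels `min(z, Q), max(z, Q)`: at most `C1w Z^(∑ e) (min z Q)^(-c0) ≤ C1w Z^(∑ e) (z^(-c0) + Q^(-c0))`; the second part is at most `Z^(∑ e) (log Z)^(-A)/4`, `z^(-c0) ≤ 2^c0 (z+1)^(-c0)`.
If `z < z1` (`z1 ≥ z0w` a constant with `C1w z1^(-c0) ≤ ε/200`) the bound is trivial with `C1 ≥ (2 A + 2)^d (z1 + 1)^c0` (`u10_card`). For the other `t` (`z1 ≤ z`, `t` in none of the sets): `φ = sys B P (hh c β t)`, `SS = SSf (pr Q) φ ≥ c (1 + log Q)^(-C')` (`X2_low`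
as in `V16_core`), so `Q^(-c0'), Q^(-c1) ≤ (ε/64) SS`; for the cells of `w15_one` the hypothesis on `B` and on the values at `n0` of `V14_main` hold by `w15_val` (`Z' ≤ Z`, `P_i(n0) + β_i + ψ_i(t) ≥ v Z^(D_i) ≥ δ2 Z^(D_i)`), which gives `hcell`;
`hwt` by `U12_wt` at the scale `Z'` (`Z' ≥ κ Z`, upper constant `A κ^(-D)`); `hsv` by `U13_sieve` (`log L ≥ log Z' - log(8/θ) ≥ K log Q`, `(log Z')^(k+1) ≤ (2 C log Q)^(k+1)`); `hz` by (b) (relative to the smaller level; relative to `SSf (pr Q)` up to the factor `2`).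
`Z' ≥ κ Z` is large, `X1 ≤ ρ Z ≤ θ Z'/8`. -/
theorem W15_core {k d : ℕ} (c : Fin k → Fin d → ℤ) (e : Fin d → ℕ) (D : Fin k → ℕ) (a : Fin k → ℤ)
    (hF : FGTU c D a) (hS : S4TU c e D a) (he : ∀ j, 1 ≤ e j) (hB : ∀ i j, c i j ≠ 0 → e j = D i)
    (hD : ∀ i, 1 ≤ D i) (P : Fin k → ℤ[X]) (hP : HasD D a P) : ACore c e D P := by
  classical
  obtain ⟨δ1, hδ1, h10⟩ := W10_main c e D a hF he hD P hP
  refine ⟨δ1, hδ1, fun A => ?_⟩
  obtain ⟨A', hA'⟩ : ∃ A' : ℕ, A' = A + ∑ i, D i + ∑ i, (a i).natAbs + 1 := ⟨_, rfl⟩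
  have hA1 : 1 ≤ A' := by omega
  have hAA : A ≤ A' := by omega
  have hA1r : (1 : ℝ) ≤ A' := by exact_mod_cast hA1
  have hAAr : (A : ℝ) ≤ A' := by exact_mod_cast hAA
  have hDA : ∀ i, D i ≤ A' ∧ (a i).natAbs ≤ A' := by
    intro i
    have h1 : D i ≤ ∑ i, D i := single_le_sum (f := fun i => D i) (fun _ _ => Nat.zero_le _) (mem_univ i)
    have h2 : (a i).natAbs ≤ ∑ i, (a i).natAbs :=
      single_le_sum (f := fun i => (a i).natAbs) (fun _ _ => Nat.zero_le _) (mem_univ i)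
    omega
  have hPol : Pol A' P := ⟨fun i => by rw [(hP i).1]; exact hD i, fun i => by rw [(hP i).1]; exact (hDA i).1,
    fun i => by rw [(hP i).2]; exact (hDA i).2⟩
  obtain ⟨c0, C1w, hc0, hC1w, z0, hW10⟩ := h10 A'
  refine ⟨c0, hc0, fun ε0 κ0 vf hε0 hκ0 hvf => ?_⟩
  obtain ⟨E, Cc, cc, K1, hpar, hK1, h14⟩ := V14_main c e D a hF hS he hB hD P hP A' hA1 hDA
  obtain ⟨Cs, Ks, hCs, hKs, Q13, h13⟩ := U13_sieve k A' hA1
  have hδ1i : 0 < 1 / δ1 := by positivity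
  obtain ⟨K', hK'⟩ : ∃ K' : ℝ, K' = K1 + Ks + 1 / δ1 + 1000 := ⟨_, rfl⟩
  obtain ⟨c1, hc1, hE3⟩ := W3_all k A' E hA1 Cc cc hpar K' (by linarith)
  obtain ⟨ε, hε⟩ : ∃ ε : ℝ, ε = min ε0 1 := ⟨_, rfl⟩
  have hεp : 0 < ε := by rw [hε]; exact lt_min hε0 one_pos
  have hε1 : ε ≤ 1 := by rw [hε]; exact min_le_right _ _
  have hεε : ε ≤ ε0 := by rw [hε]; exact min_le_left _ _
  obtain ⟨κ, hκ⟩ : ∃ κ : ℝ, κ = min κ0 1 := ⟨_, rfl⟩
  have hκp : 0 < κ := by rw [hκ]; exact lt_min hκ0 one_pos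
  have hκ1 : κ ≤ 1 := by rw [hκ]; exact min_le_right _ _
  have hκκ : κ ≤ κ0 := by rw [hκ]; exact min_le_left _ _
  obtain ⟨C, hC, hE4⟩ := hE3 (2 * (A : ℝ) + 2) (ε / 64) (by positivity) (by positivity)
  have hP0 : 0 < ∏ i, (D i : ℝ) := by
    refine prod_pos fun i _ => ?_
    exact_mod_cast hD i
  obtain ⟨Cb, hCb⟩ : ∃ Cb : ℝ, Cb = Cs * ((∏ i, (D i : ℝ)) * C ^ (k + 1)) := ⟨_, rfl⟩
  have hCb0 : 0 ≤ Cb := by rw [hCb]; positivity
  obtain ⟨θ, hθd⟩ : ∃ θ : ℝ, θ = ε / (24 * (Cb + 1)) := ⟨_, rfl⟩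
  have hθ0 : 0 < θ := by rw [hθd]; positivity
  have hθC : 24 * θ * (Cb + 1) ≤ ε := by
    rw [hθd]
    apply le_of_eq
    field_simp
  have hθ1 : θ ≤ 1 / 4 := by
    rw [hθd, div_le_iff₀ (by positivity)]
    linarith
  obtain ⟨v, hvd⟩ : ∃ v : ℝ, v = min (vf (θ / 4)) 1 / 2 := ⟨_, rfl⟩
  have hvf0 : 0 < vf (θ / 4) := hvf _ (by positivity)
  have hv0 : 0 < v := by
    rw [hvd]
    have : 0 < min (vf (θ / 4)) 1 := lt_min hvf0 one_pos
    linarith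
  have hvv : v ≤ vf (θ / 4) := by
    have h1 : min (vf (θ / 4)) 1 ≤ vf (θ / 4) := min_le_left _ _
    linarith
  obtain ⟨Cz, hCz⟩ : ∃ Cz : ℝ, Cz = A' / κ ^ (A' + 1) := ⟨_, rfl⟩
  have hκN : 0 < κ ^ (A' + 1) := by positivity
  have hκN1 : κ ^ (A' + 1) ≤ 1 := pow_le_one₀ hκp.le hκ1
  have hCz1 : 1 ≤ Cz := by
    rw [hCz, le_div_iff₀ hκN]
    linarith
  obtain ⟨Z12, h12⟩ := U12_wt D hD v Cz (ε / 16) hv0 hCz1 (by positivity)
  obtain ⟨Cv, ρ0, hCv, hρ0, h14'⟩ := h14 C c1 v hc1 hv0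
  obtain ⟨ρ, hρd⟩ : ∃ ρ : ℝ, ρ = min ρ0 (θ * κ / 16) := ⟨_, rfl⟩
  have hρ : 0 < ρ := by rw [hρd]; exact lt_min hρ0 (by positivity)
  have hρρ : ρ ≤ ρ0 := by rw [hρd]; exact min_le_left _ _
  have hρθ : ρ ≤ θ * κ / 16 := by rw [hρd]; exact min_le_right _ _
  have hρ1 : ρ ≤ 1 / 32 := by
    have : θ * κ ≤ 1 / 4 * 1 := mul_le_mul hθ1 hκ1 hκp.le (by norm_num)
    linarith
  obtain ⟨c3, hc3, Q14, h14''⟩ := h14' ρ hρ hρρ
  obtain ⟨CX, cX, hCX, hcX, hX2⟩ := X2_low k A' hA1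
  obtain ⟨Qa, ha1⟩ := v16_asy1 c3 (ε / 64 * cX) CX hc3 (by positivity) hCX
  obtain ⟨z2, hz2⟩ := u14_ev c0 hc0 (200 * C1w / ε)
  obtain ⟨z1, hz1⟩ : ∃ z1 : ℕ, z1 = z0 + z2 + 1 := ⟨_, rfl⟩
  have hη : ∀ y : ℕ, z1 ≤ y → C1w * (y : ℝ) ^ (-c0) ≤ ε / 200 := by
    intro y hy
    have hy0 : (0 : ℝ) < y := by exact_mod_cast (by omega : 0 < y)
    have h1 := hz2 y (by omega)
    have h2 : 0 < (y : ℝ) ^ c0 := Real.rpow_pos_of_pos hy0 _
    rw [Real.rpow_neg hy0.le, ← div_eq_mul_inv, div_le_iff₀ h2]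
    rw [div_le_iff₀ hεp] at h1
    linarith
  obtain ⟨C1, hC1⟩ : ∃ C1 : ℝ, C1 = (2 * (A' : ℝ)) ^ d * ((z1 : ℝ) + 1) ^ c0 + C1w * 2 ^ c0 := ⟨_, rfl⟩
  have hC1a : 0 ≤ (2 * (A' : ℝ)) ^ d * ((z1 : ℝ) + 1) ^ c0 := by positivity
  have hC1b : 0 ≤ C1w * (2 : ℝ) ^ c0 := by positivity
  have hC10 : 0 ≤ C1 := by rw [hC1]; linarith
  obtain ⟨Qc, hc1'⟩ := w15_asy A ((2 / ρ + 1) * Cv) C1w c3 c0 C (by positivity) (by linarith) hc3 hc0 hC
  obtain ⟨Qd, hd⟩ := v16_lgev 2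
  obtain ⟨Qe, he1⟩ : ∃ Qe : ℕ, Qe = ⌈8 / ρ⌉₊ := ⟨_, rfl⟩
  obtain ⟨Z0, hZ0⟩ := hE4 (Q13 + Q14 + Qa + Qc + Qd + Qe + z1 + 2)
  obtain ⟨Z3, hZ3⟩ : ∃ Z3 : ℕ, Z3 = ⌈(Z12 : ℝ) / κ⌉₊ := ⟨_, rfl⟩
  refine ⟨θ / 4, C1, Z0 + Z3 + 1, by positivity, hC10, fun Z hZ B hBd hBl β hβ z hz => ?_⟩
  obtain ⟨Q, hQ, hRg, hLvl⟩ := hZ0 Z (by omega)
  obtain ⟨hRg1, hRg2⟩ := hRg
  have hQ2 : 2 ≤ Q := by omega
  have hQr : (2 : ℝ) ≤ Q := by exact_mod_cast hQ2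
  have hlQ : 2 ≤ Real.log Q := hd Q (by omega)
  have hKl : K1 * Real.log Q + Ks * Real.log Q + 1 / δ1 * Real.log Q + 1000 * Real.log Q ≤ Real.log Z := by
    have : K' * Real.log Q = K1 * Real.log Q + Ks * Real.log Q + 1 / δ1 * Real.log Q + 1000 * Real.log Q := by
      rw [hK']; ring
    linarith
  have hlQ0 : 0 < Real.log Q := by linarith
  have hK1l : 0 < K1 * Real.log Q := by positivity
  have hKsl : 0 < Ks * Real.log Q := by positivity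
  have hδl : 0 < 1 / δ1 * Real.log Q := by positivity
  have hlZ : 0 < Real.log Z := by linarith
  have hZp : 0 < Z := by
    rcases Nat.eq_zero_or_pos Z with h | h
    · rw [h, Nat.cast_zero, Real.log_zero] at hlZ
      exact absurd hlZ (lt_irrefl _)
    · exact h
  have hZr : (0 : ℝ) < Z := by exact_mod_cast hZp
  have hQρ : 8 ≤ ρ * Q := by
    have h1 : 8 / ρ ≤ Qe := by rw [he1]; exact Nat.le_ceil _
    have h2 : (Qe : ℝ) ≤ Q := by exact_mod_cast (by omega : Qe ≤ Q)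
    have h3 : 8 / ρ ≤ Q := h1.trans h2
    rw [div_le_iff₀ hρ] at h3
    linarith
  have hZQ : (Q : ℝ) ^ 801 ≤ Z := by
    rw [← Real.log_le_log_iff (by positivity) hZr, Real.log_pow]
    push_cast
    linarith
  have hZbig : 2 * ((Q ^ 800 : ℕ) : ℝ) ≤ ρ * Z := by
    push_cast
    calc 2 * (Q : ℝ) ^ 800 ≤ (ρ * Q) * (Q : ℝ) ^ 800 := mul_le_mul_of_nonneg_right (by linarith) (by positivity)
      _ = ρ * (Q : ℝ) ^ 801 := by ring
      _ ≤ ρ * Z := mul_le_mul_of_nonneg_left hZQ hρ.le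
  have hρZ : 8 ≤ ρ * Z := by
    have h1 : (Q : ℝ) ≤ Z := by
      refine le_trans ?_ hZQ
      calc (Q : ℝ) = (Q : ℝ) ^ 1 := (pow_one _).symm
        _ ≤ (Q : ℝ) ^ 801 := pow_le_pow_right₀ (by linarith) (by norm_num)
    exact hQρ.trans (mul_le_mul_of_nonneg_left h1 hρ.le)
  have hQδ : (Q : ℝ) ≤ (Z : ℝ) ^ δ1 := by
    rw [← Real.log_le_log_iff (by positivity) (by positivity), Real.log_rpow hZr]
    have h1 : 1 / δ1 * Real.log Q ≤ Real.log Z := by linarith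
    rw [div_mul_eq_mul_div, one_mul, div_le_iff₀ hδ1] at h1
    linarith
  have hZe : (Z : ℝ) ^ (∑ j, (e j : ℝ)) = (Z : ℝ) ^ (∑ j, e j) := by
    rw [← Real.rpow_natCast]
    push_cast
    rfl
  rw [hZe]
  have hZe0 : 0 < (Z : ℝ) ^ (∑ j, e j) := by positivity
  have hlA : 0 ≤ (Real.log Z) ^ (-(A : ℝ)) := Real.rpow_nonneg hlZ.le _
  have hz11 : (0 : ℝ) < (z : ℝ) + 1 := by positivity
  have hzc : 0 < ((z : ℝ) + 1) ^ (-c0) := Real.rpow_pos_of_pos hz11 _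
  -- the set of bad parameters
  set F := ((tb 0 fun j => A * Z ^ e j + 1).filter fun t => (∀ i, 0 ≤ β i + lf c t i) ∧ NoFix (sys B P (hh c β t)) ∧
      ∃ Z' : ℕ, Reg A κ0 (θ / 4) (vf (θ / 4)) Z Z' D (sys B P (hh c β t)) ∧
        ε0 * (Z' * dens D z Z' (sys B P (hh c β t))) <
        |(cnt (sys B P (hh c β t)) 1 Z' : ℝ) - Z' * dens D z Z' (sys B P (hh c β t))|) with hFd
  rcases F.eq_empty_or_nonempty with hF0 | ⟨t0, ht0⟩
  · rw [hF0, card_empty, Nat.cast_zero]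
    positivity
  have hLin : Lin A' B := by
    have h1 := (mem_filter.1 ht0).2.2.1
    exact u10_lin hAA (w15_lin hBd hBl h1)
  have hβ' : ∀ i, |β i| ≤ A' * (Z : ℤ) ^ D i := by
    intro i
    refine (hβ i).trans (mul_le_mul_of_nonneg_right ?_ (by positivity))
    exact_mod_cast hAA
  by_cases hzz : z < z1
  · -- small levels: the trivial bound
    have h1 : (F.card : ℝ) ≤ (2 * A') ^ d * (Z : ℝ) ^ (∑ j, e j) := by
      refine le_trans ?_ (u10_card e A' Z hA1 hZp)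
      refine Nat.cast_le.2 (card_le_card fun t ht => ?_)
      exact v16_tb e hAA (mem_filter.1 ht).1
    have h2 : ((z : ℝ) + 1) ^ c0 ≤ ((z1 : ℝ) + 1) ^ c0 := by
      refine Real.rpow_le_rpow hz11.le ?_ hc0.le
      have : (z : ℝ) ≤ z1 := by exact_mod_cast hzz.le
      linarith
    have h3 : (2 * (A' : ℝ)) ^ d ≤ C1 * ((z : ℝ) + 1) ^ (-c0) := by
      rw [Real.rpow_neg hz11.le, ← div_eq_mul_inv, le_div_iff₀ (Real.rpow_pos_of_pos hz11 _)]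
      have h4 : (2 * (A' : ℝ)) ^ d * ((z : ℝ) + 1) ^ c0 ≤ (2 * (A' : ℝ)) ^ d * ((z1 : ℝ) + 1) ^ c0 :=
        mul_le_mul_of_nonneg_left h2 (by positivity)
      rw [hC1]
      linarith
    calc (F.card : ℝ) ≤ (2 * A') ^ d * (Z : ℝ) ^ (∑ j, e j) := h1
      _ = (Z : ℝ) ^ (∑ j, e j) * (2 * A') ^ d := mul_comm _ _
      _ ≤ (Z : ℝ) ^ (∑ j, e j) * ((Real.log Z) ^ (-(A : ℝ)) + C1 * ((z : ℝ) + 1) ^ (-c0)) :=
        mul_le_mul_of_nonneg_left (by linarith) hZe0.le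
  push_neg at hzz
  obtain ⟨X1, -, -, hX1d, hX1, hX1a, hX1b, -⟩ :=
    v16_num (Q ^ 800) Z ρ (1 / 4) hρ (by linarith) le_rfl (by positivity) hZbig
  set Ej : ℕ → Finset (Fin d → ℤ) := fun j =>
    if (∀ n ∈ Ico (j * X1 + X1) (j * X1 + 2 * X1), v * Z ≤ ((B.eval (n : ℤ) : ℤ) : ℝ) ∧
      ((B.eval (n : ℤ) : ℤ) : ℝ) ≤ A' * Z) ∧ j * X1 ≤ A' * Z then
    ((tb 0 fun j => A' * Z ^ e j + 1).filter fun t =>
      (∀ i, 0 ≤ β i + lf c t i) ∧ NoFix (sys B P (hh c β t)) ∧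
      (∀ i, v * (Z : ℝ) ^ D i ≤ (((P i).eval ((j * X1 : ℕ) : ℤ) + β i + lf c t i : ℤ) : ℝ)) ∧
      X1 * (ε / 64 * SSf (pr Q) (sys B P (hh c β t)) + (Q : ℝ) ^ (-c3)) <
        |wct (sys B P (hh c β t)) (j * X1 + X1) X1 - X1 * SSf (pr Q) (sys B P (hh c β t))|) else ∅ with hEj
  have hX0 : 0 ≤ (Real.log Q) ^ (-(2 * (A : ℝ) + 2)) + (Q : ℝ) ^ (-c3) := by positivity
  have hEjc : ∀ j : ℕ, ((Ej j).card : ℝ) ≤
      Cv * (Z : ℝ) ^ (∑ j, e j) * ((Real.log Q) ^ (-(2 * (A : ℝ) + 2)) + (Q : ℝ) ^ (-c3)) := by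
    intro j
    rw [hEj]
    dsimp only
    split_ifs with hj
    · have h1 := h14'' Q Z (by omega) ⟨by linarith, hRg2⟩ (ε / 64) ((Real.log Q) ^ (-(2 * (A : ℝ) + 2)))
        (by positivity) hLvl X1 (j * X1) hX1d hX1a hX1b hj.2 B hLin hj.1 β hβ'
      refine le_trans ?_ h1
      exact Nat.cast_le.2 (card_le_card fun t ht => mem_filter.2 (mem_filter.1 ht))
    · rw [card_empty, Nat.cast_zero]
      positivity
  obtain ⟨zm, hzm⟩ : ∃ zm, zm = min z Q := ⟨_, rfl⟩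
  obtain ⟨zM, hzM⟩ : ∃ zM, zM = max z Q := ⟨_, rfl⟩
  have hzm1 : z1 ≤ zm := by rw [hzm]; exact le_min hzz (by omega)
  have hzm0 : (0 : ℝ) < zm := by exact_mod_cast (by omega : 0 < zm)
  set G := ((tb 0 fun j => A' * Z ^ e j + 1).filter fun t => (∀ i, 0 ≤ β i + lf c t i) ∧
      C1w * (zm : ℝ) ^ (-c0) * SSf (pr zm) (sys B P (hh c β t)) <
        |SSf (pr zM) (sys B P (hh c β t)) - SSf (pr zm) (sys B P (hh c β t))|) with hG
  have hzMZ : (zM : ℝ) ≤ (Z : ℝ) ^ δ1 := by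
    rw [hzM, Nat.cast_max]
    exact max_le hz hQδ
  have hGc : (G.card : ℝ) ≤ C1w * (Z : ℝ) ^ (∑ j, e j) * (zm : ℝ) ^ (-c0) := by
    refine le_trans ?_ (hW10 zm zM Z (by omega) (by rw [hzm, hzM]; exact (min_le_left _ _).trans (le_max_left _ _)) hzMZ
      B hLin β)
    exact Nat.cast_le.2 (card_le_card fun t ht => mem_filter.2 (mem_filter.1 ht))
  have hzmb : (zm : ℝ) ^ (-c0) ≤ (2 : ℝ) ^ c0 * ((z : ℝ) + 1) ^ (-c0) + (Q : ℝ) ^ (-c0) := by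
    have hQn : 0 ≤ (Q : ℝ) ^ (-c0) := Real.rpow_nonneg (Nat.cast_nonneg _) _
    rcases le_total z Q with h | h
    · rw [hzm, min_eq_left h]
      have hzp : (0 : ℝ) < z := by exact_mod_cast (by omega : 0 < z)
      have hz1r : (1 : ℝ) ≤ z := by exact_mod_cast (by omega : 1 ≤ z)
      have h1 : ((z : ℝ) + 1) ^ c0 ≤ 2 ^ c0 * (z : ℝ) ^ c0 := by
        rw [← Real.mul_rpow (by norm_num) hzp.le]
        exact Real.rpow_le_rpow hz11.le (by linarith) hc0.le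
      have h2 : (z : ℝ) ^ (-c0) ≤ (2 : ℝ) ^ c0 * ((z : ℝ) + 1) ^ (-c0) := by
        rw [Real.rpow_neg hzp.le, Real.rpow_neg hz11.le, ← div_eq_mul_inv, le_div_iff₀ (Real.rpow_pos_of_pos hz11 _),
          inv_mul_le_iff₀ (Real.rpow_pos_of_pos hzp _), mul_comm ((z : ℝ) ^ c0)]
        exact h1
      linarith
    · rw [hzm, min_eq_right h]
      have : 0 ≤ (2 : ℝ) ^ c0 * ((z : ℝ) + 1) ^ (-c0) := by positivity
      linarith
  have hsub : F ⊆ (range (⌊2 / ρ⌋₊ + 1)).biUnion Ej ∪ G := by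
    intro t ht
    obtain ⟨ht1, ht2, ht3, Z', hR, ht4⟩ := mem_filter.1 ht
    have ht1' := v16_tb e hAA ht1
    by_contra hn
    rw [mem_union, mem_biUnion, not_or] at hn
    obtain ⟨hn1, hn2⟩ := hn
    have hn1' : ∀ j ∈ range (⌊2 / ρ⌋₊ + 1), t ∉ Ej j := fun j hj hjt => hn1 ⟨j, hj, hjt⟩
    set φ := sys B P (hh c β t) with hφ
    have hX2' := hX2 B hLin P hPol (hh c β t) ht3 Q hQ2 (pr Q) (Finset.Subset.refl _)
    rw [← hφ] at hX2'
    have hlp : 0 < (1 + Real.log Q) ^ (-CX) := Real.rpow_pos_of_pos (by linarith) _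
    have hSS : 0 < SSf (pr Q) φ := lt_of_lt_of_le (by positivity) hX2'
    have hSSb : ε / 64 * cX * (1 + Real.log Q) ^ (-CX) ≤ ε / 64 * SSf (pr Q) φ := by
      have := mul_le_mul_of_nonneg_left hX2' (by positivity : 0 ≤ ε / 64)
      linarith
    have hθ1' : (Q : ℝ) ^ (-c3) ≤ ε / 64 * SSf (pr Q) φ := (ha1 Q (by omega)).trans hSSb
    have hz' : |SSf (pr z) φ - SSf (pr Q) φ| ≤ ε / 64 * SSf (pr Q) φ := by
      have h1 : |SSf (pr zM) φ - SSf (pr zm) φ| ≤ C1w * (zm : ℝ) ^ (-c0) * SSf (pr zm) φ := by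
        by_contra h
        exact hn2 (mem_filter.2 ⟨ht1', ht2, not_le.1 h⟩)
      have h2 := hη zm hzm1
      rcases le_total z Q with h | h
      · have e1 : zm = z := by rw [hzm]; exact min_eq_left h
        have e2 : zM = Q := by rw [hzM]; exact max_eq_right h
        rw [e1] at h2
        rw [e1, e2] at h1
        exact w15_min hSS (e3_nn z φ) hε1 h2 h1
      · have e1 : zm = Q := by rw [hzm]; exact min_eq_right h
        have e2 : zM = z := by rw [hzM]; exact max_eq_left h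
        rw [e1] at h2
        rw [e1, e2] at h1
        refine h1.trans (mul_le_mul_of_nonneg_right (h2.trans ?_) hSS.le)
        linarith
    -- the length
    have hZ'Z : (Z' : ℝ) ≤ Z := by exact_mod_cast hR.le
    have hZ'κ : κ * Z ≤ Z' := (mul_le_mul_of_nonneg_right hκκ hZr.le).trans hR.ge
    have hρZ' : ρ * Z ≤ θ / 16 * Z' := by
      calc ρ * Z ≤ θ * κ / 16 * Z := mul_le_mul_of_nonneg_right hρθ hZr.le
        _ = θ / 16 * (κ * Z) := by ring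
        _ ≤ θ / 16 * Z' := mul_le_mul_of_nonneg_left hZ'κ (by positivity)
    have hθZ' : 128 ≤ θ * Z' := by linarith
    have hZ'0 : (0 : ℝ) ≤ Z' := Nat.cast_nonneg _
    have hZ'p : (128 : ℝ) ≤ Z' := by
      have : θ * Z' ≤ 1 * Z' := mul_le_mul_of_nonneg_right (by linarith) hZ'0
      linarith
    have hZ'pos : (0 : ℝ) < Z' := by linarith
    have hlZ' : 1 ≤ Real.log Z' := by
      rw [Real.le_log_iff_exp_le hZ'pos]
      have := Real.exp_one_lt_d9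
      linarith
    have hlZZ' : Real.log Z' ≤ Real.log Z := Real.log_le_log hZ'pos hZ'Z
    have hX1Z' : (X1 : ℝ) ≤ θ / 8 * Z' := by
      have h1 : θ / 16 * Z' ≤ θ / 8 * Z' := mul_le_mul_of_nonneg_right (by linarith) hZ'0
      linarith
    have hX1r : (0 : ℝ) < X1 := by exact_mod_cast hX1
    have hcast : ∀ i, ((β i + lf c t i : ℤ) : ℝ) ≥ 0 := by
      intro i
      have := ht2 i
      exact_mod_cast this
    have hvals : ∀ j : ℕ, θ / 4 * Z' ≤ (j * X1 : ℕ) → (((j + 2) * X1 : ℕ) : ℝ) ≤ (1 - θ / 2) * Z' →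
        ∀ n ∈ Ico (j * X1) (j * X1 + 2 * X1),
        (vf (θ / 4) * Z ≤ ((φ 0 (n : ℤ) : ℤ) : ℝ) ∧ ((φ 0 (n : ℤ) : ℤ) : ℝ) ≤ A * Z) ∧
        ∀ i : Fin k, vf (θ / 4) * (Z : ℝ) ^ D i ≤ ((φ i.succ (n : ℤ) : ℤ) : ℝ) ∧
          ((φ i.succ (n : ℤ) : ℤ) : ℝ) ≤ A * (Z : ℝ) ^ D i := by
      intro j h1 h2 n hn
      refine w15_val A κ0 θ (vf (θ / 4)) Z Z' D φ hR hθ0 (j * X1) X1 h1 ?_ n hn
      rw [show j * X1 + 2 * X1 = (j + 2) * X1 by ring]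
      exact h2
    have hone := w15_one D hD φ Z' Q z X1 ε θ Cb hεp hε1 hθ0 (by linarith) hCb0 hθC (by linarith) hlZ' hX1 hX1Z' hSS
      (by
        intro j h1 h2
        have hjZ : ((j * X1 : ℕ) : ℝ) ≤ Z := by
          have h3 : ((j * X1 : ℕ) : ℝ) ≤ (((j + 2) * X1 : ℕ) : ℝ) := by
            exact_mod_cast Nat.mul_le_mul_right _ (by omega : j ≤ j + 2)
          have h4 : (1 - θ / 2) * Z' ≤ 1 * Z' := mul_le_mul_of_nonneg_right (by linarith) hZ'0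
          linarith
        have hjJ : j ∈ range (⌊2 / ρ⌋₊ + 1) := by
          rw [mem_range, Nat.lt_succ_iff]
          refine Nat.le_floor ?_
          rw [le_div_iff₀ hρ]
          push_cast at hjZ
          have h3 : (j : ℝ) * (ρ * Z) ≤ j * (2 * X1) := mul_le_mul_of_nonneg_left hX1a (Nat.cast_nonneg _)
          have h4 : (j : ℝ) * ρ * Z ≤ 2 * Z := by nlinarith
          exact le_of_mul_le_mul_right h4 hZr
        have hnj := hn1' j hjJ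
        have hcond : (∀ n ∈ Ico (j * X1 + X1) (j * X1 + 2 * X1), v * Z ≤ ((B.eval (n : ℤ) : ℤ) : ℝ) ∧
            ((B.eval (n : ℤ) : ℤ) : ℝ) ≤ A' * Z) ∧ j * X1 ≤ A' * Z := by
          constructor
          · intro n hn
            rw [mem_Ico] at hn
            have h3 := (hvals j h1 h2 n (mem_Ico.2 ⟨by omega, hn.2⟩)).1
            have h4 : vf (θ / 4) * Z ≤ ((B.eval (n : ℤ) : ℤ) : ℝ) := h3.1
            have h5 : ((B.eval (n : ℤ) : ℤ) : ℝ) ≤ A * Z := h3.2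
            exact ⟨(mul_le_mul_of_nonneg_right hvv hZr.le).trans h4,
              h5.trans (mul_le_mul_of_nonneg_right hAAr hZr.le)⟩
          · have h3 : j * X1 ≤ Z := by exact_mod_cast hjZ
            exact h3.trans (Nat.le_mul_of_pos_left _ hA1)
        have hle : |wct φ (j * X1 + X1) X1 - X1 * SSf (pr Q) φ| ≤ X1 * (ε / 64 * SSf (pr Q) φ + (Q : ℝ) ^ (-c3)) := by
          by_contra h3
          apply hnj
          rw [hEj]
          dsimp only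
          rw [if_pos hcond]
          refine mem_filter.2 ⟨ht1', ht2, ht3, ?_, not_le.1 h3⟩
          intro i
          have h4 := ((hvals j h1 h2 (j * X1) (mem_Ico.2 ⟨le_rfl, by omega⟩)).2 i).1
          have h5 : φ i.succ ((j * X1 : ℕ) : ℤ) = (P i).eval ((j * X1 : ℕ) : ℤ) + (β i + lf c t i) := by
            show (P i).eval ((j * X1 : ℕ) : ℤ) + ((β i + lf c t i).toNat : ℤ) = _
            rw [Int.toNat_of_nonneg (ht2 i)]
          rw [h5] at h4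
          have h6 : v * (Z : ℝ) ^ D i ≤ vf (θ / 4) * (Z : ℝ) ^ D i := mul_le_mul_of_nonneg_right hvv (by positivity)
          push_cast at h4 ⊢
          linarith
        rw [show (j + 1) * X1 = j * X1 + X1 by ring]
        refine hle.trans (mul_le_mul_of_nonneg_left ?_ hX1r.le)
        linarith)
      (by
        intro j h1 h2
        have hZ12 : Z12 ≤ Z' := by
          have h3 : (Z12 : ℝ) / κ ≤ Z3 := by rw [hZ3]; exact Nat.le_ceil _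
          have h4 : (Z3 : ℝ) ≤ Z := by exact_mod_cast (by omega : Z3 ≤ Z)
          have h5 : (Z12 : ℝ) / κ ≤ Z := h3.trans h4
          rw [div_le_iff₀ hκp] at h5
          have h6 : (Z12 : ℝ) ≤ Z' := by linarith
          exact_mod_cast h6
        refine h12 Z' hZ12 φ ((j + 1) * X1) X1 fun n hn => ?_
        rw [mem_Ico] at hn
        have e1 : (j + 1) * X1 = j * X1 + X1 := by ring
        obtain ⟨⟨h3, h4⟩, h5⟩ := hvals j h1 h2 n (mem_Ico.2 ⟨by omega, by omega⟩)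
        have hup : ∀ m : ℕ, m ≤ A' + 1 → (A : ℝ) * (Z : ℝ) ^ m ≤ Cz * (Z' : ℝ) ^ m := by
          intro m hm
          have h6 := w15_pow hκp hκ1 hZr.le hZ'κ hm
          rw [hCz, div_mul_eq_mul_div, le_div_iff₀ hκN]
          calc (A : ℝ) * (Z : ℝ) ^ m * κ ^ (A' + 1) = A * (κ ^ (A' + 1) * (Z : ℝ) ^ m) := by ring
            _ ≤ A * (Z' : ℝ) ^ m := mul_le_mul_of_nonneg_left h6 (Nat.cast_nonneg _)
            _ ≤ A' * (Z' : ℝ) ^ m := mul_le_mul_of_nonneg_right hAAr (by positivity)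
        have hlow : ∀ m : ℕ, v * (Z' : ℝ) ^ m ≤ vf (θ / 4) * (Z : ℝ) ^ m := fun m =>
          mul_le_mul hvv (pow_le_pow_left₀ hZ'0 hZ'Z m) (by positivity) hvf0.le
        constructor
        · have h6 := hup 1 (by omega)
          have h7 := hlow 1
          rw [pow_one, pow_one] at h6 h7
          exact ⟨h7.trans h3, h4.trans h6⟩
        · intro i
          obtain ⟨h8, h9⟩ := h5 i
          exact ⟨(hlow (D i)).trans h8, h9.trans (hup (D i) (by have := (hDA i).1; omega))⟩)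
      (by
        intro n1 L hn1L hL1 hL2
        have hLr : ρ * Z ≤ L := by
          have h1 : θ / 16 * Z' ≤ θ / 8 * Z' := mul_le_mul_of_nonneg_right (by linarith) hZ'0
          linarith
        have h2 : Ks * Real.log Q ≤ Real.log L :=
          v16_siv (r := ρ) hρ (by linarith) (by linarith) hZp hLr
        have h5 := h13 Q (by omega) B hLin P hPol (hh c β t) ht3 n1 L hn1L h2
        have h6 : (Real.log Z') ^ (k + 1) ≤ C ^ (k + 1) * (Real.log Q) ^ (k + 1) := by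
          rw [← mul_pow]
          exact pow_le_pow_left₀ (by linarith) (hlZZ'.trans hRg2) _
        have hL0 : (0 : ℝ) ≤ L := Nat.cast_nonneg _
        calc (cnt φ n1 L : ℝ) * ((∏ i, (D i : ℝ)) * (Real.log Z') ^ (k + 1)) ≤
              (Cs * L * SSf (pr Q) φ / (Real.log Q) ^ (k + 1)) * ((∏ i, (D i : ℝ)) *
              (C ^ (k + 1) * (Real.log Q) ^ (k + 1))) := by
              refine mul_le_mul h5 (mul_le_mul_of_nonneg_left h6 hP0.le) (by positivity) ?_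
              positivity
          _ = Cb * L * SSf (pr Q) φ := by
              rw [hCb]
              field_simp)
      hz'
    have hd0 : 0 ≤ (Z' : ℝ) * dens D z Z' φ := by
      unfold H9P.dens
      have h1 := (abs_le.1 hz').1
      have h3 : ε / 64 * SSf (pr Q) φ ≤ SSf (pr Q) φ := mul_le_of_le_one_left hSS.le (by linarith)
      have h2 : 0 ≤ SSf (pr z) φ := by linarith
      have h4 : 0 < Real.log Z' := by linarith
      positivity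
    exact absurd (hone.trans (mul_le_mul_of_nonneg_right hεε hd0)) (not_le.2 ht4)
  have hcard : (F.card : ℝ) ≤ ∑ j ∈ range (⌊2 / ρ⌋₊ + 1), ((Ej j).card : ℝ) + (G.card : ℝ) := by
    have h1 : F.card ≤ ∑ j ∈ range (⌊2 / ρ⌋₊ + 1), (Ej j).card + G.card :=
      (card_le_card hsub).trans ((card_union_le _ _).trans (Nat.add_le_add_right card_biUnion_le _))
    exact_mod_cast h1
  have hfin := hc1' Q Z (by omega) (by linarith) hRg2
  have hjd : (((range (⌊2 / ρ⌋₊ + 1)).card : ℕ) : ℝ) ≤ 2 / ρ + 1 := by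
    rw [card_range]
    push_cast
    have h1 : ((⌊2 / ρ⌋₊ : ℕ) : ℝ) ≤ 2 / ρ := Nat.floor_le (by positivity)
    linarith
  have hG2 : (G.card : ℝ) ≤ (Z : ℝ) ^ (∑ j, e j) * (C1w * (2 : ℝ) ^ c0 * ((z : ℝ) + 1) ^ (-c0) + C1w * (Q : ℝ) ^ (-c0)) := by
    refine hGc.trans ?_
    calc C1w * (Z : ℝ) ^ (∑ j, e j) * (zm : ℝ) ^ (-c0) = (Z : ℝ) ^ (∑ j, e j) * (C1w * (zm : ℝ) ^ (-c0)) := by ring
      _ ≤ (Z : ℝ) ^ (∑ j, e j) * (C1w * ((2 : ℝ) ^ c0 * ((z : ℝ) + 1) ^ (-c0) + (Q : ℝ) ^ (-c0))) :=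
        mul_le_mul_of_nonneg_left (mul_le_mul_of_nonneg_left hzmb (by linarith)) hZe0.le
      _ = _ := by ring
  have hC1z : C1w * (2 : ℝ) ^ c0 * ((z : ℝ) + 1) ^ (-c0) ≤ C1 * ((z : ℝ) + 1) ^ (-c0) := by
    refine mul_le_mul_of_nonneg_right ?_ hzc.le
    rw [hC1]
    linarith
  calc (F.card : ℝ) ≤ ∑ j ∈ range (⌊2 / ρ⌋₊ + 1), ((Ej j).card : ℝ) + (G.card : ℝ) := hcard
    _ ≤ ∑ _j ∈ range (⌊2 / ρ⌋₊ + 1), Cv * (Z : ℝ) ^ (∑ j, e j) * ((Real.log Q) ^ (-(2 * (A : ℝ) + 2)) + (Q : ℝ) ^ (-c3)) +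
        (Z : ℝ) ^ (∑ j, e j) * (C1w * (2 : ℝ) ^ c0 * ((z : ℝ) + 1) ^ (-c0) + C1w * (Q : ℝ) ^ (-c0)) :=
        add_le_add (sum_le_sum fun j _ => hEjc j) hG2
    _ = ((range (⌊2 / ρ⌋₊ + 1)).card : ℝ) * (Cv * (Z : ℝ) ^ (∑ j, e j) * ((Real.log Q) ^ (-(2 * (A : ℝ) + 2)) + (Q : ℝ) ^ (-c3))) +
        (Z : ℝ) ^ (∑ j, e j) * (C1w * (2 : ℝ) ^ c0 * ((z : ℝ) + 1) ^ (-c0) + C1w * (Q : ℝ) ^ (-c0)) := by
        rw [sum_const, nsmul_eq_mul]
    _ ≤ (2 / ρ + 1) * (Cv * (Z : ℝ) ^ (∑ j, e j) * ((Real.log Q) ^ (-(2 * (A : ℝ) + 2)) + (Q : ℝ) ^ (-c3))) +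
        (Z : ℝ) ^ (∑ j, e j) * (C1w * (2 : ℝ) ^ c0 * ((z : ℝ) + 1) ^ (-c0) + C1w * (Q : ℝ) ^ (-c0)) := by
        have h1 : 0 ≤ Cv * (Z : ℝ) ^ (∑ j, e j) * ((Real.log Q) ^ (-(2 * (A : ℝ) + 2)) + (Q : ℝ) ^ (-c3)) := by positivity
        have h2 := mul_le_mul_of_nonneg_right hjd h1
        linarith
    _ = (Z : ℝ) ^ (∑ j, e j) * (((2 / ρ + 1) * Cv * ((Real.log Q) ^ (-(2 * (A : ℝ) + 2)) + (Q : ℝ) ^ (-c3)) +
        C1w * (Q : ℝ) ^ (-c0)) + C1w * (2 : ℝ) ^ c0 * ((z : ℝ) + 1) ^ (-c0)) := by ring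
    _ ≤ (Z : ℝ) ^ (∑ j, e j) * ((Real.log Z) ^ (-(A : ℝ)) + C1 * ((z : ℝ) + 1) ^ (-c0)) :=
        mul_le_mul_of_nonneg_left (add_le_add hfin hC1z) hZe0.le

end Pool.Agent.HLA
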