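import Pool.Agent.Lib.HLA.W0
import Pool.Agent.Lib.H9P.U15

/-!
# LOGA, chunk W15A (M): one system, one length, from the cells, the sieve and the series
-/

open Finset Polynomial

namespace Pool.Agent.HLA

open Pool.Agent.Lib.H68T Pool.Agent.Lib.H18Q Pool.Agent.Lib.H59P Pool.Agent.Lib.H24P
open Pool.Agent.HUP Pool.Agent.H9P

/-- The values on a cell, from `Reg` for `θ/4`. Proof. `θ/4 Z' ≤ n ≤ (1 - θ/2) Z' ≤ (1 - θ/4) Z'`. -/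
theorem w15_val {k : ℕ} (A : ℕ) (κ θ v : ℝ) (Z Z' : ℕ) (D : Fin k → ℕ) (φ : Fin (k + 1) → ℤ → ℤ)
    (hR : Reg A κ (θ / 4) v Z Z' D φ) (hθ : 0 < θ) (n0 X1 : ℕ) (h1 : θ / 4 * Z' ≤ n0)
    (h2 : ((n0 + 2 * X1 : ℕ) : ℝ) ≤ (1 - θ / 2) * Z') (n : ℕ) (hn : n ∈ Ico n0 (n0 + 2 * X1)) :
    (v * Z ≤ ((φ 0 (n : ℤ) : ℤ) : ℝ) ∧ ((φ 0 (n : ℤ) : ℤ) : ℝ) ≤ A * Z) ∧
    ∀ i : Fin k, v * (Z : ℝ) ^ D i ≤ ((φ i.succ (n : ℤ) : ℤ) : ℝ) ∧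
      ((φ i.succ (n : ℤ) : ℤ) : ℝ) ≤ A * (Z : ℝ) ^ D i := by
  rw [mem_Ico] at hn
  have a1 : ((n0 : ℕ) : ℝ) ≤ n := by exact_mod_cast hn.1
  have a2 : (n : ℝ) ≤ ((n0 + 2 * X1 : ℕ) : ℝ) := by exact_mod_cast hn.2.le
  have a3 : (0 : ℝ) ≤ θ / 4 * Z' := by positivity
  have a4 : (n : ℝ) ≤ (1 - θ / 4) * Z' := by
    have a5 : (1 - θ / 2) * (Z' : ℝ) ≤ (1 - θ / 4) * Z' := mul_le_mul_of_nonneg_right (by linarith) (Nat.cast_nonneg _)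
    linarith
  exact ⟨hR.val0 n (h1.trans a1) a4, hR.val n (h1.trans a1) a4⟩

/-- The cells. -/
theorem w15a_num (Z X1 : ℕ) (θ : ℝ) (hθ : 0 < θ) (hθ1 : θ ≤ 1 / 2) (hX1 : 0 < X1) (hX : (X1 : ℝ) ≤ θ / 8 * Z) :
    ∃ ja jb : ℕ, ja ≤ jb ∧ (((ja + 1) * X1 : ℕ) : ℝ) ≤ θ * Z ∧ (1 - θ) * Z ≤ ((jb + 1) * X1 : ℕ) ∧
      (((jb + 1) * X1 : ℕ) : ℝ) ≤ (1 - θ / 2) * Z ∧ θ / 4 * Z ≤ ((ja * X1 : ℕ) : ℝ) := by
  have hX1q : (0 : ℝ) < X1 := by exact_mod_cast hX1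
  have hZr : (0 : ℝ) < Z := by
    rcases Nat.eq_zero_or_pos Z with h | h
    · rw [h, Nat.cast_zero, mul_zero] at hX
      linarith
    · exact_mod_cast h
  obtain ⟨ja, hja⟩ : ∃ ja, ja = ⌈θ * Z / (4 * X1)⌉₊ := ⟨_, rfl⟩
  have hja1 : θ * Z / (4 * X1) ≤ ja := by rw [hja]; exact Nat.le_ceil _
  have hja2 : (ja : ℝ) < θ * Z / (4 * X1) + 1 := by rw [hja]; exact Nat.ceil_lt_add_one (by positivity)
  have hja3 : θ / 4 * Z ≤ ja * X1 := by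
    rw [div_le_iff₀ (by positivity)] at hja1
    linarith
  have hja4 : (ja : ℝ) * X1 ≤ θ / 4 * Z + X1 := by
    have h : ((ja : ℝ) - 1) * (4 * X1) < θ * Z := by
      rw [← lt_div_iff₀ (by positivity)]
      linarith
    linarith
  obtain ⟨jc, hjc⟩ : ∃ jc, jc = ⌊(1 - θ / 2) * Z / X1⌋₊ := ⟨_, rfl⟩
  have hjc1 : (jc : ℝ) * X1 ≤ (1 - θ / 2) * Z := by
    have h : (jc : ℝ) ≤ (1 - θ / 2) * Z / X1 := by
      rw [hjc]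
      refine Nat.floor_le ?_
      apply div_nonneg (mul_nonneg (by linarith) hZr.le) hX1q.le
    rwa [le_div_iff₀ hX1q] at h
  have hjc2 : (1 - θ / 2) * Z < (jc + 1) * X1 := by
    have h : (1 - θ / 2) * Z / X1 < jc + 1 := by rw [hjc]; exact Nat.lt_floor_add_one _
    rwa [div_lt_iff₀ hX1q] at h
  have hθZ : θ * Z ≤ 1 / 2 * Z := mul_le_mul_of_nonneg_right hθ1 hZr.le
  have hjc3 : ja + 1 ≤ jc := by
    have h1 : ((ja : ℝ) + 1) * X1 < (jc + 1) * X1 := by nlinarith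
    have h2 : (ja : ℝ) + 1 < jc + 1 := lt_of_mul_lt_mul_right h1 hX1q.le
    have h3 : ja + 1 < jc + 1 := by exact_mod_cast h2
    omega
  obtain ⟨jb, rfl⟩ : ∃ jb, jc = jb + 1 := ⟨jc - 1, by omega⟩
  push_cast at hjc1 hjc2
  refine ⟨ja, jb, by omega, ?_, ?_, ?_, ?_⟩
  · push_cast
    nlinarith
  · push_cast
    nlinarith
  · push_cast
    linarith
  · push_cast
    linarith

/-- One system, one length: the conclusion from the cells, the sieve and the comparison of the series (the last part of the proof of `V16_core`, `H9P/V16.lean`, for ONE `t`, with the length `Z'` in place of `Z`).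
`SS = SSf (pr Q) φ`, `Lg = (∏ D) (log Z')^(k+1)`, `ja = ⌈θ Z'/(4 X1)⌉₊`, `jb + 1 = ⌊(1 - θ/2) Z'/X1⌋₊` (so `(ja + 1) X1 ≤ θ Z'`, `(1 - θ) Z' ≤ (jb + 1) X1 ≤ (1 - θ/2) Z' ≤ Z'` as `X1 ≤ θ Z'/8`; for `ja ≤ j < jb`: `θ Z'/4 ≤ j X1`,
`(j + 2) X1 ≤ (1 - θ/2) Z'`). Proof. `hcell` and `hwt` give the cells `j` with these two properties, `hsv` the two ends (their lengths are at least `θ Z'/8`);
`U15_sum` with `E1 = ε/64`, `ε1 = ε/16`, `ε/2` for `ε`; then `|SSf (pr z) φ - SS| ≤ (ε/64) SS`: `|cnt - Z' dens z| ≤ (ε/2) Z' SS/Lg + (ε/64) Z' SS/Lg ≤ ε Z' dens z`. -/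
theorem w15_one {k : ℕ} (D : Fin k → ℕ) (hD : ∀ i, 1 ≤ D i) (φ : Fin (k + 1) → ℤ → ℤ) (Z' : ℕ)
    (Q z X1 : ℕ) (ε θ Cb : ℝ) (hε : 0 < ε) (hε1 : ε ≤ 1) (hθ : 0 < θ) (hθ1 : θ ≤ 1 / 2) (hCb : 0 ≤ Cb)
    (h3 : 24 * θ * (Cb + 1) ≤ ε) (hZ' : 16 ≤ θ * Z') (hlog : 1 ≤ Real.log Z') (hX1 : 0 < X1) (hX : (X1 : ℝ) ≤ θ / 8 * Z')
    (hSS : 0 < SSf (pr Q) φ)
    (hcell : ∀ j : ℕ, θ / 4 * Z' ≤ (j * X1 : ℕ) → (((j + 2) * X1 : ℕ) : ℝ) ≤ (1 - θ / 2) * Z' →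
      |wct φ ((j + 1) * X1) X1 - X1 * SSf (pr Q) φ| ≤ X1 * (ε / 32 * SSf (pr Q) φ))
    (hwt : ∀ j : ℕ, θ / 4 * Z' ≤ (j * X1 : ℕ) → (((j + 2) * X1 : ℕ) : ℝ) ≤ (1 - θ / 2) * Z' →
      |(cnt φ ((j + 1) * X1) X1 : ℝ) * ((∏ i, (D i : ℝ)) * (Real.log Z') ^ (k + 1)) - wct φ ((j + 1) * X1) X1| ≤
        ε / 16 * wct φ ((j + 1) * X1) X1)
    (hsv : ∀ n1 L : ℕ, 1 ≤ n1 → θ / 8 * Z' ≤ L → L ≤ Z' →
      (cnt φ n1 L : ℝ) * ((∏ i, (D i : ℝ)) * (Real.log Z') ^ (k + 1)) ≤ Cb * L * SSf (pr Q) φ)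
    (hz : |SSf (pr z) φ - SSf (pr Q) φ| ≤ ε / 64 * SSf (pr Q) φ) :
    |(cnt φ 1 Z' : ℝ) - Z' * dens D z Z' φ| ≤ ε * (Z' * dens D z Z' φ) := by
  obtain ⟨ja, jb, hj, ha, hb, hb', hja⟩ := w15a_num Z' X1 θ hθ hθ1 hX1 hX
  have hP0 : 0 < ∏ i, (D i : ℝ) := by
    refine prod_pos fun i _ => ?_
    exact_mod_cast hD i
  have hlZ : 0 < Real.log Z' := by linarith
  have hZ0 : (0 : ℝ) < Z' := by
    rcases Nat.eq_zero_or_pos Z' with h | h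
    · rw [h, Nat.cast_zero, mul_zero] at hZ'
      linarith
    · exact_mod_cast h
  set SS := SSf (pr Q) φ with hSSd
  set Lg : ℝ := (∏ i, (D i : ℝ)) * (Real.log Z') ^ (k + 1) with hLg
  have hLg0 : 0 < Lg := by positivity
  have hX1r : (1 : ℝ) ≤ X1 := by exact_mod_cast hX1
  have hθZ : 0 < θ * Z' := by positivity
  have hbn : (jb + 1) * X1 ≤ Z' := by
    have h1 : (((jb + 1) * X1 : ℕ) : ℝ) ≤ Z' := by linarith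
    exact_mod_cast h1
  have hjm : ∀ j ∈ Ico ja jb, θ / 4 * Z' ≤ (j * X1 : ℕ) ∧ (((j + 2) * X1 : ℕ) : ℝ) ≤ (1 - θ / 2) * Z' := by
    intro j hj
    rw [mem_Ico] at hj
    have h1 : ((ja * X1 : ℕ) : ℝ) ≤ ((j * X1 : ℕ) : ℝ) := by exact_mod_cast Nat.mul_le_mul_right _ hj.1
    have h2 : (((j + 2) * X1 : ℕ) : ℝ) ≤ (((jb + 1) * X1 : ℕ) : ℝ) := by
      exact_mod_cast Nat.mul_le_mul_right _ (by omega : j + 2 ≤ jb + 1)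
    exact ⟨hja.trans h1, h2.trans hb'⟩
  have hl : (cnt φ 1 ((ja + 1) * X1 - 1) : ℝ) * Lg ≤ Cb * ((ja + 1) * X1 : ℕ) * SS := by
    have h1 : θ / 8 * Z' ≤ (((ja + 1) * X1 - 1 : ℕ) : ℝ) := by
      have h2 : ja * X1 ≤ (ja + 1) * X1 - 1 := by
        have h3 : (ja + 1) * X1 = ja * X1 + X1 := by ring
        omega
      have h3 : ((ja * X1 : ℕ) : ℝ) ≤ (((ja + 1) * X1 - 1 : ℕ) : ℝ) := by exact_mod_cast h2
      linarith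
    have h2 : (ja + 1) * X1 - 1 ≤ Z' := by
      have h3 : (ja + 1) * X1 ≤ (jb + 1) * X1 := Nat.mul_le_mul_right _ (by omega)
      omega
    refine (hsv 1 ((ja + 1) * X1 - 1) (le_refl _) h1 h2).trans ?_
    have h3 : (((ja + 1) * X1 - 1 : ℕ) : ℝ) ≤ (((ja + 1) * X1 : ℕ) : ℝ) := by exact_mod_cast Nat.sub_le _ _
    exact mul_le_mul_of_nonneg_right (mul_le_mul_of_nonneg_left h3 hCb) hSS.le
  have hr : (cnt φ ((jb + 1) * X1) (Z' + 1 - (jb + 1) * X1) : ℝ) * Lg ≤ Cb * (Z' + 1 - (jb + 1) * X1 : ℕ) * SS := by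
    refine hsv _ _ (Nat.mul_pos (Nat.succ_pos _) hX1) ?_ ?_
    · rw [Nat.cast_sub (by omega)]
      push_cast at hb' ⊢
      linarith
    · have h3 : 0 < (jb + 1) * X1 := Nat.mul_pos (Nat.succ_pos _) hX1
      omega
  have hmain := U15_sum φ Z' X1 ja jb SS Lg (ε / 64) (ε / 64 * SS) (ε / 16) θ Cb (ε / 2) hSS hLg0 (by positivity)
    (by positivity) (by positivity) (by linarith) (by linarith) (by linarith) hθ hCb (by linarith) (by linarith) hj hX1 ha hb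
    hbn (le_refl _)
    (fun j hjj => (hcell j (hjm j hjj).1 (hjm j hjj).2).trans (le_of_eq (by ring)))
    (fun j hjj => hwt j (hjm j hjj).1 (hjm j hjj).2) hl hr
  unfold H9P.dens
  rw [← hLg]
  set S' := SSf (pr z) φ with hS'
  obtain ⟨hz1, hz2⟩ := abs_le.1 hz
  have e1 : |(Z' : ℝ) * (SS / Lg) - Z' * (S' / Lg)| ≤ ε / 64 * (Z' * (SS / Lg)) := by
    have : (Z' : ℝ) * (SS / Lg) - Z' * (S' / Lg) = -((Z' / Lg) * (S' - SS)) := by field_simp; ring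
    rw [this, abs_neg, abs_mul, abs_of_pos (div_pos hZ0 hLg0)]
    calc (Z' : ℝ) / Lg * |S' - SS| ≤ Z' / Lg * (ε / 64 * SS) :=
          mul_le_mul_of_nonneg_left hz (div_pos hZ0 hLg0).le
      _ = ε / 64 * (Z' * (SS / Lg)) := by field_simp
  have e2 : (1 - ε / 64) * (Z' * (SS / Lg)) ≤ Z' * (S' / Lg) := by
    have := (abs_le.1 e1).2
    linarith
  have e3 : 0 < (Z' : ℝ) * (SS / Lg) := by positivity
  calc |(cnt φ 1 Z' : ℝ) - Z' * (S' / Lg)| ≤ |(cnt φ 1 Z' : ℝ) - Z' * (SS / Lg)| + |(Z' : ℝ) * (SS / Lg) - Z' * (S' / Lg)| :=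
        abs_sub_le _ _ _
    _ ≤ ε / 2 * (Z' * (SS / Lg)) + ε / 64 * (Z' * (SS / Lg)) := add_le_add hmain e1
    _ ≤ ε * ((1 - ε / 64) * (Z' * (SS / Lg))) := by
        have : ε / 2 + ε / 64 ≤ ε * (1 - ε / 64) := by nlinarith
        nlinarith
    _ ≤ ε * (Z' * (S' / Lg)) := mul_le_mul_of_nonneg_left e2 hε.le

end Pool.Agent.HLA
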