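import Pool.Agent.Lib.HLA.W0

/-!
# LOGA, chunk W16C (S/M): the symmetric box as a shifted one
-/

open Finset Polynomial

namespace Pool.Agent.HLA

open Pool.Agent.Lib.H68T Pool.Agent.Lib.H18Q Pool.Agent.Lib.H59P Pool.Agent.Lib.H24P
open Pool.Agent.HUP Pool.Agent.H9P
open Pool.Agent.Lib.H59 (argSet argCount Admissible primeCount omegaN seriesTrunc)

/-- The symmetric box as a shifted one. Proof. As in `Z0_box` (`HUP/Z0.lean`): `t = t' - A Z^e`, `0 ≤ t' ≤ 2 A Z^e`, `β' = β - ψ(A Z^e)`, `|β'_i| ≤ A' Z^(D_i)` (`z0_abs`), `β_i + ψ_i(t) = β'_i + ψ_i(t')`, `hh c β t = hh c β' t'`. -/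
theorem W16_box {k d : ℕ} (c : Fin k → Fin d → ℤ) (e : Fin d → ℕ) (D : Fin k → ℕ) (hB : ∀ i j, c i j ≠ 0 → e j = D i) (A : ℕ) :
    ∃ A' : ℕ, A ≤ A' ∧ ∀ (Z : ℕ) (β : Fin k → ℤ), (∀ i, |β i| ≤ A * (Z : ℤ) ^ D i) → ∃ β' : Fin k → ℤ,
      (∀ i, |β' i| ≤ A' * (Z : ℤ) ^ D i) ∧ ∀ (R : (Fin k → ℤ) → Prop) [DecidablePred R],
      ((BoxT A Z e).filter fun t => R (fun i => β i + lf c t i)).card ≤
        ((tb 0 fun j => A' * Z ^ e j + 1).filter fun t => R (fun i => β' i + lf c t i)).card := by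
  classical
  obtain ⟨S, hS⟩ : ∃ S : ℕ, S = ∑ i, ∑ j, (c i j).natAbs := ⟨_, rfl⟩
  obtain ⟨A', hA'⟩ : ∃ A' : ℕ, A' = 2 * A * (1 + S) := ⟨_, rfl⟩
  have hAA : A ≤ A' := by
    rw [hA']
    nlinarith [Nat.zero_le (A * S)]
  have hAA2 : 2 * A ≤ A' := by
    rw [hA']
    nlinarith [Nat.zero_le (A * S)]
  refine ⟨A', hAA, ?_⟩
  intro Z β hβ
  set s : Fin d → ℤ := fun j => ((A * Z ^ e j : ℕ) : ℤ) with hs
  set β' : Fin k → ℤ := fun i => β i - lf c s i with hβ'
  have hval : ∀ (t : Fin d → ℤ) (i : Fin k), β' i + lf c (fun j => t j + s j) i = β i + lf c t i := by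
    intro t i
    rw [z0_add, hβ']
    ring
  refine ⟨β', ?_, ?_⟩
  · intro i
    have e1 := hβ i
    have e2 := z0_abs c e i (D i) A Z (fun j hj => hB i j hj)
    have e3 : |β' i| ≤ |β i| + |lf c s i| := by
      rw [hβ']
      exact abs_sub _ _
    have e4 : (∑ j, |c i j|) ≤ (S : ℤ) := by
      have e5 : (∑ j, (c i j).natAbs) ≤ S := by
        rw [hS]
        exact Finset.single_le_sum (f := fun i => ∑ j, (c i j).natAbs) (fun _ _ => Nat.zero_le _)
          (Finset.mem_univ i)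
      have e6 : ((∑ j, (c i j).natAbs : ℕ) : ℤ) = ∑ j, |c i j| := by
        push_cast
        rfl
      rw [← e6]
      exact_mod_cast e5
    have hA0 : (0 : ℤ) ≤ A := Int.natCast_nonneg _
    have hZ0 : (0 : ℤ) ≤ (Z : ℤ) ^ (D i) := pow_nonneg (Int.natCast_nonneg _) _
    have e7 : (A : ℤ) * (∑ j, |c i j|) * (Z : ℤ) ^ (D i) ≤ (A : ℤ) * S * (Z : ℤ) ^ (D i) :=
      mul_le_mul_of_nonneg_right (mul_le_mul_of_nonneg_left e4 hA0) hZ0
    have e8 : (A : ℤ) * (Z : ℤ) ^ (D i) + (A : ℤ) * S * (Z : ℤ) ^ (D i) ≤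
        (A' : ℤ) * (Z : ℤ) ^ (D i) := by
      have e9 : (A' : ℤ) = 2 * ((A : ℤ) * (1 + S)) := by
        rw [hA']
        push_cast
        ring
      have e10 : 0 ≤ ((A : ℤ) * (1 + S)) * (Z : ℤ) ^ (D i) :=
        mul_nonneg (mul_nonneg hA0 (by positivity)) hZ0
      rw [e9]
      linarith
    linarith
  · intro R hR
    refine Finset.card_le_card_of_injOn (fun t j => t j + s j) ?_ ?_
    · intro t ht
      rw [Finset.mem_coe, Finset.mem_filter] at ht ⊢
      obtain ⟨hbox, h0⟩ := ht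
      refine ⟨?_, ?_⟩
      · unfold BoxT at hbox
        unfold tb
        rw [Fintype.mem_piFinset] at hbox ⊢
        intro j
        have e1 := Finset.mem_Icc.mp (hbox j)
        rw [Finset.mem_Ico]
        have e2 : ((A * Z ^ e j : ℕ) : ℤ) + ((A * Z ^ e j : ℕ) : ℤ) ≤ ((A' * Z ^ e j : ℕ) : ℤ) := by
          have e3 : A * Z ^ e j + A * Z ^ e j ≤ A' * Z ^ e j := by
            calc A * Z ^ e j + A * Z ^ e j = 2 * A * Z ^ e j := by ring
              _ ≤ A' * Z ^ e j := Nat.mul_le_mul_right _ hAA2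
          exact_mod_cast e3
        have e4 : s j = ((A * Z ^ e j : ℕ) : ℤ) := rfl
        have e5 : ((0 : Fin d → ℤ) j) = 0 := rfl
        refine ⟨?_, ?_⟩
        · change (0 : Fin d → ℤ) j ≤ t j + s j
          rw [e4, e5]
          linarith [e1.1]
        · change t j + s j < (0 : Fin d → ℤ) j + ((A' * Z ^ e j + 1 : ℕ) : ℤ)
          rw [e4, e5]
          push_cast at e1 e2 ⊢
          linarith [e1.2]
      · have h1 : (fun i => β' i + lf c (fun j => t j + s j) i) = fun i => β i + lf c t i :=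
          funext fun i => hval t i
        change R (fun i => β' i + lf c (fun j => t j + s j) i)
        rw [h1]
        exact h0
    · intro t _ t' _ h
      funext j
      have e1 := congrFun h j
      exact add_right_cancel e1

end Pool.Agent.HLA
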