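import Pool.Agent.Lib.HLA.W16A
import Pool.Agent.Lib.HLA.W16C
import Pool.Agent.Lib.H9P.U17
import Pool.Agent.Lib.HUP.Z2

/-!
# LOGA, chunk W16 (M): sizes of the values of `N - G(n)`
-/

open Finset Polynomial

namespace Pool.Agent.HLA

open Pool.Agent.Lib.H68T Pool.Agent.Lib.H18Q Pool.Agent.Lib.H59P Pool.Agent.Lib.H24P
open Pool.Agent.HUP Pool.Agent.H9P
open Pool.Agent.Lib.H59 (argSet argCount Admissible primeCount omegaN seriesTrunc)

theorem w16_asym (G : ℤ[X]) (hl : 0 < G.leadingCoeff) (ε : ℝ) (hε : 0 < ε) :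
    ∃ n0 : ℕ, ∀ n : ℕ, n0 ≤ n → (1 - ε) * (G.leadingCoeff : ℝ) * (n : ℝ) ^ G.natDegree ≤ ((G.eval (n : ℤ) : ℤ) : ℝ) ∧
      ((G.eval (n : ℤ) : ℤ) : ℝ) ≤ (1 + ε) * (G.leadingCoeff : ℝ) * (n : ℝ) ^ G.natDegree := by
  have hg : (0 : ℝ) < G.leadingCoeff := by exact_mod_cast hl
  have h1 := Pool.Agent.Lib.H33B.AC_ratio G
  have h2 := h1.eventually (gt_mem_nhds (show (G.leadingCoeff : ℝ) < (1 + ε) * G.leadingCoeff by nlinarith))
  have h3 := h1.eventually (lt_mem_nhds (show (1 - ε) * G.leadingCoeff < (G.leadingCoeff : ℝ) by nlinarith))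
  obtain ⟨n0, hn0⟩ := Filter.eventually_atTop.1 (h2.and (h3.and (Filter.eventually_ge_atTop 1)))
  refine ⟨n0, fun n hn => ?_⟩
  obtain ⟨a, b, c⟩ := hn0 n hn
  have hn1 : (0 : ℝ) < n := by exact_mod_cast c
  have hp : (0 : ℝ) < (n : ℝ) ^ G.natDegree := by positivity
  rw [div_lt_iff₀ hp] at a
  rw [lt_div_iff₀ hp] at b
  exact ⟨b.le, a.le⟩

theorem w16_bdd (G : ℤ[X]) (n0 : ℕ) : ∃ C : ℝ, 0 ≤ C ∧ ∀ n : ℕ, n ≤ n0 → |((G.eval (n : ℤ) : ℤ) : ℝ)| ≤ C := by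
  refine ⟨∑ n ∈ Finset.range (n0 + 1), |((G.eval (n : ℤ) : ℤ) : ℝ)|,
    Finset.sum_nonneg fun _ _ => abs_nonneg _, fun n hn => ?_⟩
  exact Finset.single_le_sum (f := fun n : ℕ => |((G.eval (n : ℤ) : ℤ) : ℝ)|)
    (fun _ _ => abs_nonneg _) (Finset.mem_range.2 (by omega))

theorem w16_lower (G : ℤ[X]) (hG : 1 ≤ G.natDegree) (hl : 0 < G.leadingCoeff) (θ : ℝ) (hθ : 0 < θ) (hθ1 : θ ≤ 1 / 2) :
    ∃ Z0 : ℕ, 1 ≤ Z0 ∧ ∀ Z' n : ℕ, Z0 ≤ Z' → (n : ℝ) ≤ (1 - θ) * Z' →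
      θ / 2 * (G.leadingCoeff : ℝ) * (Z' : ℝ) ^ G.natDegree ≤
        ((G.eval (Z' : ℤ) : ℤ) : ℝ) - ((G.eval (n : ℤ) : ℤ) : ℝ) := by
  obtain ⟨n0, hn0⟩ := w16_asym G hl (θ / 4) (by linarith)
  obtain ⟨C, hC0, hC⟩ := w16_bdd G n0
  have hg : (1 : ℝ) ≤ G.leadingCoeff := by exact_mod_cast hl
  refine ⟨n0 + ⌈2 * C⌉₊ + 1, by omega, fun Z' n hZ' hn => ?_⟩
  have hZ1 : (n0 : ℝ) + ⌈2 * C⌉₊ + 1 ≤ Z' := by exact_mod_cast hZ'
  have hc := Nat.le_ceil (2 * C)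
  have hn00 : (0 : ℝ) ≤ n0 := Nat.cast_nonneg _
  have hZC : 2 * C ≤ Z' := by linarith
  have hZ1' : (1 : ℝ) ≤ Z' := by
    have : (0 : ℝ) ≤ (⌈2 * C⌉₊ : ℝ) := Nat.cast_nonneg _
    linarith
  have hZp : (Z' : ℝ) ≤ (Z' : ℝ) ^ G.natDegree := le_self_pow₀ hZ1' (by omega)
  obtain ⟨a, -⟩ := hn0 Z' (by omega)
  set W : ℝ := (Z' : ℝ) ^ G.natDegree with hW
  have hW0 : 0 < W := by linarith
  set g : ℝ := (G.leadingCoeff : ℝ) with hgd
  have hgW : W ≤ g * W := by nlinarith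
  rcases Nat.lt_or_ge n n0 with h | h
  · have h1 := (abs_le.1 (hC n h.le)).2
    have h2 : (1 - θ / 4 - θ / 2) * (g * W) ≥ 1 / 2 * (g * W) := by
      refine mul_le_mul_of_nonneg_right ?_ (by positivity)
      linarith
    nlinarith
  · obtain ⟨-, b⟩ := hn0 n h
    have h3 : (n : ℝ) ^ G.natDegree ≤ (1 - θ) * W := by
      calc (n : ℝ) ^ G.natDegree ≤ ((1 - θ) * Z') ^ G.natDegree :=
            pow_le_pow_left₀ (Nat.cast_nonneg _) hn _
        _ = (1 - θ) ^ G.natDegree * W := by rw [mul_pow]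
        _ ≤ (1 - θ) * W := by
            refine mul_le_mul_of_nonneg_right ?_ hW0.le
            exact pow_le_of_le_one (by linarith) (by linarith) (by omega)
    have h4 : (1 + θ / 4) * g * (n : ℝ) ^ G.natDegree ≤ (1 + θ / 4) * g * ((1 - θ) * W) :=
      mul_le_mul_of_nonneg_left h3 (by positivity)
    have h5 : 0 ≤ θ * θ * (g * W) := by positivity
    nlinarith

theorem w16_low0 (G : ℤ[X]) (hl : 0 < G.leadingCoeff) : ∃ C : ℝ, 0 ≤ C ∧ ∀ n : ℕ,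
    -C ≤ ((G.eval (n : ℤ) : ℤ) : ℝ) := by
  obtain ⟨n0, hn0⟩ := w16_asym G hl 1 one_pos
  obtain ⟨C, hC0, hC⟩ := w16_bdd G n0
  refine ⟨C, hC0, fun n => ?_⟩
  rcases Nat.le_total n n0 with h | h
  · exact (abs_le.1 (hC n h)).1
  · obtain ⟨a, -⟩ := hn0 n h
    rw [sub_self, zero_mul, zero_mul] at a
    linarith

/-- **W16b.** The coordinate `N - G(n)` for the `N` between `κ Y` and `Y`, in terms of `Z = argCount G Y`. Proof. `g = lc G ≥ 1`, `h = deg G`. `argSet_eq` (`H59`): `argSet G N = Icc 1 (argCount G N)` for `N` large; `argCount G N ~ (N/g)^(1/h)`: so `Z' = argCount G N ≥ κ' Z` with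
`κ' = (κ/4)^(1/h)/2`, or by `G(n) ≤ 2 g n^h` and `G(n) ≥ (g/2) n^h` for large `n`; monotone in `N` (`Z' ≤ Z`). For `n ≤ (1 - θ) Z'`: `N > G(Z')`, and `G(Z') - G(n) ≥ (g θ/2) Z'^h` for `Z'` large in terms of `θ` (`G(n) ≤ g n^h + C n^(h-1)`,
`G(Z') ≥ g Z'^h - C Z'^(h-1)`, `1 - (1-θ)^h ≥ θ`; for small `n` the value `G(n)` is bounded). Upper bound: `N ≤ Y ≤ G(Z + 1) ≤ 2^(h+1) g Z^h` (`fc_Y` in `H24P/FC.lean`), `|G(n)| ≤ C` for the `n` with `G(n) < 0`. -/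
theorem W16_G (G : ℤ[X]) (hG : 1 ≤ G.natDegree) (hl : 0 < G.leadingCoeff) (κ : ℝ) (hκ : 0 < κ) :
    ∃ (κ' : ℝ) (A' : ℕ), 0 < κ' ∧ (∀ θ : ℝ, 0 < θ → ∃ v : ℝ, 0 < v ∧ ∃ Y0 : ℕ, ∀ Y N : ℕ, Y0 ≤ Y → κ * Y ≤ N → N ≤ Y →
      argSet G N = ((Icc 1 (argCount G N) : Finset ℕ) : Set ℕ) ∧ argCount G N ≤ argCount G Y ∧
      κ' * argCount G Y ≤ argCount G N ∧ ∀ n : ℕ, (n : ℝ) ≤ (1 - θ) * argCount G N →
        v * (argCount G Y : ℝ) ^ G.natDegree ≤ (((N : ℤ) - G.eval (n : ℤ) : ℤ) : ℝ) ∧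
        (((N : ℤ) - G.eval (n : ℤ) : ℤ) : ℝ) ≤ A' * (argCount G Y : ℝ) ^ G.natDegree) ∧
    ∃ Y0 : ℕ, ∀ Y : ℕ, Y0 ≤ Y → (Y : ℝ) ≤ A' * (argCount G Y : ℝ) ^ G.natDegree ∧
      (argCount G Y : ℝ) ^ G.natDegree ≤ A' * Y := by
  have hg : (1 : ℝ) ≤ G.leadingCoeff := by exact_mod_cast hl
  have hna : ((G.leadingCoeff.natAbs : ℕ) : ℝ) = G.leadingCoeff := by
    have h2 : ((G.leadingCoeff.natAbs : ℕ) : ℤ) = G.leadingCoeff := Int.natAbs_of_nonneg hl.le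
    rw [← Int.cast_natCast, h2]
  obtain ⟨Yf, hYf⟩ := Filter.eventually_atTop.1 (fc_Y G hG hl)
  rw [hna] at hYf
  obtain ⟨Ym, hYm⟩ := Pool.Agent.Lib.H33B.AC_mono G hG hl
  obtain ⟨Ns, hNs⟩ := Filter.eventually_atTop.1 (Pool.Agent.Lib.H59.argSet_eq hG hl)
  obtain ⟨C, hC0, hC⟩ := w16_low0 G hl
  set g : ℝ := (G.leadingCoeff : ℝ) with hgd
  have hg0 : 0 < g := by linarith
  have hκ'0 : 0 < min 1 (κ / (4 * g)) := lt_min one_pos (by positivity)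
  refine ⟨min 1 (κ / (4 * g)), 4 * G.leadingCoeff.natAbs, hκ'0, ?_, ?_⟩
  · intro θ hθ
    have hθ' : 0 < min θ (1 / 2) := lt_min hθ (by norm_num)
    obtain ⟨Z0, hZ01, hZ0⟩ := w16_lower G hG hl (min θ (1 / 2)) hθ' (min_le_right _ _)
    obtain ⟨Nt, hNt⟩ := Filter.eventually_atTop.1
      ((Pool.Agent.Lib.H59.argCount_tendsto hG hl).eventually_ge_atTop Z0)
    refine ⟨min θ (1 / 2) / 2 * (min 1 (κ / (4 * g))) ^ G.natDegree, by positivity,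
      Yf + Ym + ⌈C⌉₊ + ⌈((Yf + Ns + Nt : ℕ) : ℝ) / κ⌉₊, ?_⟩
    intro Y N hY hN hNY
    have hYc : ((Yf + Ns + Nt : ℕ) : ℝ) / κ ≤ Y := by
      refine (Nat.le_ceil _).trans ?_
      exact_mod_cast (show ⌈((Yf + Ns + Nt : ℕ) : ℝ) / κ⌉₊ ≤ Y by omega)
    have hN1 : Yf + Ns + Nt ≤ N := by
      rw [div_le_iff₀ hκ] at hYc
      have : ((Yf + Ns + Nt : ℕ) : ℝ) ≤ N := by linarith
      exact_mod_cast this
    have hset := hNs N (by omega)
    have hcount := hNt N (by omega)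
    obtain ⟨a1, a2⟩ := hYf Y (by omega)
    obtain ⟨b1, b2⟩ := hYf N (by omega)
    have hCY : C ≤ Y := (Nat.le_ceil _).trans (by exact_mod_cast (show ⌈C⌉₊ ≤ Y by omega))
    have hk : (min 1 (κ / (4 * g)) * (argCount G Y : ℝ)) ^ G.natDegree ≤ (argCount G N : ℝ) ^ G.natDegree := by
      have h1 : min 1 (κ / (4 * g)) ^ G.natDegree ≤ κ / (4 * g) :=
        (pow_le_of_le_one hκ'0.le (min_le_left _ _) (by omega)).trans (min_le_right _ _)
      have h2 : κ * Y / (2 * g) ≤ (argCount G N : ℝ) ^ G.natDegree := by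
        rw [div_le_iff₀ (by positivity)]
        linarith
      have h3 : κ / (4 * g) * (argCount G Y : ℝ) ^ G.natDegree ≤ κ * Y / (2 * g) := by
        calc κ / (4 * g) * (argCount G Y : ℝ) ^ G.natDegree ≤ κ / (4 * g) * (2 * Y) :=
              mul_le_mul_of_nonneg_left a1 (by positivity)
          _ = κ * Y / (2 * g) := by
              field_simp
              ring
      rw [mul_pow]
      exact (mul_le_mul_of_nonneg_right h1 (by positivity)).trans (h3.trans h2)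
    have hk' : min 1 (κ / (4 * g)) * (argCount G Y : ℝ) ≤ argCount G N :=
      le_of_pow_le_pow_left₀ (by omega) (Nat.cast_nonneg _) hk
    refine ⟨hset, hYm N Y (by omega) hNY, hk', fun n hn => ?_⟩
    have hmem : argCount G N ∈ argSet G N := by
      rw [hset]
      exact Finset.mem_coe.2 (Finset.mem_Icc.2 ⟨by omega, le_rfl⟩)
    have hGN : 0 < (N : ℤ) - G.eval ((argCount G N : ℕ) : ℤ) := hmem.2
    have hGN' : ((G.eval ((argCount G N : ℕ) : ℤ) : ℤ) : ℝ) < N := by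
      have : G.eval ((argCount G N : ℕ) : ℤ) < (N : ℤ) := by linarith
      exact_mod_cast this
    have hcast : (((N : ℤ) - G.eval (n : ℤ) : ℤ) : ℝ) = (N : ℝ) - ((G.eval (n : ℤ) : ℤ) : ℝ) := by
      push_cast
      ring
    rw [hcast]
    constructor
    · have h6 := hZ0 (argCount G N) n hcount (hn.trans (by
        refine mul_le_mul_of_nonneg_right ?_ (Nat.cast_nonneg _)
        linarith [min_le_left θ (1 / 2)]))
      have h7 : min θ (1 / 2) / 2 * (min 1 (κ / (4 * g))) ^ G.natDegree * (argCount G Y : ℝ) ^ G.natDegree ≤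
          min θ (1 / 2) / 2 * g * (argCount G N : ℝ) ^ G.natDegree := by
        rw [mul_pow] at hk
        have h8 : (0 : ℝ) ≤ (argCount G N : ℝ) ^ G.natDegree := by positivity
        calc min θ (1 / 2) / 2 * (min 1 (κ / (4 * g))) ^ G.natDegree * (argCount G Y : ℝ) ^ G.natDegree
            = min θ (1 / 2) / 2 * ((min 1 (κ / (4 * g))) ^ G.natDegree * (argCount G Y : ℝ) ^ G.natDegree) := by
              ring
          _ ≤ min θ (1 / 2) / 2 * (g * (argCount G N : ℝ) ^ G.natDegree) := by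
              refine mul_le_mul_of_nonneg_left (hk.trans ?_) (by positivity)
              nlinarith
          _ = _ := by ring
      linarith
    · have h9 := hC n
      have h10 : (N : ℝ) ≤ Y := by exact_mod_cast hNY
      push_cast
      rw [hna]
      linarith
  · refine ⟨Yf, fun Y hY => ?_⟩
    obtain ⟨a1, a2⟩ := hYf Y hY
    push_cast
    rw [hna]
    have hp : (0 : ℝ) ≤ (argCount G Y : ℝ) ^ G.natDegree := by positivity
    have hY0 : (0 : ℝ) ≤ Y := Nat.cast_nonneg _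
    constructor
    · nlinarith [mul_nonneg hg0.le hp]
    · nlinarith

end Pool.Agent.HLA
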