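import Pool.Agent.Lib.HLA.W0

/-!
# LOGA, chunk W16A (S/M): sizes of the values of the `P_i`
-/

open Finset Polynomial

namespace Pool.Agent.HLA

open Pool.Agent.Lib.H68T Pool.Agent.Lib.H18Q Pool.Agent.Lib.H59P Pool.Agent.Lib.H24P
open Pool.Agent.HUP Pool.Agent.H9P
open Pool.Agent.Lib.H59 (argSet argCount Admissible primeCount omegaN seriesTrunc)

theorem w16a_val1 (P : ℤ[X]) (hl : 0 < P.leadingCoeff) : ∃ (C : ℝ) (n0 : ℕ), 1 ≤ C ∧ ∀ n : ℕ, n0 ≤ n →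
    (n : ℝ) ^ P.natDegree ≤ 2 * ((P.eval (n : ℤ) : ℤ) : ℝ) ∧
      ((P.eval (n : ℤ) : ℤ) : ℝ) ≤ C * (n : ℝ) ^ P.natDegree := by
  have hinj : Function.Injective (Int.castRingHom ℝ) := Int.cast_injective
  obtain ⟨q, hq⟩ : ∃ q : ℝ[X], q = P.map (Int.castRingHom ℝ) := ⟨_, rfl⟩
  have hP0 : P ≠ 0 := by
    rintro rfl
    simp at hl
  have hqd : q.natDegree = P.natDegree := by rw [hq, natDegree_map_eq_of_injective hinj]
  have hql : q.leadingCoeff = (P.leadingCoeff : ℝ) := by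
    rw [hq, leadingCoeff_map_of_injective hinj]
    rfl
  have hq0 : q ≠ 0 := by
    intro h
    rw [h, leadingCoeff_zero] at hql
    have : P.leadingCoeff = 0 := by exact_mod_cast hql.symm
    omega
  have hdeg : q.degree = (X ^ P.natDegree : ℝ[X]).degree := by
    rw [degree_X_pow, degree_eq_natDegree hq0, hqd]
  have h1 := Polynomial.div_tendsto_atTop_leadingCoeff_div_of_degree_eq q (X ^ P.natDegree : ℝ[X]) hdeg
  rw [leadingCoeff_X_pow, div_one, hql] at h1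
  have hl1 : (1 : ℝ) ≤ (P.leadingCoeff : ℝ) := by exact_mod_cast hl
  have h2 := h1.comp (tendsto_natCast_atTop_atTop (R := ℝ))
  have h3 := h2.eventually (lt_mem_nhds (show (1 / 2 : ℝ) < (P.leadingCoeff : ℝ) by linarith))
  have h4 := h2.eventually (gt_mem_nhds (show (P.leadingCoeff : ℝ) < (P.leadingCoeff : ℝ) + 1 by linarith))
  obtain ⟨N, hN⟩ := Filter.eventually_atTop.1 (h3.and h4)
  refine ⟨(P.leadingCoeff : ℝ) + 1, N + 1, by linarith, fun n hn => ?_⟩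
  have h5 := hN n (by omega)
  have hn1 : (1 : ℝ) ≤ n := by exact_mod_cast (by omega : 1 ≤ n)
  have hnp : (0 : ℝ) < (n : ℝ) ^ P.natDegree := by positivity
  have hev : q.eval (n : ℝ) = ((P.eval (n : ℤ) : ℤ) : ℝ) := by
    rw [hq]
    have := Polynomial.eval_intCast_map (Int.castRingHom ℝ) P (n : ℤ)
    rw [Int.cast_natCast] at this
    rw [this]
    rfl
  simp only [Function.comp_apply, eval_pow, eval_X, hev] at h5
  obtain ⟨h6, h7⟩ := h5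
  rw [lt_div_iff₀ hnp] at h6
  rw [div_lt_iff₀ hnp] at h7
  exact ⟨by linarith, h7.le⟩

theorem w16a_val {k : ℕ} (P : Fin k → ℤ[X]) (hP : ∀ i, 0 < (P i).leadingCoeff) :
    ∃ (C : ℝ) (n0 : ℕ), 1 ≤ C ∧ ∀ n : ℕ, n0 ≤ n → ∀ i,
    (n : ℝ) ^ (P i).natDegree ≤ 2 * (((P i).eval (n : ℤ) : ℤ) : ℝ) ∧
      (((P i).eval (n : ℤ) : ℤ) : ℝ) ≤ C * (n : ℝ) ^ (P i).natDegree := by
  have h : ∀ i, ∃ (C : ℝ) (n0 : ℕ), 1 ≤ C ∧ ∀ n : ℕ, n0 ≤ n →
      (n : ℝ) ^ (P i).natDegree ≤ 2 * (((P i).eval (n : ℤ) : ℤ) : ℝ) ∧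
      (((P i).eval (n : ℤ) : ℤ) : ℝ) ≤ C * (n : ℝ) ^ (P i).natDegree :=
    fun i => w16a_val1 (P i) (hP i)
  choose C n0 hC hn using h
  refine ⟨1 + ∑ i, C i, ∑ i, n0 i, ?_, ?_⟩
  · have : 0 ≤ ∑ i, C i := sum_nonneg fun i _ => by linarith [hC i]
    linarith
  · intro n hn' i
    have h1 : n0 i ≤ n := (single_le_sum (f := n0) (fun _ _ => Nat.zero_le _) (mem_univ i)).trans hn'
    have h2 : C i ≤ 1 + ∑ i, C i := by
      have := single_le_sum (f := C) (fun j _ => by linarith [hC j]) (mem_univ i)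
      linarith
    obtain ⟨h3, h4⟩ := hn i n h1
    exact ⟨h3, h4.trans (mul_le_mul_of_nonneg_right h2 (by positivity))⟩

/-- **W16a.** The polynomials `P_i`: lower bound away from `0`, upper bound. Proof. Positive leading coefficient `≥ 1`: `P_i(n) ≥ n^(D_i)/2` for `n ≥ n0`, `|P_i(n)| ≤ C n^(D_i)` for `n ≥ 1` (compare `U16_val`). For `Z' ≥ κ Z` and `θ Z' ≤ n`:
`P_i(n) ≥ (θ κ)^(D_i)/2 Z^(D_i)`, `v ≤ (θ κ)^(D_i)/2`; `0 ≤ s ≤ A Z^(D_i)`. -/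
theorem W16_P {k : ℕ} (P : Fin k → ℤ[X]) (hP : ∀ i, 1 ≤ (P i).natDegree ∧ 0 < (P i).leadingCoeff) (A : ℕ) (κ : ℝ) (hκ : 0 < κ) :
    ∃ A' : ℕ, ∀ θ : ℝ, 0 < θ → ∃ v : ℝ, 0 < v ∧ ∃ Z0 : ℕ, ∀ Z Z' : ℕ, Z0 ≤ Z → Z' ≤ Z → κ * Z ≤ Z' →
    ∀ s : Fin k → ℤ, (∀ i, 0 ≤ s i ∧ s i ≤ A * (Z : ℤ) ^ (P i).natDegree) → ∀ n : ℕ, θ * Z' ≤ n → n ≤ Z' → ∀ i,
      v * (Z : ℝ) ^ (P i).natDegree ≤ (((P i).eval (n : ℤ) + s i : ℤ) : ℝ) ∧
      (((P i).eval (n : ℤ) + s i : ℤ) : ℝ) ≤ A' * (Z : ℝ) ^ (P i).natDegree := by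
  obtain ⟨C, n0, hC, hval⟩ := w16a_val P (fun i => (hP i).2)
  refine ⟨⌈C⌉₊ + A, fun θ hθ => ?_⟩
  obtain ⟨t, ht⟩ : ∃ t : ℝ, t = min (θ * κ) 1 := ⟨_, rfl⟩
  have hθκ : 0 < θ * κ := mul_pos hθ hκ
  have ht0 : 0 < t := by
    rw [ht]
    exact lt_min hθκ one_pos
  have ht1 : t ≤ 1 := by
    rw [ht]
    exact min_le_right _ _
  have htκ : t ≤ θ * κ := by
    rw [ht]
    exact min_le_left _ _
  refine ⟨t ^ (∑ i, (P i).natDegree) / 2, by positivity, ⌈(n0 : ℝ) / (θ * κ)⌉₊, ?_⟩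
  intro Z Z' hZ hZZ' hκZ s hs n hn1 hn2 i
  have hZr : (n0 : ℝ) / (θ * κ) ≤ Z := (Nat.le_ceil _).trans (by exact_mod_cast hZ)
  have hn0 : (n0 : ℝ) ≤ θ * κ * Z := by
    rw [div_le_iff₀ hθκ] at hZr
    linarith
  have h1 : θ * κ * Z ≤ n := by
    have h2 : θ * (κ * Z) ≤ θ * Z' := mul_le_mul_of_nonneg_left hκZ hθ.le
    linarith
  have h3 : n0 ≤ n := by
    have : (n0 : ℝ) ≤ n := hn0.trans h1
    exact_mod_cast this
  obtain ⟨h4, h5⟩ := hval n h3 i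
  have hZ0 : (0 : ℝ) ≤ Z := Nat.cast_nonneg Z
  have h6 : (t ^ (∑ i, (P i).natDegree)) * (Z : ℝ) ^ (P i).natDegree ≤ (n : ℝ) ^ (P i).natDegree := by
    have h7 : t ^ (∑ i, (P i).natDegree) ≤ t ^ (P i).natDegree :=
      pow_le_pow_of_le_one ht0.le ht1
        (single_le_sum (f := fun i => (P i).natDegree) (fun _ _ => Nat.zero_le _) (mem_univ i))
    calc (t ^ (∑ i, (P i).natDegree)) * (Z : ℝ) ^ (P i).natDegree
        ≤ t ^ (P i).natDegree * (Z : ℝ) ^ (P i).natDegree :=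
          mul_le_mul_of_nonneg_right h7 (by positivity)
      _ = (t * Z) ^ (P i).natDegree := (mul_pow _ _ _).symm
      _ ≤ (n : ℝ) ^ (P i).natDegree := by
          refine pow_le_pow_left₀ (by positivity) ?_ _
          exact (mul_le_mul_of_nonneg_right htκ hZ0).trans h1
  obtain ⟨hs1, hs2⟩ := hs i
  have hs1' : (0 : ℝ) ≤ (s i : ℝ) := by exact_mod_cast hs1
  have hs2' : (s i : ℝ) ≤ A * (Z : ℝ) ^ (P i).natDegree := by exact_mod_cast hs2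
  have hnZ : (n : ℝ) ≤ Z := by exact_mod_cast hn2.trans hZZ'
  have h8 : (n : ℝ) ^ (P i).natDegree ≤ (Z : ℝ) ^ (P i).natDegree :=
    pow_le_pow_left₀ (Nat.cast_nonneg n) hnZ _
  have h9 : C * (n : ℝ) ^ (P i).natDegree ≤ ⌈C⌉₊ * (Z : ℝ) ^ (P i).natDegree :=
    mul_le_mul (Nat.le_ceil C) h8 (by positivity) (Nat.cast_nonneg _)
  push_cast
  constructor
  · linarith
  · rw [add_mul]
    linarith

end Pool.Agent.HLA
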