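import Pool.Agent.Lib.HLA.W16

/-!
# LOGA, chunk W17 (M): `G` linear, EVERY large `N`, in terms of the problem
-/

open Finset Polynomial

namespace Pool.Agent.HLA

open Pool.Agent.Lib.H68T Pool.Agent.Lib.H18Q Pool.Agent.Lib.H59P Pool.Agent.Lib.H24P
open Pool.Agent.HUP Pool.Agent.H9P
open Pool.Agent.Lib.H59 (argSet argCount Admissible primeCount omegaN seriesTrunc)

/-- The forms on the box. -/
theorem w17_lf {k d : ℕ} (c : Fin k → Fin d → ℤ) (e : Fin d → ℕ) (D : Fin k → ℕ) (h : ∀ i j, c i j ≠ 0 → e j = D i)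
    (A Z : ℕ) (t : Fin d → ℤ) (ht : t ∈ BoxT A Z e) (i : Fin k) :
    lf c t i ≤ A * ((∑ i, ∑ j, (c i j).natAbs : ℕ) : ℤ) * (Z : ℤ) ^ D i := by
  unfold lf
  have h1 : ∀ j, c i j * t j ≤ A * ((c i j).natAbs : ℤ) * (Z : ℤ) ^ D i := by
    intro j
    unfold BoxT at ht
    rw [Fintype.mem_piFinset] at ht
    have h2 := ht j
    rw [mem_Icc] at h2
    by_cases hj : c i j = 0
    · rw [hj]
      simp
    · rw [h i j hj] at h2
      have h3 : |t j| ≤ ((A * Z ^ D i : ℕ) : ℤ) := abs_le.2 h2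
      calc c i j * t j ≤ |c i j * t j| := le_abs_self _
        _ = |c i j| * |t j| := abs_mul _ _
        _ ≤ |c i j| * ((A * Z ^ D i : ℕ) : ℤ) := mul_le_mul_of_nonneg_left h3 (abs_nonneg _)
        _ = _ := by
          rw [Int.natCast_natAbs]
          push_cast
          ring
  calc ∑ j, c i j * t j ≤ ∑ j, A * ((c i j).natAbs : ℤ) * (Z : ℤ) ^ D i := sum_le_sum fun j _ => h1 j
    _ = A * (∑ j, ((c i j).natAbs : ℤ)) * (Z : ℤ) ^ D i := by rw [mul_sum, sum_mul]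
    _ ≤ _ := by
      have h2 : ∑ j, ((c i j).natAbs : ℤ) ≤ ((∑ i, ∑ j, (c i j).natAbs : ℕ) : ℤ) := by
        rw [Nat.cast_sum]
        have h3 := single_le_sum (f := fun i => ((∑ j, (c i j).natAbs : ℕ) : ℤ)) (s := univ) (fun _ _ => by positivity) (mem_univ i)
        refine le_trans (le_of_eq ?_) h3
        push_cast
        rfl
      exact mul_le_mul_of_nonneg_right (mul_le_mul_of_nonneg_left h2 (by positivity)) (by positivity)

/-- The linear coordinate. -/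
theorem w17_eval {A Z : ℕ} {B : ℤ[X]} (hB : Dec A Z B) (n : ℕ) (hn : n ≤ Z) :
    (Z : ℤ) - n + 1 ≤ B.eval (n : ℤ) ∧ B.eval (n : ℤ) ≤ A * ((Z : ℤ) + 1 - n) := by
  have hev : ∀ x : ℤ, B.eval x = B.coeff 0 + B.coeff 1 * x := by
    intro x
    rw [eval_eq_sum_range, hB.deg, sum_range_succ, sum_range_one]
    ring
  have hlc : B.leadingCoeff = B.coeff 1 := by rw [leadingCoeff, hB.deg]
  have h1 := hB.neg
  have h2 := hB.pos
  have h3 := hB.last
  have h4 := hB.lc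
  rw [hlc] at h1 h4
  rw [hev] at h2 h3 ⊢
  have h5 : -B.coeff 1 ≤ A := by
    have : (B.coeff 1).natAbs = -B.coeff 1 := by omega
    omega
  have h6 : (0 : ℤ) ≤ (Z : ℤ) - n := by
    have : (n : ℤ) ≤ Z := by exact_mod_cast hn
    linarith
  constructor
  · nlinarith
  · nlinarith

/-- **W17.** Proof. `Z = argCount G N`, `B = N - G` (`U17_dec`: degree `1`, leading coefficient `- lc G`, `argSet G N = Icc 1 Z`, `B(Z) > 0 ≥ B(Z+1)`), `Z' = Z`, `κ = 1`. `δ1' = δ1` of `ACore` (for the data `hD`). Given `A`: `A1` = maximum of `A`, the constant of `W16_box`, `lc G`, the constants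
of `W16_P`, and `C` with `B(n) ≤ C Z` on `[1, Z]`; `ACore` with `A1`, `ε`, `κ = 1`, `vf θ = min (v of W16_P) θ` (chosen with `Classical.choice`). `Reg A1 1 θ (vf θ) Z Z D (sys B P (hh c β t))`: `B(n) ≥ lc G (Z - n) ≥ θ Z` for `n ≤ (1 - θ) Z` (as `B(Z) > 0`), and `W16_P` with `s_i = β_i + ψ_i(t)`. The terms of the problem:
`famT = famP` of `U17` (definitional), `U17_noFix`, `U17_cnt`, `u17_main_term` (main term at `z` = `Z * dens D (z - 1) Z φ`), so apply `ACore` with `z - 1`: `((z-1) + 1)^(-c0) = z^(-c0)`, `(log Z)^(-A1) ≤ (log Z)^(-A)`. `W16_box` for the symmetric box (`R s` = all `s_i ≥ 0` and the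
failure for the system `P_i + s_i`). -/
theorem W17_main (hC : ACoreAll) {g d : ℕ} (G : ℤ[X]) (hG : G.natDegree = 1) (hl : 0 < G.leadingCoeff)
    (P : Fin g → ℤ[X]) (hP : ∀ i, 0 < (P i).leadingCoeff) (c : Fin g → Fin d → ℤ) (e : Fin d → ℕ)
    (hD : Dat c e (fun i => (P i).natDegree) (fun i => (P i).leadingCoeff)) :
    open Classical in ∃ δ1 : ℝ, 0 < δ1 ∧ ∀ A : ℕ, ∃ c0 : ℝ, 0 < c0 ∧ ∀ ε : ℝ, 0 < ε → ∃ (K : ℝ) (N0 : ℕ), ∀ N : ℕ, N0 ≤ N →
      ∀ b : Fin g → ℤ, (∀ i, |b i| ≤ A * (argCount G N : ℤ) ^ (P i).natDegree) → ∀ z : ℕ, 1 ≤ z → (z : ℝ) ≤ (argCount G N : ℝ) ^ δ1 →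
      (((BoxT A (argCount G N) e).filter fun t => (∀ i, 0 ≤ b i + lf c t i) ∧ FailsP ε (famT P c b t) G N z).card : ℝ) ≤
        (argCount G N : ℝ) ^ (∑ j, (e j : ℝ)) * ((Real.log (argCount G N)) ^ (-(A : ℝ)) + K * (z : ℝ) ^ (-c0)) := by
  classical
  obtain ⟨δ1, hδ1, hcore⟩ := hC g d c e P hD
  refine ⟨δ1, hδ1, fun A => ?_⟩
  obtain ⟨A2, hA2, hbox⟩ := W16_box c e (fun i => (P i).natDegree) hD.blk A
  obtain ⟨S, hS⟩ : ∃ S : ℕ, S = ∑ i, ∑ j, (c i j).natAbs := ⟨_, rfl⟩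
  obtain ⟨A4, hWP⟩ := W16_P P (fun i => ⟨hD.deg i, hP i⟩) (A + A * S) 1 one_pos
  choose! v hv Zq hq using hWP
  obtain ⟨γ, hγ⟩ : ∃ γ : ℕ, γ = G.leadingCoeff.natAbs := ⟨_, rfl⟩
  obtain ⟨A1, hA1⟩ : ∃ A1, A1 = A + A2 + A4 + γ := ⟨_, rfl⟩
  obtain ⟨c0, hc0, h'⟩ := hcore A1
  refine ⟨c0, hc0, fun ε hε => ?_⟩
  obtain ⟨θ, C1, Z0, hθ, hC1, hmain⟩ := h' ε 1 (fun θ => min (v θ) θ) hε one_pos (fun θ hθ => lt_min (hv θ hθ) hθ)
  obtain ⟨N0, hN0⟩ := U17_dec G hG hl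
  have hZt := Pool.Agent.Lib.H59.argCount_tendsto (G := G) (by rw [hG]) hl
  obtain ⟨N1, hN1⟩ := Filter.eventually_atTop.1 (hZt.eventually_ge_atTop (Z0 + Zq θ + 3))
  refine ⟨C1, N0 + N1, fun N hN b hb z hz1 hz2 => ?_⟩
  obtain ⟨q1, q2, q3⟩ := hN0 N (by omega)
  have hZ3 := hN1 N (by omega)
  obtain ⟨Z, hZ⟩ : ∃ Z : ℕ, Z = argCount G N := ⟨_, rfl⟩
  rw [← hγ] at q1
  rw [← hZ] at q1 q2 hZ3 hb hz2 ⊢
  have hZr : (3 : ℝ) ≤ Z := by exact_mod_cast (by omega : 3 ≤ Z)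
  have hZ0 : (0 : ℝ) < Z := by linarith
  obtain ⟨b', hb', hR⟩ := hbox Z b hb
  let R : (Fin g → ℤ) → Prop := fun s => (∀ i, 0 ≤ s i) ∧ NoFix (sys (C (N : ℤ) - G) P (fun i => (s i).toNat)) ∧
    ∃ Z' : ℕ, Reg A1 1 θ (min (v θ) θ) Z Z' (fun i => (P i).natDegree) (sys (C (N : ℤ) - G) P (fun i => (s i).toNat)) ∧
      ε * (Z' * H9P.dens (fun i => (P i).natDegree) (z - 1) Z' (sys (C (N : ℤ) - G) P (fun i => (s i).toNat))) <
        |(cnt (sys (C (N : ℤ) - G) P (fun i => (s i).toNat)) 1 Z' : ℝ) - Z' * H9P.dens (fun i => (P i).natDegree) (z - 1) Z' (sys (C (N : ℤ) - G) P (fun i => (s i).toNat))|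
  have hdeg : (C (N : ℤ) - G).natDegree = 1 := q1.deg
  have hlc : (C (N : ℤ) - G).leadingCoeff.natAbs ≤ A1 := q1.lc.trans (by omega)
  have hz1' : ((z - 1 : ℕ) : ℝ) + 1 = z := by
    rw [Nat.cast_sub hz1, Nat.cast_one]
    ring
  have hz' : ((z - 1 : ℕ) : ℝ) ≤ (Z : ℝ) ^ δ1 := by linarith
  have hb'' : ∀ i, |b' i| ≤ A1 * (Z : ℤ) ^ (P i).natDegree := by
    intro i
    refine (hb' i).trans (mul_le_mul_of_nonneg_right ?_ (by positivity))
    exact_mod_cast (by omega : A2 ≤ A1)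
  refine le_trans (Nat.cast_le.2 (card_le_card (t := (BoxT A Z e).filter fun t => R (fun i => b i + lf c t i)) fun t ht => ?_)) ?_
  · rw [mem_filter] at ht ⊢
    obtain ⟨t1, t2, t3, t4⟩ := ht
    refine ⟨t1, t2, U17_noFix G P c b t N t2 t3, Z, ?_, ?_⟩
    · refine ⟨le_refl _, le_of_eq (one_mul _), fun n hn1 hn2 => ?_, fun n hn1 hn2 i => ?_⟩
      · have a1 : (n : ℝ) ≤ Z := by
          have : (1 - θ) * (Z : ℝ) ≤ 1 * Z := mul_le_mul_of_nonneg_right (by linarith) hZ0.le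
          linarith
        have a2 : n ≤ Z := by exact_mod_cast a1
        have a3 : (0 : ℝ) < n := lt_of_lt_of_le (by positivity) hn1
        have a4 : 1 ≤ n := by exact_mod_cast a3
        have a5 : (1 : ℝ) ≤ n := by exact_mod_cast a4
        obtain ⟨h3, h4⟩ := w17_eval q1 n a2
        have e0 : sys (C (N : ℤ) - G) P (fun i => (b i + lf c t i).toNat) 0 (n : ℤ) = (C (N : ℤ) - G).eval (n : ℤ) := by
          unfold sys
          rw [Fin.cons_zero]
        have h3' : (Z : ℝ) - n + 1 ≤ (((C (N : ℤ) - G).eval (n : ℤ) : ℤ) : ℝ) := by exact_mod_cast h3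
        have h4' : (((C (N : ℤ) - G).eval (n : ℤ) : ℤ) : ℝ) ≤ γ * ((Z : ℝ) + 1 - n) := by exact_mod_cast h4
        rw [e0]
        constructor
        · have h5 : min (v θ) θ * (Z : ℝ) ≤ θ * Z := mul_le_mul_of_nonneg_right (min_le_right _ _) hZ0.le
          linarith
        · have h5 : (γ : ℝ) * ((Z : ℝ) + 1 - n) ≤ γ * Z := mul_le_mul_of_nonneg_left (by linarith) (Nat.cast_nonneg _)
          have h6 : (γ : ℝ) * Z ≤ A1 * Z := mul_le_mul_of_nonneg_right (by exact_mod_cast (by omega : γ ≤ A1)) hZ0.le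
          linarith
      · have a1 : (n : ℝ) ≤ Z := by
          have : (1 - θ) * (Z : ℝ) ≤ 1 * Z := mul_le_mul_of_nonneg_right (by linarith) hZ0.le
          linarith
        have hs : ∀ i, 0 ≤ b i + lf c t i ∧ b i + lf c t i ≤ ((A + A * S : ℕ) : ℤ) * (Z : ℤ) ^ (P i).natDegree := by
          intro i
          refine ⟨t2 i, ?_⟩
          have h3 := w17_lf c e (fun i => (P i).natDegree) hD.blk A Z t t1 i
          rw [← hS] at h3
          have h4 := (abs_le.1 (hb i)).2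
          push_cast
          have h5 : ((A : ℤ) + A * S) * (Z : ℤ) ^ (P i).natDegree = A * (Z : ℤ) ^ (P i).natDegree + A * S * (Z : ℤ) ^ (P i).natDegree := by ring
          rw [h5]
          exact add_le_add h4 h3
        obtain ⟨h3, h4⟩ := hq θ hθ Z Z (by omega) (le_refl _) (le_of_eq (one_mul _)) (fun i => b i + lf c t i) hs n hn1 (by exact_mod_cast a1) i
        have e0 : sys (C (N : ℤ) - G) P (fun i => (b i + lf c t i).toNat) i.succ (n : ℤ) = (P i).eval (n : ℤ) + (b i + lf c t i) := by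
          show (P i).eval (n : ℤ) + ((b i + lf c t i).toNat : ℤ) = _
          rw [Int.toNat_of_nonneg (t2 i)]
        rw [e0]
        have hZd : (0 : ℝ) ≤ (Z : ℝ) ^ (P i).natDegree := by positivity
        constructor
        · exact (mul_le_mul_of_nonneg_right (min_le_left _ _) hZd).trans h3
        · refine h4.trans (mul_le_mul_of_nonneg_right ?_ hZd)
          exact_mod_cast (by omega : A4 ≤ A1)
    · have t4' : ε * mainTermP (H9P.famP P c b t) G N z < |(primeCount (H9P.famP P c b t) G N : ℝ) - mainTermP (H9P.famP P c b t) G N z| := t4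
      rw [u17_main_term G hG P (fun i => (P i).natDegree) (fun i => (P i).leadingCoeff) (fun i => ⟨rfl, rfl⟩) c b t N z t2,
        U17_cnt G P c b t N t2 (by rw [← hZ]; exact q2), ← hZ] at t4'
      exact t4'
  refine le_trans (Nat.cast_le.2 (hR R)) ?_
  refine le_trans (Nat.cast_le.2 (card_le_card ?_)) (le_trans (hmain Z (by omega) (C (N : ℤ) - G) hdeg hlc b' hb'' (z - 1) hz') ?_)
  · intro t ht
    rw [mem_filter] at ht ⊢
    refine ⟨?_, ht.2⟩
    have t1 := ht.1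
    unfold tb at t1 ⊢
    rw [Fintype.mem_piFinset] at t1 ⊢
    intro j
    have h1 := t1 j
    rw [mem_Ico] at h1 ⊢
    refine ⟨h1.1, lt_of_lt_of_le h1.2 ?_⟩
    simp only [Pi.zero_apply, zero_add]
    have h3 : A2 * Z ^ e j + 1 ≤ A1 * Z ^ e j + 1 := Nat.add_le_add_right (Nat.mul_le_mul_right _ (by omega)) 1
    exact_mod_cast h3
  · refine mul_le_mul_of_nonneg_left ?_ (by positivity)
    rw [hz1']
    refine add_le_add ?_ (le_refl _)
    have hl1 : 1 ≤ Real.log Z := by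
      have h1 : Real.log (Real.exp 1) ≤ Real.log Z := Real.log_le_log (Real.exp_pos 1) (by
        have := Real.exp_one_lt_d9
        linarith)
      rwa [Real.log_exp] at h1
    refine Real.rpow_le_rpow_of_exponent_le hl1 (neg_le_neg ?_)
    exact_mod_cast (by omega : A ≤ A1)

end Pool.Agent.HLA
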