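import Pool.Agent.Lib.HLA.W16

/-!
# LOGA, chunk W18 (M): pairs `(N, t)`, any `G`, one fixed linear polynomial, in terms of the problem
-/

open Finset Polynomial

namespace Pool.Agent.HLA

open Pool.Agent.Lib.H68T Pool.Agent.Lib.H18Q Pool.Agent.Lib.H59P Pool.Agent.Lib.H24P
open Pool.Agent.HUP Pool.Agent.H9P
open Pool.Agent.Lib.H59 (argSet argCount Admissible primeCount omegaN seriesTrunc)

/-- The product of all coordinates. -/
theorem w18_prod {g : ℕ} (G F₀ : ℤ[X]) (P : Fin g → ℤ[X]) (h : Fin g → ℕ) (N : ℕ) :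
    (∏ i, (Fin.cons F₀ (fun i => P i + C ((h i : ℕ) : ℤ)) : Fin (g + 1) → ℤ[X]) i) * (C (N : ℤ) - G) =
      F₀ * ∏ i, ((Fin.cons (-G) P : Fin (g + 1) → ℤ[X]) i + C (((Fin.cons N h : Fin (g + 1) → ℕ) i : ℕ) : ℤ)) := by
  rw [Fin.prod_univ_succ, Fin.prod_univ_succ]
  simp only [Fin.cons_zero, Fin.cons_succ]
  ring

/-- The system of the problem with `F_0` and the system of the core theorem have the same series. Proof. `U13_tpf`-type formula: both local factors are `(1 - ω/l)(1 - 1/l)^(-(g+2))`, `ω` the number of roots of the product of all coordinates (the product does not depend on the order);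
`omegaN` is the `rootCount` of the product (compare `U17_series`, `U13_tpf`, `u13_pr`). -/
theorem w18_series {g : ℕ} (G F₀ : ℤ[X]) (P : Fin g → ℤ[X]) (h : Fin g → ℕ) (N z : ℕ) :
    seriesTrunc (Fin.cons F₀ (fun i => P i + C ((h i : ℕ) : ℤ)) : Fin (g + 1) → ℤ[X]) G N z =
      SSf (pr (z - 1)) (sys F₀ (Fin.cons (-G) P : Fin (g + 1) → ℤ[X]) (Fin.cons N h : Fin (g + 1) → ℕ)) := by
  unfold seriesTrunc SSf
  have e1 : Nat.primesBelow z = pr (z - 1) := by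
    ext p
    unfold Nat.primesBelow pr
    rw [mem_filter, mem_filter, mem_range, mem_Icc]
    constructor
    · rintro ⟨h1, h2⟩
      exact ⟨⟨h2.one_lt.le, by omega⟩, h2⟩
    · rintro ⟨h1, h2⟩
      exact ⟨by omega, h2⟩
  rw [e1]
  refine prod_congr rfl fun p hp => ?_
  have hp' : p.Prime := (mem_filter.1 hp).2
  rw [U13_tpf _ _ _ p hp', inv_pow]
  have e2 : omegaN (Fin.cons F₀ (fun i => P i + C ((h i : ℕ) : ℤ)) : Fin (g + 1) → ℤ[X]) G N p =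
      Pool.Agent.Lib.H59.rootCount (F₀ * ∏ i, ((Fin.cons (-G) P : Fin (g + 1) → ℤ[X]) i +
        C (((Fin.cons N h : Fin (g + 1) → ℕ) i : ℕ) : ℤ))) p := by
    unfold omegaN Pool.Agent.Lib.H59.rootCount
    rw [w18_prod]
  rw [e2]

/-- The values of the system. -/
theorem w18_val0 {g : ℕ} (G F₀ : ℤ[X]) (P : Fin g → ℤ[X]) (h : Fin g → ℕ) (N : ℕ) (n : ℤ) :
    sys F₀ (Fin.cons (-G) P : Fin (g + 1) → ℤ[X]) (Fin.cons N h : Fin (g + 1) → ℕ) 0 n = F₀.eval n := by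
  unfold sys
  rw [Fin.cons_zero]

theorem w18_val1 {g : ℕ} (G F₀ : ℤ[X]) (P : Fin g → ℤ[X]) (h : Fin g → ℕ) (N : ℕ) (n : ℤ) :
    sys F₀ (Fin.cons (-G) P : Fin (g + 1) → ℤ[X]) (Fin.cons N h : Fin (g + 1) → ℕ) (0 : Fin (g + 1)).succ n =
      (N : ℤ) - G.eval n := by
  unfold sys ran
  rw [Fin.cons_succ, Fin.cons_zero, Fin.cons_zero, eval_neg]
  ring

theorem w18_val2 {g : ℕ} (G F₀ : ℤ[X]) (P : Fin g → ℤ[X]) (h : Fin g → ℕ) (N : ℕ) (n : ℤ) (i : Fin g) :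
    sys F₀ (Fin.cons (-G) P : Fin (g + 1) → ℤ[X]) (Fin.cons N h : Fin (g + 1) → ℕ) i.succ.succ n =
      (P i).eval n + (h i : ℤ) := by
  unfold sys ran
  rw [Fin.cons_succ, Fin.cons_succ, Fin.cons_succ]

/-- The count. -/
theorem w18_cnt {g : ℕ} (G F₀ : ℤ[X]) (P : Fin g → ℤ[X]) (h : Fin g → ℕ) (N : ℕ)
    (hs : argSet G N = ((Icc 1 (argCount G N) : Finset ℕ) : Set ℕ)) :
    primeCount (Fin.cons F₀ (fun i => P i + C ((h i : ℕ) : ℤ)) : Fin (g + 1) → ℤ[X]) G N =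
      cnt (sys F₀ (Fin.cons (-G) P : Fin (g + 1) → ℤ[X]) (Fin.cons N h : Fin (g + 1) → ℕ)) 1 (argCount G N) := by
  classical
  unfold primeCount cnt
  have e1 : {n : ℕ | n ∈ argSet G N ∧
        (∀ i, ∃ q : ℕ, q.Prime ∧ ((Fin.cons F₀ (fun i => P i + C ((h i : ℕ) : ℤ)) : Fin (g + 1) → ℤ[X]) i).eval (n : ℤ) = q) ∧
        ∃ q : ℕ, q.Prime ∧ (N : ℤ) - G.eval (n : ℤ) = q} =
      (((Ico 1 (1 + argCount G N)).filter (fun n : ℕ => ∀ i, (sys F₀ (Fin.cons (-G) P : Fin (g + 1) → ℤ[X])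
        (Fin.cons N h : Fin (g + 1) → ℕ) i (n : ℤ)).toNat.Prime) : Finset ℕ) : Set ℕ) := by
    ext n
    rw [Set.mem_ofPred_eq, hs, mem_coe, mem_coe, mem_filter, mem_Icc, mem_Ico, Fin.forall_fin_succ, Fin.forall_fin_succ,
      Fin.forall_fin_succ, w18_val0, w18_val1, u17_prime, u17_prime, Fin.cons_zero]
    constructor
    · rintro ⟨h1, ⟨h2, h3⟩, h4⟩
      refine ⟨by omega, h2, h4, fun i => ?_⟩
      rw [w18_val2, u17_prime]
      have h5 := h3 i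
      rw [Fin.cons_succ, eval_add, eval_C] at h5
      exact h5
    · rintro ⟨h1, h2, h4, h3⟩
      refine ⟨by omega, ⟨h2, fun i => ?_⟩, h4⟩
      have h5 := h3 i
      rw [w18_val2, u17_prime] at h5
      rw [Fin.cons_succ, eval_add, eval_C]
      exact h5
  rw [e1, Set.ncard_coe_finset]

/-- The main term. -/
theorem w18_main_term {g : ℕ} (G F₀ : ℤ[X]) (hF : F₀.natDegree = 1) (P : Fin g → ℤ[X]) (h : Fin g → ℕ) (N z : ℕ) :
    mainTermP (Fin.cons F₀ (fun i => P i + C ((h i : ℕ) : ℤ)) : Fin (g + 1) → ℤ[X]) G N z =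
      (argCount G N : ℝ) * H9P.dens (fun i => ((Fin.cons (-G) P : Fin (g + 1) → ℤ[X]) i).natDegree) (z - 1) (argCount G N)
        (sys F₀ (Fin.cons (-G) P : Fin (g + 1) → ℤ[X]) (Fin.cons N h : Fin (g + 1) → ℕ)) := by
  unfold mainTermP H9P.dens
  rw [w18_series, Fin.prod_univ_succ, Fin.prod_univ_succ]
  simp only [Fin.cons_zero, Fin.cons_succ, natDegree_neg, natDegree_add_C]
  rw [hF]
  push_cast
  rw [one_mul]
  ring

/-- The size of the forms on the box. -/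
theorem w18_abs {k d : ℕ} (c : Fin k → Fin d → ℤ) (e : Fin d → ℕ) (D : Fin k → ℕ) (hB : ∀ i j, c i j ≠ 0 → e j = D i)
    (A Z : ℕ) (t : Fin d → ℤ) (ht : t ∈ BoxT A Z e) (i : Fin k) :
    |lf c t i| ≤ ((A * ∑ i, ∑ j, (c i j).natAbs : ℕ) : ℤ) * (Z : ℤ) ^ D i := by
  unfold lf
  refine (Finset.abs_sum_le_sum_abs _ _).trans ?_
  have h1 : ∀ j ∈ univ, |c i j * t j| ≤ ((A * (c i j).natAbs : ℕ) : ℤ) * (Z : ℤ) ^ D i := by
    intro j _
    rw [abs_mul]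
    by_cases hj : c i j = 0
    · rw [hj]
      simp
    · have h2 : |t j| ≤ (A : ℤ) * (Z : ℤ) ^ D i := by
        unfold BoxT at ht
        rw [Fintype.mem_piFinset] at ht
        have h3 := mem_Icc.1 (ht j)
        rw [hB i j hj] at h3
        push_cast at h3
        exact abs_le.2 h3
      calc |c i j| * |t j| ≤ |c i j| * ((A : ℤ) * (Z : ℤ) ^ D i) := mul_le_mul_of_nonneg_left h2 (abs_nonneg _)
        _ = ((A * (c i j).natAbs : ℕ) : ℤ) * (Z : ℤ) ^ D i := by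
            push_cast
            ring
  refine (sum_le_sum h1).trans ?_
  rw [← sum_mul]
  refine mul_le_mul_of_nonneg_right ?_ (by positivity)
  rw [← Nat.cast_sum, ← mul_sum]
  refine Int.ofNat_le.2 (Nat.mul_le_mul_left _ ?_)
  exact single_le_sum (f := fun i => ∑ j, (c i j).natAbs) (fun _ _ => Nat.zero_le _) (mem_univ i)

/-- The size of the values of a linear polynomial. -/
theorem w18_lin (F : ℤ[X]) (hF : F.natDegree = 1) (hF0 : 0 < F.leadingCoeff) (ρ : ℝ) (hρ : 0 < ρ) :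
    ∃ Z0 : ℕ, ∀ Z : ℕ, Z0 ≤ Z → ∀ n : ℕ, ρ * Z ≤ n → n ≤ Z → ρ / 2 * Z ≤ ((F.eval (n : ℤ) : ℤ) : ℝ) ∧
      ((F.eval (n : ℤ) : ℤ) : ℝ) ≤ ((F.leadingCoeff.natAbs + (F.coeff 0).natAbs : ℕ) : ℝ) * Z := by
  refine ⟨⌈2 * |(F.coeff 0 : ℝ)| / ρ⌉₊ + 1, fun Z hZ n h1 h2 => ?_⟩
  have h3 : 2 * |(F.coeff 0 : ℝ)| / ρ ≤ Z := by
    refine (Nat.le_ceil _).trans ?_
    exact_mod_cast (by omega : ⌈2 * |(F.coeff 0 : ℝ)| / ρ⌉₊ ≤ Z)
  rw [div_le_iff₀ hρ] at h3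
  have hZ1 : (1 : ℝ) ≤ Z := by exact_mod_cast (by omega : 1 ≤ Z)
  have h2r : (n : ℝ) ≤ Z := by exact_mod_cast h2
  have ha : (1 : ℝ) ≤ (F.leadingCoeff : ℝ) := by exact_mod_cast hF0
  have e1 : ((F.eval (n : ℤ) : ℤ) : ℝ) = F.leadingCoeff * n + F.coeff 0 := by
    rw [u17_ev F hF]
    push_cast
    ring
  have h4 := neg_abs_le (F.coeff 0 : ℝ)
  have h5 := le_abs_self (F.coeff 0 : ℝ)
  have h6 : (0 : ℝ) ≤ n := Nat.cast_nonneg n
  rw [e1]
  constructor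
  · nlinarith
  · have e2 : ((F.leadingCoeff.natAbs : ℕ) : ℝ) = (F.leadingCoeff : ℝ) := by
      rw [Nat.cast_natAbs, abs_of_pos hF0]
    have e3 : (((F.coeff 0).natAbs : ℕ) : ℝ) = |(F.coeff 0 : ℝ)| := by
      rw [Nat.cast_natAbs]
      push_cast
      rfl
    push_cast
    rw [e2, e3]
    have h7 := abs_nonneg (F.coeff 0 : ℝ)
    nlinarith

/-- The regularity of the system. -/
theorem w18_reg {g : ℕ} (G F₀ : ℤ[X]) (P : Fin g → ℤ[X]) (h : Fin g → ℕ) (N Z Z' A1 : ℕ) (κ' θ v : ℝ)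
    (h1 : Z' ≤ Z) (h2 : κ' * Z ≤ Z')
    (hF : ∀ n : ℕ, θ * Z' ≤ n → (n : ℝ) ≤ (1 - θ) * Z' →
      v * Z ≤ ((F₀.eval (n : ℤ) : ℤ) : ℝ) ∧ ((F₀.eval (n : ℤ) : ℤ) : ℝ) ≤ A1 * Z)
    (hG : ∀ n : ℕ, θ * Z' ≤ n → (n : ℝ) ≤ (1 - θ) * Z' →
      v * (Z : ℝ) ^ G.natDegree ≤ (((N : ℤ) - G.eval (n : ℤ) : ℤ) : ℝ) ∧
      (((N : ℤ) - G.eval (n : ℤ) : ℤ) : ℝ) ≤ A1 * (Z : ℝ) ^ G.natDegree)
    (hP : ∀ n : ℕ, θ * Z' ≤ n → (n : ℝ) ≤ (1 - θ) * Z' → ∀ i,
      v * (Z : ℝ) ^ (P i).natDegree ≤ (((P i).eval (n : ℤ) + (h i : ℤ) : ℤ) : ℝ) ∧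
      (((P i).eval (n : ℤ) + (h i : ℤ) : ℤ) : ℝ) ≤ A1 * (Z : ℝ) ^ (P i).natDegree) :
    Reg A1 κ' θ v Z Z' (fun i => ((Fin.cons (-G) P : Fin (g + 1) → ℤ[X]) i).natDegree)
      (sys F₀ (Fin.cons (-G) P : Fin (g + 1) → ℤ[X]) (Fin.cons N h : Fin (g + 1) → ℕ)) := by
  refine ⟨h1, h2, fun n a b => ?_, fun n a b i => ?_⟩
  · rw [w18_val0]
    exact hF n a b
  · refine Fin.cases ?_ (fun i => ?_) i
    · rw [w18_val1, Fin.cons_zero, natDegree_neg]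
      exact hG n a b
    · rw [w18_val2, Fin.cons_succ]
      exact hP n a b i

/-- **W18.** -/
theorem W18_main (hC : ACoreAll) {g d : ℕ} (G : ℤ[X]) (hG : 1 ≤ G.natDegree) (hl : 0 < G.leadingCoeff)
    (P : Fin g → ℤ[X]) (hP : ∀ i, 0 < (P i).leadingCoeff) (c : Fin g → Fin d → ℤ) (e : Fin d → ℕ)
    (hD : Dat c e (fun i => (P i).natDegree) (fun i => (P i).leadingCoeff))
    (F₀ : ℤ[X]) (hF : F₀.natDegree = 1) (hF0 : 0 < F₀.leadingCoeff) :
    open Classical in ∃ δ1 : ℝ, 0 < δ1 ∧ ∀ A : ℕ, ∃ c0 : ℝ, 0 < c0 ∧ ∀ ε κ : ℝ, 0 < ε → 0 < κ → ∃ (K : ℝ) (Y0 : ℕ), ∀ Y : ℕ, Y0 ≤ Y →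
      ∀ b : Fin g → ℤ, (∀ i, |b i| ≤ A * (argCount G Y : ℤ) ^ (P i).natDegree) → ∀ z : ℕ, 1 ≤ z → (z : ℝ) ≤ (argCount G Y : ℝ) ^ δ1 →
      (((Icc 1 Y ×ˢ BoxT A (argCount G Y) e).filter fun x : ℕ × (Fin d → ℤ) => κ * Y ≤ x.1 ∧ (∀ i, 0 ≤ b i + lf c x.2 i) ∧
        FailsP ε (Fin.cons F₀ (famT P c b x.2) : Fin (g + 1) → ℤ[X]) G x.1 z).card : ℝ) ≤
        Y * (argCount G Y : ℝ) ^ (∑ j, (e j : ℝ)) * ((Real.log (argCount G Y)) ^ (-(A : ℝ)) + K * (z : ℝ) ^ (-c0)) := by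
  classical
  set c' : Fin (g + 1) → Fin (d + 1) → ℤ := Fin.cons (Fin.cons 1 0) (fun i => Fin.cons 0 (c i)) with hc'
  set e' : Fin (d + 1) → ℕ := Fin.cons G.natDegree e with he'
  set P' : Fin (g + 1) → ℤ[X] := Fin.cons (-G) P with hP'
  have hD' : Dat c' e' (fun i => (P' i).natDegree) (fun i => (P' i).leadingCoeff) := Z2_dat G hG hl P c e hD
  obtain ⟨δ1, hδ1, hcore⟩ := hC (g + 1) (d + 1) c' e' P' hD'
  refine ⟨δ1, hδ1, fun A => ?_⟩
  have hPP : ∀ i, 1 ≤ (P i).natDegree ∧ 0 < (P i).leadingCoeff := fun i => ⟨hD.deg i, hP i⟩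
  obtain ⟨κ1, Ag, hκ1, hG1, Yg1, hYg1⟩ := W16_G G hG hl 1 one_pos
  obtain ⟨As, hAs⟩ : ∃ As : ℕ, As = A + A * ∑ i, ∑ j, (c i j).natAbs := ⟨_, rfl⟩
  obtain ⟨Ap, hP1⟩ := W16_P P hPP As 1 one_pos
  obtain ⟨Ab, hAb⟩ : ∃ Ab : ℕ, Ab = A + 1 + Ag + Ap + (F₀.leadingCoeff.natAbs + (F₀.coeff 0).natAbs) := ⟨_, rfl⟩
  obtain ⟨A1, hA1, hbox⟩ := W16_box c' e' (fun i => (P' i).natDegree) hD'.blk Ab
  have hA1a : A + 1 ≤ A1 := by omega
  have hA1g : Ag ≤ A1 := by omega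
  have hA1p : Ap ≤ A1 := by omega
  have hA1f : F₀.leadingCoeff.natAbs + (F₀.coeff 0).natAbs ≤ A1 := by omega
  obtain ⟨c0, hc0, hc1⟩ := hcore A1
  refine ⟨c0, hc0, fun ε κ hε hκ => ?_⟩
  obtain ⟨κ', Aκ, hκ', hGκ, _⟩ := W16_G G hG hl κ hκ
  choose vg hvg0 Yg hYg using hGκ
  choose vp hvp0 Zp hZp using hP1
  obtain ⟨vf, hvf⟩ : ∃ vf : ℝ → ℝ, vf = fun θ => if h : 0 < θ then
      min (vg θ h) (min (vp (θ * κ') (mul_pos h hκ')) (θ * κ' / 2)) else 1 := ⟨_, rfl⟩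
  have hvf1 : ∀ θ (h : 0 < θ), vf θ = min (vg θ h) (min (vp (θ * κ') (mul_pos h hκ')) (θ * κ' / 2)) := by
    intro θ h
    rw [hvf]
    exact dif_pos h
  obtain ⟨θ, C1, Z0, hθ, hC1, hmain⟩ := hc1 ε κ' vf hε hκ' (by
    intro θ hθ
    rw [hvf1 θ hθ]
    exact lt_min (hvg0 θ hθ) (lt_min (hvp0 _ _) (by positivity)))
  have hv1 : vf θ ≤ vg θ hθ := by rw [hvf1 θ hθ]; exact min_le_left _ _
  have hv2 : vf θ ≤ vp (θ * κ') (mul_pos hθ hκ') := by
    rw [hvf1 θ hθ]; exact (min_le_right _ _).trans (min_le_left _ _)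
  have hv3 : vf θ ≤ θ * κ' / 2 := by
    rw [hvf1 θ hθ]; exact (min_le_right _ _).trans (min_le_right _ _)
  obtain ⟨v1, _, Y1, hY1⟩ := hG1 θ hθ
  obtain ⟨Zl, hZl⟩ := w18_lin F₀ hF hF0 (θ * κ') (mul_pos hθ hκ')
  have ht := Pool.Agent.Lib.H59.argCount_tendsto (G := G) hG hl
  have htl : Filter.Tendsto (fun Z : ℕ => Real.log Z) Filter.atTop Filter.atTop :=
    Real.tendsto_log_atTop.comp tendsto_natCast_atTop_atTop
  obtain ⟨Y2, hY2⟩ := Filter.eventually_atTop.1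
    ((ht.eventually_ge_atTop (max (max Z0 1) (max Zl (Zp (θ * κ') (mul_pos hθ hκ'))))).and
      (ht.eventually (htl.eventually_ge_atTop (max 1 (Ag : ℝ)))))
  refine ⟨Ag * C1, max (max (Yg θ hθ) Y1) (max Yg1 Y2), fun Y hY b hb z hz1 hz2 => ?_⟩
  have hYa : Yg θ hθ ≤ Y := ((le_max_left _ _).trans (le_max_left _ _)).trans hY
  have hYb : Y1 ≤ Y := ((le_max_right _ _).trans (le_max_left _ _)).trans hY
  have hYc : Yg1 ≤ Y := ((le_max_left _ _).trans (le_max_right _ _)).trans hY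
  have hYd : Y2 ≤ Y := ((le_max_right _ _).trans (le_max_right _ _)).trans hY
  obtain ⟨hZa, hlogZ⟩ := hY2 Y hYd
  obtain ⟨hYZ, hZY⟩ := hYg1 Y hYc
  obtain ⟨Z, hZ⟩ : ∃ Z : ℕ, Z = argCount G Y := ⟨_, rfl⟩
  have hYN : ∀ N : ℕ, κ * Y ≤ N → N ≤ Y → _ := fun N h1 h2 => hYg θ hθ Y N hYa h1 h2
  obtain ⟨_, _, _, hYY⟩ := hY1 Y Y hYb (by rw [one_mul]) le_rfl
  rw [← hZ] at hb hz2 hZa hlogZ hYZ hZY hYY ⊢
  simp only [← hZ] at hYN
  have hZ0 : Z0 ≤ Z := ((le_max_left _ _).trans (le_max_left _ _)).trans hZa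
  have hZ1 : 1 ≤ Z := ((le_max_right _ _).trans (le_max_left _ _)).trans hZa
  have hZZl : Zl ≤ Z := ((le_max_left _ _).trans (le_max_right _ _)).trans hZa
  have hZZp : Zp (θ * κ') (mul_pos hθ hκ') ≤ Z := ((le_max_right _ _).trans (le_max_right _ _)).trans hZa
  have hZr : (0 : ℝ) < Z := by exact_mod_cast hZ1
  have hlog1 : (1 : ℝ) ≤ Real.log Z := (le_max_left _ _).trans hlogZ
  have hlog2 : (Ag : ℝ) ≤ Real.log Z := (le_max_right _ _).trans hlogZ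
  have hβ : ∀ i : Fin (g + 1), |(Fin.cons 0 b : Fin (g + 1) → ℤ) i| ≤ (Ab : ℤ) * (Z : ℤ) ^ (P' i).natDegree := by
    intro i
    refine Fin.cases ?_ (fun i => ?_) i
    · rw [Fin.cons_zero, abs_zero]
      positivity
    · rw [Fin.cons_succ, hP', Fin.cons_succ]
      refine (hb i).trans ?_
      refine mul_le_mul_of_nonneg_right ?_ (by positivity)
      exact Int.ofNat_le.2 (by omega)
  obtain ⟨β', hβ', hbox2⟩ := hbox Z (Fin.cons 0 b) hβ
  have hYA : Y ≤ Ab * Z ^ G.natDegree := by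
    have h7 : (Y : ℝ) ≤ (Ab : ℝ) * (Z : ℝ) ^ G.natDegree := by
      refine hYZ.trans ?_
      refine mul_le_mul_of_nonneg_right ?_ (by positivity)
      exact_mod_cast (by omega : Ag ≤ Ab)
    exact_mod_cast h7
  obtain ⟨R, hR⟩ : ∃ R : (Fin (g + 1) → ℤ) → Prop, R = fun s => (∀ i, 0 ≤ s i) ∧ NoFix (sys F₀ P' fun i => (s i).toNat) ∧
      ∃ Z' : ℕ, Reg A1 κ' θ (vf θ) Z Z' (fun i => (P' i).natDegree) (sys F₀ P' fun i => (s i).toNat) ∧
        ε * (Z' * H9P.dens (fun i => (P' i).natDegree) (z - 1) Z' (sys F₀ P' fun i => (s i).toNat)) <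
          |(cnt (sys F₀ P' fun i => (s i).toNat) 1 Z' : ℝ) -
            Z' * H9P.dens (fun i => (P' i).natDegree) (z - 1) Z' (sys F₀ P' fun i => (s i).toNat)| := ⟨_, rfl⟩
  have hzz : ((z - 1 : ℕ) : ℝ) ≤ (Z : ℝ) ^ δ1 := by
    refine le_trans ?_ hz2
    exact_mod_cast Nat.sub_le z 1
  have hz3 : ((z - 1 : ℕ) : ℝ) + 1 = z := by
    rw [Nat.cast_sub hz1, Nat.cast_one, sub_add_cancel]
  have hcore2 := hmain Z hZ0 F₀ hF ((Nat.le_add_right _ _).trans hA1f) β' hβ' (z - 1) hzz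
  rw [hz3] at hcore2
  have hcard : ((Icc 1 Y ×ˢ BoxT A Z e).filter fun x : ℕ × (Fin d → ℤ) => κ * Y ≤ x.1 ∧ (∀ i, 0 ≤ b i + lf c x.2 i) ∧
        FailsP ε (Fin.cons F₀ (famT P c b x.2) : Fin (g + 1) → ℤ[X]) G x.1 z).card ≤
      ((BoxT Ab Z e').filter fun t => R (fun i => (Fin.cons 0 b : Fin (g + 1) → ℤ) i + lf c' t i)).card := by
    refine card_le_card_of_injOn (fun x => (Fin.cons (x.1 : ℤ) x.2 : Fin (d + 1) → ℤ)) ?_ ?_
    · rintro ⟨N, t⟩ hx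
      obtain ⟨hx1, hx2, hx3, hx4⟩ := mem_filter.1 (mem_coe.1 hx)
      obtain ⟨hN, ht⟩ := mem_product.1 hx1
      have hNY : N ≤ Y := (mem_Icc.1 hN).2
      refine mem_coe.2 (mem_filter.2 ⟨z2_boxcons (hNY.trans hYA) (z2_box (by omega) ht), ?_⟩)
      have hhh : (fun i => ((Fin.cons 0 b : Fin (g + 1) → ℤ) i + lf c' (Fin.cons (N : ℤ) t : Fin (d + 1) → ℤ) i).toNat) =
          (Fin.cons N (hh c b t) : Fin (g + 1) → ℕ) := Z2_hh c b N t
      obtain ⟨q1, q2, q3, q4⟩ := hYN N hx2 hNY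
      have hfam : (Fin.cons F₀ (famT P c b t) : Fin (g + 1) → ℤ[X]) =
          Fin.cons F₀ (fun i => P i + C ((hh c b t i : ℕ) : ℤ)) := by
        rw [famT_eval P c b t hx3]
        rfl
      have hx4' : FailsP ε (Fin.cons F₀ (fun i => P i + C ((hh c b t i : ℕ) : ℤ)) : Fin (g + 1) → ℤ[X]) G N z := by
        rw [← hfam]
        exact hx4
      obtain ⟨hadm, hfail⟩ := hx4'
      rw [hR]
      refine ⟨?_, ?_, argCount G N, ?_, ?_⟩
      · intro i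
        refine Fin.cases ?_ (fun i => ?_) i
        · have e1 : lf c' (Fin.cons (N : ℤ) t : Fin (d + 1) → ℤ) 0 = N := z2_lf0 c N t
          show (0 : ℤ) ≤ (Fin.cons 0 b : Fin (g + 1) → ℤ) 0 + lf c' (Fin.cons (N : ℤ) t : Fin (d + 1) → ℤ) 0
          rw [Fin.cons_zero, e1]
          positivity
        · have e1 : lf c' (Fin.cons (N : ℤ) t : Fin (d + 1) → ℤ) i.succ = lf c t i := z2_lfs c N t i
          show (0 : ℤ) ≤ (Fin.cons 0 b : Fin (g + 1) → ℤ) i.succ + lf c' (Fin.cons (N : ℤ) t : Fin (d + 1) → ℤ) i.succ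
          rw [Fin.cons_succ, e1]
          exact hx3 i
      · rw [hhh]
        exact fb_b hadm
      · rw [hhh]
        refine w18_reg G F₀ P (hh c b t) N Z (argCount G N) A1 κ' θ (vf θ) q2 q3 ?_ ?_ ?_
        · intro n a1 a2
          have b1 : θ * κ' * Z ≤ n := by
            refine le_trans ?_ a1
            rw [mul_assoc]
            exact mul_le_mul_of_nonneg_left q3 hθ.le
          have b2 : n ≤ Z := by
            have : (n : ℝ) ≤ argCount G N := by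
              refine a2.trans ?_
              nlinarith [Nat.cast_nonneg (α := ℝ) (argCount G N)]
            exact (by exact_mod_cast this : n ≤ argCount G N).trans q2
          obtain ⟨b3, b4⟩ := hZl Z hZZl n b1 b2
          refine ⟨le_trans ?_ b3, b4.trans ?_⟩
          · exact mul_le_mul_of_nonneg_right hv3 hZr.le
          · refine mul_le_mul_of_nonneg_right ?_ hZr.le
            exact_mod_cast hA1f
        · intro n a1 a2
          have b1 := (q4 n a2).1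
          have a3 : (n : ℝ) ≤ (1 - θ) * Z := by
            rcases le_or_gt 0 (1 - θ) with hs | hs
            · exact a2.trans (mul_le_mul_of_nonneg_left (by exact_mod_cast q2) hs)
            · have b5 : (0 : ℝ) ≤ argCount G N := Nat.cast_nonneg _
              have b6 : (0 : ℝ) < argCount G N := lt_of_lt_of_le (by positivity) q3
              have b7 : (0 : ℝ) ≤ n := Nat.cast_nonneg _
              nlinarith
          have b2 := (hYY n a3).2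
          refine ⟨le_trans (mul_le_mul_of_nonneg_right hv1 (by positivity)) b1, ?_⟩
          have b3 : (((N : ℤ) - G.eval (n : ℤ) : ℤ) : ℝ) ≤ (((Y : ℤ) - G.eval (n : ℤ) : ℤ) : ℝ) := by
            have b4 : (N : ℤ) ≤ Y := by exact_mod_cast hNY
            exact_mod_cast (by linarith : (N : ℤ) - G.eval (n : ℤ) ≤ (Y : ℤ) - G.eval (n : ℤ))
          refine b3.trans (b2.trans ?_)
          refine mul_le_mul_of_nonneg_right ?_ (by positivity)
          exact_mod_cast hA1g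
        · intro n a1 a2 i
          have b1 : θ * κ' * Z ≤ n := by
            refine le_trans ?_ a1
            rw [mul_assoc]
            exact mul_le_mul_of_nonneg_left q3 hθ.le
          have b2 : n ≤ Z := by
            have : (n : ℝ) ≤ argCount G N := by
              refine a2.trans ?_
              nlinarith [Nat.cast_nonneg (α := ℝ) (argCount G N)]
            exact (by exact_mod_cast this : n ≤ argCount G N).trans q2
          have b3 : ∀ i, 0 ≤ ((hh c b t i : ℕ) : ℤ) ∧ ((hh c b t i : ℕ) : ℤ) ≤ As * (Z : ℤ) ^ (P i).natDegree := by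
            intro i
            refine ⟨Int.natCast_nonneg _, ?_⟩
            have b4 : ((hh c b t i : ℕ) : ℤ) = b i + lf c t i := by
              unfold hh
              exact Int.toNat_of_nonneg (hx3 i)
            rw [b4]
            have b5 := (le_abs_self _).trans (hb i)
            have b6 := (le_abs_self _).trans (w18_abs c e (fun i => (P i).natDegree) hD.blk A Z t ht i)
            rw [hAs]
            push_cast at b6 ⊢
            linarith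
          obtain ⟨b7, b8⟩ := hZp (θ * κ') (mul_pos hθ hκ') Z Z hZZp le_rfl (by rw [one_mul])
            (fun i => ((hh c b t i : ℕ) : ℤ)) b3 n b1 b2 i
          refine ⟨le_trans (mul_le_mul_of_nonneg_right hv2 (by positivity)) b7, b8.trans ?_⟩
          refine mul_le_mul_of_nonneg_right ?_ (by positivity)
          exact_mod_cast hA1p
      · rw [hhh]
        rw [w18_main_term G F₀ hF, w18_cnt G F₀ P (hh c b t) N q1] at hfail
        exact hfail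
    · rintro ⟨N, t⟩ _ ⟨N', t'⟩ _ he
      have he' := Fin.cons_injective2 he
      exact Prod.ext (Int.natCast_inj.1 he'.1) he'.2
  have hcard2 := hcard.trans (hbox2 R)
  have hcard3 : (((Icc 1 Y ×ˢ BoxT A Z e).filter fun x : ℕ × (Fin d → ℤ) => κ * Y ≤ x.1 ∧ (∀ i, 0 ≤ b i + lf c x.2 i) ∧
        FailsP ε (Fin.cons F₀ (famT P c b x.2) : Fin (g + 1) → ℤ[X]) G x.1 z).card : ℝ) ≤
      (Z : ℝ) ^ (∑ j, (e' j : ℝ)) * ((Real.log Z) ^ (-(A1 : ℝ)) + C1 * (z : ℝ) ^ (-c0)) := by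
    refine (Nat.cast_le.2 hcard2).trans (le_trans ?_ hcore2)
    refine Nat.cast_le.2 (card_le_card ?_)
    intro t ht
    rw [mem_filter] at ht ⊢
    obtain ⟨h1, h2⟩ := ht
    rw [hR] at h2
    exact ⟨h1, h2⟩
  refine hcard3.trans ?_
  have h8 : (∑ j, ((e' j : ℕ) : ℝ)) = (G.natDegree : ℝ) + ∑ j, (e j : ℝ) := by
    rw [Fin.sum_univ_succ, he']
    simp only [Fin.cons_zero, Fin.cons_succ]
  rw [h8, Real.rpow_add hZr, Real.rpow_natCast]
  obtain ⟨S, hS⟩ : ∃ S : ℝ, S = (Z : ℝ) ^ (∑ j, (e j : ℝ)) := ⟨_, rfl⟩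
  have hS0 : 0 < S := by rw [hS]; exact Real.rpow_pos_of_pos hZr _
  rw [← hS]
  have hzr : (0 : ℝ) ≤ (z : ℝ) ^ (-c0) := Real.rpow_nonneg (Nat.cast_nonneg _) _
  have hlog0 : (0 : ℝ) < Real.log Z := by linarith
  have h9 : (Ag : ℝ) * (Real.log Z) ^ (-(A1 : ℝ)) ≤ (Real.log Z) ^ (-(A : ℝ)) := by
    calc (Ag : ℝ) * (Real.log Z) ^ (-(A1 : ℝ)) ≤ Real.log Z * (Real.log Z) ^ (-((A : ℝ) + 1)) := by
          refine mul_le_mul hlog2 ?_ (Real.rpow_nonneg hlog0.le _) hlog0.le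
          refine Real.rpow_le_rpow_of_exponent_le hlog1 ?_
          have : (A : ℝ) + 1 ≤ A1 := by exact_mod_cast hA1a
          linarith
      _ = (Real.log Z) ^ (-(A : ℝ)) := by
          have e1 : Real.log Z * (Real.log Z) ^ (-((A : ℝ) + 1)) =
              (Real.log Z) ^ (1 : ℝ) * (Real.log Z) ^ (-((A : ℝ) + 1)) := by rw [Real.rpow_one]
          rw [e1, ← Real.rpow_add hlog0]
          congr 1
          ring
  have h10 : 0 ≤ (Real.log Z) ^ (-(A1 : ℝ)) + C1 * (z : ℝ) ^ (-c0) :=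
    add_nonneg (Real.rpow_nonneg hlog0.le _) (mul_nonneg hC1 hzr)
  calc (Z : ℝ) ^ G.natDegree * S * ((Real.log Z) ^ (-(A1 : ℝ)) + C1 * (z : ℝ) ^ (-c0))
      ≤ (Ag * Y) * S * ((Real.log Z) ^ (-(A1 : ℝ)) + C1 * (z : ℝ) ^ (-c0)) := by
        refine mul_le_mul_of_nonneg_right ?_ h10
        exact mul_le_mul_of_nonneg_right hZY hS0.le
    _ = Y * S * (Ag * (Real.log Z) ^ (-(A1 : ℝ)) + Ag * C1 * (z : ℝ) ^ (-c0)) := by ring
    _ ≤ Y * S * ((Real.log Z) ^ (-(A : ℝ)) + Ag * C1 * (z : ℝ) ^ (-c0)) := by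
        refine mul_le_mul_of_nonneg_left ?_ (by positivity)
        linarith

end Pool.Agent.HLA
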