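import Pool.Agent.Lib.HLA.W16

/-!
# LOGA, chunk W19 (M): pairs `(N, t)`, any `G`, in terms of the problem
-/

open Finset Polynomial

namespace Pool.Agent.HLA

open Pool.Agent.Lib.H68T Pool.Agent.Lib.H18Q Pool.Agent.Lib.H59P Pool.Agent.Lib.H24P
open Pool.Agent.HUP Pool.Agent.H9P
open Pool.Agent.Lib.H59 (argSet argCount Admissible primeCount omegaN seriesTrunc)

/-- The system `(N - G, P_i + h_i)` in two forms. Proof. `funext`, `Fin.cases`. -/
theorem w19_sys {g : ℕ} (G : ℤ[X]) (P : Fin g → ℤ[X]) (h : Fin g → ℕ) (N : ℕ) :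
    sys (C (N : ℤ) - G) P h = ran (Fin.cons (-G) P : Fin (g + 1) → ℤ[X]) (Fin.cons N h : Fin (g + 1) → ℕ) := by
  funext i n
  unfold sys ran
  refine Fin.cases ?_ (fun i => ?_) i
  · simp only [Fin.cons_zero]
    rw [eval_sub, eval_C, eval_neg]
    ring
  · simp only [Fin.cons_succ]

/-- w19 aux: the size of the forms on the box. -/
theorem w19_lf {k d : ℕ} (c : Fin k → Fin d → ℤ) (e : Fin d → ℕ) (i : Fin k) (D A Z : ℕ)
    (h : ∀ j, c i j ≠ 0 → e j = D) (t : Fin d → ℤ) (ht : t ∈ BoxT A Z e) :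
    lf c t i ≤ (A : ℤ) * (∑ j, |c i j|) * (Z : ℤ) ^ D := by
  unfold BoxT at ht
  rw [Fintype.mem_piFinset] at ht
  unfold lf
  rw [mul_assoc, Finset.sum_mul, Finset.mul_sum]
  refine Finset.sum_le_sum fun j _ => ?_
  refine (le_abs_self _).trans ?_
  rw [abs_mul]
  by_cases hj : c i j = 0
  · rw [hj]
    simp
  · have h1 := mem_Icc.1 (ht j)
    have h2 : |t j| ≤ ((A * Z ^ e j : ℕ) : ℤ) := abs_le.2 h1
    rw [h j hj] at h2
    push_cast at h2
    calc |c i j| * |t j| ≤ |c i j| * ((A : ℤ) * (Z : ℤ) ^ D) := by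
          exact mul_le_mul_of_nonneg_left h2 (abs_nonneg _)
      _ = (A : ℤ) * (|c i j| * (Z : ℤ) ^ D) := by ring

/-- w19 aux: the main term. -/
theorem w19_term {g d : ℕ} (G : ℤ[X]) (P : Fin g → ℤ[X]) (c : Fin g → Fin d → ℤ) (b : Fin g → ℤ) (t : Fin d → ℤ) (N z : ℕ)
    (h0 : ∀ i, 0 ≤ b i + lf c t i) :
    mainTermP (famT P c b t) G N z =
      (argCount G N : ℝ) * densN (fun i => ((Fin.cons (-G) P : Fin (g + 1) → ℤ[X]) i).natDegree) (z - 1) (argCount G N)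
        (ran (Fin.cons (-G) P : Fin (g + 1) → ℤ[X]) (Fin.cons N (hh c b t) : Fin (g + 1) → ℕ)) := by
  have e0 : famT P c b t = Pool.Agent.H9P.famP P c b t := rfl
  rw [e0]
  unfold mainTermP densN
  rw [U17_series G P c b t N z h0, ← w19_sys, Fin.prod_univ_succ]
  simp only [Fin.cons_zero, Fin.cons_succ]
  rw [natDegree_neg]
  have e1 : ∀ i, ((Pool.Agent.H9P.famP P c b t i).natDegree : ℝ) = ((P i).natDegree : ℝ) := by
    intro i
    unfold Pool.Agent.H9P.famP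
    rw [natDegree_add_C]
  rw [prod_congr rfl fun i _ => e1 i]
  rw [div_eq_mul_inv, div_eq_mul_inv, mul_inv]
  ring

/-- w19 aux: the final numerical estimate. -/
theorem w19_num (h A B : ℕ) (hAB : A + 1 ≤ B) (s a C1 c0 Y Z z : ℝ) (ha : 0 ≤ a) (hC1 : 0 ≤ C1) (hZ : 0 < Z) (hY : 0 ≤ Y)
    (hlog : 1 ≤ Real.log Z) (hla : a ≤ Real.log Z) (hZY : Z ^ h ≤ a * Y) :
    Z ^ ((h : ℝ) + s) * ((Real.log Z) ^ (-(B : ℝ)) + C1 * z ^ (-c0)) ≤
      Y * Z ^ s * ((Real.log Z) ^ (-(A : ℝ)) + a * C1 * z ^ (-c0)) ∨ z < 0 := by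
  rcases lt_or_ge z 0 with hz | hz
  · exact Or.inr hz
  left
  have hzc : 0 ≤ z ^ (-c0) := Real.rpow_nonneg hz _
  have hl0 : 0 < Real.log Z := by linarith
  have h1 : a * (Real.log Z) ^ (-(B : ℝ)) ≤ (Real.log Z) ^ (-(A : ℝ)) := by
    have h2 : (Real.log Z) ^ (-(B : ℝ)) ≤ (Real.log Z) ^ (-((A : ℝ) + 1)) := by
      refine Real.rpow_le_rpow_of_exponent_le hlog ?_
      have : ((A + 1 : ℕ) : ℝ) ≤ (B : ℝ) := by exact_mod_cast hAB
      push_cast at this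
      linarith
    calc a * (Real.log Z) ^ (-(B : ℝ)) ≤ Real.log Z * (Real.log Z) ^ (-((A : ℝ) + 1)) := by
          refine mul_le_mul hla h2 (Real.rpow_nonneg hl0.le _) hl0.le
      _ = (Real.log Z) ^ (-(A : ℝ)) := by
          rw [neg_add, Real.rpow_add hl0, Real.rpow_neg_one]
          field_simp
  have h3 : Z ^ ((h : ℝ) + s) = Z ^ h * Z ^ s := by
    rw [Real.rpow_add hZ, Real.rpow_natCast]
  have hs : 0 ≤ Z ^ s := Real.rpow_nonneg hZ.le _
  rw [h3]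
  have hB0 : 0 ≤ (Real.log Z) ^ (-(B : ℝ)) := Real.rpow_nonneg hl0.le _
  calc Z ^ h * Z ^ s * ((Real.log Z) ^ (-(B : ℝ)) + C1 * z ^ (-c0))
      ≤ (a * Y) * Z ^ s * ((Real.log Z) ^ (-(B : ℝ)) + C1 * z ^ (-c0)) := by
        refine mul_le_mul_of_nonneg_right (mul_le_mul_of_nonneg_right hZY hs) ?_
        exact add_nonneg hB0 (mul_nonneg hC1 hzc)
    _ = Y * Z ^ s * (a * (Real.log Z) ^ (-(B : ℝ)) + a * C1 * z ^ (-c0)) := by ring
    _ ≤ Y * Z ^ s * ((Real.log Z) ^ (-(A : ℝ)) + a * C1 * z ^ (-c0)) := by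
        refine mul_le_mul_of_nonneg_left ?_ (mul_nonneg hY hs)
        linarith

/-- **W19.** Proof. As `W18_main` (whose docstring see) with `NCore` for the same data (`Z2_dat`), the system `ran (cons (-G) P) (cons N h)`, which is `sys (C N - G) P h` (`w19_sys`), so `U17_series`, `U17_cnt`, `U17_noFix` apply (they do not need `deg G = 1`, but `argSet G N = Icc 1 (argCount G N)` from `W16_G`);
the main term: degree `deg G`, exponent `g + 1`: `mainTermP = Z' densN D' (z - 1) Z'` with `D' = cons (deg G) D`. `RegN` from `W16_G`, `W16_P`. -/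
theorem W19_main (hC : NCoreAll) {g d : ℕ} (G : ℤ[X]) (hG : 1 ≤ G.natDegree) (hl : 0 < G.leadingCoeff)
    (P : Fin g → ℤ[X]) (hP : ∀ i, 0 < (P i).leadingCoeff) (c : Fin g → Fin d → ℤ) (e : Fin d → ℕ)
    (hD : Dat c e (fun i => (P i).natDegree) (fun i => (P i).leadingCoeff)) :
    open Classical in ∃ δ1 : ℝ, 0 < δ1 ∧ ∀ A : ℕ, ∃ c0 : ℝ, 0 < c0 ∧ ∀ ε κ : ℝ, 0 < ε → 0 < κ → ∃ (K : ℝ) (Y0 : ℕ), ∀ Y : ℕ, Y0 ≤ Y →
      ∀ b : Fin g → ℤ, (∀ i, |b i| ≤ A * (argCount G Y : ℤ) ^ (P i).natDegree) → ∀ z : ℕ, 1 ≤ z → (z : ℝ) ≤ (argCount G Y : ℝ) ^ δ1 →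
      (((Icc 1 Y ×ˢ BoxT A (argCount G Y) e).filter fun x : ℕ × (Fin d → ℤ) => κ * Y ≤ x.1 ∧ (∀ i, 0 ≤ b i + lf c x.2 i) ∧
        FailsP ε (famT P c b x.2) G x.1 z).card : ℝ) ≤
        Y * (argCount G Y : ℝ) ^ (∑ j, (e j : ℝ)) * ((Real.log (argCount G Y)) ^ (-(A : ℝ)) + K * (z : ℝ) ^ (-c0)) := by
  classical
  -- the data of the pairs
  have hD' := Z2_dat G hG hl P c e hD
  obtain ⟨c', hc'⟩ : ∃ c' : Fin (g + 1) → Fin (d + 1) → ℤ, c' = Fin.cons (Fin.cons 1 0) (fun i => Fin.cons 0 (c i)) := ⟨_, rfl⟩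
  obtain ⟨e', he'⟩ : ∃ e' : Fin (d + 1) → ℕ, e' = Fin.cons G.natDegree e := ⟨_, rfl⟩
  obtain ⟨P', hP'⟩ : ∃ P' : Fin (g + 1) → ℤ[X], P' = Fin.cons (-G) P := ⟨_, rfl⟩
  rw [← hc', ← he', ← hP'] at hD'
  obtain ⟨δ1, hδ1, hcore⟩ := hC (g + 1) (d + 1) c' e' P' hD'
  refine ⟨δ1, hδ1, fun A => ?_⟩
  -- the constants
  obtain ⟨κ1, AG, hκ1, hG1, Y1, hY1⟩ := W16_G G hG hl 1 one_pos
  obtain ⟨A3, hA3, hbox⟩ := W16_box c' e' (fun i => (P' i).natDegree) (fun i j => hD'.blk i j) (A + AG)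
  obtain ⟨S, hS⟩ : ∃ S : ℕ, S = ∑ i, ∑ j, (c i j).natAbs := ⟨_, rfl⟩
  obtain ⟨A5, hP5⟩ := W16_P P (fun i => ⟨hD.deg i, hP i⟩) (A + A * S) 1 one_pos
  obtain ⟨B, hB⟩ : ∃ B : ℕ, B = A + 1 + AG + A3 + A5 := ⟨_, rfl⟩
  obtain ⟨c0, hc0, hcore2⟩ := hcore B
  refine ⟨c0, hc0, fun ε κ hε hκ => ?_⟩
  obtain ⟨κ', AG', hκ', hG2, -⟩ := W16_G G hG hl κ hκ
  -- the lower bounds of the values
  have hv : ∀ θ : ℝ, ∃ v : ℝ, 0 < v ∧ (0 < θ → ∃ Y0 : ℕ, ∀ Y N : ℕ, Y0 ≤ Y → κ * Y ≤ N → N ≤ Y →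
      argSet G N = ((Icc 1 (argCount G N) : Finset ℕ) : Set ℕ) ∧ argCount G N ≤ argCount G Y ∧
      κ' * argCount G Y ≤ argCount G N ∧
      (∀ n : ℕ, (n : ℝ) ≤ (1 - θ) * argCount G N →
        v * (argCount G Y : ℝ) ^ G.natDegree ≤ (((N : ℤ) - G.eval (n : ℤ) : ℤ) : ℝ) ∧
        (((N : ℤ) - G.eval (n : ℤ) : ℤ) : ℝ) ≤ AG * (argCount G Y : ℝ) ^ G.natDegree) ∧
      ∀ s : Fin g → ℤ, (∀ i, 0 ≤ s i ∧ s i ≤ ((A + A * S : ℕ) : ℤ) * (argCount G Y : ℤ) ^ (P i).natDegree) →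
        ∀ n : ℕ, θ * argCount G N ≤ n → n ≤ argCount G N → ∀ i,
        v * (argCount G Y : ℝ) ^ (P i).natDegree ≤ (((P i).eval (n : ℤ) + s i : ℤ) : ℝ) ∧
        (((P i).eval (n : ℤ) + s i : ℤ) : ℝ) ≤ A5 * (argCount G Y : ℝ) ^ (P i).natDegree) := by
    intro θ
    rcases lt_or_ge 0 θ with hθ | hθ
    swap
    · exact ⟨1, one_pos, fun h => absurd h (not_lt.2 hθ)⟩
    obtain ⟨v1, hv1, Y2, hY2⟩ := hG2 θ hθ
    obtain ⟨v1', hv1', Y2', hY2'⟩ := hG1 θ hθ
    obtain ⟨v2, hv2, Z2, hZ2⟩ := hP5 (θ * κ') (mul_pos hθ hκ')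
    have htend := Pool.Agent.Lib.H59.argCount_tendsto (G := G) hG hl
    obtain ⟨Y3, hY3⟩ := Filter.eventually_atTop.1 (htend.eventually_ge_atTop Z2)
    refine ⟨min v1 v2, lt_min hv1 hv2, fun _ => ⟨Y2 + ⌈(Y2' : ℝ) / κ⌉₊ + Y3, fun Y N hY hN1 hN2 => ?_⟩⟩
    obtain ⟨r1, r2, r3, r4⟩ := hY2 Y N (by omega) hN1 hN2
    have hN3 : Y2' ≤ N := by
      have h1 : (Y2' : ℝ) / κ ≤ Y := by
        refine (Nat.le_ceil _).trans ?_
        exact_mod_cast (by omega : ⌈(Y2' : ℝ) / κ⌉₊ ≤ Y)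
      rw [div_le_iff₀ hκ] at h1
      have h2 : (Y2' : ℝ) ≤ N := by linarith
      exact_mod_cast h2
    obtain ⟨-, -, -, r4'⟩ := hY2' N N hN3 (by rw [one_mul]) le_rfl
    have hZ0 : (0 : ℝ) ≤ (argCount G N : ℝ) := Nat.cast_nonneg _
    have hZZ : (argCount G N : ℝ) ≤ (argCount G Y : ℝ) := by exact_mod_cast r2
    have hYZ : (0 : ℝ) ≤ (argCount G Y : ℝ) := Nat.cast_nonneg _
    refine ⟨r1, r2, r3, fun n hn => ⟨?_, ?_⟩, fun s hs n hn1 hn2 i => ?_⟩
    · refine le_trans ?_ (r4 n hn).1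
      exact mul_le_mul_of_nonneg_right (min_le_left _ _) (pow_nonneg hYZ _)
    · refine (r4' n hn).2.trans ?_
      exact mul_le_mul_of_nonneg_left (pow_le_pow_left₀ hZ0 hZZ _) (Nat.cast_nonneg _)
    · obtain ⟨q1, q2⟩ := hZ2 (argCount G Y) (argCount G Y) (hY3 Y (by omega)) le_rfl (by rw [one_mul]) s hs n
        (by
          refine le_trans ?_ hn1
          rw [mul_assoc]
          exact mul_le_mul_of_nonneg_left r3 hθ.le) (hn2.trans r2) i
      refine ⟨le_trans ?_ q1, q2⟩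
      exact mul_le_mul_of_nonneg_right (min_le_right _ _) (pow_nonneg hYZ _)
  choose vf hvf hvf2 using hv
  obtain ⟨θ, C1, Z0, hθ, hC1, hfin⟩ := hcore2 ε κ' vf hε hκ' (fun θ _ => hvf θ)
  obtain ⟨Y4, hY4⟩ := hvf2 θ hθ
  have htend := Pool.Agent.Lib.H59.argCount_tendsto (G := G) hG hl
  have hlogt : Filter.Tendsto (fun Z : ℕ => Real.log (Z : ℝ)) Filter.atTop Filter.atTop :=
    Real.tendsto_log_atTop.comp tendsto_natCast_atTop_atTop
  obtain ⟨Y5, hY5⟩ := Filter.eventually_atTop.1 ((htend.eventually_ge_atTop (Z0 + 1)).and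
    ((htend.eventually (hlogt.eventually_ge_atTop 1)).and (htend.eventually (hlogt.eventually_ge_atTop (AG : ℝ)))))
  refine ⟨AG * C1, Y1 + Y4 + Y5, fun Y hY b hb z hz hzZ => ?_⟩
  obtain ⟨m1, m2, m3⟩ := hY5 Y (by omega)
  obtain ⟨k1, k2⟩ := hY1 Y (by omega)
  obtain ⟨Z, hZ⟩ : ∃ Z : ℕ, Z = argCount G Y := ⟨_, rfl⟩
  rw [← hZ] at m1 m2 m3 k1 k2 hb hzZ ⊢
  have hZpos : (0 : ℝ) < (Z : ℝ) := by
    have : 0 < Z := by omega
    exact_mod_cast this
  -- the shifted data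
  obtain ⟨β, hβ⟩ : ∃ β : Fin (g + 1) → ℤ, β = Fin.cons 0 b := ⟨_, rfl⟩
  have hβb : ∀ i, |β i| ≤ ((A + AG : ℕ) : ℤ) * (Z : ℤ) ^ (P' i).natDegree := by
    intro i
    rw [hβ, hP']
    refine Fin.cases ?_ (fun i => ?_) i
    · rw [Fin.cons_zero, abs_zero]
      positivity
    · rw [Fin.cons_succ, Fin.cons_succ]
      refine (hb i).trans ?_
      refine mul_le_mul_of_nonneg_right ?_ (by positivity)
      exact Int.ofNat_le.2 (by omega)
  obtain ⟨β', hβ', hcard2⟩ := hbox Z β hβb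
  have hcard3 := hcard2 (fun s => (∀ i, 0 ≤ s i) ∧ NoFix (ran P' (fun i => (s i).toNat)) ∧
      ∃ Z' : ℕ, RegN B κ' θ (vf θ) Z Z' (fun i => (P' i).natDegree) (ran P' (fun i => (s i).toNat)) ∧
        ε * (Z' * densN (fun i => (P' i).natDegree) (z - 1) Z' (ran P' (fun i => (s i).toNat))) <
        |(cnt (ran P' (fun i => (s i).toNat)) 1 Z' : ℝ) -
          Z' * densN (fun i => (P' i).natDegree) (z - 1) Z' (ran P' (fun i => (s i).toNat))|)
  have hβB : ∀ i, |β' i| ≤ (B : ℤ) * (Z : ℤ) ^ (P' i).natDegree := by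
    intro i
    refine (hβ' i).trans (mul_le_mul_of_nonneg_right ?_ (by positivity))
    exact Int.ofNat_le.2 (by omega)
  have hz1 : ((z - 1 : ℕ) : ℝ) + 1 = z := by
    rw [Nat.cast_sub hz, Nat.cast_one]
    ring
  have hmain := hfin Z (by omega) β' hβB (z - 1) (by
    refine le_trans ?_ hzZ
    exact_mod_cast Nat.sub_le z 1)
  rw [hz1] at hmain
  -- the injection
  have hYA : Y ≤ (A + AG) * Z ^ G.natDegree := by
    have h1 : (Y : ℝ) ≤ ((A + AG : ℕ) : ℝ) * (Z : ℝ) ^ G.natDegree := by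
      refine k1.trans (mul_le_mul_of_nonneg_right ?_ (by positivity))
      exact_mod_cast Nat.le_add_left AG A
    exact_mod_cast h1
  have hcard1 : ((Icc 1 Y ×ˢ BoxT A Z e).filter fun x : ℕ × (Fin d → ℤ) => κ * Y ≤ x.1 ∧ (∀ i, 0 ≤ b i + lf c x.2 i) ∧
        FailsP ε (famT P c b x.2) G x.1 z).card ≤
      ((BoxT (A + AG) Z e').filter fun t => (∀ i, 0 ≤ β i + lf c' t i) ∧
        NoFix (ran P' (fun i => (β i + lf c' t i).toNat)) ∧
      ∃ Z' : ℕ, RegN B κ' θ (vf θ) Z Z' (fun i => (P' i).natDegree) (ran P' (fun i => (β i + lf c' t i).toNat)) ∧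
        ε * (Z' * densN (fun i => (P' i).natDegree) (z - 1) Z' (ran P' (fun i => (β i + lf c' t i).toNat))) <
        |(cnt (ran P' (fun i => (β i + lf c' t i).toNat)) 1 Z' : ℝ) -
          Z' * densN (fun i => (P' i).natDegree) (z - 1) Z' (ran P' (fun i => (β i + lf c' t i).toNat))|).card := by
    refine card_le_card_of_injOn (fun x => (Fin.cons (x.1 : ℤ) x.2 : Fin (d + 1) → ℤ)) ?_ ?_
    · rintro ⟨N, t⟩ hx
      obtain ⟨hx1, hx2, hx3, hx4, hx5⟩ := mem_filter.1 (mem_coe.1 hx)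
      obtain ⟨hN, ht⟩ := mem_product.1 hx1
      have hNY : N ≤ Y := (mem_Icc.1 hN).2
      simp only at hx2 hx3 hx4 hx5 ht
      have hhe : (fun i => (β i + lf c' (Fin.cons (N : ℤ) t : Fin (d + 1) → ℤ) i).toNat) =
          (Fin.cons N (hh c b t) : Fin (g + 1) → ℕ) := by
        rw [← Z2_hh c b N t, hβ, hc']
        rfl
      obtain ⟨r1, r2, r3, r4, r5⟩ := hY4 Y N (by omega) hx2 hNY
      rw [← hZ] at r2 r3 r4 r5
      refine mem_coe.2 (mem_filter.2 ⟨?_, ?_, ?_⟩)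
      · rw [he']
        exact z2_boxcons (hNY.trans hYA) (z2_box (by omega) ht)
      · intro i
        rw [hβ, hc']
        refine Fin.cases ?_ (fun i => ?_) i
        · rw [Fin.cons_zero, z2_lf0]
          positivity
        · rw [Fin.cons_succ, z2_lfs]
          exact hx3 i
      · rw [hhe]
        have e0 : famT P c b t = Pool.Agent.H9P.famP P c b t := rfl
        have hterm := w19_term G P c b t N z hx3
        rw [e0] at hx4 hx5 hterm
        have hsys := w19_sys G P (hh c b t) N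
        rw [← hP'] at hsys hterm
        have hnf := U17_noFix G P c b t N hx3 hx4
        have hcnt := U17_cnt G P c b t N hx3 r1
        rw [hsys] at hnf hcnt
        refine ⟨hnf, argCount G N, ⟨r2, r3, ?_⟩, ?_⟩
        · intro n hn1 hn2
          have hs : ∀ i, 0 ≤ (((hh c b t i : ℕ) : ℤ)) ∧
              (((hh c b t i : ℕ) : ℤ)) ≤ ((A + A * S : ℕ) : ℤ) * (Z : ℤ) ^ (P i).natDegree := by
            intro i
            refine ⟨Int.natCast_nonneg _, ?_⟩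
            unfold hh
            rw [Int.toNat_of_nonneg (hx3 i)]
            have e1 := (le_abs_self (b i)).trans (hb i)
            have e2 := w19_lf c e i (P i).natDegree A Z (fun j hj => hD.blk i j hj) t ht
            have e4 : (∑ j, |c i j|) ≤ (S : ℤ) := by
              have e5 : (∑ j, (c i j).natAbs) ≤ S := by
                rw [hS]
                exact Finset.single_le_sum (f := fun i => ∑ j, (c i j).natAbs) (fun _ _ => Nat.zero_le _)
                  (Finset.mem_univ i)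
              have e6 : ((∑ j, (c i j).natAbs : ℕ) : ℤ) = ∑ j, |c i j| := by
                push_cast
                rfl
              rw [← e6]
              exact_mod_cast e5
            have hA0 : (0 : ℤ) ≤ A := Int.natCast_nonneg _
            have hZ0 : (0 : ℤ) ≤ (Z : ℤ) ^ (P i).natDegree := pow_nonneg (Int.natCast_nonneg _) _
            have e7 : (A : ℤ) * (∑ j, |c i j|) * (Z : ℤ) ^ (P i).natDegree ≤ (A : ℤ) * S * (Z : ℤ) ^ (P i).natDegree :=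
              mul_le_mul_of_nonneg_right (mul_le_mul_of_nonneg_left e4 hA0) hZ0
            push_cast
            nlinarith
          have hn3 : n ≤ argCount G N := by
            have h1 : (n : ℝ) ≤ argCount G N := by
              refine hn2.trans ?_
              have h2 : (0 : ℝ) ≤ (argCount G N : ℝ) := Nat.cast_nonneg _
              nlinarith
            exact_mod_cast h1
          have hBG : (AG : ℝ) ≤ B := by exact_mod_cast (by omega : AG ≤ B)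
          have hB5 : (A5 : ℝ) ≤ B := by exact_mod_cast (by omega : A5 ≤ B)
          intro i
          rw [hP']
          unfold ran
          refine Fin.cases ?_ (fun i => ?_) i
          · simp only [Fin.cons_zero]
            rw [natDegree_neg, eval_neg]
            obtain ⟨q1, q2⟩ := r4 n hn2
            have e1 : -eval (n : ℤ) G + (N : ℤ) = (N : ℤ) - eval (n : ℤ) G := by ring
            rw [e1]
            exact ⟨q1, q2.trans (mul_le_mul_of_nonneg_right hBG (by positivity))⟩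
          · simp only [Fin.cons_succ]
            obtain ⟨q1, q2⟩ := r5 (fun i => ((hh c b t i : ℕ) : ℤ)) hs n hn1 hn3 i
            exact ⟨q1, q2.trans (mul_le_mul_of_nonneg_right hB5 (by positivity))⟩
        · rw [hterm, hcnt] at hx5
          exact hx5
    · rintro ⟨N, t⟩ _ ⟨N', t'⟩ _ he
      have he' := Fin.cons_injective2 he
      exact Prod.ext (Int.natCast_inj.1 he'.1) he'.2
  -- from the box of `W16_box` to the box of the core theorem
  have hcard4 : ((tb 0 fun j => A3 * Z ^ e' j + 1).filter fun t => (∀ i, 0 ≤ β' i + lf c' t i) ∧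
        NoFix (ran P' (fun i => (β' i + lf c' t i).toNat)) ∧
      ∃ Z' : ℕ, RegN B κ' θ (vf θ) Z Z' (fun i => (P' i).natDegree) (ran P' (fun i => (β' i + lf c' t i).toNat)) ∧
        ε * (Z' * densN (fun i => (P' i).natDegree) (z - 1) Z' (ran P' (fun i => (β' i + lf c' t i).toNat))) <
        |(cnt (ran P' (fun i => (β' i + lf c' t i).toNat)) 1 Z' : ℝ) -
          Z' * densN (fun i => (P' i).natDegree) (z - 1) Z' (ran P' (fun i => (β' i + lf c' t i).toNat))|).card ≤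
      ((tb 0 fun j => B * Z ^ e' j + 1).filter fun t => (∀ i, 0 ≤ β' i + lf c' t i) ∧ NoFix (ran P' (hh c' β' t)) ∧
      ∃ Z' : ℕ, RegN B κ' θ (vf θ) Z Z' (fun i => (P' i).natDegree) (ran P' (hh c' β' t)) ∧
        ε * (Z' * densN (fun i => (P' i).natDegree) (z - 1) Z' (ran P' (hh c' β' t))) <
        |(cnt (ran P' (hh c' β' t)) 1 Z' : ℝ) - Z' * densN (fun i => (P' i).natDegree) (z - 1) Z' (ran P' (hh c' β' t))|).card := by
    refine card_le_card fun t ht => ?_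
    rw [mem_filter] at ht ⊢
    refine ⟨?_, ht.2⟩
    have h1 := ht.1
    unfold tb at h1 ⊢
    rw [Fintype.mem_piFinset] at h1 ⊢
    intro j
    have h2 := mem_Ico.1 (h1 j)
    refine mem_Ico.2 ⟨h2.1, lt_of_lt_of_le h2.2 ?_⟩
    have h3 : A3 * Z ^ e' j + 1 ≤ B * Z ^ e' j + 1 :=
      Nat.add_le_add_right (Nat.mul_le_mul_right _ (by omega)) 1
    have h4 : ((A3 * Z ^ e' j + 1 : ℕ) : ℤ) ≤ ((B * Z ^ e' j + 1 : ℕ) : ℤ) := Int.ofNat_le.2 h3
    simp only [Pi.zero_apply, zero_add]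
    exact h4
  refine le_trans (Nat.cast_le.2 ((hcard1.trans hcard3).trans hcard4)) (hmain.trans ?_)
  have hsum : (∑ j, (e' j : ℝ)) = (G.natDegree : ℝ) + ∑ j, (e j : ℝ) := by
    rw [he', Fin.sum_univ_succ]
    simp only [Fin.cons_zero, Fin.cons_succ]
  rw [hsum]
  rcases w19_num G.natDegree A B (by omega) (∑ j, (e j : ℝ)) AG C1 c0 Y Z z (Nat.cast_nonneg _) hC1 hZpos
    (Nat.cast_nonneg _) m2 m3 k2 with h | h
  · exact h
  · exact absurd h (not_lt.2 (Nat.cast_nonneg _))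

end Pool.Agent.HLA
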