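import Pool.Agent.Lib.HLA.Y2A
import Pool.Agent.Lib.HLA.N6

/-!
# LOGA, chunk Y2 (M): the mean of the singular series over the linear coordinates `n + b`, for most parameters
-/

open Finset Polynomial

namespace Pool.Agent.HLA

open Pool.Agent.Lib.H68T Pool.Agent.Lib.H18Q Pool.Agent.Lib.H59P Pool.Agent.Lib.H24P
open Pool.Agent.HUP Pool.Agent.H9P

theorem y2_filter (Q : ℕ) : (pr Q).filter (fun l => ¬ l ∣ 1) = pr Q := by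
  refine Finset.filter_true_of_mem fun l hl h => ?_
  unfold pr at hl
  rw [mem_filter] at hl
  exact hl.2.one_lt.ne' (Nat.dvd_one.1 h)

theorem y2_lin (A : ℕ) (hA : 1 ≤ A) (b : ℤ) : Lin A (X + C b) where
  deg := natDegree_X_add_C b
  lc := by
    rw [leadingCoeff_X_add_C, Int.natAbs_one]
    exact hA
  cop := by
    rw [coeff_add, coeff_add, coeff_X_zero, coeff_X_one, coeff_C_zero, coeff_C_succ, add_zero]
    exact isCoprime_one_right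

theorem y2_SFcard (D Q : ℕ) (hD : D ≤ Q) (k : ℕ) : ∑ d ∈ SF D 1, 2 * (d : ℝ) ^ (k + 2) ≤ 2 * (Q : ℝ) ^ (k + 3) := by
  have h1 : (SF D 1).card ≤ Q := by
    refine le_trans (card_le_card (filter_subset _ _)) ?_
    rw [Nat.card_Icc]
    omega
  have h2 : ∀ d ∈ SF D 1, 2 * (d : ℝ) ^ (k + 2) ≤ 2 * (Q : ℝ) ^ (k + 2) := by
    intro d hd
    unfold SF at hd
    rw [mem_filter, mem_Icc] at hd
    have h3 : (d : ℝ) ≤ Q := by exact_mod_cast hd.1.2.trans hD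
    exact mul_le_mul_of_nonneg_left (pow_le_pow_left₀ (Nat.cast_nonneg d) h3 _) (by norm_num)
  calc ∑ d ∈ SF D 1, 2 * (d : ℝ) ^ (k + 2) ≤ ∑ d ∈ SF D 1, 2 * (Q : ℝ) ^ (k + 2) := Finset.sum_le_sum h2
    _ = (SF D 1).card * (2 * (Q : ℝ) ^ (k + 2)) := by rw [Finset.sum_const, nsmul_eq_mul]
    _ ≤ Q * (2 * (Q : ℝ) ^ (k + 2)) := by
        refine mul_le_mul_of_nonneg_right ?_ (by positivity)
        exact_mod_cast h1
    _ = 2 * (Q : ℝ) ^ (k + 3) := by ring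

theorem y2_sq3 (x y z : ℝ) : (-x + y + z) ^ 2 ≤ 3 * x ^ 2 + 3 * y ^ 2 + 3 * z ^ 2 := by
  nlinarith [sq_nonneg (x + y), sq_nonneg (x + z), sq_nonneg (y - z)]

/-- The mean square. -/
theorem y2_ms (k A E : ℕ) (hA : 1 ≤ A) (Cc cc : ℝ) (hC : FPar Cc cc) : ∃ c : ℝ, 0 < c ∧ ∃ Q0 : ℕ, ∀ Q Z : ℕ,
    Q0 ≤ Q → (Q : ℝ) ^ (2 * k + 7) ≤ Z → ∀ P : Fin k → ℤ[X], Pol A P →
    ∀ (ι : Type) (S : Finset ι) (g : ι → Fin k → ℕ), FGood E Cc cc (Q ^ 2) P S g →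
    ∑ x ∈ S, (∑ b ∈ Ico Z (2 * Z), SSf (pr Q) (sys (X + C ((b : ℕ) : ℤ)) P (g x)) -
      Z * SSf (pr Q) (ran P (g x))) ^ 2 ≤ 18 * ((Z : ℝ) ^ 2 * S.card * (Q : ℝ) ^ (-c)) := by
  classical
  obtain ⟨c6, hc6, Q6, h6⟩ := N6_trunc k A E hA Cc cc hC
  obtain ⟨c5, hc5, Q5, h5⟩ := R6_main k A E hA Cc cc hC
  obtain ⟨Qs, hQs, hsize⟩ := G1_size 1
  obtain ⟨c, hcd⟩ : ∃ c : ℝ, c = min (min c5 c6) 1 := ⟨_, rfl⟩
  have hc0 : 0 < c := by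
    rw [hcd]
    exact lt_min (lt_min hc5 hc6) one_pos
  have hc1 : c ≤ 1 := hcd ▸ min_le_right _ _
  have hcc5 : c ≤ c5 := hcd ▸ (min_le_left _ _).trans (min_le_left _ _)
  have hcc6 : c ≤ c6 := hcd ▸ (min_le_left _ _).trans (min_le_right _ _)
  refine ⟨c, hc0, max (max Q5 Q6) (max Qs 1), fun Q Z hQ hQZ P hP ι S g hG => ?_⟩
  have hq5 : Q5 ≤ Q := ((le_max_left _ _).trans (le_max_left _ _)).trans hQ
  have hq6 : Q6 ≤ Q := ((le_max_right _ _).trans (le_max_left _ _)).trans hQ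
  have hqs : Qs ≤ Q := ((le_max_left _ _).trans (le_max_right _ _)).trans hQ
  have hq1 : 1 ≤ Q := ((le_max_right _ _).trans (le_max_right _ _)).trans hQ
  have hQr : (1 : ℝ) ≤ Q := by exact_mod_cast hq1
  have hQ0 : (0 : ℝ) < Q := by linarith
  have hZ1 : (1 : ℝ) ≤ Z := (one_le_pow₀ hQr).trans hQZ
  have hZ0 : (0 : ℝ) < Z := by linarith
  obtain ⟨D, hDd⟩ : ∃ D : ℕ, D = fl Q (1 / 2) := ⟨_, rfl⟩
  have hDQ : D ≤ Q := by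
    rw [hDd]
    exact G1_le hq1 (by norm_num) (by norm_num)
  obtain ⟨hs1, -, -, -, -⟩ := hsize Q hqs 1 1 le_rfl le_rfl (by rw [one_pow]; exact hq1)
  rw [mul_one] at hs1
  have hcard : (0 : ℝ) ≤ S.card := Nat.cast_nonneg _
  have hIco : (Ico Z (2 * Z)).card = Z := by
    rw [Nat.card_Ico]
    omega
  -- the approximations
  have r5 : ∀ b : ℕ, ∑ x ∈ S, (∑ d ∈ SF D 1, tdf d (sys (X + C ((b : ℕ) : ℤ)) P (g x)) -
      SSf (pr Q) (sys (X + C ((b : ℕ) : ℤ)) P (g x))) ^ 2 ≤ S.card * (Q : ℝ) ^ (-c) := by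
    intro b
    have h := h5 Q hq5 (X + C ((b : ℕ) : ℤ)) (y2_lin A hA _) P hP ι S g hG 1 le_rfl hs1
      (by rw [leadingCoeff_X_add_C, Int.natAbs_one])
    rw [Nat.div_one, y2_filter, ← hDd] at h
    exact h.trans (mul_le_mul_of_nonneg_left (Real.rpow_le_rpow_of_exponent_le hQr (by linarith)) hcard)
  have r6 : ∑ x ∈ S, (∑ d ∈ SF D 1, tdf d (ran P (g x)) - SSf (pr Q) (ran P (g x))) ^ 2 ≤
      S.card * (Q : ℝ) ^ (-c) := by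
    have h := h6 Q hq6 P hP ι S g hG
    rw [← hDd] at h
    exact h.trans (mul_le_mul_of_nonneg_left (Real.rpow_le_rpow_of_exponent_le hQr (by linarith)) hcard)
  have rm : ∀ x, |∑ b ∈ Ico Z (2 * Z), ∑ d ∈ SF D 1, tdf d (sys (X + C ((b : ℕ) : ℤ)) P (g x)) -
      Z * ∑ d ∈ SF D 1, tdf d (ran P (g x))| ≤ 2 * (Q : ℝ) ^ (k + 3) := by
    intro x
    rw [Finset.sum_comm, Finset.mul_sum, ← Finset.sum_sub_distrib]
    refine (Finset.abs_sum_le_sum_abs _ _).trans (le_trans (Finset.sum_le_sum fun d hd => ?_) (y2_SFcard D Q hDQ k))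
    have h1 : Squarefree d := by
      unfold SF at hd
      rw [mem_filter] at hd
      exact hd.2.1
    have h2 := Y2_mean P (g x) d Z Z h1
    rw [← two_mul] at h2
    exact h2
  have hpt : ∀ x ∈ S, (∑ b ∈ Ico Z (2 * Z), SSf (pr Q) (sys (X + C ((b : ℕ) : ℤ)) P (g x)) -
      Z * SSf (pr Q) (ran P (g x))) ^ 2 ≤
      3 * (Z * ∑ b ∈ Ico Z (2 * Z), (∑ d ∈ SF D 1, tdf d (sys (X + C ((b : ℕ) : ℤ)) P (g x)) -
      SSf (pr Q) (sys (X + C ((b : ℕ) : ℤ)) P (g x))) ^ 2) + 3 * (2 * (Q : ℝ) ^ (k + 3)) ^ 2 +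
      3 * (Z ^ 2 * (∑ d ∈ SF D 1, tdf d (ran P (g x)) - SSf (pr Q) (ran P (g x))) ^ 2) := by
    intro x _
    have h1 := y2_sq3 (∑ b ∈ Ico Z (2 * Z), (∑ d ∈ SF D 1, tdf d (sys (X + C ((b : ℕ) : ℤ)) P (g x)) -
      SSf (pr Q) (sys (X + C ((b : ℕ) : ℤ)) P (g x))))
      (∑ b ∈ Ico Z (2 * Z), ∑ d ∈ SF D 1, tdf d (sys (X + C ((b : ℕ) : ℤ)) P (g x)) -
      Z * ∑ d ∈ SF D 1, tdf d (ran P (g x)))
      (Z * (∑ d ∈ SF D 1, tdf d (ran P (g x)) - SSf (pr Q) (ran P (g x))))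
    have h2 : (∑ b ∈ Ico Z (2 * Z), (∑ d ∈ SF D 1, tdf d (sys (X + C ((b : ℕ) : ℤ)) P (g x)) -
        SSf (pr Q) (sys (X + C ((b : ℕ) : ℤ)) P (g x)))) ^ 2 ≤
        Z * ∑ b ∈ Ico Z (2 * Z), (∑ d ∈ SF D 1, tdf d (sys (X + C ((b : ℕ) : ℤ)) P (g x)) -
        SSf (pr Q) (sys (X + C ((b : ℕ) : ℤ)) P (g x))) ^ 2 := by
      have h := sq_sum_le_card_mul_sum_sq (s := Ico Z (2 * Z))
        (f := fun b : ℕ => ∑ d ∈ SF D 1, tdf d (sys (X + C ((b : ℕ) : ℤ)) P (g x)) -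
        SSf (pr Q) (sys (X + C ((b : ℕ) : ℤ)) P (g x)))
      rw [hIco] at h
      exact h
    have h3 : (∑ b ∈ Ico Z (2 * Z), ∑ d ∈ SF D 1, tdf d (sys (X + C ((b : ℕ) : ℤ)) P (g x)) -
      Z * ∑ d ∈ SF D 1, tdf d (ran P (g x))) ^ 2 ≤ (2 * (Q : ℝ) ^ (k + 3)) ^ 2 := by
      rw [← sq_abs]
      exact pow_le_pow_left₀ (abs_nonneg _) (rm x) 2
    rw [mul_pow] at h1
    refine le_trans (le_of_eq ?_) (h1.trans ?_)
    · rw [Finset.sum_sub_distrib]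
      ring
    · linarith
  have hQk : (Q : ℝ) ^ (2 * (k + 3)) ≤ (Z : ℝ) ^ 2 * (Q : ℝ) ^ (-c) := by
    have h1 : (Q : ℝ) ^ (-(1 : ℝ)) ≤ (Q : ℝ) ^ (-c) := Real.rpow_le_rpow_of_exponent_le hQr (by linarith)
    have h2 : (Q : ℝ) ^ (2 * (k + 3)) = (Q : ℝ) ^ (2 * k + 7) * (Q : ℝ) ^ (-(1 : ℝ)) := by
      rw [Real.rpow_neg_one, show 2 * k + 7 = 2 * (k + 3) + 1 by ring, pow_succ, mul_assoc,
        mul_inv_cancel₀ hQ0.ne', mul_one]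
    rw [h2]
    refine mul_le_mul (hQZ.trans ?_) h1 (Real.rpow_nonneg hQ0.le _) (sq_nonneg _)
    nlinarith
  have hQc : 0 ≤ (Q : ℝ) ^ (-c) := Real.rpow_nonneg hQ0.le _
  calc ∑ x ∈ S, (∑ b ∈ Ico Z (2 * Z), SSf (pr Q) (sys (X + C ((b : ℕ) : ℤ)) P (g x)) -
      Z * SSf (pr Q) (ran P (g x))) ^ 2
      ≤ ∑ x ∈ S, (3 * (Z * ∑ b ∈ Ico Z (2 * Z), (∑ d ∈ SF D 1, tdf d (sys (X + C ((b : ℕ) : ℤ)) P (g x)) -
      SSf (pr Q) (sys (X + C ((b : ℕ) : ℤ)) P (g x))) ^ 2) + 3 * (2 * (Q : ℝ) ^ (k + 3)) ^ 2 +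
      3 * (Z ^ 2 * (∑ d ∈ SF D 1, tdf d (ran P (g x)) - SSf (pr Q) (ran P (g x))) ^ 2)) := Finset.sum_le_sum hpt
    _ = 3 * (Z * ∑ b ∈ Ico Z (2 * Z), ∑ x ∈ S, (∑ d ∈ SF D 1, tdf d (sys (X + C ((b : ℕ) : ℤ)) P (g x)) -
      SSf (pr Q) (sys (X + C ((b : ℕ) : ℤ)) P (g x))) ^ 2) + S.card * (12 * (Q : ℝ) ^ (2 * (k + 3))) +
      3 * (Z ^ 2 * ∑ x ∈ S, (∑ d ∈ SF D 1, tdf d (ran P (g x)) - SSf (pr Q) (ran P (g x))) ^ 2) := by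
        rw [Finset.sum_add_distrib, Finset.sum_add_distrib]
        refine congrArg₂ _ (congrArg₂ _ ?_ ?_) ?_
        · rw [← Finset.mul_sum, ← Finset.mul_sum, Finset.sum_comm]
        · rw [Finset.sum_const, nsmul_eq_mul]
          ring
        · rw [← Finset.mul_sum, ← Finset.mul_sum]
    _ ≤ 3 * (Z * ∑ _b ∈ Ico Z (2 * Z), S.card * (Q : ℝ) ^ (-c)) + S.card * (12 * ((Z : ℝ) ^ 2 * (Q : ℝ) ^ (-c))) +
      3 * (Z ^ 2 * (S.card * (Q : ℝ) ^ (-c))) := by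
        refine add_le_add (add_le_add ?_ ?_) ?_
        · exact mul_le_mul_of_nonneg_left (mul_le_mul_of_nonneg_left (Finset.sum_le_sum fun b _ => r5 b) hZ0.le)
            (by norm_num)
        · exact mul_le_mul_of_nonneg_left (mul_le_mul_of_nonneg_left hQk (by norm_num)) hcard
        · exact mul_le_mul_of_nonneg_left (mul_le_mul_of_nonneg_left r6 (sq_nonneg _)) (by norm_num)
    _ = 18 * ((Z : ℝ) ^ 2 * S.card * (Q : ℝ) ^ (-c)) := by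
        rw [Finset.sum_const, hIco, nsmul_eq_mul]
        ring

theorem y2_card {d : ℕ} (e : Fin d → ℕ) (A Z : ℕ) (hZ : 1 ≤ Z) :
    ((tb 0 fun j => A * Z ^ e j + 1).card : ℝ) ≤ (A + 1) ^ d * (Z : ℝ) ^ (∑ j, e j) := by
  rw [R18_card]
  push_cast
  calc ∏ j, ((A : ℝ) * (Z : ℝ) ^ e j + 1) ≤ ∏ j, (((A : ℝ) + 1) * (Z : ℝ) ^ e j) := by
        refine Finset.prod_le_prod (fun j _ => by positivity) fun j _ => ?_
        have h2 : (1 : ℝ) ≤ (Z : ℝ) ^ e j := one_le_pow₀ (by exact_mod_cast hZ)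
        nlinarith
    _ = (A + 1) ^ d * (Z : ℝ) ^ (∑ j, e j) := by
        rw [Finset.prod_mul_distrib, Finset.prod_const, card_univ, Fintype.card_fin, Finset.prod_pow_eq_pow_sum]

/-- **Y2.** The mean over `b ∈ [Z, 2 Z)` of the series with the coordinate `n + b` is the series without it, for most parameters. Proof. `FGTU` gives `E, Cc, cc`; `δ1 = 1/(8 E + 8 k + 100)`. Given `A`: `A' = A + ∑ D_i + ∑ |a_i| + 1`; `c6` from `N6_trunc`, `c5` from `R6_main`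
(`TMb`, `R = 1`, `Lin A' (X + C b)`). As in `U10_main` put `β' i = β i + V`, `V` a multiple of `Q!`, so that `0 ≤ β' i + ψ_i(t)` on `S = tb 0 (A Z^e + 1)`; `FGTU` gives `FGood E Cc cc (Q²) P S (hh c β')` (`Q^(2E) ≤ Z`); the series for `β` and `β'` agree
(`U10_mod`, `N6_mod`). Write `h_t = hh c β' t`, `T(b, t) = ∑_{d ∈ SF (fl Q (1/2)) 1} tdf d (sys (X + C b) P h_t)`, `T'(t)` the same with `ran P h_t`. `∑_t (T(b, t) - SSf (pr Q) (sys (X + C b) P h_t))² ≤ card Q^(-c5)` for every `b`;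
`∑_t (T'(t) - SSf (pr Q) (ran P h_t))² ≤ card Q^(-c6)`; `|∑_b T(b, t) - Z T'(t)| ≤ ∑_{d ≤ Q} 2 d^(k+2) ≤ 2 Q^(k+3) ≤ Z^(1/2)` (`Y2_mean`). So with `M(t) = (1/Z) ∑_b SSf (pr Q) (sys (X + C b) P h_t)`, by Cauchy-Schwarz over `b`,
`∑_t (M(t) - SSf (pr Q) (ran P h_t))² ≤ 3 card (Q^(-c5) + Z^(-1) + Q^(-c6))`, and Chebyshev; `c0 = min(c5, c6, 1)/8`; the number of the `t` is at most `(2A+2)^d Z^(∑ e)` (`u10_card`). -/
theorem Y2_main {k d : ℕ} (c : Fin k → Fin d → ℤ) (e : Fin d → ℕ) (D : Fin k → ℕ) (a : Fin k → ℤ)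
    (hF : FGTU c D a) (he : ∀ j, 1 ≤ e j) (hD : ∀ i, 1 ≤ D i) (P : Fin k → ℤ[X]) (hP : HasD D a P) :
    ∃ δ1 : ℝ, 0 < δ1 ∧ ∀ A : ℕ, ∃ c0 : ℝ, 0 < c0 ∧ ∃ Q0 : ℕ, ∀ Q Z : ℕ, Q0 ≤ Q → (Q : ℝ) ≤ (Z : ℝ) ^ δ1 →
    ∀ β : Fin k → ℤ,
    (((tb 0 fun j => A * Z ^ e j + 1).filter fun t => (∀ i, 0 ≤ β i + lf c t i) ∧
      Z * (Q : ℝ) ^ (-c0) < |∑ b ∈ Ico Z (2 * Z), SSf (pr Q) (sys (X + C ((b : ℕ) : ℤ)) P (hh c β t)) -
        Z * SSf (pr Q) (ran P (hh c β t))|).card : ℝ) ≤ (Z : ℝ) ^ (∑ j, e j) * (Q : ℝ) ^ (-c0) := by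
  classical
  obtain ⟨E, Cc, cc, hpar, hFG⟩ := hF
  obtain ⟨δ1, hδ1d⟩ : ∃ δ1 : ℝ, δ1 = 1 / (8 * E + 8 * k + 100) := ⟨_, rfl⟩
  have hE0 : (0 : ℝ) ≤ E := Nat.cast_nonneg E
  have hk0 : (0 : ℝ) ≤ k := Nat.cast_nonneg k
  have hδ10 : 0 < δ1 := by
    rw [hδ1d]
    positivity
  have hδ11 : δ1 ≤ 1 := by
    rw [hδ1d, div_le_one (by positivity)]
    linarith
  have hδ1E : δ1 * (2 * E) ≤ 1 := by
    rw [hδ1d, div_mul_eq_mul_div, one_mul, div_le_one (by positivity)]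
    linarith
  have hδ1k : δ1 * (2 * k + 7) ≤ 1 := by
    rw [hδ1d, div_mul_eq_mul_div, one_mul, div_le_one (by positivity)]
    linarith
  refine ⟨δ1, hδ10, fun A => ?_⟩
  obtain ⟨A', hA'd⟩ : ∃ A' : ℕ, A' = A + 1 + ∑ i, D i + ∑ i, (a i).natAbs := ⟨_, rfl⟩
  obtain ⟨c8, hc8, Q1, hms⟩ := y2_ms k A' E (by omega) Cc cc hpar
  obtain ⟨c0, hc0d⟩ : ∃ c0 : ℝ, c0 = min c8 1 / 8 := ⟨_, rfl⟩
  have hc0 : 0 < c0 := by
    rw [hc0d]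
    have := lt_min hc8 one_pos
    linarith
  have hc01 : c0 ≤ 1 := by
    rw [hc0d]
    have := min_le_right c8 1
    linarith
  have hc08 : 8 * c0 ≤ c8 := by
    rw [hc0d]
    have := min_le_left c8 1
    linarith
  obtain ⟨Q2, hQ2, hl2⟩ := G1_rlog (18 * (A + 1) ^ d) 0 c0 hc0
  refine ⟨c0, hc0, max Q1 Q2, ?_⟩
  intro Q Z hQ hQZ β
  have hq1 : Q1 ≤ Q := (le_max_left _ _).trans hQ
  have hq2 : Q2 ≤ Q := (le_max_right _ _).trans hQ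
  have hq4 : 1 ≤ Q := hQ2.trans hq2
  have hQr : (1 : ℝ) ≤ Q := by exact_mod_cast hq4
  have hQ0 : (0 : ℝ) < Q := by linarith
  have hZ1 : 1 ≤ Z := by
    rcases Nat.eq_zero_or_pos Z with h | h
    · rw [h, Nat.cast_zero, Real.zero_rpow hδ10.ne'] at hQZ
      linarith
    · exact h
  have hZr : (1 : ℝ) ≤ Z := by exact_mod_cast hZ1
  have hZ0 : (0 : ℝ) < Z := by linarith
  have hZδ1 : (Z : ℝ) ^ δ1 ≤ Z := by
    calc (Z : ℝ) ^ δ1 ≤ (Z : ℝ) ^ (1 : ℝ) := Real.rpow_le_rpow_of_exponent_le hZr hδ11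
      _ = Z := Real.rpow_one _
  have hQZ' : (Q : ℝ) ≤ Z := hQZ.trans hZδ1
  have hpw : ∀ n : ℕ, δ1 * n ≤ 1 → (Q : ℝ) ^ n ≤ Z := by
    intro n hn
    calc (Q : ℝ) ^ n ≤ ((Z : ℝ) ^ δ1) ^ n := pow_le_pow_left₀ hQ0.le hQZ _
      _ = (Z : ℝ) ^ (δ1 * n) := by rw [← Real.rpow_natCast, ← Real.rpow_mul hZ0.le]
      _ ≤ (Z : ℝ) ^ (1 : ℝ) := Real.rpow_le_rpow_of_exponent_le hZr hn
      _ = Z := Real.rpow_one _
  have hwE : (Q ^ 2) ^ E ≤ Z := by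
    have h1 := hpw (2 * E) (by push_cast; exact hδ1E)
    rw [pow_mul] at h1
    exact_mod_cast h1
  have hwk : (Q : ℝ) ^ (2 * k + 7) ≤ Z := hpw (2 * k + 7) (by push_cast; exact hδ1k)
  obtain ⟨s, hsd⟩ : ∃ s : Fin d → ℕ, s = fun j => A * Z ^ e j + 1 := ⟨_, rfl⟩
  rw [← hsd]
  have hcd : ((tb 0 s).card : ℝ) ≤ (A + 1) ^ d * (Z : ℝ) ^ (∑ j, e j) := by
    rw [hsd]
    exact y2_card e A Z hZ1
  have hl2' : (18 * (A + 1) ^ d : ℝ) ≤ (Q : ℝ) ^ c0 := by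
    have := hl2 Q hq2
    rwa [Real.rpow_zero, mul_one] at this
  have hZs : (0 : ℝ) ≤ (Z : ℝ) ^ (∑ j, e j) := by positivity
  by_cases hAd : 1 ≤ A ∨ d = 0
  swap
  · -- `A = 0`, `d ≥ 1`: there is only one `t`
    push Not at hAd
    have hA0 : A = 0 := by omega
    have h1 : ((tb 0 s).card : ℝ) ≤ 1 := by
      have h2 : (tb 0 s).card = 1 := by
        rw [R18_card, hsd, hA0]
        exact Finset.prod_eq_one fun j _ => by simp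
      exact_mod_cast h2.le
    have h3 : (Z : ℝ) ≤ (Z : ℝ) ^ (∑ j, e j) := by
      have h4 : 1 ≤ ∑ j, e j := by
        obtain ⟨j0⟩ : Nonempty (Fin d) := ⟨⟨0, Nat.pos_of_ne_zero hAd.2⟩⟩
        exact (he j0).trans (Finset.single_le_sum (f := e) (fun _ _ => Nat.zero_le _) (mem_univ j0))
      calc (Z : ℝ) = (Z : ℝ) ^ 1 := (pow_one _).symm
        _ ≤ _ := pow_le_pow_right₀ hZr h4
    have h5 : (1 : ℝ) ≤ (Z : ℝ) ^ (∑ j, e j) * (Q : ℝ) ^ (-c0) := by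
      calc (1 : ℝ) = (Q : ℝ) ^ c0 * (Q : ℝ) ^ (-c0) := by
            rw [← Real.rpow_add hQ0, add_neg_cancel, Real.rpow_zero]
        _ ≤ (Z : ℝ) ^ (∑ j, e j) * (Q : ℝ) ^ (-c0) := by
            refine mul_le_mul_of_nonneg_right ?_ (Real.rpow_nonneg hQ0.le _)
            refine le_trans ?_ (hQZ'.trans h3)
            calc (Q : ℝ) ^ c0 ≤ (Q : ℝ) ^ (1 : ℝ) := Real.rpow_le_rpow_of_exponent_le hQr hc01
              _ = Q := Real.rpow_one _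
    refine le_trans ?_ (h1.trans h5)
    exact_mod_cast card_le_card (filter_subset _ _)
  have hsj : ∀ j, (Q ^ 2) ^ E ≤ s j := by
    intro j
    rcases hAd with hA | hd
    · rw [hsd]
      have h1 : Z ≤ Z ^ e j := by
        calc Z = Z ^ 1 := (pow_one Z).symm
          _ ≤ Z ^ e j := Nat.pow_le_pow_right hZ1 (he j)
      have h2 : Z ^ e j ≤ A * Z ^ e j := Nat.le_mul_of_pos_left _ hA
      show (Q ^ 2) ^ E ≤ A * Z ^ e j + 1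
      omega
    · exact absurd j.2 (by omega)
  obtain ⟨N, hNd⟩ : ∃ N : ℕ, N = ∑ i, (β i).natAbs + ∑ t ∈ tb 0 s, ∑ i, (lf c t i).natAbs := ⟨_, rfl⟩
  obtain ⟨V, hVd⟩ : ∃ V : ℕ, V = Q.factorial * N := ⟨_, rfl⟩
  have hNV : N ≤ V := by
    rw [hVd]
    exact Nat.le_mul_of_pos_left _ (Nat.factorial_pos Q)
  obtain ⟨β', hβ'd⟩ : ∃ β' : Fin k → ℤ, β' = fun i => β i + (V : ℤ) := ⟨_, rfl⟩
  have hnn : ∀ t ∈ tb 0 s, ∀ i, 0 ≤ β' i + lf c t i := by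
    intro t ht i
    have h1 := Finset.single_le_sum (f := fun i => (β i).natAbs) (fun _ _ => Nat.zero_le _) (mem_univ i)
    have h2 := Finset.single_le_sum (f := fun i => (lf c t i).natAbs) (fun _ _ => Nat.zero_le _) (mem_univ i)
    have h3 := Finset.single_le_sum (f := fun t => ∑ i, (lf c t i).natAbs) (fun _ _ => Nat.zero_le _) ht
    rw [hβ'd]
    show 0 ≤ β i + (V : ℤ) + lf c t i
    omega
  have hG : FGood E Cc cc (Q ^ 2) P (tb 0 s) (hh c β') :=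
    hFG P hP (Q ^ 2) 0 s β' (Nat.one_le_pow _ _ hq4) hsj hnn
  have hdv : ∀ t : Fin d → ℤ, (∀ i, 0 ≤ β i + lf c t i) → ∀ l ∈ pr Q, ∀ i,
      (l : ℤ) ∣ ((hh c β t i : ℕ) : ℤ) - (hh c β' t i : ℕ) := by
    intro t ht l hl i
    have h1 : ((hh c β t i : ℕ) : ℤ) - (hh c β' t i : ℕ) = -(V : ℤ) := by
      show (((β i + lf c t i).toNat : ℕ) : ℤ) - (((β' i + lf c t i).toNat : ℕ) : ℤ) = -(V : ℤ)
      rw [hβ'd]
      have h2 := ht i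
      rw [Int.toNat_of_nonneg h2, Int.toNat_of_nonneg (by simp only; omega)]
      ring
    rw [h1, dvd_neg]
    unfold pr at hl
    rw [mem_filter, mem_Icc] at hl
    have h3 : l ∣ V := by
      rw [hVd]
      exact Dvd.dvd.mul_right (Nat.dvd_factorial hl.1.1 hl.1.2) _
    exact_mod_cast h3
  have hPol : Pol A' P := hA'd ▸ u10_pol D a P hP hD (A + 1)
  have hcard : (0 : ℝ) ≤ (tb 0 s).card := Nat.cast_nonneg _
  have hkey := hms Q Z hq1 hwk P hPol _ (tb 0 s) (hh c β') hG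
  have hT : 0 < (Z : ℝ) * (Q : ℝ) ^ (-c0) := mul_pos hZ0 (Real.rpow_pos_of_pos hQ0 _)
  have hch := k1_cheb (tb 0 s)
    (fun t => |∑ b ∈ Ico Z (2 * Z), SSf (pr Q) (sys (X + C ((b : ℕ) : ℤ)) P (hh c β' t)) -
        Z * SSf (pr Q) (ran P (hh c β' t))|)
    ((Z : ℝ) * (Q : ℝ) ^ (-c0)) (18 * ((Z : ℝ) ^ 2 * (tb 0 s).card * (Q : ℝ) ^ (-c8))) hT
    (by
      refine le_trans (le_of_eq ?_) hkey
      exact Finset.sum_congr rfl fun t _ => sq_abs _) (fun t => abs_nonneg _)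
  have hsub : ((tb 0 s).filter fun t => (∀ i, 0 ≤ β i + lf c t i) ∧
      Z * (Q : ℝ) ^ (-c0) < |∑ b ∈ Ico Z (2 * Z), SSf (pr Q) (sys (X + C ((b : ℕ) : ℤ)) P (hh c β t)) -
        Z * SSf (pr Q) (ran P (hh c β t))|) ⊆
      (tb 0 s).filter fun t => Z * (Q : ℝ) ^ (-c0) <
        |∑ b ∈ Ico Z (2 * Z), SSf (pr Q) (sys (X + C ((b : ℕ) : ℤ)) P (hh c β' t)) -
        Z * SSf (pr Q) (ran P (hh c β' t))| := by
    intro t ht
    rw [mem_filter] at ht ⊢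
    refine ⟨ht.1, ?_⟩
    have h1 := hdv t ht.2.1
    have h2 : ∑ b ∈ Ico Z (2 * Z), SSf (pr Q) (sys (X + C ((b : ℕ) : ℤ)) P (hh c β' t)) =
        ∑ b ∈ Ico Z (2 * Z), SSf (pr Q) (sys (X + C ((b : ℕ) : ℤ)) P (hh c β t)) :=
      Finset.sum_congr rfl fun b _ => (U10_mod _ _ P _ _ h1).symm
    rw [h2, ← N6_mod (pr Q) P (hh c β t) (hh c β' t) h1]
    exact ht.2.2
  have hQc0 : (0 : ℝ) < (Q : ℝ) ^ (-c0) := Real.rpow_pos_of_pos hQ0 _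
  calc ((((tb 0 s).filter fun t => (∀ i, 0 ≤ β i + lf c t i) ∧
      Z * (Q : ℝ) ^ (-c0) < |∑ b ∈ Ico Z (2 * Z), SSf (pr Q) (sys (X + C ((b : ℕ) : ℤ)) P (hh c β t)) -
        Z * SSf (pr Q) (ran P (hh c β t))|).card : ℕ) : ℝ)
      ≤ ((((tb 0 s).filter fun t => Z * (Q : ℝ) ^ (-c0) <
        |∑ b ∈ Ico Z (2 * Z), SSf (pr Q) (sys (X + C ((b : ℕ) : ℤ)) P (hh c β' t)) -
        Z * SSf (pr Q) (ran P (hh c β' t))|).card : ℕ) : ℝ) := by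
        exact_mod_cast card_le_card hsub
    _ ≤ 18 * ((Z : ℝ) ^ 2 * (tb 0 s).card * (Q : ℝ) ^ (-c8)) / ((Z : ℝ) * (Q : ℝ) ^ (-c0)) ^ 2 := hch
    _ = 18 * (tb 0 s).card * ((Q : ℝ) ^ (-c8) / ((Q : ℝ) ^ (-c0)) ^ 2) := by
        field_simp
    _ = 18 * (tb 0 s).card * (Q : ℝ) ^ (-c8 + 2 * c0) := by
        congr 1
        rw [← Real.rpow_natCast, ← Real.rpow_mul hQ0.le, ← Real.rpow_sub hQ0]
        congr 1
        push_cast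
        ring
    _ ≤ 18 * ((A + 1) ^ d * (Z : ℝ) ^ (∑ j, e j)) * (Q : ℝ) ^ (-(2 * c0)) := by
        refine mul_le_mul (mul_le_mul_of_nonneg_left hcd (by norm_num)) ?_ (Real.rpow_nonneg hQ0.le _) (by positivity)
        exact Real.rpow_le_rpow_of_exponent_le hQr (by linarith)
    _ = (18 * (A + 1) ^ d) * ((Z : ℝ) ^ (∑ j, e j) * (Q : ℝ) ^ (-(2 * c0))) := by ring
    _ ≤ (Q : ℝ) ^ c0 * ((Z : ℝ) ^ (∑ j, e j) * (Q : ℝ) ^ (-(2 * c0))) := by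
        refine mul_le_mul_of_nonneg_right hl2' ?_
        exact mul_nonneg hZs (Real.rpow_nonneg hQ0.le _)
    _ = (Z : ℝ) ^ (∑ j, e j) * ((Q : ℝ) ^ c0 * (Q : ℝ) ^ (-(2 * c0))) := by ring
    _ = (Z : ℝ) ^ (∑ j, e j) * (Q : ℝ) ^ (-c0) := by
        rw [← Real.rpow_add hQ0]
        congr 2
        ring

end Pool.Agent.HLA
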