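import Pool.Agent.Lib.HLA.Y4A
import Pool.Agent.Lib.HLA.Y2

/-!
# LOGA, chunk Y4 (M/L): the core theorem without linear coordinate, by averaging over the linear coordinates `n + b`
-/

open Finset Polynomial

namespace Pool.Agent.HLA

open Pool.Agent.Lib.H68T Pool.Agent.Lib.H18Q Pool.Agent.Lib.H59P Pool.Agent.Lib.H24P
open Pool.Agent.HUP Pool.Agent.H9P

/-- Eventual inequalities. -/
theorem y4_ev (K M a : ℝ) (ha : 0 < a) : ∃ Z0 : ℕ, 1 ≤ Z0 ∧ ∀ Z : ℕ, Z0 ≤ Z →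
    K ≤ Real.log Z ∧ K ≤ (Z : ℝ) ^ a ∧ K * (Z : ℝ) ^ (-a) ≤ (Real.log Z) ^ (-M) := by
  have h1 : Filter.Tendsto (fun Z : ℕ => Real.log (Z : ℝ)) Filter.atTop Filter.atTop :=
    Real.tendsto_log_atTop.comp tendsto_natCast_atTop_atTop
  have h2 : Filter.Tendsto (fun Z : ℕ => ((Z : ℝ)) ^ a) Filter.atTop Filter.atTop :=
    (tendsto_rpow_atTop ha).comp tendsto_natCast_atTop_atTop
  have h3 : ∀ᶠ x : ℝ in Filter.atTop, |K| * (Real.log x) ^ M ≤ x ^ a := by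
    have h4 := (isLittleO_log_rpow_rpow_atTop M ha).bound (show (0 : ℝ) < 1 / (|K| + 1) by positivity)
    filter_upwards [h4, Filter.eventually_ge_atTop (1 : ℝ)] with x hx hx1
    have h5 : 0 ≤ (Real.log x) ^ M := Real.rpow_nonneg (Real.log_nonneg hx1) _
    have h6 : 0 ≤ x ^ a := Real.rpow_nonneg (by linarith) _
    rw [Real.norm_of_nonneg h5, Real.norm_of_nonneg h6] at hx
    have h7 : (|K| + 1) * (Real.log x) ^ M ≤ x ^ a := by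
      calc (|K| + 1) * (Real.log x) ^ M ≤ (|K| + 1) * (1 / (|K| + 1) * x ^ a) := by gcongr
        _ = x ^ a := by
          have : |K| + 1 ≠ 0 := by positivity
          field_simp
    nlinarith
  have h4 := tendsto_natCast_atTop_atTop (R := ℝ) |>.eventually h3
  obtain ⟨Z0, hZ0⟩ := Filter.eventually_atTop.1 ((h1.eventually_ge_atTop (max K 1)).and
    ((h2.eventually_ge_atTop K).and h4))
  refine ⟨max Z0 1, le_max_right _ _, fun Z hZ => ?_⟩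
  obtain ⟨h5, h6, h7⟩ := hZ0 Z (le_trans (le_max_left _ _) hZ)
  refine ⟨le_trans (le_max_left _ _) h5, h6, ?_⟩
  have hL : 1 ≤ Real.log (Z : ℝ) := le_trans (le_max_right _ _) h5
  have hZ1 : (0 : ℝ) < Z := by
    have : 1 ≤ Z := le_trans (le_max_right _ _) hZ
    exact_mod_cast this
  have h8 : 0 < (Z : ℝ) ^ a := Real.rpow_pos_of_pos hZ1 _
  have h9 : 0 < (Real.log (Z : ℝ)) ^ M := Real.rpow_pos_of_pos (by linarith) _
  rw [Real.rpow_neg hZ1.le, Real.rpow_neg (by linarith)]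
  rw [← div_eq_mul_inv, div_le_iff₀ h8, inv_mul_eq_div, le_div_iff₀ h9]
  refine le_trans ?_ h7
  exact mul_le_mul_of_nonneg_right (le_abs_self K) h9.le

theorem y4_pol {k : ℕ} (D : Fin k → ℕ) (a : Fin k → ℤ) (hD : ∀ i, 1 ≤ D i) (P : Fin k → ℤ[X]) (hP : HasD D a P) (A : ℕ)
    (hA1 : ∑ i, D i ≤ A) (hA2 : ∑ i, (a i).natAbs ≤ A) : Pol A P where
  deg := fun i => by rw [(hP i).1]; exact hD i
  degA := fun i => by
    rw [(hP i).1]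
    exact le_trans (single_le_sum (f := fun i => D i) (fun _ _ => Nat.zero_le _) (mem_univ i)) hA1
  lc := fun i => by
    rw [(hP i).2]
    exact le_trans (single_le_sum (f := fun i => (a i).natAbs) (fun _ _ => Nat.zero_le _) (mem_univ i)) hA2

theorem y4_small (k : ℕ) (Z Z' L L' lz σ' x y cX C' ε κ PD SS q : ℝ) (hL : 1 ≤ L) (hL' : 1 ≤ L') (hLL : L' ≤ L)
    (hκ : κ * Z ≤ Z') (hκ0 : 0 < κ) (hZ0 : 0 < Z) (hZZ : Z' ≤ Z) (hlz0 : 0 ≤ lz) (hlz : lz ≤ L) (hcX : 0 < cX) (hC' : 0 < C')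
    (hSS : cX * (1 + lz) ^ (-C') ≤ SS) (hPD : 1 ≤ PD) (hε : 0 < ε) (hσ' : 0 ≤ σ')
    (hx : x ≤ q * (Z * L ^ (-(C' + k + 1)))) (h2 : σ' ≤ q * L ^ (-(C' + k + 1))) (hy : y ≤ q * (Z * L ^ (-(C' + k + 1))))
    (hq : 3 * q * PD ≤ ε * κ * cX * 2 ^ (-C')) :
    L * (x + Z' * σ' + y) ≤ ε * (Z' * (SS / (PD * L' ^ k))) := by
  have hL0 : 0 < L := by linarith
  have hL'0 : 0 < L' := by linarith
  set W : ℝ := L ^ (-(C' + k + 1)) with hW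
  have hW0 : 0 < W := Real.rpow_pos_of_pos hL0 _
  have h1 : Z' * σ' ≤ q * (Z * W) := by
    calc Z' * σ' ≤ Z * σ' := by gcongr
      _ ≤ Z * (q * W) := by gcongr
      _ = q * (Z * W) := by ring
  have h3 : L * (x + Z' * σ' + y) ≤ 3 * q * (Z * (L * W)) := by nlinarith
  have h4 : L * W = L ^ (-C') / L ^ k := by
    rw [hW]
    rw [show (-(C' + (k : ℝ) + 1)) = (-C') + (-(k : ℝ)) + (-1) by ring, Real.rpow_add hL0, Real.rpow_add hL0,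
      Real.rpow_neg hL0.le (k : ℝ), Real.rpow_natCast, Real.rpow_neg_one]
    field_simp
  have h5 : (2 : ℝ) ^ (-C') * L ^ (-C') ≤ (1 + lz) ^ (-C') := by
    rw [← Real.mul_rpow (by norm_num) hL0.le]
    exact Real.rpow_le_rpow_of_nonpos (by linarith) (by linarith) (by linarith)
  have h6 : 0 < L ^ (-C') := Real.rpow_pos_of_pos hL0 _
  have h7 : L' ^ k ≤ L ^ k := pow_le_pow_left₀ hL'0.le hLL k
  have hPD0 : 0 < PD := by linarith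
  have h20 : (0 : ℝ) < 2 ^ (-C') := Real.rpow_pos_of_pos (by norm_num) _
  calc L * (x + Z' * σ' + y) ≤ 3 * q * (Z * (L * W)) := h3
    _ = (3 * q * PD) * (Z * (L ^ (-C') / L ^ k)) / PD := by rw [h4]; field_simp
    _ ≤ (ε * κ * cX * 2 ^ (-C')) * (Z * (L ^ (-C') / L ^ k)) / PD := by gcongr
    _ = ε * ((κ * Z) * ((cX * (2 ^ (-C') * L ^ (-C'))) / (PD * L ^ k))) := by field_simp
    _ ≤ ε * (Z' * (SS / (PD * L' ^ k))) := by
      have h8 : cX * (2 ^ (-C') * L ^ (-C')) ≤ SS := by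
        refine le_trans ?_ hSS
        gcongr
      have h9 : 0 ≤ cX * (2 ^ (-C') * L ^ (-C')) := by positivity
      have hZ'0 : 0 ≤ Z' := le_trans (by positivity) hκ
      have hSS0 : 0 ≤ SS := le_trans h9 h8
      gcongr

theorem y4_regm {k : ℕ} {A A1 : ℕ} (hA : A ≤ A1) {κ θ v : ℝ} {Z Z' : ℕ} {D : Fin k → ℕ} {φ : Fin (k + 1) → ℤ → ℤ}
    (h : Reg A κ θ v Z Z' D φ) : Reg A1 κ θ v Z Z' D φ where
  le := h.le
  ge := h.ge
  val0 := fun n h1 h2 => ⟨(h.val0 n h1 h2).1, (h.val0 n h1 h2).2.trans (by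
    have : (A : ℝ) ≤ A1 := by exact_mod_cast hA
    gcongr)⟩
  val := fun n h1 h2 i => ⟨(h.val n h1 h2 i).1, (h.val n h1 h2 i).2.trans (by
    have : (A : ℝ) ≤ A1 := by exact_mod_cast hA
    gcongr)⟩

/-- The bad event for the linear coordinate `n + b`. -/
def y4E {k d : ℕ} (c : Fin k → Fin d → ℤ) (D : Fin k → ℕ) (P : Fin k → ℤ[X]) (A1 : ℕ) (β : Fin k → ℤ) (Z zs : ℕ)
    (κ θ v ε : ℝ) (b : ℕ) (t : Fin d → ℤ) : Prop :=
  (∀ i, 0 ≤ β i + lf c t i) ∧ NoFix (sys (X + C ((b : ℕ) : ℤ)) P (hh c β t)) ∧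
      ∃ Z' : ℕ, Reg A1 κ θ v Z Z' D (sys (X + C ((b : ℕ) : ℤ)) P (hh c β t)) ∧
        ε * (Z' * dens D zs Z' (sys (X + C ((b : ℕ) : ℤ)) P (hh c β t))) <
        |(cnt (sys (X + C ((b : ℕ) : ℤ)) P (hh c β t)) 1 Z' : ℝ) -
          Z' * dens D zs Z' (sys (X + C ((b : ℕ) : ℤ)) P (hh c β t))|

open Classical in
theorem y4_t {k d : ℕ} (c : Fin k → Fin d → ℤ) (D : Fin k → ℕ) (hD : ∀ i, 1 ≤ D i) (P : Fin k → ℤ[X]) (A A' A1 : ℕ)
    (hP : Pol A' P) (hA1 : A + 3 ≤ A1) (β : Fin k → ℤ) (t : Fin d → ℤ) (ht : ∀ i, 0 ≤ β i + lf c t i)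
    (hN : NoFix (ran P (hh c β t))) (Z Z' zs z : ℕ) (κ θ v ε σ σ' : ℝ) (hθ : 0 < θ)
    (hR : RegN A κ θ v Z Z' D (ran P (hh c β t)))
    (hZA : k * A' + 1 < Z) (hzA : k * A' + 1 ≤ zs) (hz2 : 2 ≤ zs) (hzZ : zs ≤ Z') (hε : 0 < ε) (hε1 : ε ≤ 1)
    (hσ : 0 ≤ σ) (hσ' : 0 ≤ σ') (hL' : 1 ≤ Real.log Z') (hLL : |Real.log Z - Real.log Z'| ≤ ε / 4000 * Real.log Z')
    (hpnt : |(∑ b ∈ Ico Z (2 * Z), (cnt (sys (X + C ((b : ℕ) : ℤ)) P (hh c β t)) 1 Z' : ℝ)) * Real.log Z -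
      Z * cnt (ran P (hh c β t)) 1 Z'| ≤ ε / 4000 * (Z * cnt (ran P (hh c β t)) 1 Z'))
    (hbad : (((Ico Z (2 * Z)).filter fun b : ℕ => y4E c D P A1 β Z zs κ θ (min v 1) (ε / 4000) b t).card : ℝ) ≤ σ * Z)
    (hser : |∑ b ∈ Ico Z (2 * Z), SSf (pr zs) (sys (X + C ((b : ℕ) : ℤ)) P (hh c β t)) -
      Z * SSf (pr zs) (ran P (hh c β t))| ≤ Z * σ')
    (hN6 : |SSf (pr zs) (ran P (hh c β t)) - SSf (pr z) (ran P (hh c β t))| ≤
      ε / 100 * SSf (pr z) (ran P (hh c β t)))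
    (hsmall : Real.log Z * (k * A' + Z' * σ' + Z * σ * (1 + 500 ^ (k + 1))) ≤
      ε / 4000 * (Z' * densN D zs Z' (ran P (hh c β t)))) :
    |(cnt (ran P (hh c β t)) 1 Z' : ℝ) - Z' * densN D z Z' (ran P (hh c β t))| ≤
      ε * (Z' * densN D z Z' (ran P (hh c β t))) := by
  have hgood : ∀ b ∈ Ico Z (2 * Z), b ∉ ((Ico Z (2 * Z)).filter fun b : ℕ =>
      y4E c D P A1 β Z zs κ θ (min v 1) (ε / 4000) b t) → NoFix (sys (X + C ((b : ℕ) : ℤ)) P (hh c β t)) →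
      |(cnt (sys (X + C ((b : ℕ) : ℤ)) P (hh c β t)) 1 Z' : ℝ) -
        Z' * dens D zs Z' (sys (X + C ((b : ℕ) : ℤ)) P (hh c β t))| ≤
        ε / 4000 * (Z' * dens D zs Z' (sys (X + C ((b : ℕ) : ℤ)) P (hh c β t))) := by
    intro b hb hnb hnf
    by_contra hlt
    rw [not_le] at hlt
    exact hnb (mem_filter.2 ⟨hb, ht, hnf, Z', y4_regm hA1 (y4_reg A κ θ v hθ Z Z' D P (hh c β t) hR b hb), hlt⟩)
  have h1 := y4_one (A := A') D hD P hP (hh c β t) hN Z Z' zs hR.le hZA hzA hz2 hzZ (ε / 4000) σ σ' (by positivity)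
    (by linarith) hσ hσ' hL' hLL hpnt _ hbad hgood hser hsmall
  have hprime : ∀ y : ℕ, ∀ l ∈ pr y, l.Prime := fun y l hl => (p5_mem_pr.1 hl).1
  have hs0 : 0 ≤ SSf (pr z) (ran P (hh c β t)) := p5_SS_nonneg _ (hprime z) _
  set s := SSf (pr zs) (ran P (hh c β t)) with hs
  set s0 := SSf (pr z) (ran P (hh c β t)) with hs0'
  set w : ℝ := Z' / ((∏ i, (D i : ℝ)) * (Real.log Z') ^ k) with hw
  have hw0 : 0 ≤ w := by positivity
  have e1 : (Z' : ℝ) * densN D zs Z' (ran P (hh c β t)) = w * s := by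
    unfold densN
    rw [← hs, hw]
    ring
  have e2 : (Z' : ℝ) * densN D z Z' (ran P (hh c β t)) = w * s0 := by
    unfold densN
    rw [← hs0', hw]
    ring
  rw [e1] at h1
  rw [e2]
  have h2 := abs_le.1 h1
  have h3 := abs_le.1 hN6
  have h4 : w * s ≤ w * (2 * s0) := by
    refine mul_le_mul_of_nonneg_left ?_ hw0
    nlinarith
  have h5 : w * (s - s0) ≤ w * (ε / 100 * s0) := mul_le_mul_of_nonneg_left h3.2 hw0
  have h6 : w * (-(ε / 100 * s0)) ≤ w * (s - s0) := mul_le_mul_of_nonneg_left h3.1 hw0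
  have h7 : 0 ≤ w * s0 := mul_nonneg hw0 hs0
  have h8 : 20 * (ε / 4000) * (w * s) ≤ ε / 100 * (w * s0) := by
    nlinarith
  rw [abs_le]
  constructor <;> nlinarith

theorem y4_tb {d : ℕ} (s s' : Fin d → ℕ) (h : ∀ j, s j ≤ s' j) : tb (0 : Fin d → ℤ) s ⊆ tb 0 s' := by
  intro t ht
  unfold tb at *
  rw [Fintype.mem_piFinset] at *
  intro j
  have h1 := ht j
  have h2 := h j
  rw [mem_Ico] at *
  refine ⟨h1.1, lt_of_lt_of_le h1.2 ?_⟩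
  have : (s j : ℤ) ≤ s' j := by exact_mod_cast h2
  simpa using this

/-- The numerical conditions for large `Z`. -/
theorem y4_nums (k A A' A1 Q0 : ℕ) (C1A cA cY δ1 κ ε C' cX PD q : ℝ) (hcA : 0 < cA) (hcY : 0 < cY) (hδ : 0 < δ1) (hδ4 : δ1 ≤ 1 / 4)
    (hκ : 0 < κ) (hε : 0 < ε) (hq : 0 < q) (hC' : 0 < C') (hC1A : 0 ≤ C1A) (hA1 : (C' + k + 1) + 1 ≤ (A1 : ℝ) / 2)
    (hA2 : (A : ℝ) + 1 ≤ (A1 : ℝ) / 2) : ∃ Z0 : ℕ, 1 ≤ Z0 ∧ ∀ Z : ℕ, Z0 ≤ Z → ∀ zs : ℕ, zs = ⌊(Z : ℝ) ^ δ1⌋₊ →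
    4 ≤ Real.log Z ∧ Q0 ≤ zs ∧ k * A' + 2 ≤ zs ∧ zs ≤ Z ∧ (zs : ℝ) ≤ κ * Z ∧
    4000 * |Real.log κ| + ε * |Real.log κ| ≤ ε * Real.log Z ∧ |Real.log κ| + 1 ≤ Real.log Z ∧
    C1A * ((zs : ℝ) + 1) ^ (-cA) ≤ (Real.log Z) ^ (-(A1 : ℝ)) ∧
    (zs : ℝ) ^ (-cY) ≤ 1 / 2 * (Real.log Z) ^ (-(A : ℝ)) ∧ (zs : ℝ) ^ (-cY) ≤ q * (Real.log Z) ^ (-(C' + k + 1)) ∧
    (k : ℝ) * A' ≤ q * (Z * (Real.log Z) ^ (-(C' + k + 1))) ∧
    (Real.log Z) ^ (-((A1 : ℝ) / 2)) * (1 + 500 ^ (k + 1)) ≤ q * (Real.log Z) ^ (-(C' + k + 1)) ∧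
    2 * (Real.log Z) ^ (-((A1 : ℝ) / 2)) ≤ 1 / 2 * (Real.log Z) ^ (-(A : ℝ)) := by
  obtain ⟨Y1, -, h1⟩ := y4_ev C1A A1 (δ1 * cA) (by positivity)
  obtain ⟨Y2, -, h2⟩ := y4_ev (2 * 2 ^ cY) A (δ1 * cY) (by positivity)
  obtain ⟨Y3, -, h3⟩ := y4_ev (2 ^ cY / q) (C' + k + 1) (δ1 * cY) (by positivity)
  obtain ⟨Y4, -, h4⟩ := y4_ev (Q0 + k * A' + 3) 1 δ1 hδ
  obtain ⟨Y5, -, h5⟩ := y4_ev (1 / κ) 1 (3 / 4) (by norm_num)
  obtain ⟨Y6, -, h6⟩ := y4_ev (4 + |Real.log κ| + 4000 * |Real.log κ| / ε + (1 + 500 ^ (k + 1)) / q) 1 1 (by norm_num)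
  obtain ⟨Y7, -, h7⟩ := y4_ev (k * A' / q) (C' + k + 1) 1 (by norm_num)
  refine ⟨Y1 + Y2 + Y3 + Y4 + Y5 + Y6 + Y7 + 1, by omega, fun Z hZ zs hzs => ?_⟩
  have g1 := (h1 Z (by omega)).2.2
  have g2 := (h2 Z (by omega)).2.2
  have g3 := (h3 Z (by omega)).2.2
  have g4 := (h4 Z (by omega)).2.1
  have g5 := (h5 Z (by omega)).2.1
  have g6 := (h6 Z (by omega)).1
  have g7 := (h7 Z (by omega)).2.2
  have hZ1 : (1 : ℝ) ≤ Z := by
    have : 1 ≤ Z := by omega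
    exact_mod_cast this
  have hZ0 : (0 : ℝ) < Z := by linarith
  set L := Real.log Z with hL
  have hk0 : 0 ≤ |Real.log κ| := abs_nonneg _
  have hK1 : 0 ≤ 4000 * |Real.log κ| / ε := by positivity
  have hK2 : 0 ≤ (1 + 500 ^ (k + 1)) / q := by positivity
  have hL4 : 4 ≤ L := by linarith
  have hL0 : 0 < L := by linarith
  have hx0 : 0 < (Z : ℝ) ^ δ1 := Real.rpow_pos_of_pos hZ0 _
  have hkA : (0 : ℝ) ≤ k * A' := by positivity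
  have hQ00 : (0 : ℝ) ≤ Q0 := by positivity
  have hfl1 : (zs : ℝ) ≤ (Z : ℝ) ^ δ1 := by rw [hzs]; exact Nat.floor_le hx0.le
  have hfl2 : (Z : ℝ) ^ δ1 < zs + 1 := by rw [hzs]; exact Nat.lt_floor_add_one _
  have hzsR : (Q0 : ℝ) + k * A' + 2 < (zs : ℝ) := by linarith
  have hzsN : Q0 + k * A' + 2 < zs := by exact_mod_cast hzsR
  have hhalf : (Z : ℝ) ^ δ1 / 2 ≤ zs := by linarith
  have hzs0 : (0 : ℝ) < zs := by linarith
  have hq14 : (Z : ℝ) ^ δ1 ≤ (Z : ℝ) ^ (1 / 4 : ℝ) := Real.rpow_le_rpow_of_exponent_le hZ1 hδ4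
  have hpow : (zs : ℝ) ^ (-cY) ≤ 2 ^ cY * (Z : ℝ) ^ (-(δ1 * cY)) := by
    calc (zs : ℝ) ^ (-cY) ≤ ((Z : ℝ) ^ δ1 / 2) ^ (-cY) :=
          Real.rpow_le_rpow_of_nonpos (by positivity) hhalf (by linarith)
      _ = 2 ^ cY * (Z : ℝ) ^ (-(δ1 * cY)) := by
        rw [Real.div_rpow hx0.le (by norm_num), ← Real.rpow_mul hZ0.le, Real.rpow_neg (by norm_num : (0 : ℝ) ≤ 2)]
        rw [div_inv_eq_mul, mul_comm]
        congr 2
        ring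
  refine ⟨hL4, by omega, by omega, ?_, ?_, ?_, by linarith, ?_, ?_, ?_, ?_, ?_, ?_⟩
  · have : (zs : ℝ) ≤ Z := hfl1.trans (hq14.trans (by
      calc (Z : ℝ) ^ (1 / 4 : ℝ) ≤ (Z : ℝ) ^ (1 : ℝ) := Real.rpow_le_rpow_of_exponent_le hZ1 (by norm_num)
        _ = Z := Real.rpow_one _))
    exact_mod_cast this
  · have e1 : (Z : ℝ) = (Z : ℝ) ^ (1 / 4 : ℝ) * (Z : ℝ) ^ (3 / 4 : ℝ) := by
      rw [← Real.rpow_add hZ0]
      norm_num
    have e2 : 1 ≤ κ * (Z : ℝ) ^ (3 / 4 : ℝ) := by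
      calc 1 = κ * (1 / κ) := by field_simp
        _ ≤ κ * (Z : ℝ) ^ (3 / 4 : ℝ) := by gcongr
    have e3 : 0 < (Z : ℝ) ^ (1 / 4 : ℝ) := Real.rpow_pos_of_pos hZ0 _
    calc (zs : ℝ) ≤ (Z : ℝ) ^ (1 / 4 : ℝ) := hfl1.trans hq14
      _ ≤ (Z : ℝ) ^ (1 / 4 : ℝ) * (κ * (Z : ℝ) ^ (3 / 4 : ℝ)) := le_mul_of_one_le_right e3.le e2
      _ = κ * ((Z : ℝ) ^ (1 / 4 : ℝ) * (Z : ℝ) ^ (3 / 4 : ℝ)) := by ring
      _ = κ * Z := by rw [← e1]
  · have e1 : |Real.log κ| + 4000 * |Real.log κ| / ε ≤ L := by linarith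
    calc 4000 * |Real.log κ| + ε * |Real.log κ| = ε * (|Real.log κ| + 4000 * |Real.log κ| / ε) := by field_simp; ring
      _ ≤ ε * L := by gcongr
  · refine le_trans ?_ g1
    refine mul_le_mul_of_nonneg_left ?_ hC1A
    calc ((zs : ℝ) + 1) ^ (-cA) ≤ ((Z : ℝ) ^ δ1) ^ (-cA) :=
          Real.rpow_le_rpow_of_nonpos hx0 hfl2.le (by linarith)
      _ = (Z : ℝ) ^ (-(δ1 * cA)) := by
        rw [← Real.rpow_mul hZ0.le]
        congr 1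
        ring
  · linarith
  · have e1 : 2 ^ cY * (Z : ℝ) ^ (-(δ1 * cY)) = q * (2 ^ cY / q * (Z : ℝ) ^ (-(δ1 * cY))) := by field_simp
    rw [e1] at hpow
    exact hpow.trans (mul_le_mul_of_nonneg_left g3 hq.le)
  · rw [Real.rpow_neg_one] at g7
    calc (k : ℝ) * A' = q * (Z * (k * A' / q * (Z : ℝ)⁻¹)) := by field_simp
      _ ≤ q * (Z * L ^ (-(C' + k + 1))) := by gcongr
  · have e1 : L ^ (-((A1 : ℝ) / 2)) ≤ L ^ (-(C' + k + 1)) * L⁻¹ := by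
      rw [← Real.rpow_neg_one L, ← Real.rpow_add hL0]
      exact Real.rpow_le_rpow_of_exponent_le (by linarith) (by linarith)
    have e2 : 1 + 500 ^ (k + 1) ≤ q * L := by
      calc (1 + 500 ^ (k + 1) : ℝ) = q * ((1 + 500 ^ (k + 1)) / q) := by field_simp
        _ ≤ q * L := by
          have : (1 + 500 ^ (k + 1)) / q ≤ L := by linarith
          gcongr
    have e3 : 0 < L ^ (-(C' + k + 1)) := Real.rpow_pos_of_pos hL0 _
    calc L ^ (-((A1 : ℝ) / 2)) * (1 + 500 ^ (k + 1)) ≤ (L ^ (-(C' + k + 1)) * L⁻¹) * (q * L) := by gcongr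
      _ = q * L ^ (-(C' + k + 1)) := by field_simp
  · have e1 : L ^ (-((A1 : ℝ) / 2)) ≤ L ^ (-(A : ℝ)) * L⁻¹ := by
      rw [← Real.rpow_neg_one L, ← Real.rpow_add hL0]
      exact Real.rpow_le_rpow_of_exponent_le (by linarith) (by linarith)
    have e3 : 0 < L ^ (-(A : ℝ)) := Real.rpow_pos_of_pos hL0 _
    have e4 : L⁻¹ ≤ 1 / 4 := by
      rw [inv_eq_one_div]
      exact one_div_le_one_div_of_le (by norm_num) hL4
    calc 2 * L ^ (-((A1 : ℝ) / 2)) ≤ 2 * (L ^ (-(A : ℝ)) * (1 / 4)) := by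
          refine mul_le_mul_of_nonneg_left (e1.trans ?_) (by norm_num)
          gcongr
      _ = 1 / 2 * L ^ (-(A : ℝ)) := by ring

open Classical in
/-- The inclusion of the exceptional set in the three bad sets. -/
theorem y4_sub {k d : ℕ} (c : Fin k → Fin d → ℤ) (e : Fin d → ℕ) (D : Fin k → ℕ) (hD : ∀ i, 1 ≤ D i) (P : Fin k → ℤ[X])
    (A A' A1 : ℕ) (hPol : Pol A' P) (hA1c : A + 3 ≤ A1) (ε ε1 κ θ cX C' C1N c0 cY q σ : ℝ) (vf : ℝ → ℝ) (Z zs z : ℕ)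
    (hε10 : 0 < ε1) (hε11 : ε1 ≤ 1) (hε12 : ε1 ≤ ε) (hκ : 0 < κ) (hθ : 0 < θ) (hcX : 0 < cX) (hC' : 0 < C') (hσ0 : 0 < σ)
    (hZ1R : (1 : ℝ) ≤ Z) (hX : ∀ h : Fin k → ℕ, NoFix (ran P h) → cX * (1 + Real.log zs) ^ (-C') ≤ SSf (pr zs) (ran P h))
    (hPNT : ∀ Z' : ℕ, Z' ≤ Z → ∀ h : Fin k → ℕ,
      |(∑ b ∈ Ico Z (2 * Z), (cnt (sys (X + C ((b : ℕ) : ℤ)) P h) 1 Z' : ℝ)) * Real.log Z -
      Z * cnt (ran P h) 1 Z'| ≤ ε1 / 4000 * (Z * cnt (ran P h) 1 Z'))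
    (hz1 : C1N * (z : ℝ) ^ (-c0) ≤ ε1 / 100) (n3 : k * A' + 2 ≤ zs) (n4 : zs ≤ Z) (n5 : (zs : ℝ) ≤ κ * Z)
    (n6 : 4000 * |Real.log κ| + ε1 * |Real.log κ| ≤ ε1 * Real.log Z) (n7 : |Real.log κ| + 1 ≤ Real.log Z)
    (n10 : (zs : ℝ) ^ (-cY) ≤ q * (Real.log Z) ^ (-(C' + k + 1)))
    (n11 : (k : ℝ) * A' ≤ q * (Z * (Real.log Z) ^ (-(C' + k + 1))))
    (n12 : σ * (1 + 500 ^ (k + 1)) ≤ q * (Real.log Z) ^ (-(C' + k + 1)))
    (hq3 : 3 * q * (∏ i, (D i : ℝ)) ≤ ε1 / 4000 * κ * cX * 2 ^ (-C')) (β : Fin k → ℤ) :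
    ((tb 0 fun j => A * Z ^ e j + 1 : Finset (Fin d → ℤ)).filter fun t => (∀ i, 0 ≤ β i + lf c t i) ∧ NoFix (ran P (hh c β t)) ∧
      ∃ Z' : ℕ, RegN A κ θ (vf θ) Z Z' D (ran P (hh c β t)) ∧ ε * (Z' * densN D z Z' (ran P (hh c β t))) <
        |(cnt (ran P (hh c β t)) 1 Z' : ℝ) - Z' * densN D z Z' (ran P (hh c β t))|) ⊆
        ((tb 0 fun j => A * Z ^ e j + 1 : Finset (Fin d → ℤ)).filter fun t => σ * Z < (((Ico Z (2 * Z)).filter fun b =>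
          y4E c D P A1 β Z zs κ θ (min (vf θ) 1) (ε1 / 4000) b t).card : ℝ)) ∪
        (((tb 0 fun j => A * Z ^ e j + 1 : Finset (Fin d → ℤ)).filter fun t => (∀ i, 0 ≤ β i + lf c t i) ∧
          Z * (zs : ℝ) ^ (-cY) < |∑ b ∈ Ico Z (2 * Z), SSf (pr zs) (sys (X + C ((b : ℕ) : ℤ)) P (hh c β t)) -
          Z * SSf (pr zs) (ran P (hh c β t))|) ∪
        ((tb 0 fun j => A * Z ^ e j + 1 : Finset (Fin d → ℤ)).filter fun t => (∀ i, 0 ≤ β i + lf c t i) ∧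
          C1N * (z : ℝ) ^ (-c0) * SSf (pr z) (ran P (hh c β t)) <
          |SSf (pr zs) (ran P (hh c β t)) - SSf (pr z) (ran P (hh c β t))|)) := by
  have hZ0 : (0 : ℝ) < Z := by linarith
  have hPD1 : 1 ≤ ∏ i, (D i : ℝ) := by
    have h1 : ∏ i : Fin k, (1 : ℝ) ≤ ∏ i, (D i : ℝ) :=
      prod_le_prod (fun i _ => zero_le_one) (fun i _ => by exact_mod_cast hD i)
    rwa [prod_const_one] at h1
  set L : ℝ := Real.log Z with hL
  have hL0 : 1 ≤ L := by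
    have := abs_nonneg (Real.log κ)
    linarith
  intro t ht
  rw [mem_filter] at ht
  obtain ⟨htS, ht0, hN, Z', hR, hlt⟩ := ht
  by_contra hcon
  rw [mem_union, mem_union, not_or, not_or, mem_filter, mem_filter, mem_filter] at hcon
  obtain ⟨k1, k2, k3⟩ := hcon
  have k1' : (((Ico Z (2 * Z)).filter fun b =>
      y4E c D P A1 β Z zs κ θ (min (vf θ) 1) (ε1 / 4000) b t).card : ℝ) ≤ σ * Z := by
    by_contra h
    exact k1 ⟨htS, not_le.1 h⟩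
  have k2' : |∑ b ∈ Ico Z (2 * Z), SSf (pr zs) (sys (X + C ((b : ℕ) : ℤ)) P (hh c β t)) -
      Z * SSf (pr zs) (ran P (hh c β t))| ≤ Z * (zs : ℝ) ^ (-cY) := by
    by_contra h
    exact k2 ⟨htS, ht0, not_le.1 h⟩
  have k3' : |SSf (pr zs) (ran P (hh c β t)) - SSf (pr z) (ran P (hh c β t))| ≤
      C1N * (z : ℝ) ^ (-c0) * SSf (pr z) (ran P (hh c β t)) := by
    by_contra h
    exact k3 ⟨htS, ht0, not_le.1 h⟩
  have hs0 : 0 ≤ SSf (pr z) (ran P (hh c β t)) := p5_SS_nonneg _ (fun l hl => (p5_mem_pr.1 hl).1) _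
  have k4 : |SSf (pr zs) (ran P (hh c β t)) - SSf (pr z) (ran P (hh c β t))| ≤
      ε1 / 100 * SSf (pr z) (ran P (hh c β t)) :=
    k3'.trans (mul_le_mul_of_nonneg_right hz1 hs0)
  have hZ'R : (0 : ℝ) < Z' := lt_of_lt_of_le (by positivity) hR.ge
  have hlog1 : Real.log Z' ≤ L := Real.log_le_log hZ'R (by exact_mod_cast hR.le)
  have hlog2 : L - |Real.log κ| ≤ Real.log Z' := by
    have h1 : Real.log (κ * Z) ≤ Real.log Z' := Real.log_le_log (by positivity) hR.ge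
    rw [Real.log_mul hκ.ne' hZ0.ne'] at h1
    have h2 := neg_abs_le (Real.log κ)
    linarith
  have hL'1 : 1 ≤ Real.log Z' := by linarith
  have hzsZ' : zs ≤ Z' := by
    have : (zs : ℝ) ≤ Z' := n5.trans hR.ge
    exact_mod_cast this
  have hzs1 : (1 : ℝ) ≤ zs := by
    have : 1 ≤ zs := by omega
    exact_mod_cast this
  have hlz0 : 0 ≤ Real.log zs := Real.log_nonneg hzs1
  have hlz1 : Real.log zs ≤ L := Real.log_le_log (by linarith) (by exact_mod_cast n4)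
  have hcY0 : 0 ≤ (zs : ℝ) ^ (-cY) := by positivity
  have hsmall : L * (k * A' + Z' * (zs : ℝ) ^ (-cY) + Z * σ * (1 + 500 ^ (k + 1))) ≤
      ε1 / 4000 * (Z' * densN D zs Z' (ran P (hh c β t))) := by
    unfold densN
    refine y4_small k Z Z' L (Real.log Z') (Real.log zs) _ _ _ cX C' (ε1 / 4000) κ (∏ i, (D i : ℝ)) _ q hL0 hL'1 hlog1
      hR.ge hκ hZ0 (by exact_mod_cast hR.le) hlz0 hlz1 hcX hC' (hX _ hN) hPD1 (by positivity) hcY0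
      n11 n10 ?_ hq3
    calc Z * σ * (1 + 500 ^ (k + 1)) = Z * (σ * (1 + 500 ^ (k + 1))) := by ring
      _ ≤ Z * (q * L ^ (-(C' + k + 1))) := by gcongr
      _ = q * (Z * L ^ (-(C' + k + 1))) := by ring
  have hfin := y4_t c D hD P A A' A1 hPol hA1c β t ht0 hN Z Z' zs z κ θ (vf θ) ε1 σ ((zs : ℝ) ^ (-cY)) hθ hR
    (by omega) (by omega) (by omega) hzsZ' hε10 hε11 hσ0.le hcY0 hL'1 (by
      rw [abs_of_nonneg (by linarith)]
      nlinarith) (hPNT Z' hR.le (hh c β t)) k1' k2' k4 hsmall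
  have hdn : 0 ≤ (Z' : ℝ) * densN D z Z' (ran P (hh c β t)) := by
    unfold densN
    positivity
  have : ε1 * ((Z' : ℝ) * densN D z Z' (ran P (hh c β t))) ≤ ε * ((Z' : ℝ) * densN D z Z' (ran P (hh c β t))) :=
    mul_le_mul_of_nonneg_right hε12 hdn
  linarith

/-- **Y4.** Proof. `δ1 = min(δ_A, δ_Y, δ_N)/2`, also `≤ 1/4`, with `δ_A` from `hA`, `δ_Y` from `Y2_main`, `δ_N` from `N6_main`. Given `A`: `A' = A + ∑ D_i + ∑ |a_i| + 3`; `c, C'` from `N1_X2` for `A'`; `A1` a natural number `≥ A' + 2 A + 2 C' + 2 k + 20`; `cA` from `hA` for `A1`, `cY` from `Y2_main`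
(for `A'`), `c0, C1N, z0N` from `N6_main` for `A'`. Given `ε` (WLOG `≤ 1`), `κ` (WLOG `≤ 1`), `vf`: `hA` with `A1, ε/4000, κ, fun θ => min (vf θ) 1` gives `θ, C1, Z0`; this is the `θ` of `NCore`. For `Z` large put `zs = ⌊Z^δ1⌋`; `z ≤ zs` for the `z` of the statement.
Sets (all inside `tb 0 (A1 Z^e + 1)`): for `b ∈ [Z, 2 Z)` let `E_b` be the set of `ACore` for `B = X + C b` and the level `zs`: at most `Z^(∑ e) ((log Z)^(-A1) + C1 (zs + 1)^(-cA)) ≤ 2 Z^(∑ e) (log Z)^(-A1)` elements. By `Y3_bad` (`σ = Z (log Z)^(-A1/2)`) all `t` but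
`2 Z^(∑ e) (log Z)^(-A1/2)` are in at most `Z (log Z)^(-A1/2)` of the `E_b`. Throw away these, the set of `Y2_main` (`Q = zs`), and for `z1 ≤ z` the set of `N6_main` for the levels `z ≤ zs`: at most
`C1N Z^(∑ e) z^(-c0)`. For `z < z1` (`z1 ≥ z0N` with `C1N z1^(-c0) ≤ ε/100`) the bound is trivial with `C1' ≥ (2 A + 2)^d (z1 + 1)^c0` (`u10_card`). For the other `t` with `NoFix (ran P h)` and `RegN`: `y4_one` with `ε/4000`, `σ = (log Z)^(-A1/2)`, `σ' = zs^(-cY)`,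
`Bad` = the `b` with `t ∈ E_b` (`hgood`: `y4_reg` with `Reg (A + 3) …`, monotone to `Reg A1 …`; `t ∉ E_b` and `NoFix` give the inequality); `hsmall` as `densN ≥ c (1 + log zs)^(-C')/((∏ D) (log Z')^k)`, `Z' ≥ κ Z`, and `A1/2 ≥ C' + k + 3`;
`hpnt` by `Y1_main`. So `|cnt - Z' densN zs| ≤ (ε/200) Z' densN zs`, and `|SSf (pr zs) - SSf (pr z)| ≤ (ε/100) SSf (pr z)`. -/
theorem Y4_core {k d : ℕ} (c : Fin k → Fin d → ℤ) (e : Fin d → ℕ) (D : Fin k → ℕ) (a : Fin k → ℤ)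
    (hF : FGTU c D a) (he : ∀ j, 1 ≤ e j) (hD : ∀ i, 1 ≤ D i) (P : Fin k → ℤ[X]) (hP : HasD D a P) (hA : ACore c e D P) :
    NCore c e D P := by
  classical
  obtain ⟨δA, hδA, hA⟩ := hA
  obtain ⟨δY, hδY, hY⟩ := Y2_main c e D a hF he hD P hP
  obtain ⟨δN, hδN, hNN⟩ := N6_main c e D a hF he hD P hP
  obtain ⟨δ1, hδ0, hδA', hδY', hδN', hδ4⟩ : ∃ δ1 : ℝ, 0 < δ1 ∧ δ1 ≤ δA ∧ δ1 ≤ δY ∧ δ1 ≤ δN ∧ δ1 ≤ 1 / 4 :=
    ⟨min (min δA δY) (min δN (1 / 4)), lt_min (lt_min hδA hδY) (lt_min hδN (by norm_num)),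
      (min_le_left _ _).trans (min_le_left _ _), (min_le_left _ _).trans (min_le_right _ _),
      (min_le_right _ _).trans (min_le_left _ _), (min_le_right _ _).trans (min_le_right _ _)⟩
  refine ⟨δ1, hδ0, fun A => ?_⟩
  set A' : ℕ := A + ∑ i, D i + ∑ i, (a i).natAbs + 3 with hA'
  have hPol : Pol A' P := y4_pol D a hD P hP A' (by omega) (by omega)
  obtain ⟨cX, C', hcX, hC', hX⟩ := N1_X2 k A' (by omega)
  set A1 : ℕ := 2 * ⌈C'⌉₊ + 2 * k + 2 * A + A' + 20 with hA1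
  have hA1a : (C' + k + 1) + 1 ≤ (A1 : ℝ) / 2 := by
    have h1 : C' ≤ ⌈C'⌉₊ := Nat.le_ceil _
    have h2 : (A1 : ℝ) = 2 * ⌈C'⌉₊ + 2 * k + 2 * A + A' + 20 := by rw [hA1]; push_cast; ring
    have h3 : (0 : ℝ) ≤ A := by positivity
    have h4 : (0 : ℝ) ≤ A' := by positivity
    linarith
  have hA1b : (A : ℝ) + 1 ≤ (A1 : ℝ) / 2 := by
    have h1 : (0 : ℝ) ≤ ⌈C'⌉₊ := by positivity
    have h2 : (A1 : ℝ) = 2 * ⌈C'⌉₊ + 2 * k + 2 * A + A' + 20 := by rw [hA1]; push_cast; ring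
    have h3 : (0 : ℝ) ≤ k := by positivity
    have h4 : (0 : ℝ) ≤ A' := by positivity
    linarith
  have hA1c : A + 3 ≤ A1 := by omega
  obtain ⟨cA, hcA, hA⟩ := hA A1
  obtain ⟨cY, hcY, Q0, hY⟩ := hY A
  obtain ⟨c0, C1N, hc0, hC1N, z0, hNN⟩ := hNN A
  refine ⟨c0, hc0, fun ε κ vf hε hκ hvf => ?_⟩
  set ε1 : ℝ := min ε 1 with hε1
  have hε10 : 0 < ε1 := lt_min hε one_pos
  have hε11 : ε1 ≤ 1 := min_le_right _ _
  have hε12 : ε1 ≤ ε := min_le_left _ _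
  obtain ⟨θ, C1A, Z0A, hθ, hC1A, hA⟩ := hA (ε1 / 4000) κ (fun θ => min (vf θ) 1) (by positivity) hκ
    (fun θ hθ => lt_min (hvf θ hθ) one_pos)
  obtain ⟨Z0P, hPNT⟩ := Y1_main (ε1 / 4000) (by positivity)
  obtain ⟨z1, hz10, hz11, hz1⟩ : ∃ z1 : ℕ, z0 ≤ z1 ∧ 1 ≤ z1 ∧ ∀ z : ℕ, z1 ≤ z → C1N * (z : ℝ) ^ (-c0) ≤ ε1 / 100 := by
    have h1 : Filter.Tendsto (fun z : ℕ => C1N * (z : ℝ) ^ (-c0)) Filter.atTop (nhds (C1N * 0)) :=
      ((tendsto_rpow_neg_atTop hc0).comp tendsto_natCast_atTop_atTop).const_mul C1N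
    rw [mul_zero] at h1
    have h2 := h1.eventually (ge_mem_nhds (show (0 : ℝ) < ε1 / 100 by positivity))
    obtain ⟨y, hy⟩ := Filter.eventually_atTop.1 h2
    exact ⟨max y (max z0 1), (le_max_left _ _).trans (le_max_right _ _), (le_max_right _ _).trans (le_max_right _ _),
      fun z hz => hy z ((le_max_left _ _).trans hz)⟩
  set PD : ℝ := ∏ i, (D i : ℝ) with hPD
  have hPD1 : 1 ≤ PD := by
    rw [hPD]
    have h1 : ∏ i : Fin k, (1 : ℝ) ≤ ∏ i, (D i : ℝ) :=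
      prod_le_prod (fun i _ => zero_le_one) (fun i _ => by exact_mod_cast hD i)
    rwa [prod_const_one] at h1
  set q : ℝ := ε1 / 4000 * κ * cX * 2 ^ (-C') / (3 * PD) with hq
  have h20 : (0 : ℝ) < 2 ^ (-C') := Real.rpow_pos_of_pos (by norm_num) _
  have hq0 : 0 < q := by positivity
  have hq3 : 3 * q * PD ≤ ε1 / 4000 * κ * cX * 2 ^ (-C') := by
    rw [hq]
    apply le_of_eq
    have : PD ≠ 0 := by positivity
    field_simp
  obtain ⟨Z0N, hZ0N, hnum⟩ := y4_nums k A A' A1 Q0 C1A cA cY δ1 κ ε1 C' cX PD q hcA hcY hδ0 hδ4 hκ hε10 hq0 hC' hC1A hA1a hA1b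
  refine ⟨θ, (2 * ((A + 1 : ℕ) : ℝ)) ^ d * ((z1 : ℝ) + 1) ^ c0 + C1N * 2 ^ c0, Z0A + Z0P + Z0N, hθ, by positivity,
    fun Z hZ β hβ z hz => ?_⟩
  have hZ1 : 1 ≤ Z := by omega
  have hZ1R : (1 : ℝ) ≤ Z := by exact_mod_cast hZ1
  have hZ0 : (0 : ℝ) < Z := by linarith
  have hWe : (Z : ℝ) ^ (∑ j, (e j : ℝ)) = (Z : ℝ) ^ (∑ j, e j) := by
    rw [← Real.rpow_natCast]
    push_cast
    rfl
  rw [hWe]
  set W : ℝ := (Z : ℝ) ^ (∑ j, e j) with hW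
  have hW0 : 0 < W := by positivity
  set zs : ℕ := ⌊(Z : ℝ) ^ δ1⌋₊ with hzs
  obtain ⟨n1, n2, n3, n4, n5, n6, n7, n8, n9, n10, n11, n12, n13⟩ := hnum Z (by omega) zs rfl
  set L : ℝ := Real.log Z with hL
  have hL0 : 0 < L := by linarith
  have hx0 : 0 < (Z : ℝ) ^ δ1 := Real.rpow_pos_of_pos hZ0 _
  have hzsle : (zs : ℝ) ≤ (Z : ℝ) ^ δ1 := Nat.floor_le hx0.le
  have hzzs : z ≤ zs := Nat.le_floor hz
  have hLA : 0 < L ^ (-(A : ℝ)) := Real.rpow_pos_of_pos hL0 _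
  by_cases hcase : z < z1
  · -- trivial bound
    have h1 : ((tb (0 : Fin d → ℤ) fun j => A * Z ^ e j + 1).card : ℝ) ≤ (2 * ((A + 1 : ℕ) : ℝ)) ^ d * W := by
      refine le_trans ?_ (u10_card e (A + 1) Z (by omega) hZ1)
      exact_mod_cast card_le_card (y4_tb _ _ fun j => by
        have : A * Z ^ e j ≤ (A + 1) * Z ^ e j := Nat.mul_le_mul_right _ (by omega)
        omega)
    have h2 : (1 : ℝ) ≤ ((z1 : ℝ) + 1) ^ c0 * ((z : ℝ) + 1) ^ (-c0) := by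
      have h3 : ((z1 : ℝ) + 1) ^ (-c0) ≤ ((z : ℝ) + 1) ^ (-c0) :=
        Real.rpow_le_rpow_of_nonpos (by positivity) (by
          have : (z : ℝ) ≤ z1 := by exact_mod_cast hcase.le
          linarith) (by linarith)
      have h4 : ((z1 : ℝ) + 1) ^ c0 * ((z1 : ℝ) + 1) ^ (-c0) = 1 := by
        rw [← Real.rpow_add (by positivity), add_neg_cancel, Real.rpow_zero]
      calc (1 : ℝ) = ((z1 : ℝ) + 1) ^ c0 * ((z1 : ℝ) + 1) ^ (-c0) := h4.symm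
        _ ≤ ((z1 : ℝ) + 1) ^ c0 * ((z : ℝ) + 1) ^ (-c0) := by gcongr
    have h5 : 0 < ((z : ℝ) + 1) ^ (-c0) := Real.rpow_pos_of_pos (by positivity) _
    refine le_trans (Nat.cast_le.2 (card_le_card (filter_subset _ _))) (h1.trans ?_)
    have h6 : (0 : ℝ) ≤ C1N * 2 ^ c0 * ((z : ℝ) + 1) ^ (-c0) := by positivity
    have h7 : (0 : ℝ) ≤ (2 * ((A + 1 : ℕ) : ℝ)) ^ d := by positivity
    calc (2 * ((A + 1 : ℕ) : ℝ)) ^ d * W = W * ((2 * ((A + 1 : ℕ) : ℝ)) ^ d * 1) := by ring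
      _ ≤ W * ((2 * ((A + 1 : ℕ) : ℝ)) ^ d * (((z1 : ℝ) + 1) ^ c0 * ((z : ℝ) + 1) ^ (-c0))) := by gcongr
      _ ≤ W * (L ^ (-(A : ℝ)) + ((2 * ((A + 1 : ℕ) : ℝ)) ^ d * ((z1 : ℝ) + 1) ^ c0 + C1N * 2 ^ c0) * ((z : ℝ) + 1) ^ (-c0)) := by
        refine mul_le_mul_of_nonneg_left ?_ hW0.le
        nlinarith
  · rw [not_lt] at hcase
    set S : Finset (Fin d → ℤ) := tb 0 fun j => A * Z ^ e j + 1 with hS
    set σ : ℝ := L ^ (-((A1 : ℝ) / 2)) with hσ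
    have hσ0 : 0 < σ := Real.rpow_pos_of_pos hL0 _
    have hσ2 : σ * σ = L ^ (-(A1 : ℝ)) := by
      rw [hσ, ← Real.rpow_add hL0]
      congr 1
      ring
    -- the sets of the good theorem
    have hEb : ∀ b ∈ Ico Z (2 * Z), ((S.filter (y4E c D P A1 β Z zs κ θ (min (vf θ) 1) (ε1 / 4000) b)).card : ℝ) ≤
        W * (2 * (σ * σ)) := by
      intro b hb
      have h1 := hA Z (by omega) (X + C ((b : ℕ) : ℤ)) (natDegree_X_add_C _) (by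
        rw [leadingCoeff_X_add_C]
        simp
        omega) β (fun i => (hβ i).trans (by
          have : (A : ℤ) ≤ A1 := by
            have : A ≤ A1 := by omega
            exact_mod_cast this
          gcongr)) zs (hzsle.trans (Real.rpow_le_rpow_of_exponent_le hZ1R hδA'))
      rw [hWe] at h1
      refine le_trans ?_ (h1.trans ?_)
      · refine Nat.cast_le.2 (card_le_card ?_)
        intro t ht
        rw [mem_filter] at ht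
        rw [mem_filter]
        exact ⟨y4_tb _ _ (fun j => by
          have : A * Z ^ e j ≤ A1 * Z ^ e j := Nat.mul_le_mul_right _ (by omega)
          omega) ht.1, ht.2⟩
      · refine mul_le_mul_of_nonneg_left ?_ hW0.le
        rw [hσ2]
        linarith
    have hB := Y3_bad S (Ico Z (2 * Z)) (fun b t => y4E c D P A1 β Z zs κ θ (min (vf θ) 1) (ε1 / 4000) b t)
      (W * (2 * (σ * σ))) (σ * Z) (by positivity) hEb
    have hBY := hY zs Z (by omega) (hzsle.trans (Real.rpow_le_rpow_of_exponent_le hZ1R hδY')) β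
    have hBN := hNN z zs Z (by omega) hzzs (hzsle.trans (Real.rpow_le_rpow_of_exponent_le hZ1R hδN')) β
    -- the inclusion
    have hsub := y4_sub c e D hD P A A' A1 hPol hA1c ε ε1 κ θ cX C' C1N c0 cY q σ vf Z zs z hε10 hε11 hε12 hκ hθ hcX hC' hσ0
      hZ1R (fun h hN => hX P hPol h hN zs (by omega)) (fun Z' hZ' h => hPNT Z Z' (by omega) hZ' k P h) (hz1 z hcase)
      n3 n4 n5 n6 n7 n10 n11 n12 hq3 β
    have hcard := card_le_card hsub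
    have hcard2 := hcard.trans ((card_union_le _ _).trans (Nat.add_le_add_left (card_union_le _ _) _))
    refine le_trans (Nat.cast_le.2 hcard2) ?_
    rw [Nat.cast_add, Nat.cast_add]
    have hB' : ((Ico Z (2 * Z)).card : ℝ) * (W * (2 * (σ * σ))) / (σ * Z) = W * (2 * σ) := by
      rw [Nat.card_Ico, show 2 * Z - Z = Z by omega]
      field_simp
    rw [hB'] at hB
    have hz1R : (1 : ℝ) ≤ z := by
      have : 1 ≤ z := by omega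
      exact_mod_cast this
    have hzpow : (z : ℝ) ^ (-c0) ≤ 2 ^ c0 * ((z : ℝ) + 1) ^ (-c0) := by
      calc (z : ℝ) ^ (-c0) ≤ (((z : ℝ) + 1) / 2) ^ (-c0) :=
            Real.rpow_le_rpow_of_nonpos (by positivity) (by linarith) (by linarith)
        _ = 2 ^ c0 * ((z : ℝ) + 1) ^ (-c0) := by
          rw [Real.div_rpow (by positivity) (by norm_num), Real.rpow_neg (by norm_num : (0 : ℝ) ≤ 2), div_inv_eq_mul,
            mul_comm]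
    have h5 : 0 < ((z : ℝ) + 1) ^ (-c0) := Real.rpow_pos_of_pos (by positivity) _
    have g1 : W * (2 * σ) ≤ W * (1 / 2 * L ^ (-(A : ℝ))) := mul_le_mul_of_nonneg_left n13 hW0.le
    have g2 : W * (zs : ℝ) ^ (-cY) ≤ W * (1 / 2 * L ^ (-(A : ℝ))) := mul_le_mul_of_nonneg_left n9 hW0.le
    have g3 : C1N * W * (z : ℝ) ^ (-c0) ≤ W * (C1N * 2 ^ c0 * ((z : ℝ) + 1) ^ (-c0)) := by
      calc C1N * W * (z : ℝ) ^ (-c0) ≤ C1N * W * (2 ^ c0 * ((z : ℝ) + 1) ^ (-c0)) := by gcongr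
        _ = W * (C1N * 2 ^ c0 * ((z : ℝ) + 1) ^ (-c0)) := by ring
    have g4 : 0 ≤ W * ((2 * ((A + 1 : ℕ) : ℝ)) ^ d * ((z1 : ℝ) + 1) ^ c0 * ((z : ℝ) + 1) ^ (-c0)) := by positivity
    calc _ ≤ W * (2 * σ) + (W * (zs : ℝ) ^ (-cY) + C1N * W * (z : ℝ) ^ (-c0)) := by
          refine add_le_add ?_ (add_le_add ?_ ?_)
          · exact hB
          · exact hBY
          · exact hBN
      _ ≤ _ := by
        rw [mul_add, add_mul, mul_add]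
        linarith

end Pool.Agent.HLA
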