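import Pool.Agent.Lib.HLA.W15
import Pool.Agent.Lib.HLA.Y4
import Pool.Agent.Lib.HUP.Z3

/-!
# LOGA, chunk W20: the core theorems for all data
-/

open Finset Polynomial

namespace Pool.Agent.HLA

open Pool.Agent.Lib.H24P Pool.Agent.HUP Pool.Agent.H9P

/-- The interfaces for all data (as in `core_all`). -/
theorem w20_int {k d : ℕ} (c : Fin k → Fin d → ℤ) (e : Fin d → ℕ) (P : Fin k → ℤ[X])
    (hD : Dat c e (fun i => (P i).natDegree) (fun i => (P i).leadingCoeff)) :
    FGTU c (fun i => (P i).natDegree) (fun i => (P i).leadingCoeff) ∧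
      S4TU c e (fun i => (P i).natDegree) (fun i => (P i).leadingCoeff) := by
  have hF : FMT c e (fun i => (P i).natDegree) (fun i => (P i).leadingCoeff) :=
    FMT_of c e _ _ hD fun D q r h1 h2 => Pool.Agent.HPP.C8_Z D q h1 r h2
  exact ⟨FGTU_of hD hF, S4TU_of c e _ _ hD hF Pool.Agent.HUK.FIN_PK⟩

theorem W20_A : ACoreAll := by
  intro k d c e P hD
  obtain ⟨h1, h2⟩ := w20_int c e P hD
  exact W15_core c e _ _ h1 h2 hD.par hD.blk hD.deg P fun i => ⟨rfl, rfl⟩

theorem W20_N : NCoreAll := by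
  intro k d c e P hD
  obtain ⟨h1, -⟩ := w20_int c e P hD
  exact Y4_core c e _ _ h1 hD.par hD.deg P (fun i => ⟨rfl, rfl⟩) (W20_A k d c e P hD)

end Pool.Agent.HLA
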