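import Pool.Agent.Lib.HLA.W17
import Pool.Agent.Lib.HLA.W18
import Pool.Agent.Lib.HLA.W19
import Pool.Agent.Lib.H9P.W3

/-!
# LOGA, W21: one exceptional set for all levels of the singular series at once
-/

open Finset Polynomial

namespace Pool.Agent.HLA

open Pool.Agent.HUP Pool.Agent.H9P
open Pool.Agent.Lib.H59

/-- few roots, any `G` -/
theorem w21_omega {g : ℕ} {F : Fin g → ℤ[X]} {G : ℤ[X]} {N : ℕ} (hG : 1 ≤ G.natDegree) (hadm : Admissible F G N) (D : ℕ)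
    (hD : ∑ i, (F i).natDegree + G.natDegree ≤ D) {p : ℕ} (hp : p.Prime) : omegaN F G N p ≤ D := by
  refine (omegaN_le_sum F G N hp).trans (le_trans (Nat.add_le_add (sum_le_sum fun i _ => ?_) ?_) hD)
  · exact rootCount_le_natDegree (w3_prim hadm i) hp
  · rw [← natDegree_C_sub' G N]
    exact rootCount_le_natDegree (hadm.1.isPrimitive (by rw [natDegree_C_sub']; omega)) hp

/-- the series at near levels, any `G` -/
theorem w21_near {g : ℕ} {F : Fin g → ℤ[X]} {G : ℤ[X]} {N : ℕ} (hadm : Admissible F G N) (D : ℕ)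
    (hω : ∀ p : ℕ, p.Prime → omegaN F G N p ≤ D) (ε : ℝ) (hε : 0 < ε) (hε1 : ε ≤ 1) (z' z : ℕ) (hz : z' ≤ z)
    (hm : ((D : ℝ) + 2 * (g + 1)) * ((z : ℝ) - z') ≤ ε * z') (hz1 : (D : ℝ) + 2 * (g + 1) ≤ z') :
    |seriesTrunc F G N z - seriesTrunc F G N z'| ≤ ε * seriesTrunc F G N z' := by
  classical
  have hz0 : (0 : ℝ) < z' := by
    have : (0 : ℝ) ≤ (D : ℝ) := Nat.cast_nonneg _
    have : (0 : ℝ) ≤ (g : ℝ) := Nat.cast_nonneg _
    linarith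
  set B : Finset ℕ := (Nat.primesBelow z) \ (Nat.primesBelow z') with hB
  have hsub : Nat.primesBelow z' ⊆ Nat.primesBelow z := by
    intro p hp
    rw [Nat.mem_primesBelow] at hp ⊢
    exact ⟨by omega, hp.2⟩
  set f : ℕ → ℝ := fun p => (1 - (omegaN F G N p : ℝ) / p) * ((1 - 1 / (p : ℝ)) ^ (g + 1))⁻¹ with hf
  have hprod : seriesTrunc F G N z = (∏ p ∈ B, f p) * seriesTrunc F G N z' := by
    unfold seriesTrunc
    rw [hB, Finset.prod_sdiff hsub]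
  have hBz : ∀ p ∈ B, z' ≤ p ∧ p < z ∧ p.Prime := by
    intro p hp
    rw [hB, mem_sdiff, Nat.mem_primesBelow, Nat.mem_primesBelow] at hp
    refine ⟨?_, hp.1.1, hp.1.2⟩
    by_contra hcon
    exact hp.2 ⟨by omega, hp.1.2⟩
  have hcard : (B.card : ℝ) ≤ (z : ℝ) - z' := by
    have h1 : B ⊆ Finset.Ico z' z := by
      intro p hp
      obtain ⟨h1, h2, -⟩ := hBz p hp
      rw [mem_Ico]
      exact ⟨h1, h2⟩
    have h2 := Finset.card_le_card h1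
    rw [Nat.card_Ico] at h2
    have h3 : (B.card : ℝ) ≤ ((z - z' : ℕ) : ℝ) := by exact_mod_cast h2
    rwa [Nat.cast_sub hz] at h3
  have hD0 : (0 : ℝ) ≤ D := Nat.cast_nonneg _
  have hg0 : (0 : ℝ) ≤ g := Nat.cast_nonneg _
  -- bounds of the factors
  have hlow : ∀ p ∈ B, 1 + -((D : ℝ) / z') ≤ f p := by
    intro p hp
    obtain ⟨h1, h2, h3⟩ := hBz p hp
    have hp1 : (1 : ℝ) < p := by exact_mod_cast h3.one_lt
    have hpz : (z' : ℝ) ≤ p := by exact_mod_cast h1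
    have h4 : (omegaN F G N p : ℝ) ≤ D := by exact_mod_cast hω p h3
    have h5 : (omegaN F G N p : ℝ) / p ≤ D / z' := div_le_div₀ hD0 h4 hz0 hpz
    have h6 : (0 : ℝ) < 1 - 1 / (p : ℝ) := by
      rw [sub_pos, div_lt_one (by linarith)]
      exact hp1
    have h7 : (1 - 1 / (p : ℝ)) ^ (g + 1) ≤ 1 := pow_le_one₀ h6.le (by
      have : (0 : ℝ) ≤ 1 / (p : ℝ) := by positivity
      linarith)
    have h8 : (1 : ℝ) ≤ ((1 - 1 / (p : ℝ)) ^ (g + 1))⁻¹ := (one_le_inv₀ (pow_pos h6 _)).2 h7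
    have h9 : (0 : ℝ) ≤ 1 - (omegaN F G N p : ℝ) / p := by
      rw [sub_nonneg, div_le_one (by linarith)]
      exact_mod_cast (omegaN_lt hadm h3).le
    calc 1 + -((D : ℝ) / z') ≤ (1 - (omegaN F G N p : ℝ) / p) * 1 := by linarith
      _ ≤ f p := mul_le_mul_of_nonneg_left h8 h9
  have hup : ∀ p ∈ B, f p ≤ ((1 + -(1 / (z' : ℝ))) ^ (g + 1))⁻¹ := by
    intro p hp
    obtain ⟨h1, h2, h3⟩ := hBz p hp
    have hp1 : (1 : ℝ) < p := by exact_mod_cast h3.one_lt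
    have hpz : (z' : ℝ) ≤ p := by exact_mod_cast h1
    have hz2 : (1 : ℝ) < z' := by linarith
    have h5 : 1 / (p : ℝ) ≤ 1 / (z' : ℝ) := one_div_le_one_div_of_le hz0 hpz
    have h6 : (0 : ℝ) < 1 + -(1 / (z' : ℝ)) := by
      have : 1 / (z' : ℝ) < 1 := by
        rw [div_lt_one hz0]
        exact hz2
      linarith
    have h7 : (1 + -(1 / (z' : ℝ))) ^ (g + 1) ≤ (1 - 1 / (p : ℝ)) ^ (g + 1) := pow_le_pow_left₀ h6.le (by linarith) _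
    have h8 : ((1 - 1 / (p : ℝ)) ^ (g + 1))⁻¹ ≤ ((1 + -(1 / (z' : ℝ))) ^ (g + 1))⁻¹ :=
      inv_anti₀ (pow_pos h6 _) h7
    have h9 : (1 - (omegaN F G N p : ℝ) / p) ≤ 1 := by
      have : (0 : ℝ) ≤ (omegaN F G N p : ℝ) / p := by positivity
      linarith
    have h10 : (0 : ℝ) ≤ ((1 - 1 / (p : ℝ)) ^ (g + 1))⁻¹ := by
      have : (0 : ℝ) ≤ 1 - 1 / (p : ℝ) := by
        have : 1 / (p : ℝ) ≤ 1 := by
          rw [div_le_one (by linarith)]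
          exact hp1.le
        linarith
      positivity
    calc f p ≤ 1 * ((1 - 1 / (p : ℝ)) ^ (g + 1))⁻¹ := mul_le_mul_of_nonneg_right h9 h10
      _ = ((1 - 1 / (p : ℝ)) ^ (g + 1))⁻¹ := one_mul _
      _ ≤ _ := h8
  obtain ⟨m, hm'⟩ : ∃ m : ℕ, m = B.card := ⟨_, rfl⟩
  have hmz : ((D : ℝ) + 2 * (g + 1)) * m ≤ ε * z' := by
    rw [hm']
    refine le_trans (mul_le_mul_of_nonneg_left hcard (by positivity)) hm
  have hDz : (D : ℝ) / z' ≤ 1 := by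
    rw [div_le_one hz0]
    linarith
  have hT1 : 1 - ε ≤ ∏ p ∈ B, f p := by
    have h1 : (1 + -((D : ℝ) / z')) ^ m ≤ ∏ p ∈ B, f p := by
      rw [hm', ← Finset.prod_const]
      exact Finset.prod_le_prod (fun p _ => by linarith) hlow
    have h2 := one_add_mul_le_pow (show (-2 : ℝ) ≤ -((D : ℝ) / z') by linarith) m
    have h3 : (m : ℝ) * ((D : ℝ) / z') ≤ ε := by
      rw [mul_div_assoc', div_le_iff₀ hz0]
      have : 0 ≤ (2 * ((g : ℝ) + 1)) * m := by positivity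
      linarith
    have h4 : (1 : ℝ) + m * -((D : ℝ) / z') = 1 - m * ((D : ℝ) / z') := by ring
    rw [h4] at h2
    linarith
  have hT2 : ∏ p ∈ B, f p ≤ 1 + ε := by
    have hz2 : (1 : ℝ) < z' := by linarith
    have hiz : 1 / (z' : ℝ) < 1 := by
      rw [div_lt_one hz0]
      exact hz2
    have h1 : ∏ p ∈ B, f p ≤ (((1 + -(1 / (z' : ℝ))) ^ (g + 1))⁻¹) ^ m := by
      rw [hm', ← Finset.prod_const]
      refine Finset.prod_le_prod (fun p hp => ?_) hup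
      have := hlow p hp
      linarith
    have h2 : (((1 + -(1 / (z' : ℝ))) ^ (g + 1))⁻¹) ^ m = ((1 + -(1 / (z' : ℝ))) ^ ((g + 1) * m))⁻¹ := by
      rw [inv_pow, ← pow_mul]
    have h3 := one_add_mul_le_pow (show (-2 : ℝ) ≤ -(1 / (z' : ℝ)) by linarith) ((g + 1) * m)
    have h4 : (((g + 1) * m : ℕ) : ℝ) * (1 / (z' : ℝ)) ≤ ε / 2 := by
      rw [mul_one_div, div_le_iff₀ hz0]
      push_cast
      have : 0 ≤ (D : ℝ) * m := by positivity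
      nlinarith
    have h5 : (1 : ℝ) + (((g + 1) * m : ℕ) : ℝ) * -(1 / (z' : ℝ)) = 1 - (((g + 1) * m : ℕ) : ℝ) * (1 / (z' : ℝ)) := by ring
    rw [h5] at h3
    have h6 : 1 - ε / 2 ≤ (1 + -(1 / (z' : ℝ))) ^ ((g + 1) * m) := by linarith
    have h7 : (0 : ℝ) < 1 - ε / 2 := by linarith
    rw [h2] at h1
    refine h1.trans ((inv_anti₀ h7 h6).trans ?_)
    rw [inv_le_iff_one_le_mul₀ h7]
    nlinarith
  have hS := w3_pos hadm z'
  rw [hprod]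
  have e1 : (∏ p ∈ B, f p) * seriesTrunc F G N z' - seriesTrunc F G N z' =
      ((∏ p ∈ B, f p) - 1) * seriesTrunc F G N z' := by ring
  rw [e1, abs_mul, abs_of_pos hS]
  refine mul_le_mul_of_nonneg_right ?_ hS.le
  rw [abs_le]
  constructor <;> linarith

/-- From a level `z'` to a near level `z`. -/
theorem w21_fail {g : ℕ} (F : Fin g → ℤ[X]) (G : ℤ[X]) (N : ℕ) (hG : 1 ≤ G.natDegree) (D : ℕ)
    (hD : ∑ i, (F i).natDegree + G.natDegree ≤ D) (ε ε' : ℝ) (hε : 0 < ε) (h0 : 0 < ε') (h1 : ε' ≤ 1 / 4) (h2 : ε' ≤ ε / 4)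
    (z' z : ℕ) (hz : z' ≤ z) (hm : ((D : ℝ) + 2 * (g + 1)) * ((z : ℝ) - z') ≤ ε' * z') (hz1 : (D : ℝ) + 2 * (g + 1) ≤ z')
    (hF : FailsP ε F G N z) : FailsP ε' F G N z' := by
  obtain ⟨hadm, t⟩ := hF
  refine ⟨hadm, ?_⟩
  by_contra hcon
  rw [not_lt] at hcon
  have hnear := w21_near hadm D (fun p hp => w21_omega hG hadm D hD hp) ε' h0 (by linarith) z' z hz hm hz1
  obtain ⟨K0, hK0⟩ : ∃ K0 : ℝ, K0 = (argCount G N : ℝ) / Real.log (argCount G N) ^ (g + 1) *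
    ((G.natDegree : ℝ) * ∏ i, ((F i).natDegree : ℝ))⁻¹ := ⟨_, rfl⟩
  have hK0' : 0 ≤ K0 := by
    rw [hK0]
    have h5 : 0 ≤ Real.log (argCount G N) := Real.log_natCast_nonneg _
    positivity
  have m1 : ∀ y, mainTermP F G N y = K0 * seriesTrunc F G N y := by
    intro y
    rw [hK0]
    rfl
  rw [m1] at hcon t
  have hS' := w3_pos hadm z'
  obtain ⟨s', hs'⟩ : ∃ s' : ℝ, s' = seriesTrunc F G N z' := ⟨_, rfl⟩
  obtain ⟨s, hs⟩ : ∃ s : ℝ, s = seriesTrunc F G N z := ⟨_, rfl⟩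
  rw [← hs'] at hnear hcon hS'
  rw [← hs] at hnear t
  obtain ⟨n1, n2⟩ := abs_le.1 hnear
  obtain ⟨c1, c2⟩ := abs_le.1 hcon
  have k0 : 0 ≤ K0 * s' := mul_nonneg hK0' hS'.le
  have k1 : K0 * (s - s') ≤ K0 * (ε' * s') := mul_le_mul_of_nonneg_left n2 hK0'
  have k2 : K0 * (-(ε' * s')) ≤ K0 * (s - s') := mul_le_mul_of_nonneg_left n1 hK0'
  have k1' : K0 * s - K0 * s' ≤ ε' * (K0 * s') := by
    rw [mul_sub] at k1
    have : K0 * (ε' * s') = ε' * (K0 * s') := by ring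
    linarith
  have k2' : -(ε' * (K0 * s')) ≤ K0 * s - K0 * s' := by
    rw [mul_sub] at k2
    have : K0 * (-(ε' * s')) = -(ε' * (K0 * s')) := by ring
    linarith
  exact w3_fin _ (K0 * s') (K0 * s) ε ε' k0 hε h1 h2 c1 c2 k1' k2' t

/-- the grid `⌊z β^j⌋` -/
theorem w21_grid (β : ℝ) (hβ : 1 < β) (hβ2 : β ≤ 2) (z w : ℕ) (hz : 1 ≤ z) (hzw : z ≤ w) :
    ∃ j : ℕ, ((j : ℝ) * Real.log β ≤ Real.log w) ∧ ⌊(z : ℝ) * β ^ j⌋₊ ≤ w ∧ z ≤ ⌊(z : ℝ) * β ^ j⌋₊ ∧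
      (w : ℝ) ≤ β * ⌊(z : ℝ) * β ^ j⌋₊ + 2 := by
  have hz0 : (1 : ℝ) ≤ z := by exact_mod_cast hz
  have hw : (z : ℝ) ≤ w := by exact_mod_cast hzw
  have h1 : (1 : ℝ) ≤ w / z := by
    rw [one_le_div (by linarith)]
    exact hw
  obtain ⟨j, hj1, hj2⟩ := exists_nat_pow_near h1 hβ
  rw [le_div_iff₀ (by linarith)] at hj1
  rw [div_lt_iff₀ (by linarith)] at hj2
  have hp1 : (1 : ℝ) ≤ β ^ j := one_le_pow₀ hβ.le
  have hzp : (z : ℝ) ≤ z * β ^ j := le_mul_of_one_le_right (by linarith) hp1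
  have hfl : ((⌊(z : ℝ) * β ^ j⌋₊ : ℕ) : ℝ) ≤ z * β ^ j := Nat.floor_le (by linarith)
  have hfl2 : (z : ℝ) * β ^ j < (⌊(z : ℝ) * β ^ j⌋₊ : ℕ) + 1 := Nat.lt_floor_add_one _
  refine ⟨j, ?_, ?_, Nat.le_floor hzp, ?_⟩
  · have h2 : β ^ j ≤ w := by
      refine le_trans ?_ hj1
      exact le_mul_of_one_le_right (by linarith) hz0
    have h3 := Real.log_le_log (by linarith) h2
    rwa [Real.log_pow] at h3
  · have h2 : ((⌊(z : ℝ) * β ^ j⌋₊ : ℕ) : ℝ) ≤ w := by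
      rw [mul_comm] at hj1
      exact hfl.trans hj1
    exact_mod_cast h2
  · have h2 : β ^ (j + 1) * z = β * (z * β ^ j) := by ring
    rw [h2] at hj2
    nlinarith

open Classical in
/-- The union bound over the grid. -/
theorem w21_core {α : Type*} (S : Finset α) (X A : ℕ) (V C c0 K δ1 β : ℝ) (z1 : ℕ) (hV : 0 ≤ V) (hC : 0 ≤ C) (hc0 : 0 < c0)
    (hδ1 : 0 < δ1) (hβ : 1 < β) (hβ2 : β ≤ 2) (hX : 1 ≤ X) (hS : (S.card : ℝ) ≤ C * V)
    (hlog : δ1 / Real.log β + 2 ≤ Real.log X) (B B' : ℕ → α → Prop)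
    (hB : ∀ z : ℕ, 1 ≤ z → (z : ℝ) ≤ (X : ℝ) ^ δ1 → ((S.filter (B z)).card : ℝ) ≤
      V * ((Real.log X) ^ (-((A + 2 : ℕ) : ℝ)) + K * (z : ℝ) ^ (-c0)))
    (hBB : ∀ z w : ℕ, z1 ≤ z → z ≤ w → (w : ℝ) ≤ β * z + 2 → ∀ x, B' w x → B z x) (z : ℕ) (hz : 1 ≤ z) :
    ((S.filter fun x => ∃ w : ℕ, z ≤ w ∧ (w : ℝ) ≤ (X : ℝ) ^ δ1 ∧ B' w x).card : ℝ) ≤
      V * ((Real.log X) ^ (-(A : ℝ)) + (C * (z1 : ℝ) ^ c0 + max K 0 * (2 ^ c0 / (1 - β ^ (-c0)))) * (z : ℝ) ^ (-c0)) := by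
  have hlβ : 0 < Real.log β := Real.log_pos hβ
  have hβ0 : (0 : ℝ) < β := by linarith
  have hXr : (1 : ℝ) ≤ X := by exact_mod_cast hX
  have hdl : 0 < δ1 / Real.log β := by positivity
  have hL2 : 2 ≤ Real.log X := by linarith
  have hL0 : 0 < Real.log X := by linarith
  have hzr : (1 : ℝ) ≤ z := by exact_mod_cast hz
  have hz0 : (0 : ℝ) < z := by linarith
  have hq1 : β ^ (-c0) < 1 := Real.rpow_lt_one_of_one_lt_of_neg hβ (by linarith)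
  have hq0 : 0 < β ^ (-c0) := Real.rpow_pos_of_pos hβ0 _
  have hM0 : 0 ≤ max K 0 := le_max_right _ _
  have hR0 : 0 ≤ max K 0 * (2 ^ c0 / (1 - β ^ (-c0))) := by
    refine mul_nonneg hM0 (div_nonneg (by positivity) (by linarith))
  have hLA : 0 ≤ (Real.log X) ^ (-(A : ℝ)) := Real.rpow_nonneg hL0.le _
  have hzc : 0 < (z : ℝ) ^ (-c0) := Real.rpow_pos_of_pos hz0 _
  rcases lt_or_ge z z1 with hcase | hcase
  · -- small `z`: trivial
    have h1 : ((S.filter fun x => ∃ w : ℕ, z ≤ w ∧ (w : ℝ) ≤ (X : ℝ) ^ δ1 ∧ B' w x).card : ℝ) ≤ C * V :=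
      le_trans (by exact_mod_cast card_le_card (filter_subset _ _)) hS
    have h2 : 1 ≤ (z1 : ℝ) ^ c0 * (z : ℝ) ^ (-c0) := by
      rw [Real.rpow_neg hz0.le, ← div_eq_mul_inv, one_le_div (Real.rpow_pos_of_pos hz0 _)]
      refine Real.rpow_le_rpow hz0.le ?_ hc0.le
      exact_mod_cast hcase.le
    calc ((S.filter fun x => ∃ w : ℕ, z ≤ w ∧ (w : ℝ) ≤ (X : ℝ) ^ δ1 ∧ B' w x).card : ℝ) ≤ V * (C * 1) := by linarith
      _ ≤ V * (C * ((z1 : ℝ) ^ c0 * (z : ℝ) ^ (-c0))) :=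
          mul_le_mul_of_nonneg_left (mul_le_mul_of_nonneg_left h2 hC) hV
      _ ≤ V * ((Real.log X) ^ (-(A : ℝ)) + (C * (z1 : ℝ) ^ c0 + max K 0 * (2 ^ c0 / (1 - β ^ (-c0)))) * (z : ℝ) ^ (-c0)) := by
          refine mul_le_mul_of_nonneg_left ?_ hV
          have h3 := mul_nonneg hR0 hzc.le
          nlinarith
  · -- the grid
    obtain ⟨J, hJ⟩ : ∃ J : ℕ, J = ⌊δ1 * Real.log X / Real.log β⌋₊ + 1 := ⟨_, rfl⟩
    have hJle : (J : ℝ) ≤ Real.log X ^ 2 := by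
      rw [hJ]
      push_cast
      have h1 : ((⌊δ1 * Real.log X / Real.log β⌋₊ : ℕ) : ℝ) ≤ δ1 * Real.log X / Real.log β := Nat.floor_le (by positivity)
      have h2 : δ1 * Real.log X / Real.log β = δ1 / Real.log β * Real.log X := by ring
      have h3 := h1.trans_eq h2
      nlinarith
    set g : ℕ → ℕ := fun j => ⌊(z : ℝ) * β ^ j⌋₊ with hg
    set T : ℕ → Finset α := fun j => if ((g j : ℕ) : ℝ) ≤ (X : ℝ) ^ δ1 then S.filter (B (g j)) else ∅ with hT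
    have hgz : ∀ j, z ≤ g j := by
      intro j
      refine Nat.le_floor ?_
      exact le_mul_of_one_le_right (by linarith) (one_le_pow₀ hβ.le)
    have hgc : ∀ j, ((g j : ℕ) : ℝ) ^ (-c0) ≤ 2 ^ c0 * (z : ℝ) ^ (-c0) * (β ^ (-c0)) ^ j := by
      intro j
      have hy1 : (1 : ℝ) ≤ z * β ^ j := by
        have := one_le_pow₀ (n := j) hβ.le
        nlinarith
      have hy2 : (z : ℝ) * β ^ j / 2 ≤ (g j : ℕ) := by
        have h1 : (z : ℝ) * β ^ j < (⌊(z : ℝ) * β ^ j⌋₊ : ℕ) + 1 := Nat.lt_floor_add_one _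
        have h2 : (1 : ℝ) ≤ (⌊(z : ℝ) * β ^ j⌋₊ : ℕ) := by
          have := hgz j
          exact_mod_cast hz.trans this
        show (z : ℝ) * β ^ j / 2 ≤ (⌊(z : ℝ) * β ^ j⌋₊ : ℕ)
        linarith
      have hy3 : (0 : ℝ) < z * β ^ j / 2 := by positivity
      have h3 : ((g j : ℕ) : ℝ) ^ (-c0) ≤ ((z : ℝ) * β ^ j / 2) ^ (-c0) :=
        Real.rpow_le_rpow_of_nonpos hy3 hy2 (by linarith)
      refine h3.trans (le_of_eq ?_)
      rw [Real.div_rpow (by positivity) (by norm_num), Real.mul_rpow hz0.le (by positivity), Real.rpow_neg (by norm_num : (0 : ℝ) ≤ 2) c0,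
        div_inv_eq_mul, ← Real.rpow_natCast β j, ← Real.rpow_mul hβ0.le, ← Real.rpow_natCast (β ^ (-c0)) j, ← Real.rpow_mul hβ0.le,
        mul_comm (j : ℝ) (-c0)]
      ring
    have hTc : ∀ j, ((T j).card : ℝ) ≤ V * ((Real.log X) ^ (-((A + 2 : ℕ) : ℝ)) +
        max K 0 * (2 ^ c0 * (z : ℝ) ^ (-c0) * (β ^ (-c0)) ^ j)) := by
      intro j
      have hLA2 : 0 ≤ (Real.log X) ^ (-((A + 2 : ℕ) : ℝ)) := Real.rpow_nonneg hL0.le _
      rw [hT]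
      simp only
      split_ifs with h1
      · refine (hB (g j) (hz.trans (hgz j)) h1).trans (mul_le_mul_of_nonneg_left ?_ hV)
        refine add_le_add le_rfl ?_
        have h2 : (0 : ℝ) ≤ ((g j : ℕ) : ℝ) ^ (-c0) := Real.rpow_nonneg (Nat.cast_nonneg _) _
        calc K * ((g j : ℕ) : ℝ) ^ (-c0) ≤ max K 0 * ((g j : ℕ) : ℝ) ^ (-c0) :=
              mul_le_mul_of_nonneg_right (le_max_left _ _) h2
          _ ≤ _ := mul_le_mul_of_nonneg_left (hgc j) hM0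
      · rw [card_empty, Nat.cast_zero]
        positivity
    have hsub : (S.filter fun x => ∃ w : ℕ, z ≤ w ∧ (w : ℝ) ≤ (X : ℝ) ^ δ1 ∧ B' w x) ⊆ (range J).biUnion T := by
      intro x hx
      rw [mem_filter] at hx
      obtain ⟨x1, w, w1, w2, w3⟩ := hx
      obtain ⟨j, j1, j2, j3, j4⟩ := w21_grid β hβ hβ2 z w hz w1
      have hgX : ((g j : ℕ) : ℝ) ≤ (X : ℝ) ^ δ1 := le_trans (by exact_mod_cast j2) w2
      have hwr : (1 : ℝ) ≤ w := by exact_mod_cast hz.trans w1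
      rw [mem_biUnion]
      refine ⟨j, ?_, ?_⟩
      · rw [mem_range, hJ, Nat.lt_succ_iff]
        refine Nat.le_floor ?_
        rw [le_div_iff₀ hlβ]
        refine j1.trans ?_
        have h2 := Real.log_le_log (by linarith) w2
        rwa [Real.log_rpow (by linarith)] at h2
      · rw [hT]
        simp only
        rw [if_pos hgX, mem_filter]
        exact ⟨x1, hBB (g j) w (hcase.trans j3) j2 j4 x w3⟩
    have hgeo : ∑ j ∈ range J, (β ^ (-c0)) ^ j ≤ 1 / (1 - β ^ (-c0)) := by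
      have h1 := (summable_geometric_of_lt_one hq0.le hq1).sum_le_tsum (range J) (fun i _ => pow_nonneg hq0.le i)
      rw [tsum_geometric_of_lt_one hq0.le hq1] at h1
      rw [one_div]
      exact h1
    calc ((S.filter fun x => ∃ w : ℕ, z ≤ w ∧ (w : ℝ) ≤ (X : ℝ) ^ δ1 ∧ B' w x).card : ℝ)
        ≤ (((range J).biUnion T).card : ℝ) := by exact_mod_cast card_le_card hsub
      _ ≤ ∑ j ∈ range J, ((T j).card : ℝ) := by exact_mod_cast card_biUnion_le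
      _ ≤ ∑ j ∈ range J, V * ((Real.log X) ^ (-((A + 2 : ℕ) : ℝ)) + max K 0 * (2 ^ c0 * (z : ℝ) ^ (-c0) * (β ^ (-c0)) ^ j)) :=
          sum_le_sum fun j _ => hTc j
      _ = V * (J * (Real.log X) ^ (-((A + 2 : ℕ) : ℝ)) + max K 0 * (2 ^ c0 * (z : ℝ) ^ (-c0)) * ∑ j ∈ range J, (β ^ (-c0)) ^ j) := by
          rw [← Finset.mul_sum, sum_add_distrib, sum_const, card_range, nsmul_eq_mul, Finset.mul_sum]
          congr 2
          refine sum_congr rfl fun j _ => ?_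
          ring
      _ ≤ V * ((Real.log X) ^ (-(A : ℝ)) + max K 0 * (2 ^ c0 * (z : ℝ) ^ (-c0)) * (1 / (1 - β ^ (-c0)))) := by
          refine mul_le_mul_of_nonneg_left (add_le_add ?_ ?_) hV
          · have h1 : (Real.log X) ^ (-(A : ℝ)) = Real.log X ^ 2 * (Real.log X) ^ (-((A + 2 : ℕ) : ℝ)) := by
              rw [← Real.rpow_natCast (Real.log X) 2, ← Real.rpow_add hL0]
              congr 1
              push_cast
              ring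
            rw [h1]
            exact mul_le_mul_of_nonneg_right hJle (Real.rpow_nonneg hL0.le _)
          · exact mul_le_mul_of_nonneg_left hgeo (by positivity)
      _ ≤ V * ((Real.log X) ^ (-(A : ℝ)) + (C * (z1 : ℝ) ^ c0 + max K 0 * (2 ^ c0 / (1 - β ^ (-c0)))) * (z : ℝ) ^ (-c0)) := by
          refine mul_le_mul_of_nonneg_left (add_le_add le_rfl ?_) hV
          have h2 : 0 ≤ C * (z1 : ℝ) ^ c0 * (z : ℝ) ^ (-c0) := by positivity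
          have h3 : max K 0 * (2 ^ c0 * (z : ℝ) ^ (-c0)) * (1 / (1 - β ^ (-c0))) =
            max K 0 * (2 ^ c0 / (1 - β ^ (-c0))) * (z : ℝ) ^ (-c0) := by ring
          rw [h3]
          linarith

/-- the number of the points of the box -/
theorem w21_box {d : ℕ} (A X : ℕ) (hX : 1 ≤ X) (e : Fin d → ℕ) :
    ((BoxT A X e).card : ℝ) ≤ (2 * A + 1 : ℝ) ^ d * (X : ℝ) ^ (∑ j, (e j : ℝ)) := by
  have hXr : (1 : ℝ) ≤ X := by exact_mod_cast hX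
  unfold BoxT
  rw [Fintype.card_piFinset]
  push_cast
  have h1 : ∀ j : Fin d, (((Icc (-((A * X ^ e j : ℕ) : ℤ)) ((A * X ^ e j : ℕ) : ℤ)).card : ℕ) : ℝ) ≤ (2 * A + 1) * (X : ℝ) ^ (e j : ℝ) := by
    intro j
    rw [Int.card_Icc, Real.rpow_natCast]
    have h2 : (((A * X ^ e j : ℕ) : ℤ) + 1 - -((A * X ^ e j : ℕ) : ℤ)).toNat = 2 * (A * X ^ e j) + 1 := by omega
    rw [h2]
    push_cast
    have h3 : (1 : ℝ) ≤ (X : ℝ) ^ e j := one_le_pow₀ hXr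
    nlinarith
  have h2 : ∏ j : Fin d, (((Icc (-((A * X ^ e j : ℕ) : ℤ)) ((A * X ^ e j : ℕ) : ℤ)).card : ℕ) : ℝ) ≤
      ∏ j : Fin d, ((2 * A + 1) * (X : ℝ) ^ (e j : ℝ)) :=
    Finset.prod_le_prod (fun j _ => Nat.cast_nonneg _) fun j _ => h1 j
  have h3 : ∏ j : Fin d, ((2 * A + 1) * (X : ℝ) ^ (e j : ℝ)) = (2 * A + 1 : ℝ) ^ d * (X : ℝ) ^ (∑ j, (e j : ℝ)) := by
    rw [Finset.prod_mul_distrib, Finset.prod_const, Finset.card_univ, Fintype.card_fin, Real.rpow_sum_of_pos (by linarith)]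
  rw [← h3]
  push_cast at h2
  exact h2

/-- the constants: from `ε` to `ε'`, the ratio `β` of the grid and the threshold `z1` -/
theorem w21_par (D g : ℕ) (ε : ℝ) (hε : 0 < ε) : ∃ (ε' β : ℝ) (z1 : ℕ), 0 < ε' ∧ ε' ≤ 1 / 4 ∧ ε' ≤ ε / 4 ∧ 1 < β ∧ β ≤ 2 ∧
    ∀ z w : ℕ, z1 ≤ z → z ≤ w → (w : ℝ) ≤ β * z + 2 →
      ((D : ℝ) + 2 * (g + 1)) * ((w : ℝ) - z) ≤ ε' * z ∧ (D : ℝ) + 2 * (g + 1) ≤ z := by
  obtain ⟨ε', hε'⟩ : ∃ ε' : ℝ, ε' = min ε 1 / 4 := ⟨_, rfl⟩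
  have hε0 : 0 < ε' := by
    rw [hε']
    have := lt_min hε one_pos
    linarith
  have hε1 : ε' ≤ 1 / 4 := by
    rw [hε']
    have := min_le_right ε 1
    linarith
  have hε2 : ε' ≤ ε / 4 := by
    rw [hε']
    have := min_le_left ε 1
    linarith
  obtain ⟨E, hE⟩ : ∃ E : ℝ, E = (D : ℝ) + 2 * (g + 1) := ⟨_, rfl⟩
  have hE1 : 1 ≤ E := by
    rw [hE]
    have h1 : (0 : ℝ) ≤ D := Nat.cast_nonneg _
    have h2 : (0 : ℝ) ≤ g := Nat.cast_nonneg _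
    linarith
  obtain ⟨κ, hκ⟩ : ∃ κ : ℝ, κ = ε' / (2 * E) := ⟨_, rfl⟩
  have hκ0 : 0 < κ := by
    rw [hκ]
    positivity
  have hκ1 : κ ≤ 1 := by
    rw [hκ, div_le_one (by positivity)]
    linarith
  have hEκ : E * κ = ε' / 2 := by
    rw [hκ]
    field_simp
  refine ⟨ε', 1 + κ, ⌈E + 4 * E / ε'⌉₊, hε0, hε1, hε2, by linarith, by linarith, fun z w hz hzw hw => ?_⟩
  have hz' : E + 4 * E / ε' ≤ z := (Nat.le_ceil _).trans (by exact_mod_cast hz)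
  have h4 : 0 < 4 * E / ε' := by positivity
  rw [← hE]
  constructor
  · have h5 : (w : ℝ) - z ≤ κ * z + 2 := by linarith
    have h6 : E * ((w : ℝ) - z) ≤ E * (κ * z + 2) := mul_le_mul_of_nonneg_left h5 (by linarith)
    have h7 : E * (κ * z + 2) = ε' / 2 * z + 2 * E := by
      rw [← hEκ]
      ring
    have h8 : 2 * E ≤ ε' / 2 * z := by
      have h9 : 4 * E / ε' ≤ z := by linarith
      rw [div_le_iff₀ hε0] at h9
      linarith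
    linarith
  · linarith

/-- monotone boxes -/
theorem w21_mono {d : ℕ} (A A' X : ℕ) (hA : A ≤ A') (e : Fin d → ℕ) : BoxT A X e ⊆ BoxT A' X e := by
  unfold BoxT
  refine Fintype.piFinset_subset _ _ fun j => Icc_subset_Icc ?_ ?_
  · have : A * X ^ e j ≤ A' * X ^ e j := Nat.mul_le_mul_right _ hA
    omega
  · have : A * X ^ e j ≤ A' * X ^ e j := Nat.mul_le_mul_right _ hA
    omega

/-- monotone bounds of the constant terms -/
theorem w21_bmono {g : ℕ} (P : Fin g → ℤ[X]) (A A' X : ℕ) (hA : A ≤ A') (b : Fin g → ℤ)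
    (hb : ∀ i, |b i| ≤ A * (X : ℤ) ^ (P i).natDegree) (i : Fin g) : |b i| ≤ A' * (X : ℤ) ^ (P i).natDegree := by
  refine (hb i).trans (mul_le_mul_of_nonneg_right ?_ (by positivity))
  exact_mod_cast hA

/-- degrees -/
theorem w21_deg {g d : ℕ} (P : Fin g → ℤ[X]) (c : Fin g → Fin d → ℤ) (b : Fin g → ℤ) (t : Fin d → ℤ) :
    ∑ i, (famT P c b t i).natDegree = ∑ i, (P i).natDegree := by
  refine sum_congr rfl fun i _ => ?_
  unfold famT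
  rw [natDegree_add_C]

/-- **W17 for all levels at once.** -/
theorem W21_17 (hC : ACoreAll) {g d : ℕ} (G : ℤ[X]) (hG : G.natDegree = 1) (hl : 0 < G.leadingCoeff)
    (P : Fin g → ℤ[X]) (hP : ∀ i, 0 < (P i).leadingCoeff) (c : Fin g → Fin d → ℤ) (e : Fin d → ℕ)
    (hD : Dat c e (fun i => (P i).natDegree) (fun i => (P i).leadingCoeff)) :
    open Classical in ∃ δ1 : ℝ, 0 < δ1 ∧ ∀ A : ℕ, ∃ c0 : ℝ, 0 < c0 ∧ ∀ ε : ℝ, 0 < ε → ∃ (K : ℝ) (N0 : ℕ), ∀ N : ℕ, N0 ≤ N →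
      ∀ b : Fin g → ℤ, (∀ i, |b i| ≤ A * (argCount G N : ℤ) ^ (P i).natDegree) → ∀ z : ℕ, 1 ≤ z → (z : ℝ) ≤ (argCount G N : ℝ) ^ δ1 →
      (((BoxT A (argCount G N) e).filter fun t => (∀ i, 0 ≤ b i + lf c t i) ∧ ∃ z' : ℕ, z ≤ z' ∧
        (z' : ℝ) ≤ (argCount G N : ℝ) ^ δ1 ∧ FailsP ε (famT P c b t) G N z').card : ℝ) ≤
        (argCount G N : ℝ) ^ (∑ j, (e j : ℝ)) * ((Real.log (argCount G N)) ^ (-(A : ℝ)) + K * (z : ℝ) ^ (-c0)) := by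
  classical
  obtain ⟨δ1, hδ1, h⟩ := W17_main hC G hG hl P hP c e hD
  refine ⟨δ1, hδ1, fun A => ?_⟩
  obtain ⟨c0, hc0, h1⟩ := h (A + 2)
  refine ⟨c0, hc0, fun ε hε => ?_⟩
  obtain ⟨ε', β, z1, he0, he1, he2, hβ, hβ2, hpar⟩ := w21_par (∑ i, (P i).natDegree + G.natDegree) g ε hε
  obtain ⟨K, N0, h2⟩ := h1 ε' he0
  have hZt := Pool.Agent.Lib.H59.argCount_tendsto (G := G) (by rw [hG]) hl
  have hLt : Filter.Tendsto (fun N : ℕ => Real.log (argCount G N : ℝ)) Filter.atTop Filter.atTop :=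
    Real.tendsto_log_atTop.comp (tendsto_natCast_atTop_atTop.comp hZt)
  obtain ⟨N1, hN1⟩ := Filter.eventually_atTop.1 ((hZt.eventually_ge_atTop 1).and (hLt.eventually_ge_atTop (δ1 / Real.log β + 2)))
  refine ⟨(2 * A + 1 : ℝ) ^ d * (z1 : ℝ) ^ c0 + max K 0 * (2 ^ c0 / (1 - β ^ (-c0))), N0 + N1, fun N hN b hb z hz hz2 => ?_⟩
  obtain ⟨n1, n2⟩ := hN1 N (by omega)
  have hX1 : (1 : ℝ) ≤ argCount G N := by exact_mod_cast n1
  have key := w21_core ((BoxT A (argCount G N) e).filter fun t => ∀ i, 0 ≤ b i + lf c t i) (argCount G N) A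
    ((argCount G N : ℝ) ^ (∑ j, (e j : ℝ))) ((2 * A + 1 : ℝ) ^ d) c0 K δ1 β z1 (by positivity) (by positivity) hc0 hδ1 hβ hβ2 n1
    (le_trans (by exact_mod_cast card_le_card (filter_subset _ _)) (w21_box A (argCount G N) n1 e)) n2
    (fun z t => FailsP ε' (famT P c b t) G N z) (fun z t => FailsP ε (famT P c b t) G N z)
    (fun y hy1 hy2 => by
      refine le_trans ?_ (h2 N (by omega) b (w21_bmono P A (A + 2) _ (by omega) b hb) y hy1 hy2)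
      rw [filter_filter]
      exact_mod_cast card_le_card (filter_subset_filter _ (w21_mono A (A + 2) _ (by omega) e)))
    (fun y w hy hyw hw t ht => by
      obtain ⟨k1, k2⟩ := hpar y w hy hyw hw
      exact w21_fail _ G N (by omega) _ (by rw [w21_deg]) ε ε' hε he0 he1 he2 y w hyw k1 k2 ht) z hz
  rw [filter_filter] at key
  exact key

/-- the number of the pairs -/
theorem w21_pairs {d : ℕ} (A X Y : ℕ) (hX : 1 ≤ X) (e : Fin d → ℕ) (R : ℕ × (Fin d → ℤ) → Prop) [DecidablePred R] :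
    ((((Icc 1 Y ×ˢ BoxT A X e).filter R).card : ℕ) : ℝ) ≤ (2 * A + 1 : ℝ) ^ d * (Y * (X : ℝ) ^ (∑ j, (e j : ℝ))) := by
  have h1 : (((Icc 1 Y ×ˢ BoxT A X e).filter R).card : ℝ) ≤ ((Y * (BoxT A X e).card : ℕ) : ℝ) := by
    refine Nat.cast_le.2 (le_trans (card_le_card (filter_subset _ _)) ?_)
    rw [card_product, Nat.card_Icc, Nat.add_sub_cancel]
  refine h1.trans ?_
  push_cast
  have h2 := mul_le_mul_of_nonneg_left (w21_box A X hX e) (Nat.cast_nonneg (α := ℝ) Y)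
  refine h2.trans (le_of_eq ?_)
  ring

/-- **W19 for all levels at once.** -/
theorem W21_19 (hC : NCoreAll) {g d : ℕ} (G : ℤ[X]) (hG : 1 ≤ G.natDegree) (hl : 0 < G.leadingCoeff)
    (P : Fin g → ℤ[X]) (hP : ∀ i, 0 < (P i).leadingCoeff) (c : Fin g → Fin d → ℤ) (e : Fin d → ℕ)
    (hD : Dat c e (fun i => (P i).natDegree) (fun i => (P i).leadingCoeff)) :
    open Classical in ∃ δ1 : ℝ, 0 < δ1 ∧ ∀ A : ℕ, ∃ c0 : ℝ, 0 < c0 ∧ ∀ ε κ : ℝ, 0 < ε → 0 < κ → ∃ (K : ℝ) (Y0 : ℕ), ∀ Y : ℕ, Y0 ≤ Y →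
      ∀ b : Fin g → ℤ, (∀ i, |b i| ≤ A * (argCount G Y : ℤ) ^ (P i).natDegree) → ∀ z : ℕ, 1 ≤ z → (z : ℝ) ≤ (argCount G Y : ℝ) ^ δ1 →
      (((Icc 1 Y ×ˢ BoxT A (argCount G Y) e).filter fun x : ℕ × (Fin d → ℤ) => κ * Y ≤ x.1 ∧ (∀ i, 0 ≤ b i + lf c x.2 i) ∧
        ∃ z' : ℕ, z ≤ z' ∧ (z' : ℝ) ≤ (argCount G Y : ℝ) ^ δ1 ∧ FailsP ε (famT P c b x.2) G x.1 z').card : ℝ) ≤
        Y * (argCount G Y : ℝ) ^ (∑ j, (e j : ℝ)) * ((Real.log (argCount G Y)) ^ (-(A : ℝ)) + K * (z : ℝ) ^ (-c0)) := by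
  classical
  obtain ⟨δ1, hδ1, h⟩ := W19_main hC G hG hl P hP c e hD
  refine ⟨δ1, hδ1, fun A => ?_⟩
  obtain ⟨c0, hc0, h1⟩ := h (A + 2)
  refine ⟨c0, hc0, fun ε κ hε hκ => ?_⟩
  obtain ⟨ε', β, z1, he0, he1, he2, hβ, hβ2, hpar⟩ := w21_par (∑ i, (P i).natDegree + G.natDegree) g ε hε
  obtain ⟨K, N0, h2⟩ := h1 ε' κ he0 hκ
  have hZt := Pool.Agent.Lib.H59.argCount_tendsto (G := G) hG hl
  have hLt : Filter.Tendsto (fun N : ℕ => Real.log (argCount G N : ℝ)) Filter.atTop Filter.atTop :=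
    Real.tendsto_log_atTop.comp (tendsto_natCast_atTop_atTop.comp hZt)
  obtain ⟨N1, hN1⟩ := Filter.eventually_atTop.1 ((hZt.eventually_ge_atTop 1).and (hLt.eventually_ge_atTop (δ1 / Real.log β + 2)))
  refine ⟨(2 * A + 1 : ℝ) ^ d * (z1 : ℝ) ^ c0 + max K 0 * (2 ^ c0 / (1 - β ^ (-c0))), N0 + N1, fun Y hY b hb z hz hz2 => ?_⟩
  obtain ⟨n1, n2⟩ := hN1 Y (by omega)
  have hX1 : (1 : ℝ) ≤ argCount G Y := by exact_mod_cast n1
  have key := w21_core ((Icc 1 Y ×ˢ BoxT A (argCount G Y) e).filter fun x : ℕ × (Fin d → ℤ) => κ * Y ≤ x.1 ∧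
      ∀ i, 0 ≤ b i + lf c x.2 i) (argCount G Y) A
    (Y * (argCount G Y : ℝ) ^ (∑ j, (e j : ℝ))) ((2 * A + 1 : ℝ) ^ d) c0 K δ1 β z1 (by positivity) (by positivity) hc0 hδ1 hβ hβ2 n1
    (w21_pairs A (argCount G Y) Y n1 e _) n2
    (fun z x => FailsP ε' (famT P c b x.2) G x.1 z) (fun z x => FailsP ε (famT P c b x.2) G x.1 z)
    (fun y hy1 hy2 => by
      refine le_trans ?_ (h2 Y (by omega) b (w21_bmono P A (A + 2) _ (by omega) b hb) y hy1 hy2)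
      rw [filter_filter]
      refine Nat.cast_le.2 (card_le_card fun x hx => ?_)
      rw [mem_filter, mem_product] at hx ⊢
      exact ⟨⟨hx.1.1, w21_mono A (A + 2) _ (by omega) e hx.1.2⟩, hx.2.1.1, hx.2.1.2, hx.2.2⟩)
    (fun y w hy hyw hw x hx => by
      obtain ⟨k1, k2⟩ := hpar y w hy hyw hw
      exact w21_fail _ G x.1 hG _ (by rw [w21_deg]) ε ε' hε he0 he1 he2 y w hyw k1 k2 hx) z hz
  rw [filter_filter] at key
  refine le_trans (Nat.cast_le.2 (card_le_card fun x hx => ?_)) key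
  rw [mem_filter] at hx ⊢
  exact ⟨hx.1, ⟨hx.2.1, hx.2.2.1⟩, hx.2.2.2⟩

/-- **W18 for all levels at once.** -/
theorem W21_18 (hC : ACoreAll) {g d : ℕ} (G : ℤ[X]) (hG : 1 ≤ G.natDegree) (hl : 0 < G.leadingCoeff)
    (P : Fin g → ℤ[X]) (hP : ∀ i, 0 < (P i).leadingCoeff) (c : Fin g → Fin d → ℤ) (e : Fin d → ℕ)
    (hD : Dat c e (fun i => (P i).natDegree) (fun i => (P i).leadingCoeff))
    (F₀ : ℤ[X]) (hF : F₀.natDegree = 1) (hF0 : 0 < F₀.leadingCoeff) :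
    open Classical in ∃ δ1 : ℝ, 0 < δ1 ∧ ∀ A : ℕ, ∃ c0 : ℝ, 0 < c0 ∧ ∀ ε κ : ℝ, 0 < ε → 0 < κ → ∃ (K : ℝ) (Y0 : ℕ), ∀ Y : ℕ, Y0 ≤ Y →
      ∀ b : Fin g → ℤ, (∀ i, |b i| ≤ A * (argCount G Y : ℤ) ^ (P i).natDegree) → ∀ z : ℕ, 1 ≤ z → (z : ℝ) ≤ (argCount G Y : ℝ) ^ δ1 →
      (((Icc 1 Y ×ˢ BoxT A (argCount G Y) e).filter fun x : ℕ × (Fin d → ℤ) => κ * Y ≤ x.1 ∧ (∀ i, 0 ≤ b i + lf c x.2 i) ∧
        ∃ z' : ℕ, z ≤ z' ∧ (z' : ℝ) ≤ (argCount G Y : ℝ) ^ δ1 ∧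
          FailsP ε (Fin.cons F₀ (famT P c b x.2) : Fin (g + 1) → ℤ[X]) G x.1 z').card : ℝ) ≤
        Y * (argCount G Y : ℝ) ^ (∑ j, (e j : ℝ)) * ((Real.log (argCount G Y)) ^ (-(A : ℝ)) + K * (z : ℝ) ^ (-c0)) := by
  classical
  obtain ⟨δ1, hδ1, h⟩ := W18_main hC G hG hl P hP c e hD F₀ hF hF0
  refine ⟨δ1, hδ1, fun A => ?_⟩
  obtain ⟨c0, hc0, h1⟩ := h (A + 2)
  refine ⟨c0, hc0, fun ε κ hε hκ => ?_⟩
  obtain ⟨ε', β, z1, he0, he1, he2, hβ, hβ2, hpar⟩ := w21_par (1 + ∑ i, (P i).natDegree + G.natDegree) (g + 1) ε hε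
  obtain ⟨K, N0, h2⟩ := h1 ε' κ he0 hκ
  have hZt := Pool.Agent.Lib.H59.argCount_tendsto (G := G) hG hl
  have hLt : Filter.Tendsto (fun N : ℕ => Real.log (argCount G N : ℝ)) Filter.atTop Filter.atTop :=
    Real.tendsto_log_atTop.comp (tendsto_natCast_atTop_atTop.comp hZt)
  obtain ⟨N1, hN1⟩ := Filter.eventually_atTop.1 ((hZt.eventually_ge_atTop 1).and (hLt.eventually_ge_atTop (δ1 / Real.log β + 2)))
  refine ⟨(2 * A + 1 : ℝ) ^ d * (z1 : ℝ) ^ c0 + max K 0 * (2 ^ c0 / (1 - β ^ (-c0))), N0 + N1, fun Y hY b hb z hz hz2 => ?_⟩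
  obtain ⟨n1, n2⟩ := hN1 Y (by omega)
  have hX1 : (1 : ℝ) ≤ argCount G Y := by exact_mod_cast n1
  have hdeg : ∀ x : ℕ × (Fin d → ℤ), ∑ i, ((Fin.cons F₀ (famT P c b x.2) : Fin (g + 1) → ℤ[X]) i).natDegree + G.natDegree ≤
      1 + ∑ i, (P i).natDegree + G.natDegree := by
    intro x
    rw [Fin.sum_univ_succ]
    simp only [Fin.cons_zero, Fin.cons_succ]
    rw [w21_deg, hF]
  have key := w21_core ((Icc 1 Y ×ˢ BoxT A (argCount G Y) e).filter fun x : ℕ × (Fin d → ℤ) => κ * Y ≤ x.1 ∧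
      ∀ i, 0 ≤ b i + lf c x.2 i) (argCount G Y) A
    (Y * (argCount G Y : ℝ) ^ (∑ j, (e j : ℝ))) ((2 * A + 1 : ℝ) ^ d) c0 K δ1 β z1 (by positivity) (by positivity) hc0 hδ1 hβ hβ2 n1
    (w21_pairs A (argCount G Y) Y n1 e _) n2
    (fun z x => FailsP ε' (Fin.cons F₀ (famT P c b x.2) : Fin (g + 1) → ℤ[X]) G x.1 z)
    (fun z x => FailsP ε (Fin.cons F₀ (famT P c b x.2) : Fin (g + 1) → ℤ[X]) G x.1 z)
    (fun y hy1 hy2 => by
      refine le_trans ?_ (h2 Y (by omega) b (w21_bmono P A (A + 2) _ (by omega) b hb) y hy1 hy2)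
      rw [filter_filter]
      refine Nat.cast_le.2 (card_le_card fun x hx => ?_)
      rw [mem_filter, mem_product] at hx ⊢
      exact ⟨⟨hx.1.1, w21_mono A (A + 2) _ (by omega) e hx.1.2⟩, hx.2.1.1, hx.2.1.2, hx.2.2⟩)
    (fun y w hy hyw hw x hx => by
      obtain ⟨k1, k2⟩ := hpar y w hy hyw hw
      exact w21_fail _ G x.1 hG _ (hdeg x) ε ε' hε he0 he1 he2 y w hyw k1 k2 hx) z hz
  rw [filter_filter] at key
  refine le_trans (Nat.cast_le.2 (card_le_card fun x hx => ?_)) key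
  rw [mem_filter] at hx ⊢
  exact ⟨hx.1, ⟨hx.2.1, hx.2.2.1⟩, hx.2.2.2⟩

end Pool.Agent.HLA
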