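import Pool.Agent.Lib.HLA.W17
import Pool.Agent.Lib.HLA.W20
import Pool.Agent.Lib.H9A.N6b
import Pool.Agent.Lib.H9A.N10a

/-!
# LOGA, W22: all degrees one, the complete singular series, every large `N`
-/

open Finset Polynomial Filter

namespace Pool.Agent.HLA

open Pool.Agent.HUP Pool.Agent.H9P
open Pool.Agent.H9U (Sys SSS T1S_low T4S_tail iv)
open Pool.Agent.H9A (NZ N6_lim n6b_pr familyA shiftA N10_trans n10a_ev AsymA)
open Pool.Agent.H96U (gsys g1_val0 g1_valS)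
open Pool.Agent.Lib.H59P (pr)
open Pool.Agent.Lib.H59 (argSet argCount Admissible primeCount omegaN seriesTrunc)

/-- a linear polynomial -/
theorem w22_lin (P : ℤ[X]) (hP : P.natDegree = 1) : P = C P.leadingCoeff * X + C (P.coeff 0) := by
  have h1 := Polynomial.eq_X_add_C_of_natDegree_le_one (show P.natDegree ≤ 1 by omega)
  have h2 : P.leadingCoeff = P.coeff 1 := by
    unfold Polynomial.leadingCoeff
    rw [hP]
  rw [h2]
  exact h1

/-- powers against logarithms -/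
theorem w22_log (A : ℕ) (K r : ℝ) (hr : 0 < r) :
    ∀ᶠ X : ℕ in atTop, K * (X : ℝ) ^ (-r) ≤ 1 / 4 * (Real.log X) ^ (-(A : ℝ)) := by
  have h1 := (isLittleO_log_rpow_rpow_atTop (A : ℝ) hr).comp_tendsto tendsto_natCast_atTop_atTop
  have h2 := h1.def (show (0 : ℝ) < 1 / (4 * (|K| + 1)) by positivity)
  have h3 : Tendsto (fun X : ℕ => Real.log (X : ℝ)) atTop atTop := Real.tendsto_log_atTop.comp tendsto_natCast_atTop_atTop
  filter_upwards [h2, h3.eventually_ge_atTop 1, eventually_ge_atTop 1] with X h4 h5 h6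
  have hX : (0 : ℝ) < X := by exact_mod_cast h6
  have hl : 0 < Real.log X := by linarith
  simp only [Function.comp_apply] at h4
  rw [Real.norm_of_nonneg (Real.rpow_nonneg hl.le _), Real.norm_of_nonneg (Real.rpow_nonneg hX.le _)] at h4
  have hK : 0 ≤ |K| := abs_nonneg K
  have h7 : (|K| + 1) * (Real.log X) ^ (A : ℝ) ≤ 1 / 4 * (X : ℝ) ^ r := by
    have h8 := mul_le_mul_of_nonneg_left h4 (show 0 ≤ |K| + 1 by linarith)
    refine h8.trans (le_of_eq ?_)
    field_simp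
  have hL : 0 < (Real.log X) ^ (A : ℝ) := Real.rpow_pos_of_pos hl _
  have hR : 0 < (X : ℝ) ^ r := Real.rpow_pos_of_pos hX _
  rw [Real.rpow_neg hX.le, Real.rpow_neg hl.le, ← div_eq_mul_inv, ← div_eq_mul_inv, div_le_div_iff₀ hR hL]
  have h9 : K * (Real.log X) ^ (A : ℝ) ≤ (|K| + 1) * (Real.log X) ^ (A : ℝ) :=
    mul_le_mul_of_nonneg_right (by linarith [le_abs_self K]) hL.le
  linarith

/-- the complete series against the series cut at a power of `X` -/
theorem w22_lim {k d : ℕ} (S : Sys k d) (ha : ∀ i, S.a i ≠ 0) (δ e : ℝ) (hδ : 0 < δ) (he : 0 < e) :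
    ∃ X0 : ℕ, ∀ X z : ℕ, X0 ≤ X → (X : ℝ) ^ δ ≤ z + 2 → z ≤ X → ∀ (b : Fin k → ℤ) (t : Fin d → ℤ), S.Adm b t → NZ S b t X →
      ∃ s : ℝ, 0 < s ∧ Tendsto (fun z : ℕ => SSS S b t (pr z)) atTop (nhds s) ∧ |SSS S b t (pr z) - s| ≤ e * s := by
  obtain ⟨e', he'⟩ : ∃ e' : ℝ, e' = min e 1 / 4 := ⟨_, rfl⟩
  have he0 : 0 < e' := by
    rw [he']
    have := lt_min he one_pos
    linarith
  have he1 : e' ≤ 1 / 4 := by
    rw [he']
    have := min_le_right e 1
    linarith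
  have he2 : e' ≤ e / 4 := by
    rw [he']
    have := min_le_left e 1
    linarith
  obtain ⟨X6, h6⟩ := N6_lim S ha e' he0
  obtain ⟨X1, h1⟩ := T4S_tail S ha (δ / 16) (by linarith)
  have hexp : 0 < e' * Real.exp (-(4 * k : ℝ)) / 8 := by positivity
  have ht0 : Tendsto (fun X : ℕ => (X : ℝ) ^ (-(3 * δ / 16))) atTop (nhds 0) :=
    (tendsto_rpow_neg_atTop (by linarith)).comp tendsto_natCast_atTop_atTop
  have ht1 : Tendsto (fun X : ℕ => (X : ℝ) ^ δ) atTop atTop := (tendsto_rpow_atTop hδ).comp tendsto_natCast_atTop_atTop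
  obtain ⟨X2, h2⟩ := eventually_atTop.1 ((ht0.eventually (gt_mem_nhds hexp)).and (ht1.eventually_ge_atTop 4))
  refine ⟨X6 + X1 + X2 + 1, fun X z hX hz hzX b t hadm hnz => ?_⟩
  obtain ⟨s, hs0, hs, hs1⟩ := h6 X (by omega) b t hadm hnz
  obtain ⟨q1, q2⟩ := h2 X (by omega)
  refine ⟨s, hs0, hs, ?_⟩
  have hX0 : (0 : ℝ) < X := by
    have : 1 ≤ X := by omega
    exact_mod_cast this
  have hzr : (X : ℝ) ^ δ / 2 ≤ z := by linarith
  have hz0 : (0 : ℝ) < z := by linarith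
  have hz1 : 1 ≤ z := by
    have : (0 : ℝ) < z := hz0
    have : 0 < z := by exact_mod_cast this
    omega
  have e1 := h1 X z (by omega) hzX b t hnz 1 z hz1 le_rfl
  have e2 := h1 X X (by omega) le_rfl b t hnz 1 z hz1 hzX
  rw [n6b_pr] at e1 e2
  have hlow : Real.exp (-(4 * k : ℝ)) ≤ SSS S b t (pr X) :=
    T1S_low (S := S) (b := b) (t := t) hadm (pr X) fun l hl => (Pool.Agent.Lib.H59P.mem_pr.1 hl).2
  have hpw : (z : ℝ) ^ (-(1 / 4) : ℝ) * (X : ℝ) ^ (δ / 16) ≤ 2 * (X : ℝ) ^ (-(3 * δ / 16)) := by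
    have h3 : (z : ℝ) ^ (-(1 / 4) : ℝ) ≤ ((X : ℝ) ^ δ / 2) ^ (-(1 / 4) : ℝ) :=
      Real.rpow_le_rpow_of_nonpos (by positivity) hzr (by norm_num)
    have h4 : ((X : ℝ) ^ δ / 2) ^ (-(1 / 4) : ℝ) = (2 : ℝ) ^ (1 / 4 : ℝ) * (X : ℝ) ^ (-(δ / 4)) := by
      rw [Real.div_rpow (by positivity) (by norm_num), ← Real.rpow_mul hX0.le, Real.rpow_neg (by norm_num : (0 : ℝ) ≤ 2),
        div_inv_eq_mul, mul_comm]
      congr 2
      ring
    have h5 : (2 : ℝ) ^ (1 / 4 : ℝ) ≤ 2 := by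
      calc (2 : ℝ) ^ (1 / 4 : ℝ) ≤ (2 : ℝ) ^ (1 : ℝ) := Real.rpow_le_rpow_of_exponent_le (by norm_num) (by norm_num)
        _ = 2 := Real.rpow_one 2
    rw [h4] at h3
    have h6 : (X : ℝ) ^ (-(δ / 4)) * (X : ℝ) ^ (δ / 16) = (X : ℝ) ^ (-(3 * δ / 16)) := by
      rw [← Real.rpow_add hX0]
      congr 1
      ring
    calc (z : ℝ) ^ (-(1 / 4) : ℝ) * (X : ℝ) ^ (δ / 16)
        ≤ ((2 : ℝ) ^ (1 / 4 : ℝ) * (X : ℝ) ^ (-(δ / 4))) * (X : ℝ) ^ (δ / 16) :=
          mul_le_mul_of_nonneg_right h3 (by positivity)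
      _ = (2 : ℝ) ^ (1 / 4 : ℝ) * (X : ℝ) ^ (-(3 * δ / 16)) := by rw [mul_assoc, h6]
      _ ≤ 2 * (X : ℝ) ^ (-(3 * δ / 16)) := mul_le_mul_of_nonneg_right h5 (by positivity)
  have e3 : |SSS S b t (pr z) - SSS S b t (pr X)| ≤ e' * Real.exp (-(4 * k : ℝ)) / 2 := by
    rw [abs_le] at e1 e2 ⊢
    constructor
    · linarith [e1.1, e1.2, e2.1, e2.2]
    · linarith [e1.1, e1.2, e2.1, e2.2]
  have e4 := abs_le.1 hs1
  have hes : e' * s ≤ 1 / 4 * s := mul_le_mul_of_nonneg_right he1 hs0.le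
  have e5 : Real.exp (-(4 * k : ℝ)) ≤ 2 * s := by linarith [e4.2]
  have e6 : e' * Real.exp (-(4 * k : ℝ)) / 2 ≤ e' * s := by
    have := mul_le_mul_of_nonneg_left e5 he0.le
    linarith
  have e7 : 2 * (e' * s) ≤ e * s := by
    have : 2 * e' ≤ e := by linarith
    have := mul_le_mul_of_nonneg_right this hs0.le
    linarith
  have e8 := abs_le.1 (e3.trans e6)
  rw [abs_le]
  constructor
  · linarith [e4.1, e8.1]
  · linarith [e4.2, e8.2]

/-- a linear equation on the symmetric box -/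
theorem w22_eq {d : ℕ} (A X : ℕ) (v : Fin d → ℤ) (hv : v ≠ 0) (m : ℤ) :
    ((BoxT A X (fun _ : Fin d => 1)).filter fun t => m + ∑ j, v j * t j = 0).card ≤ (2 * (A * X) + 1) ^ (d - 1) := by
  classical
  obtain ⟨j0, hj0⟩ : ∃ j0, v j0 ≠ 0 := by
    by_contra hcon
    push Not at hcon
    exact hv (funext hcon)
  have hinj : Set.InjOn (fun (t : Fin d → ℤ) (j : {j // j ≠ j0}) => t j)
      ((BoxT A X (fun _ : Fin d => 1)).filter fun t => m + ∑ j, v j * t j = 0 : Finset (Fin d → ℤ)) := by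
    intro t ht s hs hts
    have ht2 := (mem_filter.1 (mem_coe.1 ht)).2
    have hs2 := (mem_filter.1 (mem_coe.1 hs)).2
    have h1 : ∀ j, j ≠ j0 → t j = s j := fun j hj => congrFun hts ⟨j, hj⟩
    have h2 : ∑ j, v j * t j = v j0 * t j0 + ∑ j ∈ univ.erase j0, v j * t j := (Finset.add_sum_erase _ _ (mem_univ j0)).symm
    have h3 : ∑ j, v j * s j = v j0 * s j0 + ∑ j ∈ univ.erase j0, v j * s j := (Finset.add_sum_erase _ _ (mem_univ j0)).symm
    have h4 : ∑ j ∈ univ.erase j0, v j * t j = ∑ j ∈ univ.erase j0, v j * s j :=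
      sum_congr rfl fun j hj => by rw [h1 j (ne_of_mem_erase hj)]
    funext j
    by_cases hj : j = j0
    · rw [hj]
      refine mul_left_cancel₀ hj0 ?_
      linarith
    · exact h1 j hj
  have hmaps : ∀ t ∈ (BoxT A X (fun _ : Fin d => 1)).filter fun t => m + ∑ j, v j * t j = 0,
      (fun (j : {j // j ≠ j0}) => t j) ∈ Fintype.piFinset fun _ : {j // j ≠ j0} => Icc (-((A * X : ℕ) : ℤ)) ((A * X : ℕ) : ℤ) := by
    intro t ht
    have h1 := (mem_filter.1 ht).1
    unfold BoxT at h1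
    rw [Fintype.mem_piFinset] at h1 ⊢
    intro j
    have := h1 j
    rw [pow_one] at this
    exact this
  refine (Finset.card_le_card_of_injOn _ hmaps hinj).trans (le_of_eq ?_)
  rw [Fintype.card_piFinset, prod_const, Int.card_Icc, card_univ, Fintype.card_subtype_compl, Fintype.card_fin,
    Fintype.card_subtype_eq]
  congr 1
  omega

/-- the data in the form of `W17` -/
theorem w22_dat {g d : ℕ} (P : Fin g → ℤ[X]) (hP : ∀ i, (P i).natDegree = 1) (hP0 : ∀ i, 0 < (P i).leadingCoeff)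
    (c : Fin g → Fin d → ℤ) (h0 : ∀ i, c i ≠ 0)
    (hc : ∀ i j, i ≠ j → (P i).leadingCoeff • c j ≠ (P j).leadingCoeff • c i) :
    Dat c (fun _ => 1) (fun i => (P i).natDegree) (fun i => (P i).leadingCoeff) where
  deg := fun i => by rw [hP i]
  lc := fun i => (hP0 i).ne'
  ne := fun i => by
    by_contra hcon
    push Not at hcon
    exact h0 i (funext hcon)
  ind := fun i i' hi hD x x' h1 h2 => by
    have hx : x = 0 := by
      by_contra hx0
      have hx' : x' ≠ 0 := fun h3 => by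
        rw [h3, zero_mul] at h1
        rcases mul_eq_zero.1 h1 with h4 | h4
        · exact hx0 h4
        · exact (hP0 i).ne' h4
      apply hc i i' hi
      funext j
      have h3 := h2 j
      show (P i).leadingCoeff * c i' j = (P i').leadingCoeff * c i j
      have h4 : x' * ((P i).leadingCoeff * c i' j) = x' * ((P i').leadingCoeff * c i j) := by
        calc x' * ((P i).leadingCoeff * c i' j) = (P i).leadingCoeff * (x' * c i' j) := by ring
          _ = (P i).leadingCoeff * (x * c i j) := by rw [h3]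
          _ = (x * (P i).leadingCoeff) * c i j := by ring
          _ = (x' * (P i').leadingCoeff) * c i j := by rw [h1]
          _ = x' * ((P i').leadingCoeff * c i j) := by ring
      exact mul_left_cancel₀ hx' h4
    refine ⟨hx, ?_⟩
    rw [hx, zero_mul] at h1
    rcases mul_eq_zero.1 h1.symm with h4 | h4
    · exact h4
    · exact absurd h4 (hP0 i').ne'
  par := fun _ => le_refl 1
  blk := fun i _ _ => (hP i).symm

/-- the last comparison -/
theorem w22_calc (Q B S' s e ε : ℝ) (hB : 0 ≤ B) (hs : 0 < s) (he0 : 0 < e) (he1 : e ≤ 1 / 4) (he2 : e ≤ ε / 4)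
    (h1 : |Q - B * S'| ≤ e * (B * S')) (h2 : |S' - s| ≤ e * s) : |Q - B * s| ≤ ε * (B * s) := by
  have hBs : 0 ≤ B * s := mul_nonneg hB hs.le
  have h3 : |B * S' - B * s| ≤ e * (B * s) := by
    rw [← mul_sub, abs_mul, abs_of_nonneg hB]
    calc B * |S' - s| ≤ B * (e * s) := mul_le_mul_of_nonneg_left h2 hB
      _ = e * (B * s) := by ring
  have h4 := abs_le.1 h3
  have h5 : e * (B * s) ≤ 1 / 4 * (B * s) := mul_le_mul_of_nonneg_right he1 hBs
  have h6 : e * (B * S') ≤ e * (2 * (B * s)) := mul_le_mul_of_nonneg_left (by linarith) he0.le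
  have h7 : 4 * e * (B * s) ≤ ε * (B * s) := mul_le_mul_of_nonneg_right (by linarith) hBs
  have h8 := abs_le.1 h1
  have h9 : 0 ≤ e * (B * s) := mul_nonneg he0.le hBs
  rw [abs_le]
  constructor <;> linarith

open Classical in
/-- **W22.** All degrees one, the complete singular series, symmetric boxes, every large `N`. -/
theorem W22_main {g d : ℕ} (hd : 1 ≤ d) (G : ℤ[X]) (hG : G.natDegree = 1) (hG0 : 0 < G.leadingCoeff) (P : Fin g → ℤ[X])
    (hP : ∀ i, (P i).natDegree = 1) (hP0 : ∀ i, 0 < (P i).leadingCoeff) (c : Fin g → Fin d → ℤ) (h0 : ∀ i, c i ≠ 0)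
    (hc : ∀ i j, i ≠ j → (P i).leadingCoeff • c j ≠ (P j).leadingCoeff • c i) (A : ℕ) (ε : ℝ) (hε : 0 < ε) :
    ∃ N0 : ℕ, ∀ N : ℕ, N0 ≤ N → ∀ b : Fin g → ℤ, (∀ i, |b i| ≤ A * (argCount G N : ℤ)) →
      (((BoxT A (argCount G N) (fun _ : Fin d => 1)).filter fun t => (∀ i, 0 ≤ b i + lf c t i) ∧
        Admissible (famP P c b t) G N ∧ ¬ AsymA (famP P c b t) G N ε).card : ℝ) ≤
          (argCount G N : ℝ) ^ (d : ℝ) * (Real.log (argCount G N)) ^ (-(A : ℝ)) := by
  obtain ⟨e, he⟩ : ∃ e : ℝ, e = min ε 1 / 4 := ⟨_, rfl⟩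
  have he0 : 0 < e := by
    rw [he]
    have := lt_min hε one_pos
    linarith
  have he1 : e ≤ 1 / 4 := by
    rw [he]
    have := min_le_right ε 1
    linarith
  have he2 : e ≤ ε / 4 := by
    rw [he]
    have := min_le_left ε 1
    linarith
  -- the coefficients of `G`
  have hlc : G.leadingCoeff = G.coeff 1 := by
    unfold Polynomial.leadingCoeff
    rw [hG]
  obtain ⟨γ, hγ⟩ : ∃ γ : ℕ, (γ : ℤ) = G.coeff 1 := by
    refine ⟨(G.coeff 1).toNat, Int.toNat_of_nonneg ?_⟩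
    omega
  have hγ0 : 0 < (γ : ℤ) := by
    rw [hγ, ← hlc]
    exact hG0
  have hγ1 : 0 < γ := by exact_mod_cast hγ0
  have hGe : ∀ n : ℤ, G.eval n = γ * n + G.coeff 0 := by
    intro n
    have h1 := Polynomial.eq_X_add_C_of_natDegree_le_one (show G.natDegree ≤ 1 by omega)
    rw [h1, hγ]
    simp
  obtain ⟨γ0, hγe⟩ : ∃ γ0 : ℤ, γ0 = G.coeff 0 := ⟨_, rfl⟩
  rw [← hγe] at hGe
  obtain ⟨g0, hg0⟩ : ∃ g0 : ℕ, g0 = γ0.natAbs := ⟨_, rfl⟩
  obtain ⟨f, hf⟩ : ∃ f : Fin g → ℤ, f = fun i => (P i).leadingCoeff := ⟨_, rfl⟩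
  obtain ⟨c', hc'⟩ : ∃ c' : Fin g → Fin 0 → ℤ, c' = fun _ _ => 0 := ⟨_, rfl⟩
  obtain ⟨t0, ht0⟩ : ∃ t0 : Fin 0 → ℕ, t0 = fun _ => 0 := ⟨_, rfl⟩
  have hfi : ∀ i, f i = (P i).leadingCoeff := fun i => by rw [hf]
  have hf1 : ∀ i, 1 ≤ f i := fun i => by
    rw [hfi]
    have := hP0 i
    omega
  have ha : ∀ i, (gsys (γ : ℤ) f c').a i ≠ 0 := by
    intro i
    refine Fin.cases ?_ (fun i => ?_) i
    · show (-(γ : ℤ)) ≠ 0
      omega
    · show f i ≠ 0
      have := hf1 i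
      omega
  -- the constants
  obtain ⟨Ff, hFf⟩ : ∃ Ff : ℕ, Ff = ∑ i, (f i).natAbs := ⟨_, rfl⟩
  obtain ⟨W, hW⟩ : ∃ W : ℕ, W = ∑ i, ((P i).coeff 0).natAbs := ⟨_, rfl⟩
  obtain ⟨Sc, hSc⟩ : ∃ Sc : ℕ, Sc = ∑ i, ∑ j, (c i j).natAbs := ⟨_, rfl⟩
  obtain ⟨Mx, hMx⟩ : ∃ Mx : ℕ, Mx = (W + A + A * Sc) + (γ + γ * (g0 + 1) + g0) := ⟨_, rfl⟩
  obtain ⟨δ1, hδ1, hW17⟩ := W17_main W20_A G hG hG0 P hP0 c (fun _ => 1) (w22_dat P hP hP0 c h0 hc)
  obtain ⟨c0, hc0, hW17⟩ := hW17 (A + 1)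
  obtain ⟨K, N0, hW17⟩ := hW17 e he0
  obtain ⟨δ, hδ⟩ : ∃ δ : ℝ, δ = min δ1 1 := ⟨_, rfl⟩
  have hδ0 : 0 < δ := by
    rw [hδ]
    exact lt_min hδ1 one_pos
  have hδa : δ ≤ δ1 := by
    rw [hδ]
    exact min_le_left _ _
  have hδb : δ ≤ 1 := by
    rw [hδ]
    exact min_le_right _ _
  obtain ⟨X0, hX0⟩ := w22_lim (gsys (γ : ℤ) f c') ha δ e hδ0 he0
  have hZt := Pool.Agent.Lib.H59.argCount_tendsto (G := G) (by rw [hG]) hG0
  have hd1 : Tendsto (fun X : ℕ => (X : ℝ) ^ δ) atTop atTop := (tendsto_rpow_atTop hδ0).comp tendsto_natCast_atTop_atTop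
  have hl1 : Tendsto (fun X : ℕ => Real.log (X : ℝ)) atTop atTop := Real.tendsto_log_atTop.comp tendsto_natCast_atTop_atTop
  obtain ⟨B1, hB1⟩ : ∃ B1 : ℕ, B1 = g * g * (2 * A + 1) ^ (d - 1) := ⟨_, rfl⟩
  have hev := (((hd1.eventually_ge_atTop 4).and (hl1.eventually_ge_atTop 4)).and
    ((w22_log A (|K| * 2 ^ c0) (δ * c0) (by positivity)).and (w22_log A B1 1 one_pos))).and
    (eventually_ge_atTop (X0 + 2 * (γ + Ff) * Mx + 1))
  obtain ⟨N1, hN1⟩ := eventually_atTop.1 (hZt.eventually hev)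
  refine ⟨N0 + N1 + g0 + γ * W + 1, fun N hN b hb => ?_⟩
  obtain ⟨⟨⟨n1, n2⟩, n3, n4⟩, n5⟩ := hN1 N (by omega)
  have htr := fun u : Fin g → ℤ => N10_trans G γ hγ1 γ0 hGe f c' u t0 N
  obtain ⟨Xn, hXn⟩ : ∃ Xn : ℕ, Xn = argCount G N := ⟨_, rfl⟩
  have hX3 := (htr (fun _ => 0)).2.2
  have hWb := hW17 N (by omega) b (fun i => by
    rw [hP i, pow_one]
    refine (hb i).trans ?_
    have : (A : ℤ) ≤ ((A + 1 : ℕ) : ℤ) := by
      push_cast
      omega
    exact mul_le_mul_of_nonneg_right this (Int.natCast_nonneg _))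
  rw [← hXn] at n1 n2 n3 n4 n5 hX3 hWb hb ⊢
  have hX1 : 1 ≤ Xn := by omega
  have hX1r : (1 : ℝ) ≤ Xn := by exact_mod_cast hX1
  have hX0r : (0 : ℝ) < Xn := by linarith
  -- `N` against `X`
  have hNX : N ≤ γ * (Xn + g0 + 1) := by
    have h1 := (abs_le.1 hX3).1
    rw [← hg0] at h1
    have hγr : (0 : ℝ) < γ := by exact_mod_cast hγ1
    have h2 : (N : ℝ) / γ ≤ Xn + g0 + 1 := by linarith
    rw [div_le_iff₀ hγr] at h2
    have h3 : (N : ℝ) ≤ ((γ * (Xn + g0 + 1) : ℕ) : ℝ) := by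
      push_cast
      linarith
    exact_mod_cast h3
  -- the level
  obtain ⟨z, hz⟩ : ∃ z : ℕ, z = ⌊(Xn : ℝ) ^ δ⌋₊ := ⟨_, rfl⟩
  have hz1 : (z : ℝ) ≤ (Xn : ℝ) ^ δ := by
    rw [hz]
    exact Nat.floor_le (by positivity)
  have hz2 : (Xn : ℝ) ^ δ < z + 1 := by
    rw [hz]
    exact Nat.lt_floor_add_one _
  have hz3 : 3 ≤ z := by
    have : (3 : ℝ) < z + 1 := by linarith
    have : 3 < z + 1 := by exact_mod_cast this
    omega
  have hzX : (Xn : ℝ) ^ δ ≤ Xn := by
    calc (Xn : ℝ) ^ δ ≤ (Xn : ℝ) ^ (1 : ℝ) := Real.rpow_le_rpow_of_exponent_le hX1r hδb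
      _ = Xn := Real.rpow_one _
  have hzX' : z ≤ Xn := by exact_mod_cast hz1.trans hzX
  have hzb := hWb z (by omega) (hz1.trans (Real.rpow_le_rpow_of_exponent_le hX1r hδa))
  -- the zero minors
  obtain ⟨Zm, hZm⟩ : ∃ Zm : Finset (Fin d → ℤ), Zm = (univ : Finset (Fin g × Fin g)).biUnion fun ij =>
      (BoxT A Xn (fun _ : Fin d => 1)).filter fun t => ij.1 ≠ ij.2 ∧
        f ij.1 * ((P ij.2).coeff 0 + (b ij.2 + lf c t ij.2)) - f ij.2 * ((P ij.1).coeff 0 + (b ij.1 + lf c t ij.1)) = 0 := ⟨_, rfl⟩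
  have hZc : Zm.card ≤ g * g * (2 * (A * Xn) + 1) ^ (d - 1) := by
    rw [hZm]
    refine card_biUnion_le.trans ?_
    have h1 : ∀ ij ∈ (univ : Finset (Fin g × Fin g)), ((BoxT A Xn (fun _ : Fin d => 1)).filter fun t => ij.1 ≠ ij.2 ∧
        f ij.1 * ((P ij.2).coeff 0 + (b ij.2 + lf c t ij.2)) - f ij.2 * ((P ij.1).coeff 0 + (b ij.1 + lf c t ij.1)) = 0).card ≤
        (2 * (A * Xn) + 1) ^ (d - 1) := by
      rintro ⟨i, j⟩ -
      by_cases hij : i = j
      · refine le_trans (le_of_eq ?_) (Nat.zero_le _)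
        rw [card_eq_zero, filter_eq_empty_iff]
        intro t _ h
        exact h.1 hij
      · refine le_trans (card_le_card ?_) (w22_eq A Xn (f i • c j - f j • c i) (fun h => ?_)
          (f i * ((P j).coeff 0 + b j) - f j * ((P i).coeff 0 + b i)))
        · intro t ht
          rw [mem_filter] at ht ⊢
          refine ⟨ht.1, ?_⟩
          have h2 := ht.2.2
          have h3 : ∑ l, (f i • c j - f j • c i) l * t l = f i * lf c t j - f j * lf c t i := by
            unfold lf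
            rw [mul_sum, mul_sum, ← sum_sub_distrib]
            refine sum_congr rfl fun l _ => ?_
            simp only [Pi.sub_apply, Pi.smul_apply, smul_eq_mul]
            ring
          rw [h3]
          simp only at h2
          linarith
        · have h2 := sub_eq_zero.1 h
          rw [hfi, hfi] at h2
          exact hc i j hij h2
    refine (sum_le_sum h1).trans (le_of_eq ?_)
    rw [sum_const, card_univ, Fintype.card_prod, Fintype.card_fin, smul_eq_mul]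
  -- the inclusion
  have hsub : ((BoxT A Xn (fun _ : Fin d => 1)).filter fun t => (∀ i, 0 ≤ b i + lf c t i) ∧
        Admissible (famP P c b t) G N ∧ ¬ AsymA (famP P c b t) G N ε) ⊆
      Zm ∪ ((BoxT (A + 1) Xn (fun _ : Fin d => 1)).filter fun t => (∀ i, 0 ≤ b i + lf c t i) ∧
        FailsP e (famT P c b t) G N z) := by
    intro t ht
    rw [mem_filter] at ht
    obtain ⟨t1, t2, t3, t4⟩ := ht
    rw [mem_union]
    by_contra hno
    rw [not_or] at hno
    obtain ⟨hno1, hno2⟩ := hno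
    have hnof : ¬ FailsP e (famP P c b t) G N z := by
      intro hF
      apply hno2
      rw [mem_filter]
      refine ⟨?_, t2, hF⟩
      unfold BoxT at t1 ⊢
      rw [Fintype.mem_piFinset] at t1 ⊢
      intro j
      have h1 := mem_Icc.1 (t1 j)
      have h2 : A * Xn ^ 1 ≤ (A + 1) * Xn ^ 1 := Nat.mul_le_mul_right _ (by omega)
      rw [mem_Icc]
      constructor
      · have : ((A * Xn ^ 1 : ℕ) : ℤ) ≤ (((A + 1) * Xn ^ 1 : ℕ) : ℤ) := by exact_mod_cast h2
        linarith [h1.1]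
      · have : ((A * Xn ^ 1 : ℕ) : ℤ) ≤ (((A + 1) * Xn ^ 1 : ℕ) : ℤ) := by exact_mod_cast h2
        linarith [h1.2]
    -- the constant terms
    obtain ⟨u, hu⟩ : ∃ u : Fin g → ℤ, u = fun i => (P i).coeff 0 + (b i + lf c t i) := ⟨_, rfl⟩
    have hui : ∀ i, u i = (P i).coeff 0 + (b i + lf c t i) := fun i => by rw [hu]
    have hfe : famP P c b t = familyA f c' u t0 := by
      funext i
      unfold familyA famP shiftA
      rw [Fintype.sum_empty, add_zero, hui, hfi]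
      conv_lhs => rw [w22_lin (P i) (hP i)]
      simp only [C_add]
      ring
    obtain ⟨k1, k2, -⟩ := htr u
    rw [← hfe] at k1 k2
    have hWi : ∀ i, |(P i).coeff 0| ≤ W := by
      intro i
      have h1 : ((P i).coeff 0).natAbs ≤ W := by
        rw [hW]
        exact Finset.single_le_sum (f := fun i => ((P i).coeff 0).natAbs) (fun _ _ => Nat.zero_le _) (Finset.mem_univ i)
      rw [Int.abs_eq_natAbs]
      exact_mod_cast h1
    have hup : ∀ i, b i + lf c t i ≤ ((A + A * Sc : ℕ) : ℤ) * Xn := by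
      intro i
      have h1 := w17_lf c (fun _ => 1) (fun _ => 1) (fun _ _ _ => rfl) A Xn t t1 i
      rw [← hSc, pow_one] at h1
      have h2 := (abs_le.1 (hb i)).2
      push_cast
      linarith
    have hulow : ∀ i, -(W : ℤ) ≤ u i := by
      intro i
      have h1 := (abs_le.1 (hWi i)).1
      have h2 := t2 i
      rw [hui]
      linarith
    have huabs : ∀ i, |u i| ≤ ((W + A + A * Sc : ℕ) : ℤ) * Xn := by
      intro i
      have h1 := abs_le.1 (hWi i)
      have h2 := t2 i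
      have h3 := hup i
      have hXz : (1 : ℤ) ≤ Xn := by exact_mod_cast hX1
      have hWX : (W : ℤ) ≤ W * Xn := le_mul_of_one_le_right (Int.natCast_nonneg _) hXz
      have h4 : (0 : ℤ) ≤ ((A + A * Sc : ℕ) : ℤ) * Xn := by positivity
      have h5 : ((W + A + A * Sc : ℕ) : ℤ) * Xn = W * Xn + ((A + A * Sc : ℕ) : ℤ) * Xn := by
        push_cast
        ring
      rw [h5, hui, abs_le]
      constructor <;> linarith
    have hN0 : |(N : ℤ) - γ0| ≤ ((γ + γ * (g0 + 1) + g0 : ℕ) : ℤ) * Xn := by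
      have hXz : (1 : ℤ) ≤ Xn := by exact_mod_cast hX1
      have h1 : |γ0| = g0 := by
        rw [hg0, Int.abs_eq_natAbs]
      have h2 : (N : ℤ) ≤ γ * (Xn + g0 + 1) := by exact_mod_cast hNX
      have h3 : |(N : ℤ) - γ0| ≤ N + g0 := by
        refine (abs_sub _ _).trans ?_
        rw [h1, abs_of_nonneg (Int.natCast_nonneg _)]
      have h4 : (g0 : ℤ) ≤ g0 * Xn := le_mul_of_one_le_right (Int.natCast_nonneg _) hXz
      have h5 : (γ : ℤ) * (g0 + 1) ≤ γ * (g0 + 1) * Xn := le_mul_of_one_le_right (by positivity) hXz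
      push_cast
      linarith
    have hNb : (γ : ℤ) * W < (N : ℤ) - γ0 := by
      have h1 : γ0 ≤ g0 := by
        rw [hg0]
        exact Int.le_natAbs
      have h2 : ((N0 + N1 + g0 + γ * W + 1 : ℕ) : ℤ) ≤ N := by exact_mod_cast hN
      push_cast at h2
      have h3 : (0 : ℤ) ≤ N0 := Int.natCast_nonneg _
      have h4 : (0 : ℤ) ≤ N1 := Int.natCast_nonneg _
      linarith
    have hkey : ∀ i, 0 < (γ : ℤ) * u i + f i * ((N : ℤ) - γ0) := by
      intro i
      have h1 : (γ : ℤ) * (-(W : ℤ)) ≤ γ * u i := mul_le_mul_of_nonneg_left (hulow i) hγ0.le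
      have h2 : 1 * ((N : ℤ) - γ0) ≤ f i * ((N : ℤ) - γ0) := by
        refine mul_le_mul_of_nonneg_right (hf1 i) ?_
        have : (0 : ℤ) ≤ (γ : ℤ) * W := by positivity
        linarith
      linarith
    obtain ⟨bb, hbb⟩ : ∃ bb : Fin (g + 1) → ℤ, bb = Fin.cons ((N : ℤ) - γ0) u := ⟨_, rfl⟩
    have hv0 : (gsys (γ : ℤ) f c').val bb 0 (iv t0) 0 = (N : ℤ) - γ0 := by
      rw [hbb, g1_val0]
      ring
    have hvS : ∀ i : Fin g, (gsys (γ : ℤ) f c').val bb 0 (iv t0) i.succ = u i := by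
      intro i
      rw [hbb, g1_valS, Fintype.sum_empty]
      ring
    have ha0 : (gsys (γ : ℤ) f c').a 0 = -γ := rfl
    have haS : ∀ i : Fin g, (gsys (γ : ℤ) f c').a i.succ = f i := fun i => rfl
    have hval : ∀ i, |(gsys (γ : ℤ) f c').val bb 0 (iv t0) i| ≤ (Mx : ℤ) * Xn := by
      intro i
      have e1 : (Mx : ℤ) * Xn = ((W + A + A * Sc : ℕ) : ℤ) * Xn + ((γ + γ * (g0 + 1) + g0 : ℕ) : ℤ) * Xn := by
        rw [hMx]
        push_cast
        ring
      have e2 : (0 : ℤ) ≤ ((W + A + A * Sc : ℕ) : ℤ) * Xn := by positivity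
      have e3 : (0 : ℤ) ≤ ((γ + γ * (g0 + 1) + g0 : ℕ) : ℤ) * Xn := by positivity
      rw [e1]
      refine Fin.cases ?_ (fun i => ?_) i
      · rw [hv0]
        linarith
      · rw [hvS]
        have := huabs i
        linarith
    have haB : ∀ i, |(gsys (γ : ℤ) f c').a i| ≤ ((γ + Ff : ℕ) : ℤ) := by
      intro i
      refine Fin.cases ?_ (fun i => ?_) i
      · rw [ha0, abs_neg, abs_of_nonneg hγ0.le]
        push_cast
        have : (0 : ℤ) ≤ Ff := Int.natCast_nonneg _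
        linarith
      · rw [haS, Int.abs_eq_natAbs]
        have h1 : (f i).natAbs ≤ Ff := by
          rw [hFf]
          exact Finset.single_le_sum (f := fun i => (f i).natAbs) (fun _ _ => Nat.zero_le _) (Finset.mem_univ i)
        have h2 : (f i).natAbs ≤ γ + Ff := by omega
        exact_mod_cast h2
    have hNZ : NZ (gsys (γ : ℤ) f c') bb (iv t0) Xn := by
      intro i j hij
      constructor
      · unfold Pool.Agent.H9U.Sys.minr
        revert hij
        refine Fin.cases ?_ (fun i => ?_) i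
        · refine Fin.cases ?_ (fun j => ?_) j
          · intro h
            exact absurd rfl h
          · intro _
            rw [ha0, haS, hv0, hvS]
            have := hkey j
            intro h
            linarith
        · refine Fin.cases ?_ (fun j => ?_) j
          · intro _
            rw [ha0, haS, hv0, hvS]
            have := hkey i
            intro h
            linarith
          · intro hij
            rw [haS, haS, hvS, hvS]
            intro h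
            apply hno1
            rw [hZm, mem_biUnion]
            refine ⟨(i, j), mem_univ _, mem_filter.2 ⟨t1, fun h' => hij (congrArg Fin.succ h'), ?_⟩⟩
            show f i * ((P j).coeff 0 + (b j + lf c t j)) - f j * ((P i).coeff 0 + (b i + lf c t i)) = 0
            rw [← hui, ← hui]
            exact h
      · have h1 : ∀ i j, |(gsys (γ : ℤ) f c').a i * (gsys (γ : ℤ) f c').val bb 0 (iv t0) j| ≤ ((γ + Ff : ℕ) : ℤ) * (Mx * Xn) := by
          intro i j
          rw [abs_mul]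
          exact mul_le_mul (haB i) (hval j) (abs_nonneg _) (Int.natCast_nonneg _)
        have h2 : |(gsys (γ : ℤ) f c').minr bb (iv t0) i j| ≤ ((γ + Ff : ℕ) : ℤ) * (Mx * Xn) + ((γ + Ff : ℕ) : ℤ) * (Mx * Xn) := by
          unfold Pool.Agent.H9U.Sys.minr
          exact (abs_sub _ _).trans (add_le_add (h1 i j) (h1 j i))
        refine h2.trans ?_
        have h3 : (γ + Ff) * (Mx * Xn) + (γ + Ff) * (Mx * Xn) ≤ Xn ^ 3 := by
          calc (γ + Ff) * (Mx * Xn) + (γ + Ff) * (Mx * Xn) = (2 * (γ + Ff) * Mx) * Xn := by ring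
            _ ≤ Xn * Xn := Nat.mul_le_mul_right _ (by omega)
            _ ≤ Xn * Xn * Xn := Nat.le_mul_of_pos_right _ hX1
            _ = Xn ^ 3 := by ring
        exact_mod_cast h3
    have hAdm : (gsys (γ : ℤ) f c').Adm bb (iv t0) := by
      intro l hl
      have h5 := t3.2 l hl
      push Not at h5
      obtain ⟨n, hn⟩ := h5
      refine ⟨n, fun i hi => hn ?_⟩
      rw [hfe, eval_mul, eval_prod]
      revert hi
      refine Fin.cases ?_ (fun i => ?_) i
      · intro hi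
        rw [hbb, g1_val0] at hi
        refine Dvd.dvd.mul_left ?_ _
        rw [eval_sub, eval_C, hGe]
        have e1 : (N : ℤ) - (γ * n + γ0) = N - γ0 - γ * n := by ring
        rw [e1]
        exact hi
      · intro hi
        rw [hbb, g1_valS] at hi
        refine Dvd.dvd.mul_right ?_ _
        refine Dvd.dvd.trans ?_ (Finset.dvd_prod_of_mem _ (mem_univ i))
        rw [n10a_ev]
        exact hi
    obtain ⟨z', hz'⟩ : ∃ z' : ℕ, z = z' + 1 := ⟨z - 1, by omega⟩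
    obtain ⟨s, hs0, hs1, hs2⟩ := hX0 Xn z' (by omega) (by
      rw [hz'] at hz2
      push_cast at hz2
      linarith) (by omega) bb (iv t0) hAdm hNZ
    apply t4
    refine ⟨s, ?_, ?_⟩
    · refine (tendsto_add_atTop_iff_nat 1).1 ?_
      refine hs1.congr fun w => ?_
      rw [k2 w, hbb]
    · have hdeg : ∀ i, (famP P c b t i).natDegree = 1 := by
        intro i
        unfold famP
        rw [natDegree_add_C]
        exact hP i
      have hmt : mainTermP (famP P c b t) G N z = (Xn : ℝ) / Real.log Xn ^ (g + 1) * SSS (gsys (γ : ℤ) f c') bb (iv t0) (pr z') := by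
        unfold mainTermP
        rw [hz', k2 z', hG, Finset.prod_congr rfl fun i _ => by rw [hdeg i], ← hXn, hbb]
        simp
      have hno3 : |(primeCount (famP P c b t) G N : ℝ) - mainTermP (famP P c b t) G N z| ≤
          e * mainTermP (famP P c b t) G N z := by
        by_contra hcon
        rw [not_le] at hcon
        exact hnof ⟨t3, hcon⟩
      rw [hmt] at hno3
      rw [← hXn]
      exact w22_calc _ _ _ s e ε (by
        have : 0 ≤ Real.log (Xn : ℝ) := by linarith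
        positivity) hs0 he0 he1 he2 hno3 hs2
  -- the count
  have hcard : (((Zm ∪ ((BoxT (A + 1) Xn (fun _ : Fin d => 1)).filter fun t => (∀ i, 0 ≤ b i + lf c t i) ∧
        FailsP e (famT P c b t) G N z)).card : ℕ) : ℝ) ≤ (Xn : ℝ) ^ (d : ℝ) * (Real.log Xn) ^ (-(A : ℝ)) := by
    have hL0 : 0 < Real.log (Xn : ℝ) := by linarith
    have hLA : 0 < (Real.log (Xn : ℝ)) ^ (-(A : ℝ)) := Real.rpow_pos_of_pos hL0 _
    have hXd : 0 < (Xn : ℝ) ^ (d : ℝ) := Real.rpow_pos_of_pos hX0r _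
    have h1 : (Zm.card : ℝ) ≤ (Xn : ℝ) ^ (d : ℝ) * (1 / 4 * (Real.log Xn) ^ (-(A : ℝ))) := by
      have h2 : (Zm.card : ℝ) ≤ ((g * g * (2 * (A * Xn) + 1) ^ (d - 1) : ℕ) : ℝ) := by exact_mod_cast hZc
      have h3 : ((g * g * (2 * (A * Xn) + 1) ^ (d - 1) : ℕ) : ℝ) ≤ (B1 : ℝ) * (Xn : ℝ) ^ (d - 1) := by
        have h4 : 2 * (A * Xn) + 1 ≤ (2 * A + 1) * Xn := by
          have : (2 * A + 1) * Xn = 2 * (A * Xn) + Xn := by ring
          omega
        have h5 : g * g * (2 * (A * Xn) + 1) ^ (d - 1) ≤ B1 * Xn ^ (d - 1) := by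
          calc g * g * (2 * (A * Xn) + 1) ^ (d - 1) ≤ g * g * ((2 * A + 1) * Xn) ^ (d - 1) :=
                Nat.mul_le_mul_left _ (Nat.pow_le_pow_left h4 _)
            _ = B1 * Xn ^ (d - 1) := by
                rw [hB1, mul_pow]
                ring
        exact_mod_cast h5
      have h6 : (Xn : ℝ) ^ (d - 1) = (Xn : ℝ) ^ (d : ℝ) * (Xn : ℝ) ^ (-(1 : ℝ)) := by
        rw [← Real.rpow_add hX0r, ← Real.rpow_natCast]
        congr 1
        push_cast [Nat.cast_sub hd]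
        ring
      calc (Zm.card : ℝ) ≤ (B1 : ℝ) * (Xn : ℝ) ^ (d - 1) := h2.trans h3
        _ = (Xn : ℝ) ^ (d : ℝ) * ((B1 : ℝ) * (Xn : ℝ) ^ (-(1 : ℝ))) := by
            rw [h6]
            ring
        _ ≤ _ := mul_le_mul_of_nonneg_left n4 hXd.le
    have hsum : (∑ j : Fin d, (((fun _ : Fin d => 1) j : ℕ) : ℝ)) = d := by
      simp
    have h2 : (((BoxT (A + 1) Xn (fun _ : Fin d => 1)).filter fun t => (∀ i, 0 ≤ b i + lf c t i) ∧
        FailsP e (famT P c b t) G N z).card : ℝ) ≤ (Xn : ℝ) ^ (d : ℝ) * (1 / 2 * (Real.log Xn) ^ (-(A : ℝ))) := by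
      refine hzb.trans ?_
      rw [hsum]
      refine mul_le_mul_of_nonneg_left ?_ hXd.le
      have h3 : (Real.log (Xn : ℝ)) ^ (-((A + 1 : ℕ) : ℝ)) ≤ 1 / 4 * (Real.log Xn) ^ (-(A : ℝ)) := by
        have h4 : (-((A + 1 : ℕ) : ℝ)) = -(A : ℝ) + (-1) := by
          push_cast
          ring
        rw [h4, Real.rpow_add hL0, Real.rpow_neg_one, mul_comm]
        refine mul_le_mul_of_nonneg_right ?_ hLA.le
        rw [inv_le_comm₀ hL0 (by norm_num)]
        linarith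
      have h5 : K * (z : ℝ) ^ (-c0) ≤ 1 / 4 * (Real.log Xn) ^ (-(A : ℝ)) := by
        refine le_trans ?_ n3
        have hzr : (Xn : ℝ) ^ δ / 2 ≤ z := by linarith
        have hz0 : (0 : ℝ) < z := by linarith
        have h6 : (z : ℝ) ^ (-c0) ≤ ((Xn : ℝ) ^ δ / 2) ^ (-c0) := Real.rpow_le_rpow_of_nonpos (by positivity) hzr (by linarith)
        have h7 : ((Xn : ℝ) ^ δ / 2) ^ (-c0) = 2 ^ c0 * (Xn : ℝ) ^ (-(δ * c0)) := by
          rw [Real.div_rpow (by positivity) (by norm_num), ← Real.rpow_mul hX0r.le, Real.rpow_neg (by norm_num : (0 : ℝ) ≤ 2),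
            div_inv_eq_mul, mul_comm]
          congr 2
          ring
        rw [h7] at h6
        calc K * (z : ℝ) ^ (-c0) ≤ |K| * (z : ℝ) ^ (-c0) :=
              mul_le_mul_of_nonneg_right (le_abs_self K) (Real.rpow_nonneg hz0.le _)
          _ ≤ |K| * (2 ^ c0 * (Xn : ℝ) ^ (-(δ * c0))) := mul_le_mul_of_nonneg_left h6 (abs_nonneg K)
          _ = |K| * 2 ^ c0 * (Xn : ℝ) ^ (-(δ * c0)) := by ring
      linarith
    have h3 := Finset.card_union_le Zm ((BoxT (A + 1) Xn (fun _ : Fin d => 1)).filter fun t => (∀ i, 0 ≤ b i + lf c t i) ∧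
        FailsP e (famT P c b t) G N z)
    have h4 : (((Zm ∪ ((BoxT (A + 1) Xn (fun _ : Fin d => 1)).filter fun t => (∀ i, 0 ≤ b i + lf c t i) ∧
        FailsP e (famT P c b t) G N z)).card : ℕ) : ℝ) ≤ (Zm.card : ℝ) +
        (((BoxT (A + 1) Xn (fun _ : Fin d => 1)).filter fun t => (∀ i, 0 ≤ b i + lf c t i) ∧
        FailsP e (famT P c b t) G N z).card : ℝ) := by exact_mod_cast h3
    have h5 : 0 < (Xn : ℝ) ^ (d : ℝ) * (Real.log Xn) ^ (-(A : ℝ)) := mul_pos hXd hLA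
    have h6 : (Xn : ℝ) ^ (d : ℝ) * (1 / 4 * (Real.log Xn) ^ (-(A : ℝ))) = 1 / 4 * ((Xn : ℝ) ^ (d : ℝ) * (Real.log Xn) ^ (-(A : ℝ))) := by ring
    have h7 : (Xn : ℝ) ^ (d : ℝ) * (1 / 2 * (Real.log Xn) ^ (-(A : ℝ))) = 1 / 2 * ((Xn : ℝ) ^ (d : ℝ) * (Real.log Xn) ^ (-(A : ℝ))) := by ring
    rw [h6] at h1
    rw [h7] at h2
    linarith
  exact le_trans (by exact_mod_cast card_le_card hsub) hcard

end Pool.Agent.HLA
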