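import Pool.Agent.Lib.HLA.W0
import Pool.Agent.Lib.PNT.PNT

/-!
# LOGA, chunk Y1 (S/M): the primes `n + b`, `b ∈ [Z, 2 Z)`
-/

open Finset Polynomial

namespace Pool.Agent.HLA

open Pool.Agent.Lib.H68T Pool.Agent.Lib.H18Q Pool.Agent.Lib.H59P Pool.Agent.Lib.H24P
open Pool.Agent.HUP Pool.Agent.H9P

theorem y1_card (a Z : ℕ) : ((((Ico Z (2 * Z)).filter fun b => (a + b).Prime).card : ℕ) : ℝ) =
    (Nat.primeCounting' (a + Z + Z) : ℝ) - Nat.primeCounting' (a + Z) := by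
  have h1 : ((Ico Z (2 * Z)).filter fun b => (a + b).Prime).card =
      Nat.count (fun k => Nat.Prime (a + Z + k)) Z := by
    rw [Nat.count_eq_card_filter_range]
    refine Finset.card_bij' (fun b _ => b - Z) (fun k _ => Z + k) ?_ ?_ ?_ ?_
    · intro b hb
      obtain ⟨h1, h2⟩ := Finset.mem_filter.1 hb
      obtain ⟨h3, h4⟩ := Finset.mem_Ico.1 h1
      refine Finset.mem_filter.2 ⟨Finset.mem_range.2 (by omega), ?_⟩
      have e : a + Z + (b - Z) = a + b := by omega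
      rw [e]
      exact h2
    · intro k hk
      obtain ⟨h1, h2⟩ := Finset.mem_filter.1 hk
      have h3 := Finset.mem_range.1 h1
      refine Finset.mem_filter.2 ⟨Finset.mem_Ico.2 ⟨by omega, by omega⟩, ?_⟩
      have e : a + (Z + k) = a + Z + k := by omega
      rw [e]
      exact h2
    · intro b hb
      obtain ⟨h1, h2⟩ := Finset.mem_filter.1 hb
      obtain ⟨h3, h4⟩ := Finset.mem_Ico.1 h1
      show Z + (b - Z) = b
      omega
    · intro k hk
      show Z + k - Z = k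
      omega
  have h2 : Nat.primeCounting' (a + Z + Z) = Nat.primeCounting' (a + Z) +
      Nat.count (fun k => Nat.Prime (a + Z + k)) Z := by
    unfold Nat.primeCounting'
    exact Nat.count_add _ _ _
  rw [h1, h2]
  push_cast
  ring

theorem y1_pi (η : ℝ) (hη : 0 < η) : ∃ Z0 : ℕ, 2 ≤ Z0 ∧ ∀ Z : ℕ, Z0 ≤ Z → ∀ m : ℕ, Z ≤ 2 * m → m ≤ 3 * Z →
    |(Nat.primeCounting m : ℝ) * Real.log Z - m| ≤ η * Z := by
  have h0 := Pool.Agent.Lib.PNT.primeCounting_nat_tendsto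
  have hη' : 0 < min 1 (η / 6) := lt_min one_pos (by positivity)
  set δ : ℝ := min 1 (η / 6) with hδ
  have hδ1 : δ ≤ 1 := min_le_left _ _
  have hδ2 : δ ≤ η / 6 := min_le_right _ _
  have h1 := h0.eventually (gt_mem_nhds (show (1 : ℝ) < 1 + δ by linarith))
  have h2 := h0.eventually (lt_mem_nhds (show 1 - δ < (1 : ℝ) by linarith))
  have h3 : ∀ᶠ n : ℕ in Filter.atTop, 4 / δ ≤ Real.log n :=
    (Real.tendsto_log_atTop.comp tendsto_natCast_atTop_atTop).eventually_ge_atTop _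
  obtain ⟨M, hM⟩ := Filter.eventually_atTop.1 (h1.and (h2.and h3))
  refine ⟨2 * M + 2, by omega, fun Z hZ m hm1 hm2 => ?_⟩
  obtain ⟨a, b, c⟩ := hM m (by omega)
  have hm0 : (0 : ℝ) < m := by
    have : 0 < m := by omega
    exact_mod_cast this
  have hZ0 : (0 : ℝ) < Z := by
    have : 0 < Z := by omega
    exact_mod_cast this
  rw [div_lt_iff₀ hm0] at a
  rw [lt_div_iff₀ hm0] at b
  have hm1' : (Z : ℝ) ≤ 2 * m := by exact_mod_cast hm1
  have hm2' : (m : ℝ) ≤ 3 * Z := by exact_mod_cast hm2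
  have hlogm : 0 < Real.log m := lt_of_lt_of_le (by positivity) c
  have hl1 : Real.log Z ≤ Real.log m + 2 := by
    have e1 : Real.log Z ≤ Real.log (2 * m) := Real.log_le_log hZ0 hm1'
    rw [Real.log_mul (by norm_num) hm0.ne'] at e1
    have e2 := Real.log_le_sub_one_of_pos (show (0 : ℝ) < 2 by norm_num)
    linarith
  have hl2 : Real.log m ≤ Real.log Z + 2 := by
    have e1 : Real.log m ≤ Real.log (3 * Z) := Real.log_le_log hm0 hm2'
    rw [Real.log_mul (by norm_num) hZ0.ne'] at e1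
    have e2 := Real.log_le_sub_one_of_pos (show (0 : ℝ) < 3 by norm_num)
    linarith
  have hpi0 : (0 : ℝ) ≤ (Nat.primeCounting m : ℝ) := Nat.cast_nonneg _
  have hpi : (Nat.primeCounting m : ℝ) * 2 ≤ δ * m := by
    have e1 : (Nat.primeCounting m : ℝ) * (4 / δ) ≤ (1 + δ) * m :=
      (mul_le_mul_of_nonneg_left c hpi0).trans a.le
    have e2 : (Nat.primeCounting m : ℝ) * (4 / δ) * δ ≤ (1 + δ) * m * δ :=
      mul_le_mul_of_nonneg_right e1 hη'.le
    have e3 : (Nat.primeCounting m : ℝ) * (4 / δ) * δ = (Nat.primeCounting m : ℝ) * 4 := by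
      field_simp
    rw [e3] at e2
    have e4 : (1 + δ) * (m * δ) ≤ 2 * (m * δ) := mul_le_mul_of_nonneg_right (by linarith) (by positivity)
    nlinarith
  have hfin : 2 * δ * m ≤ η * Z := by
    calc 2 * δ * m ≤ 2 * δ * (3 * Z) := mul_le_mul_of_nonneg_left hm2' (by positivity)
      _ = 6 * δ * Z := by ring
      _ ≤ η * Z := mul_le_mul_of_nonneg_right (by linarith) hZ0.le
  have k1 : (Nat.primeCounting m : ℝ) * Real.log Z ≤ (Nat.primeCounting m : ℝ) * Real.log m +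
      (Nat.primeCounting m : ℝ) * 2 := by
    rw [← mul_add]
    exact mul_le_mul_of_nonneg_left hl1 hpi0
  have k2 : (Nat.primeCounting m : ℝ) * Real.log m ≤ (Nat.primeCounting m : ℝ) * Real.log Z +
      (Nat.primeCounting m : ℝ) * 2 := by
    rw [← mul_add]
    exact mul_le_mul_of_nonneg_left hl2 hpi0
  rw [abs_le]
  constructor <;> nlinarith

/-- **Y1.** Proof. The prime number theorem `π(y) log y/y → 1` (in the library; search `Lib` for `primeCounting` with `Tendsto`, or Chebyshev's `θ(y) ~ y`): the number is `π(2 Z + n - 1) - π(Z + n - 1)`, both arguments are between `Z` and `3 Z`, where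
`log y = log Z + O(1)`; `π(y) = y/log Z + o(Z/log Z)` uniformly. -/
theorem Y1_pnt (ε : ℝ) (hε : 0 < ε) : ∃ Z0 : ℕ, ∀ Z : ℕ, Z0 ≤ Z → ∀ n : ℕ, n ≤ Z →
    |((((Ico Z (2 * Z)).filter fun b => (n + b).Prime).card : ℕ) : ℝ) * Real.log Z - Z| ≤ ε * Z := by
  obtain ⟨Z0, hZ02, hZ0⟩ := y1_pi (ε / 2) (by linarith)
  refine ⟨Z0, fun Z hZ n hn => ?_⟩
  rw [y1_card]
  have e1 : Nat.primeCounting' (n + Z + Z) = Nat.primeCounting (n + Z + Z - 1) := by
    unfold Nat.primeCounting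
    rw [Nat.sub_add_cancel (by omega)]
  have e2 : Nat.primeCounting' (n + Z) = Nat.primeCounting (n + Z - 1) := by
    unfold Nat.primeCounting
    rw [Nat.sub_add_cancel (by omega)]
  rw [e1, e2]
  have h1 := abs_le.1 (hZ0 Z hZ (n + Z + Z - 1) (by omega) (by omega))
  have h2 := abs_le.1 (hZ0 Z hZ (n + Z - 1) (by omega) (by omega))
  have e3 : ((n + Z + Z - 1 : ℕ) : ℝ) = ((n + Z - 1 : ℕ) : ℝ) + Z := by
    have : n + Z + Z - 1 = n + Z - 1 + Z := by omega
    rw [this]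
    push_cast
    ring
  rw [e3] at h1
  rw [abs_le]
  constructor <;> nlinarith [h1.1, h1.2, h2.1, h2.2]

/-- The sum over `b` of the numbers with the coordinate `n + b` is the sum over the `n` counted without it. Proof. `cnt` is the card of a filter; exchange the sums (`Finset.sum_comm'` or `card_eq_sum_ones`); `sys (X + C b) P h 0 n = n + b`,
`((n : ℤ) + b).toNat = n + b`. -/
theorem Y1_sum {k : ℕ} (P : Fin k → ℤ[X]) (h : Fin k → ℕ) (Z Z' : ℕ) :
    open Classical in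
    ∑ b ∈ Ico Z (2 * Z), cnt (sys (X + C ((b : ℕ) : ℤ)) P h) 1 Z' =
      ∑ n ∈ (Ico 1 (1 + Z')).filter (fun n : ℕ => ∀ i, (ran P h i (n : ℤ)).toNat.Prime),
        ((Ico Z (2 * Z)).filter fun b => (n + b).Prime).card := by
  have h1 : ∀ b ∈ Ico Z (2 * Z), cnt (sys (X + C ((b : ℕ) : ℤ)) P h) 1 Z' =
      ∑ n ∈ (Ico 1 (1 + Z')).filter (fun n : ℕ => ∀ i, (ran P h i (n : ℤ)).toNat.Prime),
        if (n + b).Prime then 1 else 0 := by
    intro b _
    unfold cnt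
    rw [← Finset.card_filter, Finset.filter_filter]
    refine congrArg Finset.card (Finset.filter_congr fun n _ => ?_)
    rw [Fin.forall_fin_succ, and_comm]
    refine and_congr Iff.rfl ?_
    have e : ((sys (X + C ((b : ℕ) : ℤ)) P h 0 (n : ℤ))).toNat = n + b := by
      have : sys (X + C ((b : ℕ) : ℤ)) P h 0 (n : ℤ) = ((n + b : ℕ) : ℤ) := by
        show (X + C ((b : ℕ) : ℤ)).eval (n : ℤ) = ((n + b : ℕ) : ℤ)
        rw [eval_add, eval_X, eval_C]
        push_cast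
        rfl
      rw [this, Int.toNat_natCast]
    rw [e]
  rw [Finset.sum_congr rfl h1, Finset.sum_comm]
  refine Finset.sum_congr rfl fun n _ => ?_
  rw [Finset.card_filter]

/-- **Y1b.** Proof. `Y1_sum`, `Y1_pnt` for the `n ≤ Z' ≤ Z`. -/
theorem Y1_main (ε : ℝ) (hε : 0 < ε) : ∃ Z0 : ℕ, ∀ Z Z' : ℕ, Z0 ≤ Z → Z' ≤ Z → ∀ (k : ℕ) (P : Fin k → ℤ[X]) (h : Fin k → ℕ),
    |(∑ b ∈ Ico Z (2 * Z), (cnt (sys (X + C ((b : ℕ) : ℤ)) P h) 1 Z' : ℝ)) * Real.log Z -
      Z * cnt (ran P h) 1 Z'| ≤ ε * (Z * cnt (ran P h) 1 Z') := by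
  obtain ⟨Z0, hZ0⟩ := Y1_pnt ε hε
  refine ⟨Z0, fun Z Z' hZ hZ' k P h => ?_⟩
  have h1 := Y1_sum P h Z Z'
  have h2 : (∑ b ∈ Ico Z (2 * Z), (cnt (sys (X + C ((b : ℕ) : ℤ)) P h) 1 Z' : ℝ)) =
      ∑ n ∈ (Ico 1 (1 + Z')).filter (fun n : ℕ => ∀ i, (ran P h i (n : ℤ)).toNat.Prime),
        ((((Ico Z (2 * Z)).filter fun b => (n + b).Prime).card : ℕ) : ℝ) := by
    rw [← Nat.cast_sum, h1, Nat.cast_sum]
  have h3 : (cnt (ran P h) 1 Z' : ℝ) =
      ∑ n ∈ (Ico 1 (1 + Z')).filter (fun n : ℕ => ∀ i, (ran P h i (n : ℤ)).toNat.Prime), (1 : ℝ) := by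
    unfold cnt
    rw [Finset.sum_const, nsmul_eq_mul, mul_one]
  rw [h2, h3, Finset.mul_sum, Finset.mul_sum, Finset.sum_mul, ← Finset.sum_sub_distrib]
  refine (Finset.abs_sum_le_sum_abs _ _).trans (Finset.sum_le_sum fun n hn => ?_)
  have hn1 := Finset.mem_Ico.1 (Finset.mem_filter.1 hn).1
  rw [mul_one]
  exact hZ0 Z hZ n (by omega)

end Pool.Agent.HLA
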