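import Pool.Agent.Lib.HLA.W0
import Pool.Agent.Lib.H24P.T2

/-!
# LOGA, chunk Y2A (M): the mean of `tdf d` over the linear coordinates `n + b`
-/

open Finset Polynomial

namespace Pool.Agent.HLA

open Pool.Agent.Lib.H68T Pool.Agent.Lib.H18Q Pool.Agent.Lib.H59P Pool.Agent.Lib.H24P
open Pool.Agent.HUP Pool.Agent.H9P

/-- The local factor of the system with linear coordinate `n + b`. -/
theorem y2_form {k : ℕ} (P : Fin k → ℤ[X]) (h : Fin k → ℕ) (l : ℕ) (b : ℤ) :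
    tpf l (sys (X + C b) P h) =
      (∑ n ∈ range l, (1 + gl l ((n : ℤ) + b)) * ∏ i, (1 + gl l (ran P h i (n : ℤ)))) / l - 1 := by
  unfold tpf
  congr 2
  refine Finset.sum_congr rfl fun n _ => ?_
  rw [Fin.prod_univ_succ]
  congr 1
  unfold sys
  simp [Fin.cons_zero]

/-- Mean of a local factor over `b`. Proof. Unfold `tpf`; exchange the sums; for every `n` the numbers `n + b`, `b < l`, run through all classes modulo `l`, so `∑_b (1 + gl l (n + b)) = l` (`t2_one` of `H24P/T2.lean` for `B = X + C n`). -/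
theorem y2_one {k : ℕ} (P : Fin k → ℤ[X]) (h : Fin k → ℕ) (l : ℕ) (hl : l.Prime) :
    ∑ b ∈ range l, tpf l (sys (X + C ((b : ℕ) : ℤ)) P h) = l * tpf l (ran P h) := by
  have hl0 : (l : ℝ) ≠ 0 := by exact_mod_cast hl.ne_zero
  have hlp : Prime (l : ℤ) := Nat.prime_iff_prime_int.1 hl
  have hlin : ∀ n : ℕ, ∑ b ∈ range l, (1 + gl l ((n : ℤ) + (b : ℤ))) = l := by
    intro n
    have h1 := b1_lin l hl 1 (n : ℤ) (fun h => hlp.not_dvd_one h)
    simpa using h1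
  have h1 : ∀ b ∈ range l, tpf l (sys (X + C ((b : ℕ) : ℤ)) P h) =
      (∑ n ∈ range l, (1 + gl l ((n : ℤ) + (b : ℤ))) * ∏ i, (1 + gl l (ran P h i (n : ℤ)))) / l - 1 :=
    fun b _ => y2_form P h l b
  rw [Finset.sum_congr rfl h1, Finset.sum_sub_distrib, ← Finset.sum_div, Finset.sum_comm]
  have h2 : ∀ n ∈ range l, ∑ b ∈ range l,
      (1 + gl l ((n : ℤ) + (b : ℤ))) * ∏ i, (1 + gl l (ran P h i (n : ℤ))) =
      l * ∏ i, (1 + gl l (ran P h i (n : ℤ))) := by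
    intro n _
    rw [← Finset.sum_mul, hlin]
  rw [Finset.sum_congr rfl h2, ← Finset.mul_sum]
  unfold tpf
  simp only [Finset.sum_const, Finset.card_range, nsmul_eq_mul, mul_one]
  field_simp

theorem y2_tp {k : ℕ} (P : Fin k → ℤ[X]) (h : Fin k → ℕ) (l : ℕ) (b b' : ℤ) (hb : (l : ℤ) ∣ b - b') :
    tpf l (sys (X + C b) P h) = tpf l (sys (X + C b') P h) := by
  rw [y2_form, y2_form]
  obtain ⟨c, hc⟩ := hb
  congr 2
  refine Finset.sum_congr rfl fun n _ => ?_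
  have h1 : (n : ℤ) + b = ((n : ℤ) + b') + c * l := by linarith
  rw [h1, gl_per]

/-- `tdf d (sys (X + C b) P h)` depends only on `b` modulo `d`. -/
theorem y2_per {k : ℕ} (P : Fin k → ℤ[X]) (h : Fin k → ℕ) (d b b' : ℕ) (hd : Squarefree d) (hb : (d : ℤ) ∣ (b : ℤ) - b') :
    tdf d (sys (X + C ((b : ℕ) : ℤ)) P h) = tdf d (sys (X + C ((b' : ℕ) : ℤ)) P h) := by
  unfold tdf
  refine Finset.prod_congr rfl fun l hl => ?_
  exact y2_tp P h l b b' ((Int.natCast_dvd_natCast.2 (Nat.dvd_of_mem_primeFactors hl)).trans hb)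

/-- Mean over a period, squarefree `d`. Proof. Induction over the prime factors (chinese remainder theorem; `M3d` of `H59P` is the product rule for means of periodic functions with coprime periods, used in `T2_unit`). -/
theorem y2_period {k : ℕ} (P : Fin k → ℤ[X]) (h : Fin k → ℕ) (d : ℕ) (hd : Squarefree d) :
    ∑ b ∈ range d, tdf d (sys (X + C ((b : ℕ) : ℤ)) P h) = d * tdf d (ran P h) := by
  have hprod : ∏ l ∈ d.primeFactors, l = d := Nat.prod_primeFactors_of_squarefree hd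
  have h1 := b1_set (fun l b => tpf l (sys (X + C b) P h))
    (fun l b => y2_tp P h l (b + l) b ⟨1, by ring⟩) d.primeFactors
    (fun l hl => Nat.prime_of_mem_primeFactors hl)
  rw [hprod] at h1
  unfold tdf
  rw [h1, Finset.prod_congr rfl fun l hl => y2_one P h l (Nat.prime_of_mem_primeFactors hl),
    Finset.prod_mul_distrib, ← Nat.cast_prod, hprod]

/-- Trivial bound: `0 ≤ 1 + tpf l ≤ (l/(l-1))^(k+1) ≤ 2^(k+1)` (`P0_tp`), so `|tpf l| ≤ 2^(k+1) ≤ l^(k+1)`, `|tdf d| ≤ ∏_{l ∣ d} l^(k+1) ≤ d^(k+1)`. -/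
theorem y2_triv {k : ℕ} (φ : Fin k → ℤ → ℤ) (d : ℕ) (hd : 0 < d) : |tdf d φ| ≤ (d : ℝ) ^ k := by
  unfold tdf
  rw [Finset.abs_prod]
  have h1 : ∏ l ∈ d.primeFactors, |tpf l φ| ≤ ∏ l ∈ d.primeFactors, (l : ℝ) ^ k := by
    refine Finset.prod_le_prod (fun l _ => abs_nonneg _) fun l hl => ?_
    have hlp := Nat.prime_of_mem_primeFactors hl
    obtain ⟨ha, hb⟩ := P0_tp l hlp φ
    have hl2 : (2 : ℝ) ≤ l := by exact_mod_cast hlp.two_le
    have h2 : (l : ℝ) / ((l : ℝ) - 1) ≤ l := by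
      rw [div_le_iff₀ (by linarith)]
      nlinarith
    have h3 : ((l : ℝ) / ((l : ℝ) - 1)) ^ k ≤ (l : ℝ) ^ k :=
      pow_le_pow_left₀ (div_nonneg (by linarith) (by linarith)) h2 k
    have h4 : (1 : ℝ) ≤ (l : ℝ) ^ k := one_le_pow₀ (by linarith)
    rw [abs_le]
    constructor <;> linarith
  refine h1.trans ?_
  rw [Finset.prod_pow, ← Nat.cast_prod]
  refine pow_le_pow_left₀ (Nat.cast_nonneg _) ?_ k
  exact_mod_cast Nat.le_of_dvd hd (Nat.prod_primeFactors_dvd d)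

/-- Sum of a periodic function over a complete period. -/
theorem y2_win (f : ℕ → ℝ) (d : ℕ) (hf : ∀ b, f (b % d) = f b) (b0 : ℕ) :
    ∑ b ∈ Ico b0 (b0 + d), f b = ∑ b ∈ range d, f b := by
  rw [← Nat.image_Ico_mod b0 d, Finset.sum_image (Nat.mod_injOn_Ico b0 d)]
  exact Finset.sum_congr rfl fun b _ => (hf b).symm

theorem y2_win' (f : ℕ → ℝ) (d : ℕ) (hf : ∀ b, f (b % d) = f b) (b0 q : ℕ) :
    ∑ b ∈ Ico b0 (b0 + d * q), f b = q * ∑ b ∈ range d, f b := by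
  induction q with
  | zero => simp
  | succ q ih =>
    rw [← Finset.sum_Ico_consecutive f (Nat.le_add_right b0 (d * q))
      (by rw [mul_add, ← add_assoc]; exact Nat.le_add_right _ _ : b0 + d * q ≤ b0 + d * (q + 1)), ih,
      mul_add, mul_one, ← add_assoc, y2_win f d hf]
    push_cast
    ring

/-- **Y2a.** Mean over an interval of `b`. Proof. `⌊L/d⌋` complete periods (`y2_period`, `y2_per`) and at most `d` further terms (`y2_triv` for `k + 1` and `k` coordinates). -/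
theorem Y2_mean {k : ℕ} (P : Fin k → ℤ[X]) (h : Fin k → ℕ) (d b0 L : ℕ) (hd : Squarefree d) :
    |∑ b ∈ Ico b0 (b0 + L), tdf d (sys (X + C ((b : ℕ) : ℤ)) P h) - L * tdf d (ran P h)| ≤ 2 * (d : ℝ) ^ (k + 2) := by
  have hd0 : 0 < d := Nat.pos_of_ne_zero hd.ne_zero
  have hd1 : (1 : ℝ) ≤ d := by exact_mod_cast hd0
  set f : ℕ → ℝ := fun b => tdf d (sys (X + C ((b : ℕ) : ℤ)) P h) with hf
  have hfp : ∀ b, f (b % d) = f b := by
    intro b
    refine y2_per P h d (b % d) b hd ?_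
    have h1 := Nat.mod_add_div b d
    have h2 : ((b % d : ℕ) : ℤ) + d * ((b / d : ℕ) : ℤ) = b := by exact_mod_cast h1
    exact ⟨-((b / d : ℕ) : ℤ), by linarith⟩
  have hL : L = d * (L / d) + L % d := (Nat.div_add_mod L d).symm
  have hr : L % d < d := Nat.mod_lt _ hd0
  set q := L / d with hq
  set r := L % d with hrr
  have h1 : ∑ b ∈ Ico b0 (b0 + L), f b =
      q * (d * tdf d (ran P h)) + ∑ b ∈ Ico (b0 + d * q) (b0 + L), f b := by
    rw [← Finset.sum_Ico_consecutive f (Nat.le_add_right b0 (d * q))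
      (by omega : b0 + d * q ≤ b0 + L), y2_win' f d hfp, hf]
    simp only
    rw [y2_period P h d hd]
  have h2 : |∑ b ∈ Ico (b0 + d * q) (b0 + L), f b| ≤ r * (d : ℝ) ^ (k + 1) := by
    refine (Finset.abs_sum_le_sum_abs _ _).trans ?_
    refine (Finset.sum_le_sum fun b _ => y2_triv (sys (X + C ((b : ℕ) : ℤ)) P h) d hd0).trans ?_
    rw [Finset.sum_const, Nat.card_Ico, nsmul_eq_mul]
    have h3 : b0 + L - (b0 + d * q) = r := by omega
    rw [h3]
  have h3 := y2_triv (ran P h) d hd0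
  have hLr : (L : ℝ) = d * q + r := by exact_mod_cast hL
  have h4 : ∑ b ∈ Ico b0 (b0 + L), f b - L * tdf d (ran P h) =
      ∑ b ∈ Ico (b0 + d * q) (b0 + L), f b - r * tdf d (ran P h) := by
    rw [h1, hLr]
    ring
  rw [h4]
  have h5 : |(r : ℝ) * tdf d (ran P h)| ≤ r * (d : ℝ) ^ k := by
    rw [abs_mul, Nat.abs_cast]
    exact mul_le_mul_of_nonneg_left h3 (Nat.cast_nonneg _)
  have h6 : (r : ℝ) ≤ d := by exact_mod_cast hr.le
  have h7 : (r : ℝ) * (d : ℝ) ^ (k + 1) ≤ (d : ℝ) ^ (k + 2) := by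
    calc (r : ℝ) * (d : ℝ) ^ (k + 1) ≤ d * (d : ℝ) ^ (k + 1) :=
          mul_le_mul_of_nonneg_right h6 (by positivity)
      _ = (d : ℝ) ^ (k + 2) := by ring
  have h8 : (r : ℝ) * (d : ℝ) ^ k ≤ (d : ℝ) ^ (k + 2) := by
    calc (r : ℝ) * (d : ℝ) ^ k ≤ d * (d : ℝ) ^ k :=
          mul_le_mul_of_nonneg_right h6 (by positivity)
      _ = (d : ℝ) ^ (k + 1) := by ring
      _ ≤ (d : ℝ) ^ (k + 2) := pow_le_pow_right₀ hd1 (by omega)
  calc |∑ b ∈ Ico (b0 + d * q) (b0 + L), f b - r * tdf d (ran P h)|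
      ≤ |∑ b ∈ Ico (b0 + d * q) (b0 + L), f b| + |(r : ℝ) * tdf d (ran P h)| := abs_sub _ _
    _ ≤ 2 * (d : ℝ) ^ (k + 2) := by linarith

end Pool.Agent.HLA
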