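import Pool.Agent.Lib.HLA.W0

/-!
# LOGA, chunk Y3 (M): the `b` for which the system with `n + b` has a fixed divisor
-/

open Finset Polynomial

namespace Pool.Agent.HLA

open Pool.Agent.Lib.H68T Pool.Agent.Lib.H18Q Pool.Agent.Lib.H59P Pool.Agent.Lib.H24P
open Pool.Agent.HUP Pool.Agent.H9P

/-- The number of roots modulo `l` of a polynomial which does not vanish identically modulo `l` (as in `H24P/FB.lean`). -/
theorem y3_roots (F : ℤ[X]) (l : ℕ) (hl : l.Prime) (n : ℤ) (hn : ¬ (l : ℤ) ∣ F.eval n) :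
    ((range l).filter (fun a : ℕ => (l : ℤ) ∣ F.eval (a : ℤ))).card ≤ F.natDegree := by
  classical
  have := Fact.mk hl
  set Q : (ZMod l)[X] := F.map (Int.castRingHom (ZMod l)) with hQ
  have hev : ∀ m : ℤ, Q.eval (m : ZMod l) = ((F.eval m : ℤ) : ZMod l) := by
    intro m
    rw [hQ, eval_intCast_map]
    rfl
  have hQ0 : Q ≠ 0 := by
    intro h0
    apply hn
    rw [← ZMod.intCast_zmod_eq_zero_iff_dvd, ← hev, h0, eval_zero]
  have h1 : ((range l).filter (fun a : ℕ => (l : ℤ) ∣ F.eval (a : ℤ))).card ≤ Q.roots.toFinset.card := by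
    refine card_le_card_of_injOn (fun a : ℕ => (a : ZMod l)) ?_ ?_
    · intro a ha
      have ha' := (mem_filter.1 (mem_coe.1 ha)).2
      rw [mem_coe, Multiset.mem_toFinset, mem_roots hQ0, IsRoot.def]
      have h2 := hev (a : ℤ)
      rw [Int.cast_natCast] at h2
      rw [h2, ZMod.intCast_zmod_eq_zero_iff_dvd]
      exact ha'
    · intro a ha b hb hab
      have ha' := mem_range.1 (mem_filter.1 (mem_coe.1 ha)).1
      have hb' := mem_range.1 (mem_filter.1 (mem_coe.1 hb)).1
      have h2 := (ZMod.natCast_eq_natCast_iff a b l).1 hab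
      exact Nat.ModEq.eq_of_lt_of_lt h2 ha' hb'
  refine h1.trans ((Multiset.toFinset_card_le _).trans ((card_roots' _).trans ?_))
  exact natDegree_map_le

/-- The values of the random coordinates as values of polynomials. -/
theorem y3_ran {k : ℕ} (P : Fin k → ℤ[X]) (h : Fin k → ℕ) (i : Fin k) (n : ℤ) :
    ran P h i n = (P i + C ((h i : ℕ) : ℤ)).eval n := by
  unfold ran
  rw [eval_add, eval_C]

/-- The coordinates of the system. -/
theorem y3_sys0 {k : ℕ} (P : Fin k → ℤ[X]) (h : Fin k → ℕ) (b : ℕ) (n : ℤ) :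
    sys (X + C ((b : ℕ) : ℤ)) P h 0 n = n + b := by
  unfold sys
  rw [Fin.cons_zero, eval_add, eval_X, eval_C]

theorem y3_sysS {k : ℕ} (B : ℤ[X]) (P : Fin k → ℤ[X]) (h : Fin k → ℕ) (i : Fin k) (n : ℤ) :
    sys B P h i.succ n = ran P h i n := by
  unfold sys
  rw [Fin.cons_succ]

/-- **Y3a.** The prime `l` that is a fixed divisor of the system with the coordinate `n + b`, but not of the system without it, is at most `k A + 1`. Proof. Modulo `l` the polynomial `P_i + h_i` is not identically `0` (some `n` with no coordinate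
divisible by `l`), so it has at most `D_i ≤ A` roots; the numbers `n` modulo `l` with `l ∣ n + b` or `l ∣` some coordinate are at most `1 + k A` classes, and they are all classes. -/
theorem y3_prime {k A : ℕ} (P : Fin k → ℤ[X]) (hP : Pol A P) (h : Fin k → ℕ) (hN : NoFix (ran P h)) (b : ℕ) (l : ℕ)
    (hl : l.Prime) (hfix : ∀ n : ℤ, ∃ i, (l : ℤ) ∣ sys (X + C ((b : ℕ) : ℤ)) P h i n) : l ≤ k * A + 1 := by
  classical
  obtain ⟨n0, hn0⟩ := hN l hl
  have hlz : (0 : ℤ) < l := by exact_mod_cast hl.pos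
  have hsub : range l ⊆ (range l).filter (fun a : ℕ => (l : ℤ) ∣ (X + C ((b : ℕ) : ℤ) : ℤ[X]).eval (a : ℤ)) ∪
      (univ : Finset (Fin k)).biUnion
        (fun i => (range l).filter (fun a : ℕ => (l : ℤ) ∣ (P i + C ((h i : ℕ) : ℤ)).eval (a : ℤ))) := by
    intro a ha
    obtain ⟨i, hi⟩ := hfix (a : ℤ)
    rw [mem_union]
    induction i using Fin.cases with
    | zero =>
      left
      refine mem_filter.2 ⟨ha, ?_⟩
      rw [y3_sys0] at hi
      rw [eval_add, eval_X, eval_C]
      exact hi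
    | succ j =>
      right
      refine mem_biUnion.2 ⟨j, mem_univ j, mem_filter.2 ⟨ha, ?_⟩⟩
      rw [y3_sysS, y3_ran] at hi
      exact hi
  have h1 : ((range l).filter (fun a : ℕ => (l : ℤ) ∣ (X + C ((b : ℕ) : ℤ) : ℤ[X]).eval (a : ℤ))).card ≤ 1 := by
    have h2 := y3_roots (X + C ((b : ℕ) : ℤ) : ℤ[X]) l hl (1 - b) (by
      rw [eval_add, eval_X, eval_C, sub_add_cancel]
      intro h3
      have h4 := Int.le_of_dvd one_pos h3
      have h5 : (2 : ℤ) ≤ l := by exact_mod_cast hl.two_le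
      omega)
    rwa [natDegree_X_add_C] at h2
  have h2 : ((univ : Finset (Fin k)).biUnion
      (fun i => (range l).filter (fun a : ℕ => (l : ℤ) ∣ (P i + C ((h i : ℕ) : ℤ)).eval (a : ℤ)))).card ≤ k * A := by
    refine card_biUnion_le.trans ?_
    refine (Finset.sum_le_card_nsmul _ _ A ?_).trans ?_
    · intro i _
      have h3 := y3_roots (P i + C ((h i : ℕ) : ℤ)) l hl n0 (by
        rw [← y3_ran]
        exact hn0 i)
      rw [natDegree_add_C] at h3
      exact h3.trans (hP.degA i)
    · rw [card_univ, Fintype.card_fin, smul_eq_mul]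
  have h3 := (card_le_card hsub).trans (card_union_le _ _)
  rw [card_range] at h3
  omega

/-- **Y3b.** For such `b` the truncated series vanishes and nearly nothing is counted. Proof. `1 + tpf l = 0` (`T1_count` of `H24P/T1.lean`: the count is `0`; the sets are periodic modulo `l`, so it is enough to look at `n < l`), `l ≤ k A + 1 ≤ z`. If all coordinates at `n` are primes
then one of them is divisible by `l`, hence equal to `l`; it is not `n + b ≥ Z > k A + 1 ≥ l`; `P_i(n) + h_i = l` has at most `A` solutions `n` (the polynomial `P_i + h_i - l` has degree `D_i ≥ 1`), so `cnt ≤ k A`. -/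
theorem Y3_fix {k A : ℕ} (P : Fin k → ℤ[X]) (hP : Pol A P) (h : Fin k → ℕ) (hN : NoFix (ran P h)) (b z Z Z' : ℕ)
    (hb : Z ≤ b) (hZ : k * A + 1 < Z) (hz : k * A + 1 ≤ z) (hfix : ¬ NoFix (sys (X + C ((b : ℕ) : ℤ)) P h)) :
    SSf (pr z) (sys (X + C ((b : ℕ) : ℤ)) P h) = 0 ∧ cnt (sys (X + C ((b : ℕ) : ℤ)) P h) 1 Z' ≤ k * A := by
  classical
  have hfix' : ∃ l : ℕ, l.Prime ∧ ∀ n : ℤ, ∃ i, (l : ℤ) ∣ sys (X + C ((b : ℕ) : ℤ)) P h i n := by
    unfold NoFix at hfix
    push Not at hfix
    exact hfix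
  obtain ⟨l, hl, hall⟩ := hfix'
  have hlk := y3_prime P hP h hN b l hl hall
  constructor
  · unfold SSf
    refine Finset.prod_eq_zero (i := l) ?_ ?_
    · unfold pr
      exact mem_filter.2 ⟨mem_Icc.2 ⟨hl.one_lt.le, hlk.trans hz⟩, hl⟩
    · rw [T1_count l hl]
      have h1 : (range l).filter (fun n : ℕ => ∀ i, ¬ (l : ℤ) ∣ sys (X + C ((b : ℕ) : ℤ)) P h i n) = ∅ := by
        refine filter_eq_empty_iff.2 ?_
        intro a _ ha
        obtain ⟨i, hi⟩ := hall (a : ℤ)
        exact ha i hi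
      rw [h1, card_empty, Nat.cast_zero, zero_div, zero_mul]
  · unfold cnt
    have hsub : (Ico 1 (1 + Z')).filter (fun n : ℕ => ∀ i, (sys (X + C ((b : ℕ) : ℤ)) P h i (n : ℤ)).toNat.Prime) ⊆
        (univ : Finset (Fin k)).biUnion
        (fun i => (Ico 1 (1 + Z')).filter (fun n : ℕ => (P i + C ((h i : ℕ) : ℤ) - C (l : ℤ)).eval (n : ℤ) = 0)) := by
      intro n hn
      obtain ⟨hn1, hn2⟩ := mem_filter.1 hn
      obtain ⟨i, hi⟩ := hall (n : ℤ)
      have hpr := hn2 i
      have hpos : 0 ≤ sys (X + C ((b : ℕ) : ℤ)) P h i (n : ℤ) := by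
        by_contra hneg
        push Not at hneg
        rw [Int.toNat_of_nonpos hneg.le] at hpr
        exact Nat.not_prime_zero hpr
      have h2 : (l : ℤ) ∣ ((sys (X + C ((b : ℕ) : ℤ)) P h i (n : ℤ)).toNat : ℤ) := by
        rw [Int.toNat_of_nonneg hpos]
        exact hi
      have h3 : l = (sys (X + C ((b : ℕ) : ℤ)) P h i (n : ℤ)).toNat :=
        (Nat.prime_dvd_prime_iff_eq hl hpr).1 (Int.natCast_dvd_natCast.1 h2)
      have h4 : sys (X + C ((b : ℕ) : ℤ)) P h i (n : ℤ) = l := by
        rw [← Int.toNat_of_nonneg hpos, ← h3]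
      clear hpr hpos h2 h3 hi
      induction i using Fin.cases with
      | zero =>
        rw [y3_sys0] at h4
        omega
      | succ j =>
        refine mem_biUnion.2 ⟨j, mem_univ j, mem_filter.2 ⟨hn1, ?_⟩⟩
        rw [y3_sysS, y3_ran] at h4
        rw [eval_sub, h4, eval_C, sub_self]
    refine (card_le_card hsub).trans (card_biUnion_le.trans ?_)
    refine (Finset.sum_le_card_nsmul _ _ A ?_).trans ?_
    · intro i _
      have hdeg : (P i + C ((h i : ℕ) : ℤ) - C (l : ℤ)).natDegree = (P i).natDegree := by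
        rw [natDegree_sub_C, natDegree_add_C]
      have hne : P i + C ((h i : ℕ) : ℤ) - C (l : ℤ) ≠ 0 := by
        intro h0
        rw [h0, natDegree_zero] at hdeg
        have := hP.deg i
        omega
      have h5 : ((Ico 1 (1 + Z')).filter (fun n : ℕ => (P i + C ((h i : ℕ) : ℤ) - C (l : ℤ)).eval (n : ℤ) = 0)).card ≤
          (P i + C ((h i : ℕ) : ℤ) - C (l : ℤ)).roots.toFinset.card := by
        refine card_le_card_of_injOn (fun a : ℕ => (a : ℤ)) ?_ ?_
        · intro a ha
          have ha' := (mem_filter.1 (mem_coe.1 ha)).2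
          rw [mem_coe, Multiset.mem_toFinset, mem_roots hne, IsRoot.def]
          exact ha'
        · intro a _ b _ hab
          exact Int.natCast_inj.1 hab
      refine h5.trans ((Multiset.toFinset_card_le _).trans ((card_roots' _).trans ?_))
      rw [hdeg]
      exact hP.degA i
    · rw [card_univ, Fintype.card_fin, smul_eq_mul]

end Pool.Agent.HLA
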