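import Mathlib

/-!
# LOGA, chunk Y3B (S/M, only Mathlib): bad sets, numbers
-/

open Finset

namespace Pool.Agent.HLA


open Classical in
/-- **Y3c.** Double counting. -/
theorem Y3_bad {α β : Type} (S : Finset α) (I : Finset β) (E : β → α → Prop) (τ σ : ℝ) (hσ : 0 < σ)
    (h : ∀ b ∈ I, ((S.filter (E b)).card : ℝ) ≤ τ) :
    ((S.filter fun t => σ < ((I.filter fun b => E b t).card : ℝ)).card : ℝ) ≤ I.card * τ / σ := by
  rw [le_div_iff₀ hσ]
  have h1 : ((S.filter fun t => σ < ((I.filter fun b => E b t).card : ℝ)).card : ℝ) * σ ≤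
      ∑ t ∈ S.filter (fun t => σ < ((I.filter fun b => E b t).card : ℝ)),
        ((I.filter fun b => E b t).card : ℝ) := by
    rw [← nsmul_eq_mul]
    exact Finset.card_nsmul_le_sum _ _ _ fun t ht => (Finset.mem_filter.1 ht).2.le
  have h2 : ∑ t ∈ S.filter (fun t => σ < ((I.filter fun b => E b t).card : ℝ)),
        ((I.filter fun b => E b t).card : ℝ) ≤ ∑ t ∈ S, ((I.filter fun b => E b t).card : ℝ) :=
    Finset.sum_le_sum_of_subset_of_nonneg (Finset.filter_subset _ _) fun _ _ _ =>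
      Nat.cast_nonneg _
  have h3 : ∑ t ∈ S, ((I.filter fun b => E b t).card : ℝ) =
      ∑ b ∈ I, ((S.filter (E b)).card : ℝ) := by
    simp only [Finset.card_filter, Nat.cast_sum]
    exact Finset.sum_comm
  have h4 : ∑ b ∈ I, ((S.filter (E b)).card : ℝ) ≤ I.card * τ := by
    rw [← nsmul_eq_mul]
    exact Finset.sum_le_card_nsmul _ _ _ h
  linarith

/-- **Y3d.** The numbers. `T = ∑ cnt_b`, `U = ∑ Z' dens_b`, `W` the number without linear coordinate, `M` its expected value, `L = log Z`, `L' = log Z'`. Proof. `ε ≤ 1/100`. `|T L - Z W| ≤ ε Z W` gives `W ≤ T L/(Z (1 - ε))`; `|T - U| ≤ ε U + Z τ`,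
`|U - Z M/L'| ≤ Z τ`, `L τ ≤ ε M`, `|L - L'| ≤ ε L'` give `|T L - Z M| ≤ 10 ε Z M`; together `|W - M| ≤ 20 ε M`. -/
theorem Y3_num (Z T U W M L L' τ ε : ℝ) (hZ : 0 < Z) (hT : 0 ≤ T) (hU : 0 ≤ U) (hW : 0 ≤ W) (hM : 0 ≤ M) (hL : 1 ≤ L) (hL' : 1 ≤ L')
    (hτ : 0 ≤ τ) (hε : 0 < ε) (hε1 : ε ≤ 1 / 100) (h1 : |T * L - Z * W| ≤ ε * (Z * W)) (h2 : |T - U| ≤ ε * U + Z * τ)
    (h3 : |U - Z * (M / L')| ≤ Z * τ) (h4 : L * τ ≤ ε * M) (h5 : |L - L'| ≤ ε * L') : |W - M| ≤ 20 * ε * M := by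
  have hL0 : 0 < L := by linarith
  have hL0' : 0 < L' := by linarith
  obtain ⟨t, ht⟩ : ∃ t, T = Z * t := ⟨T / Z, by field_simp⟩
  obtain ⟨u, hu⟩ : ∃ u, U = Z * u := ⟨U / Z, by field_simp⟩
  obtain ⟨m, hm⟩ : ∃ m, M = L' * m := ⟨M / L', by field_simp⟩
  have hm0 : 0 ≤ m := by
    rw [hm] at hM
    exact nonneg_of_mul_nonneg_right hM hL0'
  have hmL : M / L' = m := by rw [hm, mul_div_cancel_left₀ _ hL0'.ne']
  have k1 : |t * L - W| ≤ ε * W := by
    have e : T * L - Z * W = Z * (t * L - W) := by rw [ht]; ring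
    rw [e, abs_mul, abs_of_pos hZ] at h1
    refine le_of_mul_le_mul_left (h1.trans (le_of_eq ?_)) hZ
    ring
  have k2 : |t - u| ≤ ε * u + τ := by
    have e : T - U = Z * (t - u) := by rw [ht, hu]; ring
    rw [e, abs_mul, abs_of_pos hZ] at h2
    refine le_of_mul_le_mul_left (h2.trans (le_of_eq ?_)) hZ
    rw [hu]
    ring
  have k3 : |u - m| ≤ τ := by
    have e : U - Z * (M / L') = Z * (u - m) := by rw [hu, hmL]; ring
    rw [e, abs_mul, abs_of_pos hZ] at h3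
    exact le_of_mul_le_mul_left h3 hZ
  obtain ⟨a1, a2⟩ := abs_le.1 k1
  obtain ⟨b1, b2⟩ := abs_le.1 k2
  obtain ⟨c1, c2⟩ := abs_le.1 k3
  obtain ⟨d1, d2⟩ := abs_le.1 h5
  have hu1 : u ≤ m + τ := by linarith
  have hεu : ε * u ≤ ε * (m + τ) := mul_le_mul_of_nonneg_left hu1 hε.le
  have t1 : t - m ≤ ε * (m + τ) + 2 * τ := by linarith
  have t2 : m - t ≤ ε * (m + τ) + 2 * τ := by linarith
  have hLm : L * m ≤ (1 + ε) * M := by
    have h6 : L ≤ (1 + ε) * L' := by linarith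
    have h7 := mul_le_mul_of_nonneg_right h6 hm0
    rw [hm]
    linarith
  have hbd : L * (ε * (m + τ) + 2 * τ) ≤ (3 + 2 * ε) * (ε * M) := by
    have h8 : ε * (L * m) ≤ ε * ((1 + ε) * M) := mul_le_mul_of_nonneg_left hLm hε.le
    have h9 : (2 + ε) * (L * τ) ≤ (2 + ε) * (ε * M) := mul_le_mul_of_nonneg_left h4 (by linarith)
    nlinarith
  have s1 := (mul_le_mul_of_nonneg_left t1 hL0.le).trans hbd
  have s2 := (mul_le_mul_of_nonneg_left t2 hL0.le).trans hbd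
  have e1 : L * m - M ≤ ε * M := by
    have h6 := mul_le_mul_of_nonneg_right d2 hm0
    rw [hm]
    linarith
  have e2 : M - L * m ≤ ε * M := by
    have h6 := mul_le_mul_of_nonneg_right d1 hm0
    rw [hm]
    linarith
  have hεM : 0 ≤ ε * M := mul_nonneg hε.le hM
  have hεεM : ε * (ε * M) ≤ 1 / 100 * (ε * M) := mul_le_mul_of_nonneg_right hε1 hεM
  have hεMM : ε * M ≤ 1 / 100 * M := mul_le_mul_of_nonneg_right hε1 hM
  have hεWW : ε * W ≤ 1 / 100 * W := mul_le_mul_of_nonneg_right hε1 hW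
  have f1 : t * L - M ≤ 5 * (ε * M) := by nlinarith
  have f2 : M - t * L ≤ 5 * (ε * M) := by nlinarith
  have hW2 : W ≤ 2 * M := by linarith
  have hεW2 : ε * W ≤ ε * (2 * M) := mul_le_mul_of_nonneg_left hW2 hε.le
  rw [abs_le]
  constructor
  · nlinarith
  · nlinarith

end Pool.Agent.HLA
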