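import Pool.Agent.Lib.HLA.Y1
import Pool.Agent.Lib.HLA.Y3
import Pool.Agent.Lib.HLA.Y3B
import Pool.Agent.Lib.HUP.R6

/-!
# LOGA, chunk Y4A (M): one parameter, from the good `b` to the number without linear coordinate
-/

open Finset Polynomial

namespace Pool.Agent.HLA

open Pool.Agent.Lib.H68T Pool.Agent.Lib.H18Q Pool.Agent.Lib.H59P Pool.Agent.Lib.H24P
open Pool.Agent.HUP Pool.Agent.H9P

/-- The regions. Proof. `n + b` is between `Z` and `3 Z` for `b ∈ [Z, 2 Z)`, `n ≤ Z' ≤ Z`. -/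
theorem y4_reg {k : ℕ} (A : ℕ) (κ θ v : ℝ) (hθ : 0 < θ) (Z Z' : ℕ) (D : Fin k → ℕ) (P : Fin k → ℤ[X]) (h : Fin k → ℕ)
    (hR : RegN A κ θ v Z Z' D (ran P h)) (b : ℕ) (hb : b ∈ Ico Z (2 * Z)) :
    Reg (A + 3) κ θ (min v 1) Z Z' D (sys (X + C ((b : ℕ) : ℤ)) P h) := by
  obtain ⟨hle, hge, hval⟩ := hR
  rw [Finset.mem_Ico] at hb
  have hb1 : (Z : ℝ) ≤ b := by exact_mod_cast hb.1
  have hb2 : (b : ℝ) ≤ 2 * Z := by exact_mod_cast hb.2.le
  have hZ0 : (0 : ℝ) ≤ Z := Nat.cast_nonneg Z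
  have hZ'0 : (0 : ℝ) ≤ Z' := Nat.cast_nonneg Z'
  have hZZ : (Z' : ℝ) ≤ Z := by exact_mod_cast hle
  refine ⟨hle, hge, ?_, ?_⟩
  · intro n hn1 hn2
    have h0 : sys (X + C ((b : ℕ) : ℤ)) P h 0 (n : ℤ) = (n : ℤ) + (b : ℤ) := by
      simp [sys]
    rw [h0]
    push_cast
    have hn0 : (0 : ℝ) ≤ n := Nat.cast_nonneg n
    have hn3 : (n : ℝ) ≤ Z := by nlinarith
    constructor
    · calc min v 1 * (Z : ℝ) ≤ 1 * Z := mul_le_mul_of_nonneg_right (min_le_right _ _) hZ0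
        _ ≤ n + b := by linarith
    · have hA0 : (0 : ℝ) ≤ A * Z := by positivity
      nlinarith
  · intro n hn1 hn2 i
    have h0 : sys (X + C ((b : ℕ) : ℤ)) P h i.succ (n : ℤ) = ran P h i (n : ℤ) := by
      simp [sys]
    rw [h0]
    obtain ⟨h1, h2⟩ := hval n hn1 hn2 i
    have hp : (0 : ℝ) ≤ (Z : ℝ) ^ D i := by positivity
    constructor
    · exact (mul_le_mul_of_nonneg_right (min_le_left _ _) hp).trans h1
    · refine h2.trans ?_
      push_cast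
      nlinarith

/-- One `t`: from the good `b` to the number without linear coordinate. `zs` is the level of the series. Proof. `Y3_num` with `T = ∑_b cnt_b`, `U = ∑_b Z' dens_b` (`dens_b = SSf (pr zs) (sys_b)/((∏ D)(log Z')^(k+1))`), `W = cnt (ran P h) 1 Z'`,
`M = Z' densN D zs Z' (ran P h)`, `L = log Z`, `L' = log Z'`, `τ = hτ`: (1) `hpnt`; (2) for the `b` without fixed divisor and not bad `|cnt_b - Z' dens_b| ≤ ε Z' dens_b`; for the `b` with fixed divisor `dens_b = 0`, `cnt_b ≤ k A` (`Y3_fix`); for the at most `Z σ` bad `b` both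
`cnt_b ≤ Z'` and `Z' dens_b ≤ Z' 500^(k+1)` (`T5_up`, `log zs ≤ log Z'`, `∏ D ≥ 1`): together `|T - U| ≤ ε U + k A Z + Z σ Z (1 + 500^(k+1))`; (3) `hser`. -/
theorem y4_one {k A : ℕ} (D : Fin k → ℕ) (hD : ∀ i, 1 ≤ D i) (P : Fin k → ℤ[X]) (hP : Pol A P) (h : Fin k → ℕ) (hN : NoFix (ran P h))
    (Z Z' zs : ℕ) (hZ' : Z' ≤ Z) (hZA : k * A + 1 < Z) (hzA : k * A + 1 ≤ zs) (hz2 : 2 ≤ zs) (hzZ : zs ≤ Z') (ε σ σ' : ℝ) (hε : 0 < ε)
    (hε1 : ε ≤ 1 / 100) (hσ : 0 ≤ σ) (hσ' : 0 ≤ σ') (hL' : 1 ≤ Real.log Z') (hLL : |Real.log Z - Real.log Z'| ≤ ε * Real.log Z')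
    (hpnt : |(∑ b ∈ Ico Z (2 * Z), (cnt (sys (X + C ((b : ℕ) : ℤ)) P h) 1 Z' : ℝ)) * Real.log Z -
      Z * cnt (ran P h) 1 Z'| ≤ ε * (Z * cnt (ran P h) 1 Z'))
    (Bad : Finset ℕ) (hBad : (Bad.card : ℝ) ≤ σ * Z)
    (hgood : ∀ b ∈ Ico Z (2 * Z), b ∉ Bad → NoFix (sys (X + C ((b : ℕ) : ℤ)) P h) →
      |(cnt (sys (X + C ((b : ℕ) : ℤ)) P h) 1 Z' : ℝ) - Z' * dens D zs Z' (sys (X + C ((b : ℕ) : ℤ)) P h)| ≤
        ε * (Z' * dens D zs Z' (sys (X + C ((b : ℕ) : ℤ)) P h)))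
    (hser : |∑ b ∈ Ico Z (2 * Z), SSf (pr zs) (sys (X + C ((b : ℕ) : ℤ)) P h) - Z * SSf (pr zs) (ran P h)| ≤ Z * σ')
    (hsmall : Real.log Z * (k * A + Z' * σ' + Z * σ * (1 + 500 ^ (k + 1))) ≤
      ε * (Z' * densN D zs Z' (ran P h))) :
    |(cnt (ran P h) 1 Z' : ℝ) - Z' * densN D zs Z' (ran P h)| ≤ 20 * ε * (Z' * densN D zs Z' (ran P h)) := by
  classical
  -- numbers
  have hZpos : 0 < Z := by omega
  have hZR : (0 : ℝ) < Z := by exact_mod_cast hZpos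
  have hZ'2 : 2 ≤ Z' := hz2.trans hzZ
  have hZ'R : (0 : ℝ) < Z' := by exact_mod_cast (by omega : 0 < Z')
  have hZZ : (Z' : ℝ) ≤ Z := by exact_mod_cast hZ'
  have hLle : Real.log Z' ≤ Real.log Z := Real.log_le_log hZ'R hZZ
  have hL : 1 ≤ Real.log Z := hL'.trans hLle
  have hzR : (0 : ℝ) < zs := by exact_mod_cast (by omega : 0 < zs)
  have hlz : Real.log zs ≤ Real.log Z' := Real.log_le_log hzR (by exact_mod_cast hzZ)
  have hlz0 : 0 ≤ Real.log zs := Real.log_nonneg (by exact_mod_cast (by omega : 1 ≤ zs))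
  have hLp : 0 < Real.log Z' := by linarith
  have hPD : (1 : ℝ) ≤ ∏ i, (D i : ℝ) := by
    have : ∏ _i : Fin k, (1 : ℝ) ≤ ∏ i, (D i : ℝ) :=
      Finset.prod_le_prod (fun _ _ => zero_le_one) fun i _ => by exact_mod_cast hD i
    simpa using this
  have hPD0 : (0 : ℝ) < ∏ i, (D i : ℝ) := by linarith
  have hLk : ∀ j : ℕ, (1 : ℝ) ≤ (Real.log Z') ^ j := fun j => one_le_pow₀ hL'
  have hden : ∀ j : ℕ, (1 : ℝ) ≤ (∏ i, (D i : ℝ)) * (Real.log Z') ^ j := fun j => by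
    calc (1 : ℝ) = 1 * 1 := by ring
      _ ≤ _ := mul_le_mul hPD (hLk j) zero_le_one (by linarith)
  set I := Ico Z (2 * Z) with hI
  have hIc : (I.card : ℝ) = Z := by
    rw [hI, Nat.card_Ico]
    congr 1
    omega
  set φ : ℕ → Fin (k + 1) → ℤ → ℤ := fun b => sys (X + C ((b : ℕ) : ℤ)) P h with hφ
  have hS0 : ∀ b, 0 ≤ SSf (pr zs) (φ b) ∧ SSf (pr zs) (φ b) ≤ (500 * Real.log zs) ^ (k + 1) := fun b =>
    T5_up (φ b) zs hz2 (pr zs) (Finset.Subset.refl _)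
  have hSr : 0 ≤ SSf (pr zs) (ran P h) := (T5_up (ran P h) zs hz2 (pr zs) (Finset.Subset.refl _)).1
  have hd0 : ∀ b, 0 ≤ dens D zs Z' (φ b) := fun b => by
    unfold H9P.dens
    exact div_nonneg (hS0 b).1 (by linarith [hden (k + 1)])
  have hd1 : ∀ b, dens D zs Z' (φ b) ≤ 500 ^ (k + 1) := fun b => by
    unfold H9P.dens
    rw [div_le_iff₀ (by linarith [hden (k + 1)])]
    calc SSf (pr zs) (φ b) ≤ (500 * Real.log zs) ^ (k + 1) := (hS0 b).2
      _ ≤ (500 * Real.log Z') ^ (k + 1) := pow_le_pow_left₀ (by positivity) (by linarith) _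
      _ = 500 ^ (k + 1) * (1 * (Real.log Z') ^ (k + 1)) := by rw [mul_pow]; ring
      _ ≤ 500 ^ (k + 1) * ((∏ i, (D i : ℝ)) * (Real.log Z') ^ (k + 1)) := by
          refine mul_le_mul_of_nonneg_left ?_ (by positivity)
          exact mul_le_mul_of_nonneg_right hPD (by linarith [hLk (k + 1)])
  have hM0 : 0 ≤ Z' * densN D zs Z' (ran P h) := by
    unfold densN
    exact mul_nonneg hZ'R.le (div_nonneg hSr (by linarith [hden k]))
  have hcnt : ∀ b, (cnt (φ b) 1 Z' : ℝ) ≤ Z' := fun b => by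
    have : cnt (φ b) 1 Z' ≤ Z' := by
      unfold cnt
      refine (Finset.card_filter_le _ _).trans ?_
      rw [Nat.card_Ico]
      omega
    exact_mod_cast this
  have hC0 : (0 : ℝ) ≤ 500 ^ (k + 1) := by positivity
  have hkA0 : (0 : ℝ) ≤ (k : ℝ) * A := by positivity
  -- one b
  have hone : ∀ b ∈ I, |(cnt (φ b) 1 Z' : ℝ) - Z' * dens D zs Z' (φ b)| ≤
      ε * (Z' * dens D zs Z' (φ b)) + (k * A + if b ∈ Bad then (Z : ℝ) * (1 + 500 ^ (k + 1)) else 0) := by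
    intro b hb
    have hdd : 0 ≤ (Z' : ℝ) * dens D zs Z' (φ b) := mul_nonneg hZ'R.le (hd0 b)
    have hεd : 0 ≤ ε * (Z' * dens D zs Z' (φ b)) := mul_nonneg hε.le hdd
    by_cases hbad : b ∈ Bad
    · rw [if_pos hbad]
      have h1 : |(cnt (φ b) 1 Z' : ℝ) - Z' * dens D zs Z' (φ b)| ≤ Z' * (1 + 500 ^ (k + 1)) := by
        have h3 : (Z' : ℝ) * dens D zs Z' (φ b) ≤ Z' * 500 ^ (k + 1) :=
          mul_le_mul_of_nonneg_left (hd1 b) hZ'R.le
        have h4 : (0 : ℝ) ≤ cnt (φ b) 1 Z' := Nat.cast_nonneg _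
        have h5 : (0 : ℝ) ≤ Z' * 500 ^ (k + 1) := by positivity
        rw [abs_le]
        constructor
        · nlinarith [hcnt b]
        · nlinarith [hcnt b]
      have h2 : (Z' : ℝ) * (1 + 500 ^ (k + 1)) ≤ Z * (1 + 500 ^ (k + 1)) :=
        mul_le_mul_of_nonneg_right hZZ (by linarith)
      linarith
    · rw [if_neg hbad, add_zero]
      by_cases hfix : NoFix (φ b)
      · have := hgood b hb hbad hfix
        linarith
      · obtain ⟨hs, hc⟩ := Y3_fix P hP h hN b zs Z Z' (Finset.mem_Ico.1 hb).1 hZA hzA hfix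
        have h1 : dens D zs Z' (φ b) = 0 := by
          unfold H9P.dens
          rw [hφ]
          simp only
          rw [hs, zero_div]
        rw [h1]
        have h2 : (cnt (φ b) 1 Z' : ℝ) ≤ k * A := by
          have h2 : cnt (φ b) 1 Z' ≤ k * A := hc
          exact_mod_cast h2
        have h4 : (0 : ℝ) ≤ cnt (φ b) 1 Z' := Nat.cast_nonneg _
        rw [mul_zero, sub_zero, mul_zero, zero_add, abs_of_nonneg h4]
        exact h2
  set T : ℝ := ∑ b ∈ I, (cnt (φ b) 1 Z' : ℝ) with hT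
  set U : ℝ := ∑ b ∈ I, (Z' : ℝ) * dens D zs Z' (φ b) with hU
  have hT0 : 0 ≤ T := Finset.sum_nonneg fun b _ => Nat.cast_nonneg _
  have hU0 : 0 ≤ U := Finset.sum_nonneg fun b _ => mul_nonneg hZ'R.le (hd0 b)
  have hτ0 : 0 ≤ (k : ℝ) * A + Z' * σ' + Z * σ * (1 + 500 ^ (k + 1)) := by positivity
  have h2 : |T - U| ≤ ε * U + Z * (k * A + Z' * σ' + Z * σ * (1 + 500 ^ (k + 1))) := by
    have h3 : |T - U| ≤ ∑ b ∈ I, |(cnt (φ b) 1 Z' : ℝ) - Z' * dens D zs Z' (φ b)| := by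
      rw [hT, hU, ← Finset.sum_sub_distrib]
      exact Finset.abs_sum_le_sum_abs _ _
    have h4 := Finset.sum_le_sum hone
    rw [Finset.sum_add_distrib, Finset.sum_add_distrib, ← Finset.mul_sum, Finset.sum_const, nsmul_eq_mul, hIc,
      ← Finset.sum_filter, Finset.sum_const, nsmul_eq_mul] at h4
    have h5 : ((I.filter fun b => b ∈ Bad).card : ℝ) ≤ σ * Z := by
      refine le_trans ?_ hBad
      exact_mod_cast Finset.card_le_card fun b hb => (Finset.mem_filter.1 hb).2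
    have h6 : ((I.filter fun b => b ∈ Bad).card : ℝ) * (Z * (1 + 500 ^ (k + 1))) ≤
        σ * Z * (Z * (1 + 500 ^ (k + 1))) := mul_le_mul_of_nonneg_right h5 (by positivity)
    have h7 : (0 : ℝ) ≤ Z * (Z' * σ') := by positivity
    calc |T - U| ≤ _ := h3.trans h4
      _ ≤ ε * U + (Z * (k * A) + σ * Z * (Z * (1 + 500 ^ (k + 1)))) := by
          linarith
      _ ≤ _ := by nlinarith
  have h3 : |U - Z * (Z' * densN D zs Z' (ran P h) / Real.log Z')| ≤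
      Z * (k * A + Z' * σ' + Z * σ * (1 + 500 ^ (k + 1))) := by
    have hUe : U - Z * (Z' * densN D zs Z' (ran P h) / Real.log Z') =
        (∑ b ∈ I, SSf (pr zs) (φ b) - Z * SSf (pr zs) (ran P h)) *
          (Z' / ((∏ i, (D i : ℝ)) * (Real.log Z') ^ (k + 1))) := by
      rw [hU]
      unfold H9P.dens densN
      rw [sub_mul, Finset.sum_mul]
      congr 1
      · exact Finset.sum_congr rfl fun b _ => by ring
      · have e1 : (∏ i, (D i : ℝ)) ≠ 0 := hPD0.ne'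
        have e2 : Real.log Z' ≠ 0 := hLp.ne'
        generalize (∏ i, (D i : ℝ)) = p at e1 ⊢
        generalize Real.log (Z' : ℝ) = l at e2 ⊢
        rw [pow_succ]
        field_simp
    rw [hUe, abs_mul]
    have h4 : |(Z' : ℝ) / ((∏ i, (D i : ℝ)) * (Real.log Z') ^ (k + 1))| ≤ Z' := by
      rw [abs_of_nonneg (div_nonneg hZ'R.le (by linarith [hden (k + 1)]))]
      exact div_le_self hZ'R.le (hden (k + 1))
    calc _ ≤ (Z * σ') * Z' := mul_le_mul hser h4 (abs_nonneg _) (by positivity)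
      _ = Z * (Z' * σ') := by ring
      _ ≤ _ := by
          refine mul_le_mul_of_nonneg_left ?_ hZR.le
          have : (0 : ℝ) ≤ Z * σ * (1 + 500 ^ (k + 1)) := by positivity
          linarith
  exact Y3_num Z T U (cnt (ran P h) 1 Z') (Z' * densN D zs Z' (ran P h)) (Real.log Z) (Real.log Z')
    (k * A + Z' * σ' + Z * σ * (1 + 500 ^ (k + 1))) ε hZR hT0 hU0 (Nat.cast_nonneg _) hM0 hL hL' hτ0 hε hε1
    hpnt h2 h3 hsmall hLL

end Pool.Agent.HLA
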